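import Mathlib
import Pool.Agent.Lib.MP_44a246_ntL.LMason

/-!
A derivation of a function field over the constants, its poles, and its extension to a finite
extension.
-/

namespace Pool.Agent.Lib.MP_44a246_ntY

open Pool.Agent.Lib.MP_e52354_nt
open Pool.Agent.Lib.MP_44a246_nt
open Pool.Agent.Lib.MP_44a246_ntL
open WithZero

variable {κ K L : Type*} [Field κ] [IsAlgClosed κ] [CharZero κ] [Field K] [Algebra κ K]
  [Field L] [Algebra κ L] [Algebra K L] [IsScalarTower κ K L] [FiniteDimensional K L]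

omit [Field L] [Algebra κ L] [Algebra K L] [IsScalarTower κ K L] [FiniteDimensional K L] in
theorem exists_kder (hK : IsFF κ K) : ∃ (D : Derivation κ K K) (B : Place κ K → ℕ),
    (∃ s, D s ≠ 0) ∧ (Function.support B).Finite ∧
      ∀ v : Place κ K, ∀ y, v.1 y ≤ 1 → v.1 (D y) ≤ exp (B v : ℤ) := by
  classical
  obtain ⟨t, ht, hfin⟩ := id hK
  have halg : Algebra.IsAlgebraic (IntermediateField.adjoin κ {t}) K :=
    Algebra.IsAlgebraic.of_finite _ _
  obtain ⟨D₀, hD₀⟩ : ∃ D₀ : Derivation κ K K, D₀ t = 1 := by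
    have h1 : AlgebraicIndependent κ (fun _ : Unit => t) :=
      algebraicIndependent_unique_type_iff.mpr ht
    have h2 : IsTranscendenceBasis κ (fun _ : Unit => t) := by
      rw [h1.isTranscendenceBasis_iff_isAlgebraic, ← IntermediateField.isAlgebraic_adjoin_iff_top,
        Set.range_const]
      exact halg
    have h3 := h2.isAlgebraic
    obtain ⟨D, hD⟩ := exists_derivation h1 (fun _ => 1)
    exact ⟨D, hD ()⟩
  let D : Derivation ℤ K K := D₀.restrictScalars ℤ
  have hDκ : ∀ c : κ, D (algebraMap κ K c) = 0 := fun c => D₀.map_algebraMap c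
  have hDt : D t = 1 := hD₀
  obtain ⟨B, hBfin, hB⟩ := exists_poleBound ht hfin D (fun c => ⟨0, by rw [hDκ, map_zero]⟩)
    ⟨1, by rw [hDt, map_one]⟩
  exact ⟨D₀, B, ⟨t, by rw [hD₀]; exact one_ne_zero⟩, hBfin, fun v y hy => hB v y hy⟩

theorem extend_kder (hK : IsFF κ K) (D : Derivation κ K K) {B : Place κ K → ℕ}
    (hD : ∃ s, D s ≠ 0) (hB : (Function.support B).Finite)
    (hpole : ∀ v : Place κ K, ∀ y, v.1 y ≤ 1 → v.1 (D y) ≤ exp (B v : ℤ)) :
    ∃ (D' : Derivation κ L L) (B' : Place κ L → ℕ), (∃ s, D' s ≠ 0) ∧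
      (Function.support B').Finite ∧
      (∀ v : Place κ L, ∀ y, v.1 y ≤ 1 → v.1 (D' y) ≤ exp (B' v : ℤ)) ∧
      ∑ᶠ w, (B' w : ℤ) = Module.finrank K L * ∑ᶠ v, (B v : ℤ) + ramDeg κ L K := by
  classical
  have hL : IsFF κ L := hK.of_finite
  have hcK : CharZero K := charZero_of_injective_algebraMap (algebraMap κ K).injective
  let D₁ : Derivation ℤ K K := D.restrictScalars ℤ
  have hDκ : ∀ c : κ, D₁ (algebraMap κ K c) = 0 := fun c => D.map_algebraMap c
  obtain ⟨D', hD'⟩ := exists_extension (K := K) (L := L) D₁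
  have hD'κ : ∀ c : κ, D' (algebraMap κ L c) = 0 := by
    intro c
    rw [IsScalarTower.algebraMap_apply κ K L, hD', hDκ, map_zero]
  let D'' : Derivation κ L L := Derivation.mk'
      { toFun := D'
        map_add' := map_add D'
        map_smul' := fun c z => by
          show D' (c • z) = c • D' z
          rw [Algebra.smul_def, Derivation.leibniz, hD'κ, smul_zero, add_zero, smul_eq_mul,
            ← Algebra.smul_def] }
      (fun a b => Derivation.leibniz D' a b)
  have hD''a : ∀ z, D'' z = D' z := fun z => rfl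
  have hpb : PoleBound κ D₁ B := fun v y hy => hpole v y hy
  obtain ⟨hs1, he1⟩ := mason_sum_over hL hB
  obtain ⟨hs2, he2⟩ := mason_sum_ram (K := K) hL
  refine ⟨D'', fun w => ramIdx K w.1 * B (below K w) + (ramIdx K w.1 - 1), ?_, ?_, ?_, ?_⟩
  · obtain ⟨s, hs⟩ := hD
    refine ⟨algebraMap K L s, ?_⟩
    rw [hD''a, hD']
    intro h
    exact hs ((map_eq_zero_iff _ (algebraMap K L).injective).1 h)
  · refine (hs1.union hs2).subset fun w hw => ?_
    by_contra h0
    apply hw
    simp only [Set.mem_union, Function.mem_support, not_or, not_not] at h0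
    have h1 : ramIdx K w.1 * B (below K w) = 0 := by exact_mod_cast h0.1
    have h2 : ramIdx K w.1 - 1 = 0 := by exact_mod_cast h0.2
    simp only
    rw [h1, h2, add_zero]
  · intro v y hy
    rw [hD''a]
    exact polar_over hL hD' hpb v hy
  · have h1 : ∑ᶠ v, (B v : ℤ) = ((∑ᶠ v, B v : ℕ) : ℤ) :=
      (AddMonoidHom.map_finsum (Nat.castAddMonoidHom ℤ) hB).symm
    have h2 : ∑ᶠ w : Place κ L, ((ramIdx K w.1 * B (below K w) + (ramIdx K w.1 - 1) : ℕ) : ℤ) =
        ∑ᶠ w : Place κ L, (((ramIdx K w.1 * B (below K w) : ℕ) : ℤ) +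
          ((ramIdx K w.1 - 1 : ℕ) : ℤ)) := finsum_congr fun w => by push_cast; ring
    rw [h2, finsum_add_distrib hs1 hs2, he1, he2, h1, mul_comm]

end Pool.Agent.Lib.MP_44a246_ntY
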