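import Mathlib

/-!
The Wronskian of a family of elements of a differential field.
-/

namespace Pool.Agent.Lib.MP_44a246_ntY

/-- the Wronskian -/
noncomputable def wr {κ L : Type*} [Field κ] [Field L] [Algebra κ L] (D : Derivation κ L L)
    {N : ℕ} (g : Fin N → L) : L :=
  Matrix.det (Matrix.of fun i j : Fin N => (⇑D)^[(i : ℕ)] (g j))

/-- auxiliary form of `wr_ne_zero` (linear independence of the vectors of derivatives) -/
theorem wr_aux {κ L : Type*} [Field κ] [Field L] [Algebra κ L] (D : Derivation κ L L)
    (hD : ∀ y, D y = 0 → ∃ c, algebraMap κ L c = y) : ∀ (N : ℕ) (g : Fin N → L),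
    LinearIndependent κ g → ∀ c : Fin N → L,
    (∀ i : ℕ, i < N → ∑ j, c j * (⇑D)^[i] (g j) = 0) → c = 0 := by
  intro N
  induction N with
  | zero =>
    intro g _ c _
    exact Subsingleton.elim _ _
  | succ N ih =>
    intro g hg c hc
    have hg' : LinearIndependent κ (fun j : Fin N => g (Fin.castSucc j)) :=
      hg.comp _ (Fin.castSucc_injective N)
    by_cases h0 : c (Fin.last N) = 0
    · have h1 : (fun j : Fin N => c (Fin.castSucc j)) = 0 := by
        refine ih _ hg' _ fun i hi => ?_
        have h2 := hc i (by omega)
        rw [Fin.sum_univ_castSucc, h0, zero_mul, add_zero] at h2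
        exact h2
      funext j
      refine Fin.lastCases h0 (fun j => ?_) j
      exact congrFun h1 j
    · exfalso
      set b : Fin (N + 1) → L := fun j => c j / c (Fin.last N) with hb
      have hb1 : b (Fin.last N) = 1 := by simp only [hb]; exact div_self h0
      have hrel : ∀ i : ℕ, i < N + 1 → ∑ j, b j * (⇑D)^[i] (g j) = 0 := by
        intro i hi
        have h2 := hc i hi
        have h3 : ∑ j, b j * (⇑D)^[i] (g j) =
            (∑ j, c j * (⇑D)^[i] (g j)) / c (Fin.last N) := by
          rw [Finset.sum_div]
          refine Finset.sum_congr rfl fun j _ => ?_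
          simp only [hb]
          ring
        rw [h3, h2, zero_div]
      have hDb : (fun j : Fin N => D (b (Fin.castSucc j))) = 0 := by
        refine ih _ hg' _ fun i hi => ?_
        have h2 := hrel i (by omega)
        have h3 := hrel (i + 1) (by omega)
        have h4 : D (∑ j, b j * (⇑D)^[i] (g j)) = 0 := by rw [h2, map_zero]
        rw [map_sum] at h4
        simp only [Derivation.leibniz, smul_eq_mul, Finset.sum_add_distrib] at h4
        have h5 : ∑ j, b j * D ((⇑D)^[i] (g j)) = 0 := by
          rw [← h3]
          refine Finset.sum_congr rfl fun j _ => ?_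
          rw [Function.iterate_succ_apply']
        rw [h5, zero_add, Fin.sum_univ_castSucc, hb1, Derivation.map_one_eq_zero, mul_zero, add_zero] at h4
        rw [← h4]
        refine Finset.sum_congr rfl fun j _ => ?_
        ring
      have hconst : ∀ j, ∃ a : κ, algebraMap κ L a = b j := by
        intro j
        refine hD _ ?_
        refine Fin.lastCases ?_ (fun j => ?_) j
        · rw [hb1, Derivation.map_one_eq_zero]
        · exact congrFun hDb j
      choose a ha using hconst
      have h0' := hrel 0 (by omega)
      have h6 : ∑ j, a j • g j = 0 := by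
        rw [← h0']
        refine Finset.sum_congr rfl fun j _ => ?_
        rw [Algebra.smul_def, ha]
        rfl
      have h7 := (Fintype.linearIndependent_iff.1 hg) a h6 (Fin.last N)
      have h8 := ha (Fin.last N)
      rw [h7, map_zero, hb1] at h8
      exact zero_ne_one h8

/-- **The Wronskian** of a family which is linearly independent over the constants does not
vanish. -/
theorem wr_ne_zero {κ L : Type*} [Field κ] [Field L] [Algebra κ L] (D : Derivation κ L L)
    (hD : ∀ y, D y = 0 → ∃ c, algebraMap κ L c = y) {N : ℕ} {g : Fin N → L}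
    (hg : LinearIndependent κ g) : wr D g ≠ 0 := by
  intro h
  obtain ⟨v, hv, hv0⟩ := Matrix.exists_mulVec_eq_zero_iff.2 h
  apply hv
  refine wr_aux D hD N g hg v fun i hi => ?_
  have h1 := congrFun hv0 ⟨i, hi⟩
  simp only [Matrix.mulVec, dotProduct, Matrix.of_apply, Pi.zero_apply] at h1
  rw [← h1]
  refine Finset.sum_congr rfl fun j _ => ?_
  ring

end Pool.Agent.Lib.MP_44a246_ntY
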