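import Mathlib
import Pool.Agent.Lib.MP_44a246_ntY.Y01

/-!
Scaling of the Wronskian.
-/

namespace Pool.Agent.Lib.MP_44a246_ntY

/-- the coefficients of the iterated derivative of a product -/
noncomputable def y02a {κ L : Type*} [Field κ] [Field L] [Algebra κ L] (D : Derivation κ L L)
    (u : L) : ℕ → ℕ → L
  | 0, l => if l = 0 then u else 0
  | i + 1, l => D (y02a D u i l) + if l = 0 then 0 else y02a D u i (l - 1)

theorem y02a_gt {κ L : Type*} [Field κ] [Field L] [Algebra κ L] (D : Derivation κ L L)
    (u : L) (i : ℕ) : ∀ l, i < l → y02a D u i l = 0 := by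
  induction i with
  | zero =>
    intro l hl
    rw [y02a, if_neg (by omega)]
  | succ i ih =>
    intro l hl
    rw [y02a, ih l (by omega), map_zero, if_neg (by omega), ih (l - 1) (by omega), add_zero]

theorem y02a_diag {κ L : Type*} [Field κ] [Field L] [Algebra κ L] (D : Derivation κ L L)
    (u : L) (i : ℕ) : y02a D u i i = u := by
  induction i with
  | zero => rw [y02a, if_pos rfl]
  | succ i ih =>
    rw [y02a, y02a_gt D u i (i + 1) (by omega), map_zero, if_neg (by omega), zero_add,
      Nat.add_sub_cancel, ih]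

theorem y02_iter {κ L : Type*} [Field κ] [Field L] [Algebra κ L] (D : Derivation κ L L)
    (u y : L) (i : ℕ) : ∀ N, i < N →
      (⇑D)^[i] (u * y) = ∑ l ∈ Finset.range N, y02a D u i l * (⇑D)^[l] y := by
  induction i with
  | zero =>
    intro N hN
    rw [Finset.sum_eq_single 0]
    · rw [y02a, if_pos rfl]
      rfl
    · intro l _ hl
      rw [y02a, if_neg hl, zero_mul]
    · intro h
      exact absurd (Finset.mem_range.2 hN) h
  | succ i ih =>
    intro N hN
    obtain ⟨M, rfl⟩ : ∃ M, N = M + 1 := ⟨N - 1, by omega⟩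
    rw [Function.iterate_succ_apply', ih M (by omega), map_sum]
    have h1 : ∀ l ∈ Finset.range (M + 1), y02a D u (i + 1) l * (⇑D)^[l] y =
        D (y02a D u i l) * (⇑D)^[l] y + (if l = 0 then 0 else y02a D u i (l - 1)) * (⇑D)^[l] y := by
      intro l _
      rw [y02a, add_mul]
    rw [Finset.sum_congr rfl h1, Finset.sum_add_distrib, Finset.sum_range_succ,
      y02a_gt D u i M (by omega), map_zero, zero_mul, add_zero, Finset.sum_range_succ' _ M,
      if_pos rfl, zero_mul, add_zero, ← Finset.sum_add_distrib]
    refine Finset.sum_congr rfl fun l _ => ?_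
    rw [Derivation.leibniz, if_neg (by omega), Nat.add_sub_cancel, Function.iterate_succ_apply',
      smul_eq_mul, smul_eq_mul]
    ring

/-- The Wronskian of the family `u * g j`. -/
theorem wr_mul {κ L : Type*} [Field κ] [Field L] [Algebra κ L] (D : Derivation κ L L)
    {N : ℕ} (g : Fin N → L) (u : L) : wr D (fun j => u * g j) = u ^ N * wr D g := by
  -- Leibniz: `D^[i] (u * g) = ∑ l ≤ i, choose i l * D^[i-l] u * D^[l] g`, so the matrix is the
  -- product of a lower triangular matrix with diagonal `u` and of the matrix of `g`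
  -- (`Matrix.det_of_lowerTriangular`)
  have h1 : (Matrix.of fun i j : Fin N => (⇑D)^[(i : ℕ)] (u * g j)) =
      (Matrix.of fun i l : Fin N => y02a D u i l) *
        (Matrix.of fun i j : Fin N => (⇑D)^[(i : ℕ)] (g j)) := by
    ext i j
    rw [Matrix.mul_apply, Matrix.of_apply, y02_iter D u (g j) i N i.2, Finset.sum_range]
    rfl
  have h2 : Matrix.det (Matrix.of fun i l : Fin N => y02a D u i l) = u ^ N := by
    rw [Matrix.det_of_lowerTriangular]
    · rw [Finset.prod_congr rfl (fun i _ => by rw [Matrix.of_apply, y02a_diag] :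
        ∀ i ∈ Finset.univ, (Matrix.of fun i l : Fin N => y02a D u i l) i i = u)]
      rw [Finset.prod_const, Finset.card_univ, Fintype.card_fin]
    · intro i j hij
      rw [Matrix.of_apply]
      exact y02a_gt D u i j (by simpa using hij)
  unfold wr
  rw [h1, Matrix.det_mul, h2]

end Pool.Agent.Lib.MP_44a246_ntY
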