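import Mathlib

/-!
A sequence of polynomial growth does not grow by a factor `5 / 4` all the time.
-/

namespace Pool.Agent.Lib.MP_44a246_ntY

theorem exists_growth (Q : ℕ) : ∃ R : ℕ, ∀ f : ℕ → ℕ, 1 ≤ f 0 → (∀ r, f r ≤ (r + 1) ^ Q) →
    ∃ r < R, 4 * f (r + 1) ≤ 5 * f r := by
  -- otherwise `5 ^ R ≤ 4 ^ R * f R ≤ 4 ^ R * (R + 1) ^ Q`, which is false for large `R`
  obtain ⟨R, hR⟩ : ∃ R : ℕ, 4 ^ R * (R + 1) ^ Q < 5 ^ R := by
    have h1 : Filter.Tendsto (fun n : ℕ => (n : ℝ) ^ Q / (5 / 4 : ℝ) ^ n) Filter.atTop (nhds 0) :=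
      tendsto_pow_const_div_const_pow_of_one_lt Q (by norm_num)
    have h2 : Filter.Tendsto (fun n : ℕ => ((n + 1 : ℕ) : ℝ) ^ Q / (5 / 4 : ℝ) ^ (n + 1))
        Filter.atTop (nhds 0) := h1.comp (Filter.tendsto_add_atTop_nat 1)
    obtain ⟨R, hR⟩ := (h2.eventually (gt_mem_nhds (show (0 : ℝ) < 4 / 5 by norm_num))).exists
    refine ⟨R, ?_⟩
    rw [div_lt_iff₀ (by positivity)] at hR
    have h3 : (4 / 5 : ℝ) * (5 / 4 : ℝ) ^ (R + 1) = 5 ^ R / 4 ^ R := by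
      rw [pow_succ, div_pow]
      ring
    rw [h3, lt_div_iff₀ (by positivity)] at hR
    have h4 : ((4 ^ R * (R + 1) ^ Q : ℕ) : ℝ) < ((5 ^ R : ℕ) : ℝ) := by
      push_cast at hR ⊢
      linarith
    exact_mod_cast h4
  refine ⟨R, fun f h0 hf => ?_⟩
  by_contra hcon
  push Not at hcon
  have key : ∀ r, r ≤ R → 5 ^ r ≤ 4 ^ r * f r := by
    intro r
    induction r with
    | zero => intro _; simpa using h0
    | succ r ih =>
      intro hr
      have h1 := ih (by omega)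
      have h2 := hcon r (by omega)
      calc 5 ^ (r + 1) = 5 ^ r * 5 := pow_succ _ _
        _ ≤ 4 ^ r * f r * 5 := Nat.mul_le_mul_right _ h1
        _ = 4 ^ r * (5 * f r) := by ring
        _ ≤ 4 ^ r * (4 * f (r + 1)) := Nat.mul_le_mul_left _ h2.le
        _ = 4 ^ (r + 1) * f (r + 1) := by ring
  have h1 := key R le_rfl
  have h2 := Nat.mul_le_mul_left (4 ^ R) (hf R)
  omega

/-- the bound of `exists_growth` -/
noncomputable def RR (Q : ℕ) : ℕ := (exists_growth Q).choose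

theorem RR_spec (Q : ℕ) (f : ℕ → ℕ) (h0 : 1 ≤ f 0) (h : ∀ r, f r ≤ (r + 1) ^ Q) :
    ∃ r < RR Q, 4 * f (r + 1) ≤ 5 * f r :=
  (exists_growth Q).choose_spec f h0 h

/-- the constant of the theorem on moving points of the line -/
noncomputable def cM (Q : ℕ) : ℕ :=
  4 * (2 * (RR Q + 1) ^ Q) ^ 2 * (Q * RR Q + 1) + 8 * Q + 4 * Q * (Q * RR Q + 1)

end Pool.Agent.Lib.MP_44a246_ntY
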