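import Mathlib
import Pool.Agent.Lib.MP_44a246_ntY.Y01

/-!
Change of basis for the Wronskian.
-/

namespace Pool.Agent.Lib.MP_44a246_ntY

/-- If the family `g'` is linearly independent over the constants and contained in the span of the
family `g` of the same size, the Wronskians differ by a constant. -/
theorem wr_basis {κ L : Type*} [Field κ] [Field L] [Algebra κ L] (D : Derivation κ L L)
    {N : ℕ} {g g' : Fin N → L} (hg' : LinearIndependent κ g')
    (h : ∀ j, g' j ∈ Submodule.span κ (Set.range g)) :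
    ∃ c : κ, c ≠ 0 ∧ wr D g' = algebraMap κ L c * wr D g := by
  -- choose `C` with `g' j = ∑ l, C l j • g l`; `D^[i]` is `κ`-linear, so the matrix of `g'` is the
  -- matrix of `g` times `C`; `det C ≠ 0`, because otherwise `C x = 0` for some `x ≠ 0`
  -- (`Matrix.exists_mulVec_eq_zero_iff`), and `∑ x j • g' j = 0`
  have h1 : ∀ j, ∃ c : Fin N → κ, ∑ l, c l • g l = g' j := fun j =>
    (Submodule.mem_span_range_iff_exists_fun κ).1 (h j)
  choose c hc using h1
  obtain ⟨C, hC⟩ : ∃ C : Matrix (Fin N) (Fin N) κ, ∀ l j, C l j = c j l :=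
    ⟨Matrix.of fun l j => c j l, fun _ _ => rfl⟩
  have hdet : C.det ≠ 0 := by
    intro h0
    obtain ⟨v, hv0, hv⟩ := Matrix.exists_mulVec_eq_zero_iff.2 h0
    apply hv0
    have h2 : ∑ j, v j • g' j = 0 := by
      have h3 : ∀ j, v j • g' j = ∑ l, (v j * c j l) • g l := fun j => by
        rw [← hc j, Finset.smul_sum]
        exact Finset.sum_congr rfl fun l _ => smul_smul _ _ _
      rw [Finset.sum_congr rfl fun j _ => h3 j, Finset.sum_comm]
      refine Finset.sum_eq_zero fun l _ => ?_
      rw [← Finset.sum_smul]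
      have h4 := congrFun hv l
      rw [Matrix.mulVec, dotProduct] at h4
      have h5 : ∑ j, v j * c j l = 0 := by
        rw [← h4.trans (Pi.zero_apply l)]
        refine Finset.sum_congr rfl fun j _ => ?_
        rw [hC, mul_comm]
      rw [h5, zero_smul]
    funext j
    exact Fintype.linearIndependent_iff.1 hg' v h2 j
  refine ⟨C.det, hdet, ?_⟩
  have hit : ∀ (i : ℕ) (y : L), (⇑D)^[i] y = ((D : L →ₗ[κ] L) ^ i) y := fun i y => by
    rw [Module.End.pow_apply]
    rfl
  have h2 : (Matrix.of fun i j : Fin N => (⇑D)^[(i : ℕ)] (g' j)) =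
      (Matrix.of fun i j : Fin N => (⇑D)^[(i : ℕ)] (g j)) * (algebraMap κ L).mapMatrix C := by
    ext i j
    rw [Matrix.mul_apply, Matrix.of_apply, ← hc j, hit, map_sum]
    refine Finset.sum_congr rfl fun l _ => ?_
    rw [map_smul, Matrix.of_apply, hit, RingHom.mapMatrix_apply, Matrix.map_apply, hC, mul_comm,
      Algebra.smul_def]
  unfold wr
  rw [h2, Matrix.det_mul, RingHom.map_det, mul_comm]

end Pool.Agent.Lib.MP_44a246_ntY
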