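import Mathlib
import Pool.Agent.Lib.MP_44a246_ntL.LSum

/-!
Iterated derivatives at a place.
-/

namespace Pool.Agent.Lib.MP_44a246_ntY

open Pool.Agent.Lib.MP_44a246_nt
open Pool.Agent.Lib.MP_44a246_ntL
open WithZero

variable {κ L : Type*} [Field κ] [Field L] [Algebra κ L]

/-- each derivation loses at most `1 + β` -/
theorem der_iter_le (w : Place κ L) (D : Derivation κ L L) {β : ℕ}
    (hD : ∀ y, w.1 y ≤ 1 → w.1 (D y) ≤ exp (β : ℤ)) {m : ℤ} {z : L} (hz : w.1 z ≤ exp m) (i : ℕ) :
    w.1 ((⇑D)^[i] z) ≤ exp (m + i * (1 + β)) := by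
  -- induction on `i`, `log_der_bound` for `D.restrictScalars ℤ` (and `D 0 = 0`)
  induction i with
  | zero =>
    rw [Function.iterate_zero_apply, Nat.cast_zero, zero_mul, add_zero]
    exact hz
  | succ i ih =>
    rw [Function.iterate_succ_apply']
    by_cases h0 : (⇑D)^[i] z = 0
    · rw [h0, map_zero, map_zero]
      exact zero_le
    · have h1 := (log_der_bound w (D.restrictScalars ℤ) (N := β) hD h0).1
      have h2 : (D.restrictScalars ℤ) ((⇑D)^[i] z) = D ((⇑D)^[i] z) := rfl
      rw [h2] at h1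
      have h3 : D ((⇑D)^[i] z) = D ((⇑D)^[i] z) / (⇑D)^[i] z * (⇑D)^[i] z := by
        rw [div_mul_cancel₀ _ h0]
      rw [h3, map_mul]
      refine (mul_le_mul' h1 ih).trans (le_of_eq ?_)
      rw [← exp_add]
      congr 1
      push_cast
      ring

/-- on integral elements each derivation loses at most `2 β`, and at most `m + 2 β` in general -/
theorem der_iter_le' (w : Place κ L) (D : Derivation κ L L) {β : ℕ}
    (hD : ∀ y, w.1 y ≤ 1 → w.1 (D y) ≤ exp (β : ℤ)) {m : ℕ} {z : L} (hz : w.1 z ≤ exp (m : ℤ))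
    (i : ℕ) : w.1 ((⇑D)^[i] z) ≤ exp (((i + 1) * m + 2 * i * β : ℕ) : ℤ) := by
  -- if `m = 0` and `β = 0` all iterated derivatives are integral; otherwise `der_iter_le` and
  -- `i ≤ i * m + i * β`
  by_cases h0 : m + β = 0
  · have hm : m = 0 := by omega
    have hb : β = 0 := by omega
    subst hm
    subst hb
    have h1 : ∀ i : ℕ, w.1 ((⇑D)^[i] z) ≤ 1 := by
      intro i
      induction i with
      | zero =>
        rw [Function.iterate_zero_apply]
        refine hz.trans (le_of_eq ?_)
        rw [Nat.cast_zero, exp_zero]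
      | succ i ih =>
        rw [Function.iterate_succ_apply']
        refine (hD _ ih).trans (le_of_eq ?_)
        rw [Nat.cast_zero, exp_zero]
    refine (h1 i).trans (le_of_eq ?_)
    rw [mul_zero, mul_zero, add_zero, Nat.cast_zero, exp_zero]
  · refine (der_iter_le w D hD hz i).trans ?_
    rw [exp_le_exp]
    have h1 : i ≤ i * (m + β) := Nat.le_mul_of_pos_right i (Nat.pos_of_ne_zero h0)
    have h2 : ((i : ℤ)) ≤ i * (m + β) := by exact_mod_cast h1
    push_cast
    nlinarith

end Pool.Agent.Lib.MP_44a246_ntY
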