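import Mathlib
import Pool.Agent.Lib.MP_44a246_ntY.Y01
import Pool.Agent.Lib.MP_44a246_ntY.Y04

/-!
The size of the Wronskian at a place.
-/

namespace Pool.Agent.Lib.MP_44a246_ntY

open Pool.Agent.Lib.MP_44a246_nt
open Pool.Agent.Lib.MP_44a246_ntL
open WithZero

variable {κ L : Type*} [Field κ] [Field L] [Algebra κ L]

private theorem y05_prod (v : Valuation L ℤᵐ⁰) {ι : Type*} (s : Finset ι) (f : ι → L) (a : ι → ℤ)
    (h : ∀ i ∈ s, v (f i) ≤ exp (a i)) : v (∏ i ∈ s, f i) ≤ exp (∑ i ∈ s, a i) := by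
  classical
  induction s using Finset.induction_on with
  | empty => rw [Finset.prod_empty, Finset.sum_empty, map_one, exp_zero]
  | insert i s hi ih =>
    rw [Finset.prod_insert hi, Finset.sum_insert hi, map_mul, exp_add]
    exact mul_le_mul' (h i (Finset.mem_insert_self i s))
      (ih fun j hj => h j (Finset.mem_insert_of_mem hj))

private theorem y05_sum (m β N : ℕ) :
    ∑ i : Fin N, (((i : ℕ) + 1) * m + 2 * (i : ℕ) * β) ≤ N ^ 2 * (m + β) := by
  have h : ∀ N : ℕ, ∑ i ∈ Finset.range N, ((i + 1) * m + 2 * i * β) ≤ N ^ 2 * (m + β) := by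
    intro N
    induction N with
    | zero => simp
    | succ N ih =>
      rw [Finset.sum_range_succ]
      have h1 : (N + 1) ^ 2 * (m + β) = N ^ 2 * (m + β) + ((N + 1) * m + 2 * N * β) + (N * m + β) := by
        ring
      rw [h1]
      omega
  rw [← Finset.sum_range (fun i => (i + 1) * m + 2 * i * β)]
  exact h N

/-- an ultrametric bound for a determinant -/
theorem det_le_exp (v : Valuation L ℤᵐ⁰) {N : ℕ} (M : Matrix (Fin N) (Fin N) L)
    {x y : Fin N → ℤ} (h : ∀ i j, v (M i j) ≤ exp (x i + y j)) :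
    v M.det ≤ exp (∑ i, x i + ∑ j, y j) := by
  -- `Matrix.det_apply`, the ultrametric inequality, and reindexing the sum of the `x i` by the
  -- permutation
  rw [Matrix.det_apply]
  refine Valuation.map_sum_le v fun σ _ => ?_
  have h1 : v (Equiv.Perm.sign σ • ∏ i, M (σ i) i) = v (∏ i, M (σ i) i) := by
    rcases Int.units_eq_one_or (Equiv.Perm.sign σ) with h0 | h0
    · rw [h0, one_smul]
    · rw [h0, Units.neg_smul, one_smul, Valuation.map_neg]
  rw [h1]
  refine (y05_prod v _ _ (fun i => x (σ i) + y i) fun i _ => h (σ i) i).trans (le_of_eq ?_)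
  rw [Finset.sum_add_distrib, Equiv.sum_comp σ x]

/-- the size of the Wronskian, general bound -/
theorem wr_le (w : Place κ L) (D : Derivation κ L L) {β : ℕ}
    (hD : ∀ y, w.1 y ≤ 1 → w.1 (D y) ≤ exp (β : ℤ)) {N : ℕ} {g : Fin N → L} {y : Fin N → ℤ}
    (h : ∀ j, w.1 (g j) ≤ exp (y j)) :
    w.1 (wr D g) ≤ exp (((N ^ 2 * (1 + β) : ℕ) : ℤ) + ∑ j, y j) := by
  -- `det_le_exp` with `x i = i * (1 + β)`, `der_iter_le`; `∑ i < N, i ≤ N ^ 2`
  unfold wr
  refine (det_le_exp w.1 _ (x := fun i : Fin N => ((i : ℕ) : ℤ) * (1 + β)) (y := y) fun i j => ?_).trans ?_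
  · rw [Matrix.of_apply]
    refine (der_iter_le w D hD (h j) i).trans (le_of_eq ?_)
    rw [add_comm]
  · rw [exp_le_exp]
    refine add_le_add ?_ le_rfl
    have h1 : ∀ i ∈ (Finset.univ : Finset (Fin N)), ((i : ℕ) : ℤ) * (1 + β) ≤ N * (1 + β) := by
      intro i _
      have h2 : ((i : ℕ) : ℤ) ≤ N := by exact_mod_cast i.2.le
      exact mul_le_mul_of_nonneg_right h2 (by positivity)
    refine (Finset.sum_le_card_nsmul _ _ _ h1).trans (le_of_eq ?_)
    rw [Finset.card_univ, Fintype.card_fin, nsmul_eq_mul]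
    push_cast
    ring

/-- the size of the Wronskian, bound without loss at the places where everything is integral -/
theorem wr_le' (w : Place κ L) (D : Derivation κ L L) {β : ℕ}
    (hD : ∀ y, w.1 y ≤ 1 → w.1 (D y) ≤ exp (β : ℤ)) {N : ℕ} {g : Fin N → L} {m : ℕ}
    (h : ∀ j, w.1 (g j) ≤ exp (m : ℤ)) :
    w.1 (wr D g) ≤ exp ((N ^ 2 * (m + β) : ℕ) : ℤ) := by
  -- `det_le_exp` with `x i = (i + 1) * m + 2 * i * β`, `y = 0`, `der_iter_le'`;
  -- `∑ i < N, (i + 1) ≤ N ^ 2`, `∑ i < N, 2 * i ≤ N ^ 2`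
  unfold wr
  refine (det_le_exp w.1 _ (x := fun i : Fin N => ((((i : ℕ) + 1) * m + 2 * (i : ℕ) * β : ℕ) : ℤ))
    (y := fun _ => 0) fun i j => ?_).trans ?_
  · rw [Matrix.of_apply, add_zero]
    exact der_iter_le' w D hD (h j) i
  · rw [exp_le_exp, Finset.sum_const_zero, add_zero, ← Nat.cast_sum]
    exact_mod_cast y05_sum m β N

end Pool.Agent.Lib.MP_44a246_ntY
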