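import Mathlib
import Pool.Agent.Lib.MP_44a246_ntY.Y02
import Pool.Agent.Lib.MP_44a246_ntY.Y03
import Pool.Agent.Lib.MP_44a246_ntY.Y05

/-!
The Wronskian of the families `b i, b' j * y` at a place where `y` is near a given element.
-/

namespace Pool.Agent.Lib.MP_44a246_ntY

open Pool.Agent.Lib.MP_44a246_nt
open Pool.Agent.Lib.MP_44a246_ntL
open WithZero Submodule

variable {κ L : Type*} [Field κ] [Field L] [Algebra κ L] {s k : ℕ} {b : Fin s → L}
  {b' : Fin k → L} {y : L}

theorem append_indep (hb : LinearIndependent κ b) (hb' : LinearIndependent κ b')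
    (hdir : ∀ u ∈ span κ (Set.range b), ∀ u' ∈ span κ (Set.range b'), u' * y = u → u' = 0) :
    LinearIndependent κ (Fin.append b fun j => b' j * y) := by
  -- a relation is `u + u' * y = 0`
  rw [Fintype.linearIndependent_iff]
  intro g hg
  rw [Fin.sum_univ_add] at hg
  simp only [Fin.append_left, Fin.append_right] at hg
  have h1 : (∑ j, g (Fin.natAdd s j) • b' j) * y = -∑ i, g (Fin.castAdd k i) • b i := by
    rw [Finset.sum_mul, eq_neg_iff_add_eq_zero, add_comm]
    simpa only [smul_mul_assoc] using hg
  have h2 : ∑ j, g (Fin.natAdd s j) • b' j = 0 := by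
    refine hdir _ ?_ _ ?_ h1
    · exact neg_mem (sum_mem fun i _ => smul_mem _ _ (subset_span ⟨i, rfl⟩))
    · exact sum_mem fun j _ => smul_mem _ _ (subset_span ⟨j, rfl⟩)
  have h3 := Fintype.linearIndependent_iff.1 hb' _ h2
  rw [h2, zero_mul, eq_comm, neg_eq_zero] at h1
  have h4 := Fintype.linearIndependent_iff.1 hb _ h1
  intro i
  induction i using Fin.addCases with
  | left i => exact h4 i
  | right j => exact h3 j

/-- near `a`: replace `b' j * y` by `b' j * (y - a)` -/
theorem wr_near (w : Place κ L) (D : Derivation κ L L) {β : ℕ}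
    (hD : ∀ y, w.1 y ≤ 1 → w.1 (D y) ≤ exp (β : ℤ))
    (hb : LinearIndependent κ b) (hb' : LinearIndependent κ b')
    (hdir : ∀ u ∈ span κ (Set.range b), ∀ u' ∈ span κ (Set.range b'), u' * y = u → u' = 0)
    {a : L} (ha : ∀ j, a * b' j ∈ span κ (Set.range b)) {m : ℕ}
    (hm : ∀ j, w.1 (b j) ≤ exp (m : ℤ)) (hm' : ∀ j, w.1 (b' j) ≤ exp (m : ℤ)) {e : ℤ}
    (he : w.1 (y - a) ≤ exp e) :
    w.1 (wr D (Fin.append b fun j => b' j * y)) ≤
      exp ((((s + k) ^ 2 * (1 + β) + (s + k) * m : ℕ) : ℤ) + k * e) := by
  -- `append_indep` for `y - a` (if `u' * (y - a) = u` then `u' * y = u + a * u'`, and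
  -- `a * u' ∈ span b`), `wr_basis`, `wr_le` with `y j = m` for the first `s` functions and
  -- `y j = m + e` for the others; nonzero constants have absolute value one
  have hind : LinearIndependent κ (Fin.append b fun j => b' j * (y - a)) := by
    refine append_indep hb hb' fun u hu u' hu' he' => hdir (u + a * u') (add_mem hu ?_) u' hu' ?_
    · obtain ⟨c, rfl⟩ := (Submodule.mem_span_range_iff_exists_fun κ).1 hu'
      rw [Finset.mul_sum]
      refine sum_mem fun i _ => ?_
      rw [mul_smul_comm]
      exact smul_mem _ _ (ha i)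
    · rw [← he']; ring
  have hspan : ∀ i, (Fin.append b fun j => b' j * (y - a)) i ∈
      span κ (Set.range (Fin.append b fun j => b' j * y)) := by
    have hbs : span κ (Set.range b) ≤ span κ (Set.range (Fin.append b fun j => b' j * y)) := by
      rw [span_le]
      rintro _ ⟨i, rfl⟩
      refine subset_span ⟨Fin.castAdd k i, ?_⟩
      rw [Fin.append_left]
    intro i
    induction i using Fin.addCases with
    | left i =>
      rw [Fin.append_left]
      exact hbs (subset_span ⟨i, rfl⟩)
    | right j =>
      rw [Fin.append_right, mul_sub]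
      refine sub_mem (subset_span ⟨Fin.natAdd s j, ?_⟩) (hbs ?_)
      · rw [Fin.append_right]
      · rw [mul_comm]; exact ha j
  obtain ⟨c, hc, hcw⟩ := wr_basis D hind hspan
  have hw : w.1 (wr D (Fin.append b fun j => b' j * y)) =
      w.1 (wr D (Fin.append b fun j => b' j * (y - a))) := by
    rw [hcw, map_mul, w.2.2 c hc, one_mul]
  rw [hw]
  have hle := wr_le w D hD (g := Fin.append b fun j => b' j * (y - a))
    (y := Fin.append (fun _ : Fin s => (m : ℤ)) fun _ : Fin k => (m : ℤ) + e) (by
      intro i
      induction i using Fin.addCases with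
      | left i => rw [Fin.append_left, Fin.append_left]; exact hm i
      | right j =>
        rw [Fin.append_right, Fin.append_right, map_mul, exp_add]
        exact mul_le_mul' (hm' j) he)
  refine hle.trans (le_of_eq ?_)
  congr 1
  rw [Fin.sum_univ_add]
  simp only [Fin.append_left, Fin.append_right, Finset.sum_const, Finset.card_univ,
    Fintype.card_fin, nsmul_eq_mul]
  push_cast
  ring

/-- the general bound: scale by `1 / y` if `y` is not integral -/
theorem wr_far (w : Place κ L) (D : Derivation κ L L) {β : ℕ}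
    (hD : ∀ y, w.1 y ≤ 1 → w.1 (D y) ≤ exp (β : ℤ)) {m : ℕ}
    (hm : ∀ j, w.1 (b j) ≤ exp (m : ℤ)) (hm' : ∀ j, w.1 (b' j) ≤ exp (m : ℤ)) :
    w.1 (wr D (Fin.append b fun j => b' j * y)) ≤
      exp ((((s + k) ^ 2 * (m + β) : ℕ) : ℤ) + (s + k : ℕ) * log (max 1 (w.1 y))) := by
  -- if `w y ≤ 1`: `wr_le'`.  Otherwise the family is `y * g j` with `g = b j / y, b' j`: `wr_mul`
  -- and `wr_le'`
  rcases le_or_gt (w.1 y) 1 with hy | hy
  · rw [max_eq_left hy, log_one, mul_zero, add_zero]
    refine wr_le' w D hD fun i => ?_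
    induction i using Fin.addCases with
    | left i => rw [Fin.append_left]; exact hm i
    | right j =>
      rw [Fin.append_right, map_mul]
      exact (mul_le_mul' (hm' j) hy).trans (le_of_eq (mul_one _))
  · have hy0 : y ≠ 0 := by
      rintro rfl
      rw [map_zero] at hy
      exact absurd hy (by simp)
    have hvy : w.1 y ≠ 0 := (Valuation.ne_zero_iff _).2 hy0
    have hfam : (Fin.append b fun j => b' j * y) =
        fun i => y * (Fin.append (fun i => b i / y) b') i := by
      funext i
      induction i using Fin.addCases with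
      | left i => rw [Fin.append_left, Fin.append_left]; field_simp
      | right j => rw [Fin.append_right, Fin.append_right]; ring
    have hcomm : ((((s + k) ^ 2 * (m + β) : ℕ) : ℤ) + (s + k : ℕ) * log (w.1 y)) =
        (s + k : ℕ) * log (w.1 y) + (((s + k) ^ 2 * (m + β) : ℕ) : ℤ) := add_comm _ _
    rw [hfam, wr_mul, map_mul, map_pow, max_eq_right hy.le, hcomm, exp_add]
    refine mul_le_mul' (le_of_eq ?_) (wr_le' w D hD fun i => ?_)
    · conv_lhs => rw [← exp_log hvy]
      rw [← exp_nsmul, nsmul_eq_mul]
    · induction i using Fin.addCases with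
      | left i =>
        rw [Fin.append_left, map_div₀]
        refine le_trans ?_ (hm i)
        rw [div_eq_mul_inv]
        exact (mul_le_mul' le_rfl (inv_le_one_of_one_le₀ hy.le)).trans (le_of_eq (mul_one _))
      | right j => rw [Fin.append_right]; exact hm' j

end Pool.Agent.Lib.MP_44a246_ntY
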