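import Mathlib
import Pool.Agent.Lib.MP_44a246_ntL.LSum

/-!
The spaces spanned by the products of the elements of a finite set.
-/

namespace Pool.Agent.Lib.MP_44a246_ntY

open Pool.Agent.Lib.MP_44a246_nt
open Pool.Agent.Lib.MP_44a246_ntL
open WithZero

/-- the space spanned over `κ` by the products of powers of the elements of `B`, with exponents at
most `r` -/
noncomputable def VV (κ : Type*) {L : Type*} [Field κ] [Field L] [Algebra κ L] (B : Finset L)
    (r : ℕ) : Submodule κ L :=
  Submodule.span κ (Set.range fun e : (B → Fin (r + 1)) => ∏ b : B, (b : L) ^ (e b : ℕ))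

variable {κ L : Type*} [Field κ] [Field L] [Algebra κ L] {B : Finset L} {r : ℕ}

instance VV_finite : FiniteDimensional κ (VV κ B r) := by
  unfold VV
  exact FiniteDimensional.span_of_finite κ (Set.finite_range _)

theorem VV_finrank_le : Module.finrank κ (VV κ B r) ≤ (r + 1) ^ B.card := by
  -- `finrank_range_le_card`
  classical
  have h := finrank_range_le_card (R := κ)
    (fun e : (B → Fin (r + 1)) => ∏ b : B, (b : L) ^ (e b : ℕ))
  rw [Fintype.card_fun, Fintype.card_fin, Fintype.card_coe] at h
  exact h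

theorem one_mem_VV : (1 : L) ∈ VV κ B r := by
  -- the exponents `0`
  refine Submodule.subset_span ⟨fun _ => 0, ?_⟩
  simp

theorem VV_pos : 1 ≤ Module.finrank κ (VV κ B r) := by
  -- `one_mem_VV`
  rw [Submodule.one_le_finrank_iff]
  intro h
  have h1 : (1 : L) ∈ VV κ B r := one_mem_VV
  rw [h, Submodule.mem_bot] at h1
  exact one_ne_zero h1

theorem VV_le_succ : VV κ B r ≤ VV κ B (r + 1) := by
  -- the same exponents
  refine Submodule.span_le.2 ?_
  rintro _ ⟨e, rfl⟩
  refine Submodule.subset_span ⟨fun b => (e b).castSucc, ?_⟩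
  simp

theorem mul_mem_VV {b : L} (hb : b ∈ B) {u : L} (hu : u ∈ VV κ B r) : b * u ∈ VV κ B (r + 1) := by
  -- increase one exponent by one
  classical
  induction hu using Submodule.span_induction with
  | mem x hx =>
    obtain ⟨e, rfl⟩ := hx
    refine Submodule.subset_span
      ⟨fun b' => ⟨(e b' : ℕ) + (if b' = ⟨b, hb⟩ then 1 else 0), ?_⟩, ?_⟩
    · have h1 := (e b').isLt
      split_ifs <;> omega
    · change ∏ b' : B, (b' : L) ^ ((e b' : ℕ) + (if b' = ⟨b, hb⟩ then 1 else 0)) =
        b * ∏ b' : B, (b' : L) ^ (e b' : ℕ)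
      simp_rw [pow_add]
      rw [Finset.prod_mul_distrib, mul_comm b]
      congr 1
      rw [Finset.prod_eq_single (⟨b, hb⟩ : B)]
      · simp
      · intro b' _ h1
        simp [h1]
      · intro h1
        exact absurd (Finset.mem_univ _) h1
  | zero => rw [mul_zero]; exact Submodule.zero_mem _
  | add x y _ _ hx hy => rw [mul_add]; exact Submodule.add_mem _ hx hy
  | smul c x _ hx => rw [mul_smul_comm]; exact Submodule.smul_mem _ c hx

theorem VV_val_le (w : Place κ L) {τ : ℕ} (hτ : ∀ b ∈ B, w.1 b ≤ exp (τ : ℤ)) {u : L}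
    (hu : u ∈ VV κ B r) : w.1 u ≤ exp ((B.card * r * τ : ℕ) : ℤ) := by
  -- the constants have absolute value at most `1`
  have hτ1 : (1 : ℤᵐ⁰) ≤ exp (τ : ℤ) := by
    rw [← exp_zero, exp_le_exp]
    exact Int.natCast_nonneg τ
  induction hu using Submodule.span_induction with
  | mem x hx =>
    obtain ⟨e, rfl⟩ := hx
    rw [map_prod]
    have h1 : ∀ b : B, w.1 ((b : L) ^ (e b : ℕ)) ≤ (exp (τ : ℤ)) ^ r := by
      intro b
      rw [map_pow]
      exact (pow_le_pow_left' (hτ b b.2) _).trans
        (pow_le_pow_right' hτ1 (Nat.lt_succ_iff.1 (e b).isLt))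
    refine (Finset.prod_le_prod' fun b _ => h1 b).trans ?_
    rw [Finset.prod_const, Finset.card_univ, Fintype.card_coe, ← pow_mul, ← exp_nsmul]
    apply le_of_eq
    congr 1
    push_cast
    rw [nsmul_eq_mul]
    push_cast
    ring
  | zero => rw [map_zero]; exact zero_le
  | add x y _ _ hx hy => exact (w.1.map_add x y).trans (max_le hx hy)
  | smul c x _ hx =>
    by_cases hc : c = 0
    · rw [hc, zero_smul, map_zero]; exact zero_le
    · rw [Algebra.smul_def, map_mul, w.2.2 c hc, one_mul]
      exact hx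

end Pool.Agent.Lib.MP_44a246_ntY
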