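import Mathlib
import Pool.Agent.Lib.MP_44a246_ntL.LSum

/-!
The proximity of an element of the field to another one.
-/

namespace Pool.Agent.Lib.MP_44a246_ntY

open Pool.Agent.Lib.MP_44a246_nt
open Pool.Agent.Lib.MP_44a246_ntL
open WithZero

/-- the proximity of `y` to `b` -/
noncomputable def dd {L : Type*} [Field L] (v : Valuation L ℤᵐ⁰) (y b : L) : ℤ :=
  log (max 1 (v y)) - log (v (y - b))

section

variable {L : Type*} [Field L] (v : Valuation L ℤᵐ⁰)

theorem max_one_ne_zero' (y : L) : max 1 (v y) ≠ 0 :=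
  (lt_of_lt_of_le zero_lt_one (le_max_left 1 (v y))).ne'

theorem log_max_nonneg (y : L) : 0 ≤ log (max 1 (v y)) := by
  -- `log` is monotone on nonzero elements
  rw [← log_one (M := ℤ), log_le_log one_ne_zero (max_one_ne_zero' v y)]
  exact le_max_left _ _

theorem dd_ge {y b : L} (hy : y ≠ b) {τ : ℕ} (hb : v b ≤ exp (τ : ℤ)) : -(τ : ℤ) ≤ dd v y b := by
  -- `v (y - b) ≤ max (v y) (v b) ≤ max 1 (v y) * exp τ`
  have h0 : v (y - b) ≠ 0 := (v.ne_zero_iff).2 (sub_ne_zero.2 hy)
  have h1 : v (y - b) ≤ max 1 (v y) * exp (τ : ℤ) := by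
    refine (v.map_sub _ _).trans (max_le ?_ ?_)
    · calc v y ≤ max 1 (v y) := le_max_right _ _
        _ = max 1 (v y) * 1 := (mul_one _).symm
        _ ≤ _ := mul_le_mul_right (by rw [← exp_zero, exp_le_exp]; positivity) _
    · calc v b ≤ exp (τ : ℤ) := hb
        _ = 1 * exp (τ : ℤ) := (one_mul _).symm
        _ ≤ _ := mul_le_mul_left (le_max_left _ _) _
  have h2 : log (v (y - b)) ≤ log (max 1 (v y) * exp (τ : ℤ)) :=
    (log_le_log h0 (mul_ne_zero (max_one_ne_zero' v y) exp_ne_zero)).2 h1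
  rw [log_mul (max_one_ne_zero' v y) exp_ne_zero, log_exp] at h2
  unfold dd
  linarith

/-- all proximities but one are small -/
theorem dd_sum_le {B : Finset L} (hB : B.Nonempty) {y : L} (hy : y ∉ B) {τ : ℕ}
    (hb : ∀ b ∈ B, v b ≤ exp (τ : ℤ))
    (hsep : ∀ b ∈ B, ∀ b' ∈ B, b ≠ b' → exp (-(τ : ℤ)) ≤ v (b - b')) :
    ∃ a ∈ B, ∑ b ∈ B, dd v y b ≤ dd v y a + 2 * B.card * τ := by
  -- `a` with the largest `dd`.  For `b ≠ a`: `exp (-τ) ≤ v (a - b) ≤ v (y - b)`; if
  -- `max 1 (v y) ≤ exp τ` then `dd ≤ 2 τ`, otherwise `v (y - b) = v y` and `dd = 0`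
  classical
  obtain ⟨a, haB, hmax⟩ := B.exists_max_image (fun b => dd v y b) hB
  refine ⟨a, haB, ?_⟩
  have hne : ∀ b ∈ B, v (y - b) ≠ 0 := by
    intro b hbB
    refine (v.ne_zero_iff).2 (sub_ne_zero.2 ?_)
    rintro rfl
    exact hy hbB
  have hexp : (1 : ℤᵐ⁰) ≤ exp (τ : ℤ) := by
    rw [← exp_zero, exp_le_exp]; positivity
  have key : ∀ b ∈ B, b ≠ a → dd v y b ≤ 2 * (τ : ℤ) := by
    intro b hbB hba
    have h1 : v (y - a) ≤ v (y - b) := by
      rw [← log_le_log (hne a haB) (hne b hbB)]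
      have := hmax b hbB
      unfold dd at this
      linarith
    have h2 : exp (-(τ : ℤ)) ≤ v (y - b) := by
      refine (hsep a haB b hbB (Ne.symm hba)).trans ?_
      have e : a - b = (y - b) - (y - a) := by ring
      rw [e]
      exact (v.map_sub _ _).trans (max_le le_rfl h1)
    have h3 : -(τ : ℤ) ≤ log (v (y - b)) := (le_log_iff_exp_le (hne b hbB)).2 h2
    by_cases h4 : max 1 (v y) ≤ exp (τ : ℤ)
    · have h5 : log (max 1 (v y)) ≤ (τ : ℤ) := (log_le_iff_le_exp (max_one_ne_zero' v y)).2 h4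
      unfold dd
      linarith
    · push Not at h4
      have h5 : exp (τ : ℤ) < v y := by
        rcases lt_max_iff.1 h4 with h | h
        · exact absurd h (not_lt.2 hexp)
        · exact h
      have h6 : max 1 (v y) = v y := max_eq_right (hexp.trans h5.le)
      have h7 : v (y - b) = v y := by
        rw [sub_eq_add_neg]
        refine Valuation.map_add_eq_of_lt_left v ?_
        rw [Valuation.map_neg]
        exact (hb b hbB).trans_lt h5
      unfold dd
      rw [h6, h7, sub_self]
      positivity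
  rw [← Finset.add_sum_erase B _ haB]
  have h8 : ∑ b ∈ B.erase a, dd v y b ≤ ∑ b ∈ B.erase a, 2 * (τ : ℤ) :=
    Finset.sum_le_sum fun b hb' => key b (Finset.mem_of_mem_erase hb') (Finset.ne_of_mem_erase hb')
  rw [Finset.sum_const, Finset.card_erase_of_mem haB, nsmul_eq_mul] at h8
  have h9 : ((B.card - 1 : ℕ) : ℤ) ≤ (B.card : ℤ) := by
    exact_mod_cast Nat.sub_le _ _
  have h10 : ((B.card - 1 : ℕ) : ℤ) * (2 * (τ : ℤ)) ≤ (B.card : ℤ) * (2 * (τ : ℤ)) :=
    mul_le_mul_of_nonneg_right h9 (by positivity)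
  linarith

end

variable {κ L : Type*} [Field κ] [IsAlgClosed κ] [CharZero κ] [Field L] [Algebra κ L]

omit [IsAlgClosed κ] [CharZero κ] in
theorem vmax_one_pair (w : Place κ L) (y : L) : vmax w.1 ![1, y] = max 1 (w.1 y) := by
  unfold vmax
  rw [Fin.univ_succ]
  simp

theorem height_one (y : L) : height κ ![1, y] = ∑ᶠ w : Place κ L, log (max 1 (w.1 y)) := by
  unfold height
  exact finsum_congr fun w => by rw [vmax_one_pair]

theorem log_max_support (h : IsFF κ L) (y : L) :
    (Function.support fun w : Place κ L => log (max 1 (w.1 y))).Finite := by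
  -- `vmax_support`
  have hx : (![1, y] : Fin 2 → L) ≠ 0 := by
    intro hc
    have := congrFun hc 0
    simp at this
  have h1 := h.vmax_support hx
  simpa only [vmax_one_pair] using h1

theorem dd_support (h : IsFF κ L) {y b : L} (hy : y ≠ b) :
    (Function.support fun w : Place κ L => dd w.1 y b).Finite := by
  have h1 := log_max_support h y
  have h2 := h.place_support (sub_ne_zero.2 hy)
  refine (h1.union h2).subset fun w hw => ?_
  by_contra hc
  rw [Set.mem_union, not_or] at hc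
  obtain ⟨h3, h4⟩ := hc
  rw [Function.notMem_support] at h3 h4
  apply hw
  simp only at h3 h4 ⊢
  unfold dd
  rw [h3, h4, sub_zero]

/-- the first main theorem -/
theorem dd_total (h : IsFF κ L) {y b : L} (hy : y ≠ b) :
    ∑ᶠ w : Place κ L, dd w.1 y b = height κ ![1, y] := by
  -- product formula
  have h1 := log_max_support h y
  have h2 := h.place_support (sub_ne_zero.2 hy)
  unfold dd
  rw [finsum_sub_distrib h1 h2, h.product_formula (sub_ne_zero.2 hy), sub_zero, height_one]

end Pool.Agent.Lib.MP_44a246_ntY
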