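import Mathlib
import Pool.Agent.Lib.MP_44a246_ntY.Y07
import Pool.Agent.Lib.MP_44a246_ntY.Y09

/-!
The case where `y` is a quotient of elements of the spaces `VV`.
-/

namespace Pool.Agent.Lib.MP_44a246_ntY

open Pool.Agent.Lib.MP_44a246_nt
open Pool.Agent.Lib.MP_44a246_ntL
open WithZero

variable {κ L : Type*} [Field κ] [IsAlgClosed κ] [CharZero κ] [Field L] [Algebra κ L]

/-- quotients of elements of `VV` have small height -/
theorem height_quot (h : IsFF κ L) {τ : Place κ L → ℕ} (hτ : (Function.support τ).Finite)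
    {B : Finset L} (hB : ∀ w : Place κ L, ∀ b ∈ B, w.1 b ≤ exp (τ w : ℤ)) {r : ℕ} {u u' y : L}
    (hu : u ∈ VV κ B r) (hu' : u' ∈ VV κ B r) (hu0 : u' ≠ 0) (hy : u' * y = u) :
    height κ ![1, y] ≤ B.card * r * ∑ᶠ w, (τ w : ℤ) := by
  -- `height ![1, y] = height ![u', u]` (`IsFF.height_smul`), `VV_val_le`
  rw [← h.height_smul (x := ![1, y]) hu0]
  have hne : (fun i => u' * (![1, y] : Fin 2 → L) i) ≠ 0 := by
    intro h0
    have h1 := congrFun h0 0
    simp at h1
    exact hu0 h1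
  have hτ' : (Function.support fun w : Place κ L => (τ w : ℤ)).Finite := by
    refine hτ.subset fun w hw h0 => hw ?_
    simp only
    rw [h0]
    rfl
  have hs : (Function.support fun w : Place κ L => ((B.card * r : ℕ) : ℤ) * (τ w : ℤ)).Finite := by
    refine hτ'.subset fun w hw h0 => hw ?_
    simp only at h0 ⊢
    rw [h0, mul_zero]
  have h2 := finsum_mono (h.vmax_support hne) hs (fun w => by
    have hv : vmax w.1 (fun i => u' * (![1, y] : Fin 2 → L) i) ≤
        exp ((B.card * r * τ w : ℕ) : ℤ) := by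
      refine vmax_le _ fun i => ?_
      fin_cases i
      · simpa using VV_val_le w (hB w) hu'
      · have := VV_val_le w (hB w) hu
        simpa [hy] using this
    have hv0 : vmax w.1 (fun i => u' * (![1, y] : Fin 2 → L) i) ≠ 0 := by
      rw [Ne, vmax_eq_zero_iff]
      exact hne
    have h3 := (log_le_iff_le_exp hv0).2 hv
    refine h3.trans (le_of_eq ?_)
    push_cast
    ring)
  unfold height
  refine h2.trans (le_of_eq ?_)
  rw [← mul_finsum]
  push_cast
  ring

/-- the sum of the proximities is at most the height -/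
theorem dd_sum_total (h : IsFF κ L) {τ : Place κ L → ℕ} (hτ : (Function.support τ).Finite)
    {B : Finset L} (hB : ∀ w : Place κ L, ∀ b ∈ B, w.1 b ≤ exp (τ w : ℤ)) {y : L} (hy : y ∉ B)
    (P : Finset (Place κ L)) :
    ∑ w ∈ P, ∑ b ∈ B, dd w.1 y b ≤ B.card * (height κ ![1, y] + ∑ᶠ w, (τ w : ℤ)) := by
  -- `dd + τ ≥ 0`, `dd_total`
  classical
  have hτ' : (Function.support fun w : Place κ L => (τ w : ℤ)).Finite := by
    refine hτ.subset fun w hw h0 => hw ?_
    simp only
    rw [h0]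
    rfl
  have hne : ∀ b ∈ B, y ≠ b := fun b hb h0 => hy (h0 ▸ hb)
  have hs1 : ∀ b ∈ B, (Function.support fun w : Place κ L => dd w.1 y b + (τ w : ℤ)).Finite :=
    fun b hb => ((dd_support h (hne b hb)).union hτ').subset (Function.support_add _ _)
  have hpos : ∀ w : Place κ L, 0 ≤ ∑ b ∈ B, (dd w.1 y b + (τ w : ℤ)) := by
    intro w
    refine Finset.sum_nonneg fun b hb => ?_
    have := dd_ge w.1 (hne b hb) (hB w b hb)
    linarith
  have hs : (Function.support fun w : Place κ L => ∑ b ∈ B, (dd w.1 y b + (τ w : ℤ))).Finite := by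
    refine (Set.Finite.biUnion B.finite_toSet hs1).subset ?_
    intro w hw
    rw [Function.mem_support] at hw
    obtain ⟨b, hb, hb0⟩ := Finset.exists_ne_zero_of_sum_ne_zero hw
    exact Set.mem_biUnion (Finset.mem_coe.2 hb) hb0
  have h1 : ∑ w ∈ P, ∑ b ∈ B, dd w.1 y b ≤ ∑ w ∈ P, ∑ b ∈ B, (dd w.1 y b + (τ w : ℤ)) := by
    refine Finset.sum_le_sum fun w _ => Finset.sum_le_sum fun b _ => ?_
    have : (0 : ℤ) ≤ (τ w : ℤ) := Int.natCast_nonneg _
    linarith
  have h2 : ∑ w ∈ P, ∑ b ∈ B, (dd w.1 y b + (τ w : ℤ)) ≤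
      ∑ᶠ w : Place κ L, ∑ b ∈ B, (dd w.1 y b + (τ w : ℤ)) := by
    rw [finsum_eq_sum_of_support_subset (s := P ∪ hs.toFinset) _ (by
      intro w hw
      rw [Finset.coe_union, Set.Finite.coe_toFinset]
      exact Or.inr hw)]
    exact Finset.sum_le_sum_of_subset_of_nonneg Finset.subset_union_left fun w _ _ => hpos w
  refine h1.trans (h2.trans (le_of_eq ?_))
  rw [finsum_sum_comm _ _ hs1]
  have h3 : ∀ b ∈ B, ∑ᶠ w : Place κ L, (dd w.1 y b + (τ w : ℤ)) =
      height κ ![1, y] + ∑ᶠ w, (τ w : ℤ) := by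
    intro b hb
    rw [finsum_add_distrib (dd_support h (hne b hb)) hτ', dd_total h (hne b hb)]
  rw [Finset.sum_congr rfl h3, Finset.sum_const, nsmul_eq_mul]

end Pool.Agent.Lib.MP_44a246_ntY
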