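import Mathlib
import Pool.Agent.Lib.MP_44a246_ntL.LMason
import Pool.Agent.Lib.MP_44a246_ntY.Y02
import Pool.Agent.Lib.MP_44a246_ntY.Y06
import Pool.Agent.Lib.MP_44a246_ntY.Y08
import Pool.Agent.Lib.MP_44a246_ntY.Y10

/-!
Moving points of the projective line (Steinmetz).
-/

namespace Pool.Agent.Lib.MP_44a246_ntY

open Pool.Agent.Lib.MP_44a246_nt
open Pool.Agent.Lib.MP_44a246_ntL
open WithZero Submodule

variable {κ L : Type*} [Field κ] [IsAlgClosed κ] [CharZero κ] [Field L] [Algebra κ L]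

omit [IsAlgClosed κ] [CharZero κ] in
/-- a basis of a finite dimensional subspace as a family of elements -/
private theorem exists_fam (V : Submodule κ L) [FiniteDimensional κ V] {n : ℕ}
    (hn : n = Module.finrank κ V) :
    ∃ b : Fin n → L, LinearIndependent κ b ∧ span κ (Set.range b) = V := by
  subst hn
  refine ⟨fun i => (Module.finBasis κ V i : L), ?_, ?_⟩
  · exact (Module.finBasis κ V).linearIndependent.map' V.subtype V.ker_subtype
  · have h1 : (Set.range fun i => (Module.finBasis κ V i : L)) =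
        V.subtype '' Set.range (Module.finBasis κ V) := by
      rw [← Set.range_comp]
      rfl
    rw [h1, ← Submodule.map_span, (Module.finBasis κ V).span_eq, Submodule.map_top,
      Submodule.range_subtype]

/-- The sum of the local estimates of the Wronskian. -/
theorem wr_sum (h : IsFF κ L) (D : Derivation κ L L) (hD : ∃ s, D s ≠ 0) {β τ : Place κ L → ℕ}
    (hβ : (Function.support β).Finite) (hτ : (Function.support τ).Finite)
    (hpole : ∀ w : Place κ L, ∀ y, w.1 y ≤ 1 → w.1 (D y) ≤ exp (β w : ℤ))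
    {B : Finset L} (hB : ∀ w : Place κ L, ∀ b ∈ B, w.1 b ≤ exp (τ w : ℤ)) {y : L} (hy : y ∉ B)
    {P : Finset (Place κ L)} {a : Place κ L → L} (ha : ∀ w ∈ P, a w ∈ B) {r : ℕ}
    (hdir : ∀ u ∈ VV κ B (r + 1), ∀ u' ∈ VV κ B r, u' * y = u → u' = 0) {k N : ℕ}
    (hk : k = Module.finrank κ (VV κ B r)) (hN : N = Module.finrank κ (VV κ B (r + 1)) + k) :
    k * ∑ w ∈ P, dd w.1 y (a w) ≤ N * height κ ![1, y] +
      N ^ 2 * (P.card + ∑ᶠ w, (β w : ℤ) + B.card * (r + 1) * ∑ᶠ w, (τ w : ℤ)) := by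
  -- Bases `b` of `VV (r + 1)` and `b'` of `VV r` (`Module.finBasis`), `g = Fin.append b (b' * y)`,
  -- linearly independent by `append_indep`; `wr D g ≠ 0` by `wr_ne_zero` (constants: `mason_const`)
  -- product formula; at `w ∈ P`: `wr_near` with `m = card B * (r + 1) * τ w` (`VV_val_le`) and
  -- `e = log (max 1 (w y)) - dd w y (a w)`; at the other places: `wr_far`.
  classical
  obtain ⟨s₀, hs₀⟩ := hD
  obtain ⟨s, hs⟩ : ∃ s, s = Module.finrank κ (VV κ B (r + 1)) := ⟨_, rfl⟩
  rw [← hs] at hN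
  subst hN
  obtain ⟨b, hbi, hbs⟩ := exists_fam (VV κ B (r + 1)) hs
  obtain ⟨b', hbi', hbs'⟩ := exists_fam (VV κ B r) hk
  have hdir' : ∀ u ∈ span κ (Set.range b), ∀ u' ∈ span κ (Set.range b'), u' * y = u → u' = 0 := by
    rw [hbs, hbs']
    exact hdir
  set W : L := wr D (Fin.append b fun j => b' j * y) with hW
  have hW0 : W ≠ 0 := wr_ne_zero D (fun y hy => mason_const h D hs₀ hy)
    (append_indep hbi hbi' hdir')
  set m : Place κ L → ℕ := fun w => B.card * (r + 1) * τ w with hm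
  have hbm : ∀ (w : Place κ L) j, w.1 (b j) ≤ exp (m w : ℤ) := fun w j =>
    VV_val_le w (hB w) (by rw [← hbs]; exact subset_span ⟨j, rfl⟩)
  have hbm' : ∀ (w : Place κ L) j, w.1 (b' j) ≤ exp (m w : ℤ) := fun w j =>
    VV_val_le w (hB w) (VV_le_succ (by rw [← hbs']; exact subset_span ⟨j, rfl⟩))
  have hWw : ∀ w : Place κ L, w.1 W ≠ 0 := fun w => (w.1.ne_zero_iff).2 hW0
  -- the local estimate
  have hloc : ∀ w : Place κ L, log (w.1 W) ≤ ((((s + k : ℕ) : ℤ) ^ 2 * ((B.card * (r + 1) : ℕ) *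
      (τ w : ℤ)) + ((s + k : ℕ) : ℤ) ^ 2 * (β w : ℤ)) +
      ((s + k : ℕ) : ℤ) * log (max 1 (w.1 y))) +
      (if w ∈ P then ((s + k : ℕ) : ℤ) ^ 2 - (k : ℤ) * dd w.1 y (a w) else 0) := by
    intro w
    have hl := log_max_nonneg w.1 y
    by_cases hwP : w ∈ P
    · rw [if_pos hwP]
      have hya : y - a w ≠ 0 := by
        rw [sub_ne_zero]
        rintro rfl
        exact hy (ha w hwP)
      have h1 := wr_near w D (hpole w) hbi hbi' hdir' (a := a w) (fun j => by
        rw [hbs]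
        exact mul_mem_VV (ha w hwP) (by rw [← hbs']; exact subset_span ⟨j, rfl⟩))
        (hbm w) (hbm' w) (e := log (w.1 (y - a w))) (by
          rw [exp_log ((w.1.ne_zero_iff).2 hya)])
      have h2 := (log_le_iff_le_exp (hWw w)).2 h1
      have h3 : log (w.1 (y - a w)) = log (max 1 (w.1 y)) - dd w.1 y (a w) := by
        unfold dd; ring
      rw [h3] at h2
      refine h2.trans ?_
      simp only [hm]
      push_cast
      have e1 : ((s : ℤ) + k) * (B.card * (r + 1) * τ w) ≤
          ((s : ℤ) + k) ^ 2 * (B.card * (r + 1) * τ w) := by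
        refine mul_le_mul_of_nonneg_right ?_ (by positivity)
        have : ((s + k : ℕ) : ℤ) ≤ ((s + k : ℕ) : ℤ) ^ 2 := by
          exact_mod_cast Nat.le_self_pow two_ne_zero (s + k)
        push_cast at this
        exact this
      have e2 : (k : ℤ) * log (max 1 (w.1 y)) ≤ ((s : ℤ) + k) * log (max 1 (w.1 y)) :=
        mul_le_mul_of_nonneg_right (by linarith [Int.natCast_nonneg s]) hl
      nlinarith
    · rw [if_neg hwP, add_zero]
      have h1 := wr_far (b := b) (b' := b') (y := y) w D (hpole w) (hbm w) (hbm' w)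
      have h2 := (log_le_iff_le_exp (hWw w)).2 h1
      refine h2.trans (le_of_eq ?_)
      simp only [hm]
      push_cast
      ring
  -- finite supports
  have f1 : (Function.support fun w : Place κ L => ((s + k : ℕ) : ℤ) ^ 2 *
      (((B.card * (r + 1) : ℕ) : ℤ) * (τ w : ℤ))).Finite := by
    refine hτ.subset fun w hw h0 => hw ?_
    simp only
    rw [h0]
    simp
  have f2 : (Function.support fun w : Place κ L => ((s + k : ℕ) : ℤ) ^ 2 * (β w : ℤ)).Finite := by
    refine hβ.subset fun w hw h0 => hw ?_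
    simp only
    rw [h0]
    simp
  have f3 : (Function.support fun w : Place κ L =>
      ((s + k : ℕ) : ℤ) * log (max 1 (w.1 y))).Finite := by
    refine (log_max_support h y).subset fun w hw h0 => hw ?_
    simp only at h0 ⊢
    rw [h0, mul_zero]
  have hsubP : (Function.support fun w : Place κ L =>
      (if w ∈ P then ((s + k : ℕ) : ℤ) ^ 2 - (k : ℤ) * dd w.1 y (a w) else 0)) ⊆ ↑P := by
    intro w hw
    by_contra hc
    apply hw
    simp only
    exact if_neg hc
  have f4 := P.finite_toSet.subset hsubP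
  have f12 := (f1.union f2).subset (Function.support_add _ _)
  have f123 := (f12.union f3).subset (Function.support_add _ _)
  have f1234 := (f123.union f4).subset (Function.support_add _ _)
  have key := finsum_mono (h.place_support hW0) f1234 hloc
  rw [h.product_formula hW0] at key
  have e4 : ∑ᶠ w : Place κ L,
      (if w ∈ P then ((s + k : ℕ) : ℤ) ^ 2 - (k : ℤ) * dd w.1 y (a w) else 0) =
      (P.card : ℤ) * ((s + k : ℕ) : ℤ) ^ 2 - (k : ℤ) * ∑ w ∈ P, dd w.1 y (a w) := by
    rw [finsum_eq_sum_of_support_subset _ hsubP, Finset.mul_sum]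
    rw [Finset.sum_congr rfl (g := fun w => ((s + k : ℕ) : ℤ) ^ 2 - (k : ℤ) * dd w.1 y (a w))
      (fun w hw => if_pos hw), Finset.sum_sub_distrib, Finset.sum_const, nsmul_eq_mul]
  have g1 : (∑ᶠ w : Place κ L, ((s + k : ℕ) : ℤ) ^ 2 *
      (((B.card * (r + 1) : ℕ) : ℤ) * (τ w : ℤ))) =
      ((s + k : ℕ) : ℤ) ^ 2 * (((B.card * (r + 1) : ℕ) : ℤ) * ∑ᶠ w, (τ w : ℤ)) := by
    rw [← mul_finsum, ← mul_finsum]
  have g2 : (∑ᶠ w : Place κ L, ((s + k : ℕ) : ℤ) ^ 2 * (β w : ℤ)) =
      ((s + k : ℕ) : ℤ) ^ 2 * ∑ᶠ w, (β w : ℤ) := by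
    rw [← mul_finsum]
  have g3 : (∑ᶠ w : Place κ L, ((s + k : ℕ) : ℤ) * log (max 1 (w.1 y))) =
      ((s + k : ℕ) : ℤ) * height κ ![1, y] := by
    rw [← mul_finsum, height_one]
  have key2 := key.trans_eq ((finsum_add_distrib f123 f4).trans
    (congrArg₂ (· + ·) ((finsum_add_distrib f12 f3).trans
      (congrArg₂ (· + ·) (finsum_add_distrib f1 f2) rfl)) rfl))
  rw [g1, g2, g3, e4] at key2
  push_cast at key2 ⊢
  linarith

end Pool.Agent.Lib.MP_44a246_ntY
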