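import Mathlib
import Pool.Agent.Lib.MP_44a246_ntY.Y11a

/-!
Moving points of the projective line (Steinmetz).
-/

namespace Pool.Agent.Lib.MP_44a246_ntY

open Pool.Agent.Lib.MP_44a246_nt
open Pool.Agent.Lib.MP_44a246_ntL
open WithZero Submodule

variable {κ L : Type*} [Field κ] [IsAlgClosed κ] [CharZero κ] [Field L] [Algebra κ L]

private theorem final_arith {k N Q R r H C T b S X Pc : ℤ} (hk : 1 ≤ k) (hN0 : 0 ≤ N) (hQ : 0 ≤ Q)
    (hr : 0 ≤ r) (hrR : r + 1 ≤ R) (hNk : 4 * N ≤ 9 * k) (hNC : N ≤ C) (hH : 0 ≤ H)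
    (hT : 0 ≤ T) (hb : 0 ≤ b) (hPc : 0 ≤ Pc)
    (h1 : k * S ≤ N * H + N ^ 2 * (Pc + b + Q * (r + 1) * T)) (h2 : X ≤ S + 2 * Q * T) :
    4 * X ≤ 9 * H + (4 * C ^ 2 * (Q * R + 1) + 8 * Q + 4 * Q * (Q * R + 1)) * (Pc + b + T) := by
  have hR : 0 ≤ R := by linarith
  have hC : 0 ≤ C := hN0.trans hNC
  have hQR : 0 ≤ Q * R := mul_nonneg hQ hR
  have hN2 : N ^ 2 ≤ C ^ 2 := pow_le_pow_left₀ hN0 hNC 2
  have e1 : Pc + b + Q * (r + 1) * T ≤ (Q * R + 1) * (Pc + b + T) := by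
    have e2 : Q * (r + 1) * T ≤ Q * R * T :=
      mul_le_mul_of_nonneg_right (mul_le_mul_of_nonneg_left hrR hQ) hT
    have e3 : 0 ≤ Q * R * (Pc + b) := mul_nonneg hQR (by linarith)
    nlinarith
  have e0 : 0 ≤ Pc + b + Q * (r + 1) * T := by
    have := mul_nonneg (mul_nonneg hQ (show 0 ≤ r + 1 by linarith)) hT
    linarith
  have e4 : N ^ 2 * (Pc + b + Q * (r + 1) * T) ≤ C ^ 2 * ((Q * R + 1) * (Pc + b + T)) :=
    mul_le_mul hN2 e1 e0 (by positivity)
  have e5 : 0 ≤ C ^ 2 * ((Q * R + 1) * (Pc + b + T)) := by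
    have : 0 ≤ Pc + b + T := by linarith
    positivity
  have e6 : k * (4 * S) ≤ k * (9 * H + 4 * (C ^ 2 * ((Q * R + 1) * (Pc + b + T)))) := by
    have e7 : 4 * N * H ≤ 9 * k * H := mul_le_mul_of_nonneg_right hNk hH
    have e8 : C ^ 2 * ((Q * R + 1) * (Pc + b + T)) ≤ k * (C ^ 2 * ((Q * R + 1) * (Pc + b + T))) :=
      le_mul_of_one_le_left e5 hk
    nlinarith
  have e9 := le_of_mul_le_mul_left e6 (by linarith : (0 : ℤ) < k)
  have e10 : 8 * Q * T ≤ 8 * Q * (Pc + b + T) :=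
    mul_le_mul_of_nonneg_left (by linarith) (by linarith)
  have e11 : 0 ≤ 4 * Q * (Q * R + 1) * (Pc + b + T) := by
    have : 0 ≤ Pc + b + T := by linarith
    positivity
  nlinarith

/-- **Moving points of the projective line**: for a finite set `P` of places, the sum over `P` of
the proximities of `y` to the elements of `B` is at most `9 / 4` times the height, up to a constant
times the number of elements of `P`, the poles of the derivation and the size of `B`. -/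
theorem moving_points (h : IsFF κ L) (D : Derivation κ L L) (hD : ∃ s, D s ≠ 0)
    {β τ : Place κ L → ℕ}
    (hβ : (Function.support β).Finite) (hτ : (Function.support τ).Finite)
    (hpole : ∀ w : Place κ L, ∀ y, w.1 y ≤ 1 → w.1 (D y) ≤ exp (β w : ℤ))
    {B : Finset L} (hB : ∀ w : Place κ L, ∀ b ∈ B, w.1 b ≤ exp (τ w : ℤ))
    (hsep : ∀ w : Place κ L, ∀ b ∈ B, ∀ b' ∈ B, b ≠ b' → exp (-(τ w : ℤ)) ≤ w.1 (b - b'))
    {y : L} (hy : y ∉ B) (P : Finset (Place κ L)) :
    4 * ∑ w ∈ P, ∑ b ∈ B, dd w.1 y b ≤ 9 * height κ ![1, y] +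
      cM B.card * (P.card + ∑ᶠ w, (β w : ℤ) + ∑ᶠ w, (τ w : ℤ)) := by
  classical
  have hH : 0 ≤ height κ ![1, y] := by
    refine h.height_nonneg fun h0 => ?_
    have := congrFun h0 0
    simp at this
  have hT : 0 ≤ ∑ᶠ w : Place κ L, (τ w : ℤ) := finsum_nonneg fun w => Int.natCast_nonneg _
  have hb : 0 ≤ ∑ᶠ w : Place κ L, (β w : ℤ) := finsum_nonneg fun w => Int.natCast_nonneg _
  have hτ' : (Function.support fun w : Place κ L => (τ w : ℤ)).Finite :=
    hτ.subset fun w hw => by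
      rw [Function.mem_support] at hw ⊢
      exact fun h0 => hw (by rw [h0]; rfl)
  have hTP : ∑ w ∈ P, (τ w : ℤ) ≤ ∑ᶠ w : Place κ L, (τ w : ℤ) := by
    rw [finsum_eq_sum_of_support_subset (s := hτ'.toFinset ∪ P) _ (by
      intro w hw
      rw [Finset.coe_union, Set.mem_union]
      left
      rw [Set.Finite.coe_toFinset]
      exact hw)]
    exact Finset.sum_le_sum_of_subset_of_nonneg Finset.subset_union_right
      fun w _ _ => Int.natCast_nonneg _
  rcases B.eq_empty_or_nonempty with rfl | hBne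
  · simp only [Finset.sum_empty, Finset.sum_const_zero, mul_zero]
    positivity
  obtain ⟨r, hrR, hr⟩ := RR_spec B.card (fun r => Module.finrank κ (VV κ B r)) VV_pos
    fun r => VV_finrank_le
  obtain ⟨k, hk⟩ : ∃ k, k = Module.finrank κ (VV κ B r) := ⟨_, rfl⟩
  obtain ⟨N, hN⟩ : ∃ N, N = Module.finrank κ (VV κ B (r + 1)) + k := ⟨_, rfl⟩
  have hk1 : 1 ≤ k := by rw [hk]; exact VV_pos
  have hNk : 4 * N ≤ 9 * k := by
    rw [← hk] at hr
    omega
  have hNC : N ≤ 2 * (RR B.card + 1) ^ B.card := by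
    have a1 : Module.finrank κ (VV κ B (r + 1)) ≤ (RR B.card + 1) ^ B.card :=
      VV_finrank_le.trans (Nat.pow_le_pow_left (by omega) _)
    have a2 : k ≤ (RR B.card + 1) ^ B.card := by
      rw [hk]
      exact VV_finrank_le.trans (Nat.pow_le_pow_left (by omega) _)
    omega
  by_cases hdir : ∀ u ∈ VV κ B (r + 1), ∀ u' ∈ VV κ B r, u' * y = u → u' = 0
  · have hex : ∀ w : Place κ L, ∃ a ∈ B, ∑ b ∈ B, dd w.1 y b ≤ dd w.1 y a + 2 * B.card * τ w :=
      fun w => dd_sum_le w.1 hBne hy (hB w) (hsep w)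
    choose a haB ha using hex
    have h1 := wr_sum h D hD hβ hτ hpole hB hy (P := P) (a := a) (fun w _ => haB w) hdir hk hN
    have h2 : ∑ w ∈ P, ∑ b ∈ B, dd w.1 y b ≤
        ∑ w ∈ P, dd w.1 y (a w) + 2 * B.card * ∑ᶠ w : Place κ L, (τ w : ℤ) := by
      calc ∑ w ∈ P, ∑ b ∈ B, dd w.1 y b ≤ ∑ w ∈ P, (dd w.1 y (a w) + 2 * B.card * τ w) :=
            Finset.sum_le_sum fun w _ => ha w
        _ = ∑ w ∈ P, dd w.1 y (a w) + 2 * B.card * ∑ w ∈ P, (τ w : ℤ) := by
            rw [Finset.sum_add_distrib, Finset.mul_sum]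
        _ ≤ _ := by
            have := mul_le_mul_of_nonneg_left hTP (show (0 : ℤ) ≤ 2 * B.card by positivity)
            linarith
    have h3 := final_arith (k := k) (N := N) (Q := B.card) (R := RR B.card) (r := r)
      (C := (2 * (RR B.card + 1) ^ B.card : ℕ)) (Pc := P.card)
      (by exact_mod_cast hk1) (by positivity) (by positivity) (by positivity)
      (by exact_mod_cast hrR) (by exact_mod_cast hNk) (by exact_mod_cast hNC) hH hT hb
      (by positivity) (by exact_mod_cast h1) h2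
    refine h3.trans (le_of_eq ?_)
    rw [cM]
    push_cast
    ring
  · push Not at hdir
    obtain ⟨u, hu, u', hu', huy, hu0⟩ := hdir
    have h1 := height_quot h hτ hB hu (VV_le_succ hu') hu0 huy
    have h2 := dd_sum_total h hτ hB hy P
    have hcM : (4 * B.card * (B.card * RR B.card + 1) : ℤ) ≤ cM B.card := by
      rw [cM]
      push_cast
      have : (0 : ℤ) ≤ 4 * (2 * (RR B.card + 1) ^ B.card) ^ 2 * (B.card * RR B.card + 1) +
        8 * B.card := by positivity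
      linarith
    have hrR' : ((r : ℤ) + 1) ≤ RR B.card := by exact_mod_cast hrR
    have h3 : (B.card * (r + 1 : ℕ) * ∑ᶠ w : Place κ L, (τ w : ℤ) : ℤ) ≤
        B.card * RR B.card * ∑ᶠ w : Place κ L, (τ w : ℤ) := by
      push_cast
      exact mul_le_mul_of_nonneg_right (mul_le_mul_of_nonneg_left hrR' (by positivity)) hT
    have h4 : 4 * ∑ w ∈ P, ∑ b ∈ B, dd w.1 y b ≤
        (4 * B.card * (B.card * RR B.card + 1) : ℤ) * ∑ᶠ w : Place κ L, (τ w : ℤ) := by
      have h5 := mul_le_mul_of_nonneg_left (h1.trans h3) (show (0 : ℤ) ≤ B.card by positivity)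
      nlinarith
    have h6 : (4 * B.card * (B.card * RR B.card + 1) : ℤ) * ∑ᶠ w : Place κ L, (τ w : ℤ) ≤
        cM B.card * ∑ᶠ w : Place κ L, (τ w : ℤ) := mul_le_mul_of_nonneg_right hcM hT
    have h7 : (cM B.card : ℤ) * ∑ᶠ w : Place κ L, (τ w : ℤ) ≤
        cM B.card * (P.card + ∑ᶠ w, (β w : ℤ) + ∑ᶠ w, (τ w : ℤ)) :=
      mul_le_mul_of_nonneg_left (by
        have : (0 : ℤ) ≤ P.card := by positivity
        linarith) (by positivity)
    linarith

end Pool.Agent.Lib.MP_44a246_ntY
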