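import Mathlib

/-!
A nonzero vector in the kernel of a matrix whose coordinates are minors of the matrix.
-/

namespace Pool.Agent.Lib.MP_44a246_ntY

open WithZero

/-- The absolute value of a determinant. -/
private theorem y20_det {L : Type*} [Field L] (v : Valuation L ℤᵐ⁰) (ρ r : ℕ)
    (N : Matrix (Fin r) (Fin r) L) (hN : ∀ i j, v (N i j) ≤ exp (ρ : ℤ)) :
    v N.det ≤ exp ((r * ρ : ℕ) : ℤ) := by
  rw [Matrix.det_apply]
  refine Valuation.map_sum_le v fun σ _ => ?_
  have h1 : v (Equiv.Perm.sign σ • ∏ i, N (σ i) i) = ∏ i, v (N (σ i) i) := by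
    rcases Int.units_eq_one_or (Equiv.Perm.sign σ) with h | h
    · rw [h, one_smul, map_prod]
    · rw [h, Units.neg_smul, one_smul, Valuation.map_neg, map_prod]
  rw [h1]
  have h2 : ∏ i, v (N (σ i) i) ≤ ∏ _i : Fin r, exp (ρ : ℤ) :=
    Finset.prod_le_prod' fun i _ => hN _ _
  refine h2.trans (le_of_eq ?_)
  rw [Finset.prod_const, Finset.card_univ, Fintype.card_fin, ← exp_nsmul, nsmul_eq_mul]
  push_cast
  rfl

/-- **Cramer's rule**: a homogeneous linear system with more unknowns than equations has a nonzero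
solution whose coordinates are zero or minors of the matrix up to sign; so their absolute values are
bounded for every valuation. -/
theorem exists_kernel {ι' ι L : Type*} [Fintype ι'] [Fintype ι] [Field L] (M : Matrix ι' ι L)
    (hcard : Fintype.card ι' < Fintype.card ι) :
    ∃ z : ι → L, z ≠ 0 ∧ M.mulVec z = 0 ∧ ∀ (v : Valuation L ℤᵐ⁰) (ρ : ℕ),
      (∀ i j, v (M i j) ≤ exp (ρ : ℤ)) → ∀ j, v (z j) ≤ exp ((Fintype.card ι' * ρ : ℕ) : ℤ) := by
  -- Choose a nonzero minor of the largest possible size `r ≤ card ι'` (rows `I`, columns `J`) and a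
  -- column `j₀ ∉ J`; let `z j`, for `j ∈ J ∪ {j₀}`, be up to sign the minor with rows `I` and
  -- columns `J ∪ {j₀}` without `j`.  For every row `i`, `∑ j, M i j * z j` is the determinant of
  -- size `r + 1` with rows `I, i` and columns `J, j₀`, which vanishes.  (Laplace expansion.)
  classical
  have hinjI : ∀ (r : ℕ) (I : Fin r → ι') (J : Fin r → ι), (M.submatrix I J).det ≠ 0 →
      Function.Injective I := by
    intro r I J hdet a b hab
    by_contra hne
    apply hdet
    refine Matrix.det_zero_of_row_eq hne ?_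
    funext k
    rw [Matrix.submatrix_apply, Matrix.submatrix_apply, hab]
  have hbdd : ∀ r, (∃ (I : Fin r → ι') (J : Fin r → ι), (M.submatrix I J).det ≠ 0) →
      r ≤ Fintype.card ι' := by
    rintro r ⟨I, J, hdet⟩
    have h1 := Fintype.card_le_of_injective I (hinjI r I J hdet)
    rwa [Fintype.card_fin] at h1
  obtain ⟨r, ⟨I, J, hdet⟩, hmax⟩ : ∃ r, (∃ (I : Fin r → ι') (J : Fin r → ι),
      (M.submatrix I J).det ≠ 0) ∧ ∀ r', r < r' → ¬ ∃ (I : Fin r' → ι') (J : Fin r' → ι),
      (M.submatrix I J).det ≠ 0 := by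
    have h0 : ∃ (I : Fin 0 → ι') (J : Fin 0 → ι), (M.submatrix I J).det ≠ 0 :=
      ⟨Fin.elim0, Fin.elim0, by rw [Matrix.det_fin_zero]; exact one_ne_zero⟩
    refine ⟨Nat.findGreatest (fun r => ∃ (I : Fin r → ι') (J : Fin r → ι),
      (M.submatrix I J).det ≠ 0) (Fintype.card ι'), ?_, ?_⟩
    · exact Nat.findGreatest_spec (P := fun r => ∃ (I : Fin r → ι') (J : Fin r → ι),
        (M.submatrix I J).det ≠ 0) (Nat.zero_le _) h0
    · intro r' hr' h1
      exact Nat.findGreatest_is_greatest hr' (hbdd r' h1) h1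
  have hr := hbdd r ⟨I, J, hdet⟩
  obtain ⟨j₀, hj₀⟩ : ∃ j₀, ∀ k, J k ≠ j₀ := by
    by_contra hcon
    push Not at hcon
    have h1 := Fintype.card_le_of_surjective J hcon
    rw [Fintype.card_fin] at h1
    omega
  obtain ⟨J', hJ'⟩ : ∃ J' : Fin (r + 1) → ι, J' = Fin.cons j₀ J := ⟨_, rfl⟩
  obtain ⟨w, hw⟩ : ∃ w : Fin (r + 1) → L, w = fun k : Fin (r + 1) => (-1) ^ (k : ℕ) *
      (M.submatrix I (J' ∘ k.succAbove)).det := ⟨_, rfl⟩
  refine ⟨fun j => ∑ k : Fin (r + 1), if J' k = j then w k else 0, ?_, ?_, ?_⟩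
  · intro h0
    have h1 := congrFun h0 j₀
    simp only [Pi.zero_apply] at h1
    rw [Fin.sum_univ_succ] at h1
    have h2 : ∀ k : Fin r, (if J' k.succ = j₀ then w k.succ else 0) = 0 := by
      intro k
      rw [if_neg]
      rw [hJ', Fin.cons_succ]
      exact hj₀ k
    rw [Finset.sum_eq_zero (fun k _ => h2 k), add_zero, if_pos (by rw [hJ', Fin.cons_zero]), hw] at h1
    apply hdet
    have h3 : J' ∘ (0 : Fin (r + 1)).succAbove = J := by
      funext k
      rw [Function.comp_apply, Fin.succAbove_zero, hJ', Fin.cons_succ]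
    simp only [Fin.val_zero, pow_zero, one_mul] at h1
    rw [h3] at h1
    exact h1
  · funext i
    have h1 : (M.submatrix (Fin.cons i I : Fin (r + 1) → ι') J').det = 0 := by
      by_contra hne
      exact hmax (r + 1) (Nat.lt_succ_self r) ⟨_, _, hne⟩
    rw [Matrix.det_succ_row_zero] at h1
    rw [Pi.zero_apply]
    refine Eq.trans ?_ h1
    show ∑ j, M i j * (∑ k : Fin (r + 1), if J' k = j then w k else 0) = _
    simp only [Finset.mul_sum]
    rw [Finset.sum_comm]
    refine Finset.sum_congr rfl fun k _ => ?_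
    rw [Finset.sum_eq_single (J' k)]
    · rw [if_pos rfl, hw, Matrix.submatrix_apply, Fin.cons_zero, Matrix.submatrix_submatrix]
      have h3 : (Fin.cons i I : Fin (r + 1) → ι') ∘ Fin.succ = I := by
        funext k
        rw [Function.comp_apply, Fin.cons_succ]
      rw [h3]
      ring
    · intro j _ hj
      rw [if_neg (Ne.symm hj), mul_zero]
    · intro h
      exact absurd (Finset.mem_univ _) h
  · intro v ρ hv j
    refine Valuation.map_sum_le v fun k _ => ?_
    split_ifs
    · rw [hw]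
      show v ((-1) ^ (k : ℕ) * (M.submatrix I (J' ∘ k.succAbove)).det) ≤ _
      rw [map_mul, map_pow, Valuation.map_neg, map_one, one_pow, one_mul]
      refine (y20_det v ρ r _ fun a b => hv _ _).trans ?_
      rw [exp_le_exp]
      exact_mod_cast Nat.mul_le_mul_right ρ hr
    · rw [map_zero]
      exact zero_le_one.trans (by rw [← exp_zero, exp_le_exp]; exact Int.natCast_nonneg _)

end Pool.Agent.Lib.MP_44a246_ntY
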