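import Mathlib
import Pool.Agent.Lib.MP_44a246_ntS.SR0
import Pool.Agent.Lib.MP_44a246_ntS.SJ1c
import Pool.Agent.Lib.MP_44a246_nt.PlacesGen

/-!
The restriction of a plane curve to a vertical line, and its factors.
-/

namespace Pool.Agent.Lib.MP_44a246_ntY

open Pool.Agent.Lib.MP_44a246_nt
open Pool.Agent.Lib.MP_44a246_ntL
open Pool.Agent.Lib.MP_44a246_ntS
open WithZero Polynomial

variable {L : Type*} [Field L]

theorem map_eval_ne_zero {A : L[X][X]} (hA : Irreducible A) (hdeg : A.natDegree ≠ 0) (b : L) :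
    A.map (evalRingHom b) ≠ 0 := by
  -- otherwise `C (X - C b)` divides `A`
  intro h0
  have h1 : C (X - C b) ∣ A := by
    rw [C_dvd_iff_dvd_coeff]
    intro i
    rw [dvd_iff_isRoot, IsRoot.def]
    have h2 := congrArg (fun P => P.coeff i) h0
    simp only [coeff_map, coe_evalRingHom, coeff_zero] at h2
    exact h2
  obtain ⟨B, hB⟩ := h1
  rcases hA.isUnit_or_isUnit hB with h2 | h2
  · rw [isUnit_C] at h2
    exact (irreducible_X_sub_C b).not_isUnit h2
  · apply hdeg
    have h3 : (C (X - C b) * B).natDegree ≤ B.natDegree := natDegree_C_mul_le _ _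
    rw [← hB, natDegree_eq_zero_of_isUnit h2] at h3
    exact Nat.le_zero.1 h3

theorem eval_map_eval (A : L[X][X]) (b c : L) :
    (A.map (evalRingHom b)).eval c = A.evalEval b c :=
  map_evalRingHom_eval b c A

/-- the size of the restriction -/
theorem gv_map_eval_le (v : Valuation L ℤᵐ⁰) {A : L[X][X]} {n : ℕ}
    (hn : ∀ i, (A.coeff i).natDegree ≤ n) {ρ τ : ℕ} (hρ : gg v A ≤ exp (ρ : ℤ)) {b : L}
    (hb : v b ≤ exp (τ : ℤ)) : gv v (A.map (evalRingHom b)) ≤ exp ((ρ + n * τ : ℕ) : ℤ) := by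
  rw [gv_apply]
  refine gn_le v fun i => ?_
  rw [coeff_map, coe_evalRingHom, eval_eq_sum_range' (Nat.lt_succ_of_le (hn i))]
  refine Valuation.map_sum_le v fun j hj => ?_
  rw [map_mul, map_pow]
  have h1 : v ((A.coeff i).coeff j) ≤ exp (ρ : ℤ) := (le_gg v A i j).trans hρ
  have h2 : v b ^ j ≤ exp ((j * τ : ℕ) : ℤ) := by
    refine (pow_le_pow_left₀ zero_le hb j).trans (le_of_eq ?_)
    rw [← exp_nsmul, nsmul_eq_mul]
    push_cast
    rfl
  refine (mul_le_mul' h1 h2).trans ?_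
  rw [← exp_add, exp_le_exp]
  have h3 : j * τ ≤ n * τ := Nat.mul_le_mul_right τ (Nat.lt_succ_iff.1 (Finset.mem_range.1 hj))
  push_cast
  have h4 : (j : ℤ) * τ ≤ n * τ := by exact_mod_cast h3
  linarith

/-- the factor complementary to a set of roots -/
theorem exists_cofactor {A : L[X][X]} {b : L} (hAb : A.map (evalRingHom b) ≠ 0) {J : Finset L}
    (hJ : ∀ c ∈ J, A.evalEval b c = 0) :
    ∃ P : L[X], P ≠ 0 ∧ A.map (evalRingHom b) = P * ∏ c ∈ J, (X - C c) ∧
      P.natDegree + J.card ≤ A.natDegree ∧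
      ∀ v : Valuation L ℤᵐ⁰, gv v P ≤ gv v (A.map (evalRingHom b)) := by
  -- `Finset.prod_dvd_of_coprime` or `Multiset.prod_X_sub_C_dvd_iff_le_roots`; the Gauss norm is
  -- multiplicative and `gv v (X - C c) ≥ 1`
  have h1 : (J.val.map fun c => X - C c).prod ∣ A.map (evalRingHom b) := by
    rw [Multiset.prod_X_sub_C_dvd_iff_le_roots hAb, Multiset.le_iff_subset J.nodup]
    intro c hc
    rw [mem_roots hAb, IsRoot.def, eval_map_eval]
    exact hJ c hc
  obtain ⟨P, hP⟩ := h1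
  have hprod : (J.val.map fun c => X - C c).prod = ∏ c ∈ J, (X - C c) := rfl
  rw [hprod] at hP
  have hP0 : P ≠ 0 := by
    rintro rfl
    rw [mul_zero] at hP
    exact hAb hP
  have hJ0 : ∏ c ∈ J, (X - C c) ≠ (0 : L[X]) := Finset.prod_ne_zero_iff.2 fun c _ => X_sub_C_ne_zero c
  refine ⟨P, hP0, by rw [hP, mul_comm], ?_, fun v => ?_⟩
  · have h2 : (A.map (evalRingHom b)).natDegree = J.card + P.natDegree := by
      rw [hP, natDegree_mul hJ0 hP0, natDegree_finsetProd_X_sub_C_eq_card]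
    have h3 : (A.map (evalRingHom b)).natDegree ≤ A.natDegree := natDegree_map_le
    omega
  · rw [hP, map_mul, map_prod]
    have h2 : (1 : ℤᵐ⁰) ≤ ∏ c ∈ J, gv v (X - C c) := by
      refine Finset.one_le_prod' fun c _ => ?_
      have h3 := le_gn v (X - C c) 1
      rw [coeff_sub, coeff_X_one, coeff_C_succ, sub_zero, map_one] at h3
      exact h3
    exact le_mul_of_one_le_left' h2

end Pool.Agent.Lib.MP_44a246_ntY
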