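import Mathlib

/-!
Counting unknowns for the interpolation.
-/

namespace Pool.Agent.Lib.MP_44a246_ntY

/-- the constant of the interpolation -/
def cI (n q : ℕ) : ℕ := q * n * (q + n + 1)

variable {L : Type*} [Field L]

/-- the number of unknowns -/
theorem count_unknowns (m Q : ℕ) :
    m * Q ≤ (Finset.univ.filter fun p : Fin m × Fin Q => p.1.1 + p.2.1 + 3 ≤ Q).card + 2 * m +
      m * (m - 1) / 2 := by
  -- for fixed `i < m` there are at least `Q - 2 - i` values
  have h1 : (Finset.univ.filter fun p : Fin m × Fin Q => p.1.1 + p.2.1 + 3 ≤ Q).card =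
      ∑ i : Fin m, (Finset.univ.filter fun j : Fin Q => i.1 + j.1 + 3 ≤ Q).card := by
    rw [Finset.card_filter, Fintype.sum_prod_type]
    refine Finset.sum_congr rfl fun i _ => ?_
    rw [Finset.card_filter]
  have h2 : ∀ i : Fin m, Q ≤ (Finset.univ.filter fun j : Fin Q => i.1 + j.1 + 3 ≤ Q).card +
      (2 + i.1) := by
    intro i
    have h3 : Q - (i.1 + 2) ≤ (Finset.univ.filter fun j : Fin Q => i.1 + j.1 + 3 ≤ Q).card := by
      have h4 := Finset.card_le_card_of_injOn (s := (Finset.univ : Finset (Fin (Q - (i.1 + 2)))))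
        (t := Finset.univ.filter fun j : Fin Q => i.1 + j.1 + 3 ≤ Q)
        (fun j => ⟨j.1, by omega⟩) (by
          intro j _
          rw [Finset.mem_coe, Finset.mem_filter]
          refine ⟨Finset.mem_univ _, ?_⟩
          show i.1 + j.1 + 3 ≤ Q
          omega) (by
          intro j _ k _ h
          have h5 := congrArg Fin.val h
          exact Fin.ext h5)
      rwa [Finset.card_univ, Fintype.card_fin] at h4
    omega
  have h3 : ∑ i : Fin m, (2 + i.1) = 2 * m + m * (m - 1) / 2 := by
    rw [Finset.sum_add_distrib, Finset.sum_const, Finset.card_univ, Fintype.card_fin,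
      Fin.sum_univ_eq_sum_range (fun i => i), Finset.sum_range_id, smul_eq_mul, mul_comm]
  have h4 : ∑ _i : Fin m, Q ≤ ∑ i : Fin m,
      ((Finset.univ.filter fun j : Fin Q => i.1 + j.1 + 3 ≤ Q).card + (2 + i.1)) :=
    Finset.sum_le_sum fun i _ => h2 i
  rw [Finset.sum_add_distrib, h3, ← h1, Finset.sum_const, Finset.card_univ, Fintype.card_fin,
    smul_eq_mul] at h4
  omega

/-- the number of points in the fibres -/
theorem count_fibres {S : Finset (L × L)} [DecidableEq L] :
    ∑ b ∈ S.image Prod.fst, ((S.filter fun e => e.1 = b).image Prod.snd).card = S.card := by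
  rw [Finset.card_eq_sum_card_image Prod.fst S]
  refine Finset.sum_congr rfl fun b _ => ?_
  refine Finset.card_image_of_injOn ?_
  intro e he e' he' h
  rw [Finset.mem_coe, Finset.mem_filter] at he he'
  exact Prod.ext (he.2.trans he'.2.symm) h

end Pool.Agent.Lib.MP_44a246_ntY
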