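import Mathlib
import Pool.Agent.Lib.MP_44a246_ntY.Y20
import Pool.Agent.Lib.MP_44a246_ntY.Y21
import Pool.Agent.Lib.MP_44a246_ntY.Y22a
import Pool.Agent.Lib.MP_44a246_nt.LocalDet

/-!
Interpolation: a polynomial of small degree which vanishes on the fibres of the plane curve, apart
from given points.
-/

namespace Pool.Agent.Lib.MP_44a246_ntY

open Pool.Agent.Lib.MP_44a246_nt
open Pool.Agent.Lib.MP_44a246_ntL
open Pool.Agent.Lib.MP_44a246_ntS
open WithZero Polynomial

variable {L : Type*} [Field L]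

private theorem y22_lin {B : Finset L} {m Q : ℕ} (P : L → L[X]) (s : L → ℕ)
    (hcard : m * B.card < (Finset.univ.filter fun p : Fin m × Fin Q => p.1.1 + p.2.1 + 3 ≤ Q).card +
      ∑ b ∈ B, s b) :
    ∃ (G : L[X][X]) (H : L → L[X]), (G ≠ 0 ∨ ∃ b ∈ B, H b ≠ 0) ∧ G.degree < m ∧
      (∀ i j, (G.coeff i).coeff j ≠ 0 → i + j + 3 ≤ Q) ∧
      (∀ b ∈ B, (H b).degree < s b) ∧
      (∀ b ∈ B, ∀ i < m, (G.map (evalRingHom b) - P b * H b).coeff i = 0) ∧
      ∀ (v : Valuation L ℤᵐ⁰) (ρ : ℕ), (∀ b ∈ B, ∀ j < Q, v b ^ j ≤ exp (ρ : ℤ)) →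
        (∀ b ∈ B, gv v (P b) ≤ exp (ρ : ℤ)) →
        gg v G ≤ exp ((m * B.card * ρ : ℕ) : ℤ) ∧
        ∀ b ∈ B, gv v (H b) ≤ exp ((m * B.card * ρ : ℕ) : ℤ) := by
  classical
  let I₁ := {p : Fin m × Fin Q // p.1.1 + p.2.1 + 3 ≤ Q}
  let I₂ := (b : {b // b ∈ B}) × Fin (s b.1)
  let M : Matrix ({b // b ∈ B} × Fin m) (I₁ ⊕ I₂) L := fun x j =>
    match j with
    | Sum.inl p => if p.1.1 = x.2 then x.1.1 ^ p.1.2.1 else 0
    | Sum.inr q => if q.1 = x.1 then -(P x.1.1 * X ^ q.2.1).coeff x.2.1 else 0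
  have hc1 : Fintype.card ({b // b ∈ B} × Fin m) = m * B.card := by
    rw [Fintype.card_prod, Fintype.card_coe, Fintype.card_fin, mul_comm]
  have hc2 : Fintype.card (I₁ ⊕ I₂) =
      (Finset.univ.filter fun p : Fin m × Fin Q => p.1.1 + p.2.1 + 3 ≤ Q).card + ∑ b ∈ B, s b := by
    rw [Fintype.card_sum]
    congr 1
    · exact Fintype.card_subtype _
    · rw [Fintype.card_sigma]
      simp only [Fintype.card_fin]
      exact Finset.sum_coe_sort B s
  obtain ⟨z, hz0, hMz, hzv⟩ := exists_kernel M (by rw [hc1, hc2]; exact hcard)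
  let G : L[X][X] := ∑ p : I₁, C (C (z (Sum.inl p)) * X ^ p.1.2.1) * X ^ p.1.1.1
  let H : L → L[X] := fun b => if hb : b ∈ B then
    ∑ l : Fin (s b), C (z (Sum.inr ⟨⟨b, hb⟩, l⟩)) * X ^ l.1 else 0
  have hG : ∀ i j, (G.coeff i).coeff j = ∑ p : I₁, if p.1.1.1 = i ∧ p.1.2.1 = j then
      z (Sum.inl p) else 0 := by
    intro i j
    show ((∑ p : I₁, C (C (z (Sum.inl p)) * X ^ p.1.2.1) * X ^ p.1.1.1 : L[X][X]).coeff i).coeff j = _
    rw [finset_sum_coeff, finset_sum_coeff]
    refine Finset.sum_congr rfl fun p _ => ?_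
    rw [coeff_C_mul, coeff_X_pow]
    by_cases h1 : p.1.1.1 = i
    · rw [if_pos h1.symm, mul_one, coeff_C_mul, coeff_X_pow]
      by_cases h2 : p.1.2.1 = j
      · rw [if_pos h2.symm, if_pos ⟨h1, h2⟩, mul_one]
      · rw [if_neg (Ne.symm h2), if_neg (fun h => h2 h.2), mul_zero]
    · rw [if_neg (Ne.symm h1), if_neg (fun h => h1 h.1), mul_zero, coeff_zero]
  have hGp : ∀ p : I₁, (G.coeff p.1.1.1).coeff p.1.2.1 = z (Sum.inl p) := by
    intro p
    rw [hG, Finset.sum_eq_single p]
    · rw [if_pos ⟨rfl, rfl⟩]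
    · intro p' _ hne
      rw [if_neg]
      rintro ⟨h1, h2⟩
      exact hne (Subtype.ext (Prod.ext (Fin.ext h1) (Fin.ext h2)))
    · intro h; exact absurd (Finset.mem_univ p) h
  have hH : ∀ (b : L) (hb : b ∈ B), H b = ∑ l : Fin (s b), C (z (Sum.inr ⟨⟨b, hb⟩, l⟩)) * X ^ l.1 :=
    fun b hb => dif_pos hb
  have hHc : ∀ (b : L) (hb : b ∈ B) (l : Fin (s b)), (H b).coeff l.1 = z (Sum.inr ⟨⟨b, hb⟩, l⟩) := by
    intro b hb l
    rw [hH b hb, finset_sum_coeff, Finset.sum_eq_single l]
    · rw [coeff_C_mul, coeff_X_pow, if_pos rfl, mul_one]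
    · intro l' _ hne
      rw [coeff_C_mul, coeff_X_pow, if_neg (fun h => hne (Fin.ext h.symm)), mul_zero]
    · intro h; exact absurd (Finset.mem_univ l) h
  refine ⟨G, H, ?_, ?_, ?_, ?_, ?_, ?_⟩
  · by_contra hcon
    rw [not_or, not_not] at hcon
    obtain ⟨h1, h2⟩ := hcon
    push Not at h2
    apply hz0
    funext j
    rcases j with p | ⟨⟨b, hb⟩, l⟩
    · rw [← hGp p, h1]; simp
    · rw [← hHc b hb l, h2 b hb]; simp
  · rw [degree_lt_iff_coeff_zero]
    intro i hi
    ext j
    rw [hG, coeff_zero]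
    refine Finset.sum_eq_zero fun p _ => if_neg ?_
    rintro ⟨h1, -⟩
    have := p.1.1.2
    omega
  · intro i j hij
    rw [hG] at hij
    obtain ⟨p, -, hp⟩ := Finset.exists_ne_zero_of_sum_ne_zero hij
    by_cases h : p.1.1.1 = i ∧ p.1.2.1 = j
    · have := p.2
      omega
    · rw [if_neg h] at hp
      exact absurd rfl hp
  · intro b hb
    rw [degree_lt_iff_coeff_zero]
    intro i hi
    rw [hH b hb, finset_sum_coeff]
    refine Finset.sum_eq_zero fun l _ => ?_
    rw [coeff_C_mul, coeff_X_pow, if_neg, mul_zero]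
    have := l.2
    omega
  · intro b hb i hi
    have h1 := congrFun hMz (⟨b, hb⟩, ⟨i, hi⟩)
    rw [Matrix.mulVec, dotProduct, Fintype.sum_sum_type, Pi.zero_apply] at h1
    have h2 : (G.map (evalRingHom b)).coeff i =
        ∑ p : I₁, M (⟨b, hb⟩, ⟨i, hi⟩) (Sum.inl p) * z (Sum.inl p) := by
      rw [coeff_map]
      show eval b ((∑ p : I₁, C (C (z (Sum.inl p)) * X ^ p.1.2.1) * X ^ p.1.1.1 : L[X][X]).coeff i) = _
      rw [finset_sum_coeff, eval_finset_sum]
      refine Finset.sum_congr rfl fun p _ => ?_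
      show _ = (if p.1.1 = (⟨i, hi⟩ : Fin m) then b ^ p.1.2.1 else 0) * z (Sum.inl p)
      rw [coeff_C_mul, coeff_X_pow]
      by_cases h3 : p.1.1.1 = i
      · rw [if_pos h3.symm, if_pos (Fin.ext h3), mul_one, eval_mul, eval_C, eval_pow, eval_X, mul_comm]
      · rw [if_neg (Ne.symm h3), if_neg (fun h => h3 (congrArg Fin.val h)), mul_zero, eval_zero,
          zero_mul]
    have h3 : -(P b * H b).coeff i =
        ∑ q : I₂, M (⟨b, hb⟩, ⟨i, hi⟩) (Sum.inr q) * z (Sum.inr q) := by
      rw [Fintype.sum_sigma, Finset.sum_eq_single (⟨b, hb⟩ : {b // b ∈ B})]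
      · rw [hH b hb, Finset.mul_sum, finset_sum_coeff, ← Finset.sum_neg_distrib]
        refine Finset.sum_congr rfl fun l _ => ?_
        show _ = (if (⟨b, hb⟩ : {b // b ∈ B}) = ⟨b, hb⟩ then -(P b * X ^ l.1).coeff i else 0) * _
        rw [if_pos rfl, mul_left_comm, coeff_C_mul]
        ring
      · intro b' _ hne
        refine Finset.sum_eq_zero fun l _ => ?_
        show (if b' = (⟨b, hb⟩ : {b // b ∈ B}) then -(P b * X ^ l.1).coeff i else 0) * _ = 0
        rw [if_neg hne, zero_mul]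
      · intro h; exact absurd (Finset.mem_univ _) h
    rw [coeff_sub, h2, sub_eq_add_neg, h3]
    exact h1
  · intro v ρ hb hP
    have hM : ∀ i j, v (M i j) ≤ exp (ρ : ℤ) := by
      rintro ⟨⟨b, hbB⟩, i⟩ j
      rcases j with p | q
      · show v (if p.1.1 = i then b ^ p.1.2.1 else 0) ≤ _
        split_ifs
        · rw [map_pow]; exact hb b hbB _ p.1.2.2
        · rw [map_zero]; exact zero_le'
      · show v (if q.1 = ⟨b, hbB⟩ then -(P b * X ^ q.2.1).coeff i.1 else 0) ≤ _
        split_ifs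
        · rw [Valuation.map_neg, coeff_mul_X_pow']
          split_ifs
          · exact (le_gn v (P b) _).trans (hP b hbB)
          · rw [map_zero]; exact zero_le'
        · rw [map_zero]; exact zero_le'
    have hz := hzv v ρ hM
    rw [hc1] at hz
    constructor
    · refine gg_le v fun i j => ?_
      rw [hG]
      refine Valuation.map_sum_le v fun p _ => ?_
      split_ifs
      · exact hz _
      · rw [map_zero]; exact zero_le'
    · intro b hbB
      refine gn_le v fun i => ?_
      rw [hH b hbB, finset_sum_coeff]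
      refine Valuation.map_sum_le v fun l _ => ?_
      rw [coeff_C_mul, coeff_X_pow]
      split_ifs
      · rw [mul_one]; exact hz _
      · rw [mul_zero, map_zero]; exact zero_le'

open Classical in
/-- **Interpolation**. `S` is a set of points of the curve `A = 0`, with more than
`2 m + m (m - 1) / 2` elements, `m` the degree of `A` in `Y`. There is a nonzero polynomial `G` of
degree smaller than `m` in `Y`, of total degree at most `Q - 3`, where `Q` is the number of the
first coordinates of the points of `S`, such that `G (b, Y) ∏ (Y - c)`, the product over the points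
`(b, c)` of `S`, is divisible by `A (b, Y)` for all these `b`. -/
theorem exists_interp {A : L[X][X]} {n : ℕ} (hA : Irreducible A) (hbox : Box n A)
    (hdeg : A.natDegree ≠ 0) {S : Finset (L × L)} (hS : ∀ e ∈ S, A.evalEval e.1 e.2 = 0)
    (hcard : 2 * A.natDegree + A.natDegree * (A.natDegree - 1) / 2 < S.card) :
    ∃ (G : L[X][X]) (H : L → L[X]), G ≠ 0 ∧ G.natDegree < A.natDegree ∧
      (∀ i j, (G.coeff i).coeff j ≠ 0 → i + j + 3 ≤ (S.image Prod.fst).card) ∧
      (∀ b ∈ S.image Prod.fst, (H b).natDegree ≤ A.natDegree ∧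
        G.map (evalRingHom b) * ∏ c ∈ (S.filter fun e => e.1 = b).image Prod.snd, (X - C c) =
          A.map (evalRingHom b) * H b) ∧
      ∀ (v : Valuation L ℤᵐ⁰) (τ : ℕ), gg v A ≤ exp (τ : ℤ) →
        (∀ e ∈ S, v e.1 ≤ exp (τ : ℤ) ∧ v e.2 ≤ exp (τ : ℤ)) →
        gg v G ≤ exp ((cI n S.card * τ : ℕ) : ℤ) ∧
        ∀ b ∈ S.image Prod.fst, gv v (H b) ≤ exp ((cI n S.card * τ : ℕ) : ℤ) := by
  have hPex : ∀ b, ∃ P : L[X], P ≠ 0 ∧ A.map (evalRingHom b) =
      P * ∏ c ∈ (S.filter fun e => e.1 = b).image Prod.snd, (X - C c) ∧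
      P.natDegree + ((S.filter fun e => e.1 = b).image Prod.snd).card ≤ A.natDegree ∧
      ∀ v : Valuation L ℤᵐ⁰, gv v P ≤ gv v (A.map (evalRingHom b)) := by
    intro b
    refine exists_cofactor (map_eval_ne_zero hA hdeg b) fun c hc => ?_
    obtain ⟨e, he, rfl⟩ := Finset.mem_image.1 hc
    obtain ⟨heS, heb⟩ := Finset.mem_filter.1 he
    rw [← heb]
    exact hS e heS
  choose P hP0 hPA hPd hPv using hPex
  have hcu := count_unknowns A.natDegree (S.image Prod.fst).card
  have hcf := count_fibres (S := S)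
  obtain ⟨G, H, hne, hGd, hGc, hHd, heq, hv⟩ := y22_lin (B := S.image Prod.fst)
    (m := A.natDegree) (Q := (S.image Prod.fst).card) P
    (fun b => ((S.filter fun e => e.1 = b).image Prod.snd).card) (by rw [hcf]; omega)
  have hGPH : ∀ b ∈ S.image Prod.fst, G.map (evalRingHom b) = P b * H b := by
    intro b hb
    rw [← sub_eq_zero]
    ext i
    rw [coeff_zero]
    by_cases hi : i < A.natDegree
    · exact heq b hb i hi
    · have h1 : (G.map (evalRingHom b)).degree < A.natDegree := degree_map_le.trans_lt hGd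
      have h2 : (P b * H b).degree < A.natDegree := by
        by_cases hH0 : H b = 0
        · rw [hH0, mul_zero, degree_zero]; exact WithBot.bot_lt_coe _
        · rw [degree_mul, degree_eq_natDegree (hP0 b), degree_eq_natDegree hH0]
          have h3 := hHd b hb
          rw [degree_eq_natDegree hH0] at h3
          have h4 : (H b).natDegree < ((S.filter fun e => e.1 = b).image Prod.snd).card := by
            exact_mod_cast h3
          have h5 := hPd b
          have h6 : (P b).natDegree + (H b).natDegree < A.natDegree := by omega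
          exact_mod_cast h6
      rw [coeff_sub, coeff_eq_zero_of_degree_lt (h1.trans_le (by exact_mod_cast not_lt.1 hi)),
        coeff_eq_zero_of_degree_lt (h2.trans_le (by exact_mod_cast not_lt.1 hi)), sub_zero]
  have hG0 : G ≠ 0 := by
    rcases hne with h | ⟨b, hb, h⟩
    · exact h
    · intro h0
      have h1 := hGPH b hb
      rw [h0, Polynomial.map_zero] at h1
      rcases mul_eq_zero.1 h1.symm with h2 | h2
      · exact hP0 b h2
      · exact h h2
  have hQS : (S.image Prod.fst).card ≤ S.card := Finset.card_image_le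
  refine ⟨G, H, hG0, ?_, hGc, fun b hb => ⟨?_, ?_⟩, ?_⟩
  · rw [degree_eq_natDegree hG0] at hGd
    exact_mod_cast hGd
  · by_cases hH0 : H b = 0
    · rw [hH0, natDegree_zero]; exact Nat.zero_le _
    · have h3 := hHd b hb
      rw [degree_eq_natDegree hH0] at h3
      have h4 : (H b).natDegree < ((S.filter fun e => e.1 = b).image Prod.snd).card := by
        exact_mod_cast h3
      have h5 := hPd b
      omega
  · rw [hGPH b hb, hPA b]
    ring
  · intro v τ hτA hτS
    have hb1 : ∀ b ∈ S.image Prod.fst, v b ≤ exp (τ : ℤ) := by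
      intro b hb
      obtain ⟨e, he, rfl⟩ := Finset.mem_image.1 hb
      exact (hτS e he).1
    have h1 : (∀ b ∈ S.image Prod.fst, ∀ j < (S.image Prod.fst).card,
        v b ^ j ≤ exp (((S.card + n + 1) * τ : ℕ) : ℤ)) := by
      intro b hb j hj
      refine (pow_le_pow_left' (hb1 b hb) j).trans ?_
      rw [← exp_nsmul, exp_le_exp, nsmul_eq_mul]
      have h2 : j * τ ≤ (S.card + n + 1) * τ := Nat.mul_le_mul_right _ (by omega)
      exact_mod_cast h2
    have h2 : (∀ b ∈ S.image Prod.fst, gv v (P b) ≤ exp (((S.card + n + 1) * τ : ℕ) : ℤ)) := by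
      intro b hb
      refine (hPv b v).trans ((gv_map_eval_le v hbox.2 hτA (hb1 b hb)).trans ?_)
      rw [exp_le_exp]
      have h3 : τ + n * τ ≤ (S.card + n + 1) * τ := by nlinarith
      exact_mod_cast h3
    obtain ⟨h3, h4⟩ := hv v _ h1 h2
    have h5 : exp ((A.natDegree * (S.image Prod.fst).card * ((S.card + n + 1) * τ) : ℕ) : ℤ) ≤
        exp ((cI n S.card * τ : ℕ) : ℤ) := by
      rw [exp_le_exp]
      have h6 : A.natDegree * (S.image Prod.fst).card ≤ n * S.card :=
        Nat.mul_le_mul hbox.1 hQS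
      have h7 : A.natDegree * (S.image Prod.fst).card * ((S.card + n + 1) * τ) ≤
          n * S.card * ((S.card + n + 1) * τ) := Nat.mul_le_mul_right _ h6
      have h8 : n * S.card * ((S.card + n + 1) * τ) = cI n S.card * τ := by
        unfold cI; ring
      rw [h8] at h7
      exact_mod_cast h7
    exact ⟨h3.trans h5, fun b hb => (h4 b hb).trans h5⟩

end Pool.Agent.Lib.MP_44a246_ntY
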