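import Mathlib
import Pool.Agent.Lib.MP_44a246_ntY.Y21
import Pool.Agent.Lib.MP_44a246_nt.LocalDet

/-!
The local estimates of the interpolation polynomial.
-/

namespace Pool.Agent.Lib.MP_44a246_ntY

open Pool.Agent.Lib.MP_44a246_nt
open Pool.Agent.Lib.MP_44a246_ntL
open Pool.Agent.Lib.MP_44a246_ntS
open WithZero Polynomial

variable {L : Type*} [Field L] (v : Valuation L ℤᵐ⁰)

/-- the value as a double sum -/
private theorem y23_sum (G : L[X][X]) (y₁ y : L) {m n : ℕ} (hm : G.natDegree ≤ m)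
    (hn : ∀ i, (G.coeff i).natDegree ≤ n) :
    G.evalEval y₁ y = ∑ i ∈ Finset.range (m + 1), ∑ j ∈ Finset.range (n + 1),
      (G.coeff i).coeff j * y₁ ^ j * y ^ i := by
  rw [evalEval, eval_eq_sum_range' (Nat.lt_succ_of_le hm), eval_finsetSum]
  refine Finset.sum_congr rfl fun i _ => ?_
  rw [← C_pow, eval_mul, eval_C, eval_eq_sum_range' (Nat.lt_succ_of_le (hn i)), Finset.sum_mul]

/-- a bound for all monomials -/
private theorem y23_bound (G : L[X][X]) (y₁ y : L) {s r : ℤᵐ⁰}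
    (h : ∀ i j, v ((G.coeff i).coeff j * y₁ ^ j * y ^ i) * s ≤ r) :
    v (G.evalEval y₁ y) * s ≤ r := by
  by_contra hcon
  rw [not_le] at hcon
  have h1 : ∀ i j, v ((G.coeff i).coeff j * y₁ ^ j * y ^ i) < v (G.evalEval y₁ y) := fun i j =>
    lt_of_mul_lt_mul_right (lt_of_le_of_lt (h i j) hcon) zero_le
  have h2 : v (G.evalEval y₁ y) ≠ 0 := (lt_of_le_of_lt zero_le (h1 0 0)).ne'
  have h3 : ∀ i, (G.coeff i).natDegree ≤ (Finset.range (G.natDegree + 1)).sup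
      (fun i => (G.coeff i).natDegree) := by
    intro i
    by_cases hi : i ≤ G.natDegree
    · exact Finset.le_sup (f := fun i => (G.coeff i).natDegree)
        (Finset.mem_range.2 (Nat.lt_succ_of_le hi))
    · rw [coeff_eq_zero_of_natDegree_lt (not_le.1 hi), natDegree_zero]
      exact Nat.zero_le _
  have h4 : v (G.evalEval y₁ y) < v (G.evalEval y₁ y) := by
    conv_lhs => rw [y23_sum G y₁ y le_rfl h3]
    exact Valuation.map_sum_lt v h2 fun i _ => Valuation.map_sum_lt v h2 fun j _ => h1 i j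
  exact lt_irrefl _ h4

/-- the trivial estimate of the value, for a polynomial of total degree at most `Q - 3` -/
theorem eval_le_far {G : L[X][X]} {Q : ℕ} (hG : ∀ i j, (G.coeff i).coeff j ≠ 0 → i + j + 3 ≤ Q)
    {y₁ y : L} (hle : v y ≤ max 1 (v y₁)) :
    v (G.evalEval y₁ y) * max 1 (v y₁) ^ 3 ≤ gg v G * max 1 (v y₁) ^ Q := by
  -- every monomial: `v (y₁ ^ j * y ^ i) ≤ (max 1 (v y₁)) ^ (i + j)`; if `G = 0` trivial
  refine y23_bound v G y₁ y fun i j => ?_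
  by_cases hc : (G.coeff i).coeff j = 0
  · rw [hc, zero_mul, zero_mul, map_zero, zero_mul]
    exact zero_le
  · have h1 := hG i j hc
    have hM : 1 ≤ max 1 (v y₁) := le_max_left _ _
    rw [map_mul, map_mul, map_pow, map_pow]
    calc v ((G.coeff i).coeff j) * v y₁ ^ j * v y ^ i * max 1 (v y₁) ^ 3
        ≤ gg v G * max 1 (v y₁) ^ j * max 1 (v y₁) ^ i * max 1 (v y₁) ^ 3 := by
          gcongr
          · exact le_gg v G i j
          · exact le_max_right _ _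
      _ = gg v G * max 1 (v y₁) ^ (i + j + 3) := by
          rw [pow_add, pow_add, mul_assoc, mul_assoc]
          congr 1
          rw [← mul_assoc, mul_comm (max 1 (v y₁) ^ j)]
      _ ≤ gg v G * max 1 (v y₁) ^ Q := by
          gcongr

/-- the value changes by at most the change of the first coordinate -/
theorem eval_sub_le {G : L[X][X]} {n : ℕ} (hG : Box n G) {ρ τ : ℕ} (hρ : gg v G ≤ exp (ρ : ℤ))
    {y₁ y b : L} (h1 : v y₁ ≤ exp (τ : ℤ)) (h2 : v y ≤ exp (τ : ℤ)) (h3 : v b ≤ exp (τ : ℤ)) :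
    v (G.evalEval y₁ y - G.evalEval b y) ≤ exp ((ρ + 2 * n * τ : ℕ) : ℤ) * v (y₁ - b) := by
  -- `y₁ ^ j - b ^ j` is divisible by `y₁ - b`, the quotient is at most `exp (j * τ)`
  have hτ1 : (1 : ℤᵐ⁰) ≤ exp (τ : ℤ) := by
    rw [← exp_zero, exp_le_exp]
    exact Int.natCast_nonneg _
  have hpw : ∀ j : ℕ, v (y₁ ^ j - b ^ j) ≤ exp (τ : ℤ) ^ j * v (y₁ - b) := by
    intro j
    rw [← (Commute.all y₁ b).geom_sum₂_mul j, map_mul]
    refine mul_le_mul' ?_ le_rfl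
    refine Valuation.map_sum_le v fun k hk => ?_
    rw [map_mul, map_pow, map_pow]
    have hk' := Finset.mem_range.1 hk
    calc v y₁ ^ k * v b ^ (j - 1 - k) ≤ exp (τ : ℤ) ^ k * exp (τ : ℤ) ^ (j - 1 - k) := by
          gcongr
      _ = exp (τ : ℤ) ^ (k + (j - 1 - k)) := (pow_add _ _ _).symm
      _ ≤ exp (τ : ℤ) ^ j := pow_le_pow_right₀ hτ1 (by omega)
  rw [y23_sum G y₁ y hG.1 hG.2, y23_sum G b y hG.1 hG.2, ← Finset.sum_sub_distrib]
  refine Valuation.map_sum_le v fun i hi => ?_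
  rw [← Finset.sum_sub_distrib]
  refine Valuation.map_sum_le v fun j hj => ?_
  have hi' := Finset.mem_range.1 hi
  have hj' := Finset.mem_range.1 hj
  have h4 : (G.coeff i).coeff j * y₁ ^ j * y ^ i - (G.coeff i).coeff j * b ^ j * y ^ i =
      (G.coeff i).coeff j * (y₁ ^ j - b ^ j) * y ^ i := by ring
  have h5 : (exp ((ρ + 2 * n * τ : ℕ) : ℤ) : ℤᵐ⁰) =
      exp (ρ : ℤ) * exp (τ : ℤ) ^ n * exp (τ : ℤ) ^ n := by
    rw [← exp_nsmul, ← exp_add, ← exp_add]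
    congr 1
    push_cast
    simp only [nsmul_eq_mul]
    ring
  rw [h4, map_mul, map_mul, map_pow, h5]
  calc v ((G.coeff i).coeff j) * v (y₁ ^ j - b ^ j) * v y ^ i
      ≤ exp (ρ : ℤ) * (exp (τ : ℤ) ^ j * v (y₁ - b)) * exp (τ : ℤ) ^ i := by
        gcongr
        · exact (le_gg v G i j).trans hρ
        · exact hpw j
    _ ≤ exp (ρ : ℤ) * (exp (τ : ℤ) ^ n * v (y₁ - b)) * exp (τ : ℤ) ^ n := by
        gcongr
        · omega
        · omega
    _ = exp (ρ : ℤ) * exp (τ : ℤ) ^ n * exp (τ : ℤ) ^ n * v (y₁ - b) := by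
        rw [mul_assoc, mul_assoc, mul_assoc, mul_assoc, mul_comm (v (y₁ - b))]

/-- the value of a polynomial in one variable -/
theorem eval_le {H : L[X]} {n : ℕ} (hH : H.natDegree ≤ n) {ρ τ : ℕ} (hρ : gv v H ≤ exp (ρ : ℤ))
    {y : L} (h2 : v y ≤ exp (τ : ℤ)) : v (H.eval y) ≤ exp ((ρ + n * τ : ℕ) : ℤ) := by
  have hτ1 : (1 : ℤᵐ⁰) ≤ exp (τ : ℤ) := by
    rw [← exp_zero, exp_le_exp]
    exact Int.natCast_nonneg _
  have h5 : (exp ((ρ + n * τ : ℕ) : ℤ) : ℤᵐ⁰) = exp (ρ : ℤ) * exp (τ : ℤ) ^ n := by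
    rw [← exp_nsmul, ← exp_add]
    congr 1
  rw [eval_eq_sum_range' (Nat.lt_succ_of_le hH), h5]
  refine Valuation.map_sum_le v fun i hi => ?_
  have hi' := Finset.mem_range.1 hi
  rw [map_mul, map_pow]
  calc v (H.coeff i) * v y ^ i ≤ exp (ρ : ℤ) * exp (τ : ℤ) ^ i := by
        gcongr
        exact (le_gn v H i).trans hρ
    _ ≤ exp (ρ : ℤ) * exp (τ : ℤ) ^ n := by
        gcongr
        omega

/-- The estimate near the fibre over `b`, if the point is not near the points `(b, c)`, `c ∈ J`. -/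
theorem eval_le_near {A G : L[X][X]} {H : L[X]} {n γ : ℕ} (hA : Box n A) (hG : Box γ G) {b : L}
    {J : Finset L} (hH : H.natDegree ≤ n)
    (hGH : G.map (evalRingHom b) * ∏ c ∈ J, (X - C c) = A.map (evalRingHom b) * H)
    {ρ τ : ℕ} (hρA : gg v A ≤ exp (τ : ℤ)) (hρG : gg v G ≤ exp (ρ : ℤ))
    (hρH : gv v H ≤ exp (ρ : ℤ)) {y₁ y : L} (hAy : A.evalEval y₁ y = 0)
    (h1 : v y₁ ≤ exp (τ : ℤ)) (h2 : v y ≤ exp (τ : ℤ)) (h3 : v b ≤ exp (τ : ℤ))
    (hJ : ∀ c ∈ J, exp (-(τ : ℤ)) ≤ v (y - c)) :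
    v (G.evalEval y₁ y) ≤ exp ((ρ + (3 * n + 2 * γ + J.card + 1) * τ : ℕ) : ℤ) * v (y₁ - b) := by
  -- `G (y₁, y) = G (b, y) + (G (y₁, y) - G (b, y))`, the second summand by `eval_sub_le`;
  -- `G (b, y) * ∏ (y - c) = A (b, y) * H y`, `A (b, y) = A (b, y) - A (y₁, y)` by `eval_sub_le`,
  -- `H y` by `eval_le`, `∏ v (y - c) ≥ exp (- card J * τ)`
  have hτ1 : (1 : ℤᵐ⁰) ≤ exp (τ : ℤ) := by
    rw [← exp_zero, exp_le_exp]
    exact Int.natCast_nonneg _
  have e1 := eval_sub_le v hG hρG h1 h2 h3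
  have e2 := eval_sub_le v hA hρA h1 h2 h3
  rw [hAy, zero_sub, Valuation.map_neg] at e2
  have e3 := eval_le v hH hρH h2
  have e4 : G.evalEval b y * ∏ c ∈ J, (y - c) = A.evalEval b y * H.eval y := by
    have h := congrArg (fun P => P.eval y) hGH
    simp only [eval_mul, eval_map_eval, eval_prod, eval_sub, eval_X, eval_C] at h
    exact h
  have e5 : (exp (τ : ℤ) ^ J.card)⁻¹ ≤ v (∏ c ∈ J, (y - c)) := by
    rw [map_prod, ← inv_pow, ← Finset.prod_const, ← exp_neg]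
    exact Finset.prod_le_prod' fun c hc => hJ c hc
  have e6 : v (G.evalEval b y) ≤
      exp (((τ + 2 * n * τ) + (ρ + n * τ) + J.card * τ : ℕ) : ℤ) * v (y₁ - b) := by
    have h4 : v (G.evalEval b y) * (exp (τ : ℤ) ^ J.card)⁻¹ ≤
        (exp ((τ + 2 * n * τ : ℕ) : ℤ) * v (y₁ - b)) * exp ((ρ + n * τ : ℕ) : ℤ) := by
      calc v (G.evalEval b y) * (exp (τ : ℤ) ^ J.card)⁻¹
          ≤ v (G.evalEval b y) * v (∏ c ∈ J, (y - c)) := mul_le_mul' le_rfl e5
        _ = v (A.evalEval b y) * v (H.eval y) := by rw [← map_mul, e4, map_mul]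
        _ ≤ _ := mul_le_mul' e2 e3
    have h6 : (exp (τ : ℤ) : ℤᵐ⁰) ^ J.card ≠ 0 := pow_ne_zero _ exp_ne_zero
    rw [← div_eq_mul_inv, div_le_iff₀ (zero_lt_iff.2 h6)] at h4
    refine h4.trans (le_of_eq ?_)
    rw [mul_comm (exp ((τ + 2 * n * τ : ℕ) : ℤ)) (v (y₁ - b)), mul_assoc, mul_assoc, mul_comm]
    congr 1
    rw [← exp_nsmul, ← exp_add, ← exp_add]
    congr 1
    push_cast
    simp only [nsmul_eq_mul]
    ring
  have e7 : G.evalEval y₁ y = (G.evalEval y₁ y - G.evalEval b y) + G.evalEval b y := by ring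
  rw [e7]
  refine (Valuation.map_add v _ _).trans (max_le ?_ ?_)
  · refine e1.trans (mul_le_mul' ?_ le_rfl)
    rw [exp_le_exp]
    have : ρ + 2 * γ * τ ≤ ρ + (3 * n + 2 * γ + J.card + 1) * τ := by
      nlinarith [Nat.zero_le (n * τ), Nat.zero_le (J.card * τ), Nat.zero_le (γ * τ)]
    exact_mod_cast this
  · refine e6.trans (mul_le_mul' ?_ le_rfl)
    rw [exp_le_exp]
    have : (τ + 2 * n * τ) + (ρ + n * τ) + J.card * τ ≤
        ρ + (3 * n + 2 * γ + J.card + 1) * τ := by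
      nlinarith [Nat.zero_le (n * τ), Nat.zero_le (J.card * τ), Nat.zero_le (γ * τ)]
    exact_mod_cast this

end Pool.Agent.Lib.MP_44a246_ntY
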