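import Mathlib
import Pool.Agent.Lib.MP_44a246_ntY.Y09
import Pool.Agent.Lib.MP_44a246_ntY.Y22
import Pool.Agent.Lib.MP_44a246_ntY.Y23

/-!
The local estimate at the places where the point is not near the points of `S`.
-/

namespace Pool.Agent.Lib.MP_44a246_ntY

open Pool.Agent.Lib.MP_44a246_nt
open Pool.Agent.Lib.MP_44a246_ntL
open Pool.Agent.Lib.MP_44a246_ntS
open WithZero Polynomial

/-- the constant of the local estimate -/
def cL (n q : ℕ) : ℕ := cI n q + 3 * n + 5 * q + 3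

section

variable {L : Type*} [Field L] (v : Valuation L ℤᵐ⁰)

private theorem y24a_log_ge {x : ℤᵐ⁰} {a : ℤ} (h : exp a ≤ x) : a ≤ log x := by
  have hx : x ≠ 0 := (lt_of_lt_of_le exp_pos h).ne'
  rw [← log_exp a]
  exact (log_le_log exp_ne_zero hx).2 h

private theorem y24a_log_le {x : ℤᵐ⁰} {a : ℤ} (hx : x ≠ 0) (h : x ≤ exp a) : log x ≤ a :=
  (log_le_iff_le_exp hx).2 h

private theorem y24a_far {y₁ b : L} {τ : ℕ} (hb : v b ≤ exp (τ : ℤ))
    (h : exp (-(τ : ℤ)) ≤ v (y₁ - b)) :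
    log (max 1 (v y₁)) ≤ log (v (y₁ - b)) + 2 * τ := by
  have h0 : (max 1 (v y₁) : ℤᵐ⁰) ≠ 0 := (lt_of_lt_of_le zero_lt_one (le_max_left _ _)).ne'
  have h1 := y24a_log_ge h
  by_cases hc : (max 1 (v y₁) : ℤᵐ⁰) ≤ exp (τ : ℤ)
  · have h2 := y24a_log_le h0 hc
    linarith
  · rw [not_le] at hc
    have h3 : (1 : ℤᵐ⁰) ≤ exp (τ : ℤ) := by
      rw [← exp_zero, exp_le_exp]; positivity
    have h4 : exp (τ : ℤ) < v y₁ := by
      rcases lt_max_iff.1 hc with h5 | h5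
      · exact absurd h5 (not_lt.2 h3)
      · exact h5
    have h5 : max 1 (v y₁) = v y₁ := max_eq_right (h3.trans h4.le)
    have h6 : v (y₁ - b) = v y₁ := Valuation.map_sub_eq_of_lt_left v (lt_of_le_of_lt hb h4)
    rw [h5, h6]
    have : (0 : ℤ) ≤ τ := by positivity
    linarith

private theorem y24a_box {G : L[X][X]} {Q γ : ℕ} (hG0 : G ≠ 0)
    (hG : ∀ i j, (G.coeff i).coeff j ≠ 0 → i + j + 3 ≤ Q) (hQ : Q ≤ γ) : Box γ G := by
  constructor
  · have h1 : G.coeff G.natDegree ≠ 0 := by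
      rw [coeff_natDegree, leadingCoeff_ne_zero]; exact hG0
    have h2 : (G.coeff G.natDegree).coeff (G.coeff G.natDegree).natDegree ≠ 0 := by
      rw [coeff_natDegree, leadingCoeff_ne_zero]; exact h1
    have := hG _ _ h2
    omega
  · intro i
    by_cases hi : G.coeff i = 0
    · rw [hi, natDegree_zero]; exact Nat.zero_le _
    · have h2 : (G.coeff i).coeff (G.coeff i).natDegree ≠ 0 := by
        rw [coeff_natDegree, leadingCoeff_ne_zero]; exact hi
      have := hG _ _ h2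
      omega

open Classical in
/-- The local estimate at a place where the point is not near the points of `S`. -/
theorem interp_local {A G : L[X][X]} {H : L → L[X]} {n ρ τ : ℕ} {S : Finset (L × L)}
    (hbox : Box n A) (hGd : G.natDegree < A.natDegree)
    (hG : ∀ i j, (G.coeff i).coeff j ≠ 0 → i + j + 3 ≤ (S.image Prod.fst).card)
    (hH : ∀ b ∈ S.image Prod.fst, (H b).natDegree ≤ A.natDegree ∧
        G.map (evalRingHom b) * ∏ c ∈ (S.filter fun e => e.1 = b).image Prod.snd, (X - C c) =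
          A.map (evalRingHom b) * H b)
    (hρA : gg v A ≤ exp (τ : ℤ)) (hρG : gg v G ≤ exp (ρ : ℤ))
    (hρH : ∀ b ∈ S.image Prod.fst, gv v (H b) ≤ exp (ρ : ℤ))
    (hτ : ∀ e ∈ S, v e.1 ≤ exp (τ : ℤ) ∧ v e.2 ≤ exp (τ : ℤ))
    (hsep : ∀ e ∈ S, ∀ e' ∈ S, e.1 ≠ e'.1 → exp (-(τ : ℤ)) ≤ v (e.1 - e'.1))
    {y₁ y : L} (hAy : A.evalEval y₁ y = 0) (hle : v y ≤ max 1 (v y₁))
    (hnear : ∀ e ∈ S, exp (-(τ : ℤ)) ≤ max (v (y₁ - e.1)) (v (y - e.2)))
    (hG0 : G.evalEval y₁ y ≠ 0) (hy : ∀ e ∈ S, y₁ ≠ e.1) :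
    log (v (G.evalEval y₁ y)) + 3 * log (max 1 (v y₁)) ≤
      ρ + (3 * n + 5 * S.card + 3) * τ + (S.image Prod.fst).card * log (max 1 (v y₁)) -
        ∑ b ∈ S.image Prod.fst, dd v y₁ b := by
  -- i.e. `log |G| + 3 l ≤ ρ + (..) τ + ∑ b, log |y₁ - b|`, with `l = log (max 1 (v y₁))`.
  -- Case A: `|y₁ - b| ≥ exp (-τ)` for all `b`.  Then `log |y₁ - b| ≥ l - 2 τ`, and `eval_le_far`.
  -- Case B: `|y₁ - b₀| < exp (-τ)`.  Then `l ≤ τ`, `|y₁ - b| ≥ exp (-τ)` for `b ≠ b₀`, and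
  -- `|y - c| ≥ exp (-τ)` for the points `(b₀, c)` of `S`: `eval_le_near` (with `γ = card S`;
  -- `G ≠ 0`, so `Box (card S) G` by `hG`).
  have hQS : (S.image Prod.fst).card ≤ S.card := Finset.card_image_le
  have hmem : ∀ b ∈ S.image Prod.fst, ∃ e ∈ S, e.1 = b := fun b hb => Finset.mem_image.1 hb
  have hvb : ∀ b ∈ S.image Prod.fst, v b ≤ exp (τ : ℤ) := by
    intro b hb
    obtain ⟨e, he, rfl⟩ := hmem b hb
    exact (hτ e he).1
  have hyb : ∀ b ∈ S.image Prod.fst, y₁ - b ≠ 0 := by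
    intro b hb
    obtain ⟨e, he, rfl⟩ := hmem b hb
    exact sub_ne_zero.2 (hy e he)
  have hvG : v (G.evalEval y₁ y) ≠ 0 := (v.ne_zero_iff).2 hG0
  have hG1 : G ≠ 0 := by
    rintro rfl
    apply hG0
    simp
  have hm0 : (max 1 (v y₁) : ℤᵐ⁰) ≠ 0 := (lt_of_lt_of_le zero_lt_one (le_max_left _ _)).ne'
  have hsum : ∑ b ∈ S.image Prod.fst, dd v y₁ b =
      (S.image Prod.fst).card * log (max 1 (v y₁)) -
        ∑ b ∈ S.image Prod.fst, log (v (y₁ - b)) := by
    unfold dd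
    rw [Finset.sum_sub_distrib, Finset.sum_const, nsmul_eq_mul]
  rw [hsum]
  have hτ0 : (0 : ℤ) ≤ τ := by positivity
  have hQS' : ((S.image Prod.fst).card : ℤ) ≤ S.card := by exact_mod_cast hQS
  by_cases hfar : ∀ b ∈ S.image Prod.fst, exp (-(τ : ℤ)) ≤ v (y₁ - b)
  · -- Case A
    have h1 := eval_le_far v hG hle
    have h2 : log (v (G.evalEval y₁ y)) + 3 * log (max 1 (v y₁)) ≤
        ρ + (S.image Prod.fst).card * log (max 1 (v y₁)) := by
      have h3 : v (G.evalEval y₁ y) * max 1 (v y₁) ^ 3 ≤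
          exp (ρ : ℤ) * max 1 (v y₁) ^ (S.image Prod.fst).card :=
        h1.trans (mul_le_mul_left hρG _)
      have h4 := (log_le_log (mul_ne_zero hvG (pow_ne_zero _ hm0))
        (mul_ne_zero exp_ne_zero (pow_ne_zero _ hm0))).2 h3
      rw [log_mul hvG (pow_ne_zero _ hm0), log_mul exp_ne_zero (pow_ne_zero _ hm0), log_pow,
        log_pow, log_exp, nsmul_eq_mul, nsmul_eq_mul] at h4
      push_cast at h4
      exact h4
    have h5 : (S.image Prod.fst).card * log (max 1 (v y₁)) ≤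
        ∑ b ∈ S.image Prod.fst, log (v (y₁ - b)) + (S.image Prod.fst).card * (2 * τ) := by
      have h6 : ∑ b ∈ S.image Prod.fst, log (max 1 (v y₁)) ≤
          ∑ b ∈ S.image Prod.fst, (log (v (y₁ - b)) + 2 * τ) :=
        Finset.sum_le_sum fun b hb => y24a_far v (hvb b hb) (hfar b hb)
      rw [Finset.sum_const, nsmul_eq_mul, Finset.sum_add_distrib, Finset.sum_const,
        nsmul_eq_mul] at h6
      exact h6
    have h7 : ((S.image Prod.fst).card : ℤ) * (2 * τ) ≤ S.card * (2 * τ) :=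
      mul_le_mul_of_nonneg_right hQS' (by positivity)
    have h8 : (0 : ℤ) ≤ (3 * n + 3 * S.card + 3) * τ := by positivity
    nlinarith
  · -- Case B
    push Not at hfar
    obtain ⟨b₀, hb₀, hlt⟩ := hfar
    have hle1 : exp (-(τ : ℤ)) ≤ exp (τ : ℤ) := exp_le_exp.2 (by linarith)
    have h1le : (1 : ℤᵐ⁰) ≤ exp (τ : ℤ) := by
      rw [← exp_zero, exp_le_exp]; exact hτ0
    have hy₁ : v y₁ ≤ exp (τ : ℤ) := by
      have h1 : y₁ = (y₁ - b₀) + b₀ := by ring
      rw [h1]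
      exact (v.map_add _ _).trans (max_le (hlt.le.trans hle1) (hvb b₀ hb₀))
    have hy2 : v y ≤ exp (τ : ℤ) := hle.trans (max_le h1le hy₁)
    have hl : log (max 1 (v y₁)) ≤ τ := y24a_log_le hm0 (max_le h1le hy₁)
    have hoth : ∀ b ∈ (S.image Prod.fst).erase b₀, -(τ : ℤ) ≤ log (v (y₁ - b)) := by
      intro b hb
      obtain ⟨hne, hb⟩ := Finset.mem_erase.1 hb
      obtain ⟨e, he, rfl⟩ := hmem b hb
      obtain ⟨e₀, he₀, rfl⟩ := hmem b₀ hb₀
      have h1 : exp (-(τ : ℤ)) ≤ v (e₀.1 - e.1) := hsep e₀ he₀ e he hne.symm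
      have h2 : v (y₁ - e₀.1) < v (e₀.1 - e.1) := lt_of_lt_of_le hlt h1
      have h3 : v (y₁ - e.1) = v (e₀.1 - e.1) := by
        have h4 : y₁ - e.1 = (y₁ - e₀.1) + (e₀.1 - e.1) := by ring
        rw [h4]
        exact Valuation.map_add_eq_of_lt_right v h2
      rw [h3]
      exact y24a_log_ge h1
    have hJ : ∀ c ∈ (S.filter fun e => e.1 = b₀).image Prod.snd, exp (-(τ : ℤ)) ≤ v (y - c) := by
      intro c hc
      obtain ⟨e, he, rfl⟩ := Finset.mem_image.1 hc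
      obtain ⟨heS, heb⟩ := Finset.mem_filter.1 he
      have h1 := hnear e heS
      rw [heb] at h1
      rcases le_max_iff.1 h1 with h2 | h2
      · exact absurd h2 (not_le.2 hlt)
      · exact h2
    have hJc : (((S.filter fun e => e.1 = b₀).image Prod.snd).card : ℤ) ≤ S.card := by
      exact_mod_cast Finset.card_image_le.trans (Finset.card_filter_le _ _)
    have h1 := eval_le_near v hbox (y24a_box hG1 hG hQS) ((hH b₀ hb₀).1.trans hbox.1)
      (hH b₀ hb₀).2 hρA hρG (hρH b₀ hb₀) hAy hy₁ hy2 (hvb b₀ hb₀) hJ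
    have hv0 : v (y₁ - b₀) ≠ 0 := (v.ne_zero_iff).2 (hyb b₀ hb₀)
    have h2 := (log_le_log hvG (mul_ne_zero exp_ne_zero hv0)).2 h1
    rw [log_mul exp_ne_zero hv0, log_exp] at h2
    push_cast at h2
    have h3 : ∑ b ∈ S.image Prod.fst, log (v (y₁ - b)) =
        ∑ b ∈ (S.image Prod.fst).erase b₀, log (v (y₁ - b)) + log (v (y₁ - b₀)) :=
      (Finset.sum_erase_add _ _ hb₀).symm
    have h4 : ((S.image Prod.fst).erase b₀).card * (-(τ : ℤ)) ≤
        ∑ b ∈ (S.image Prod.fst).erase b₀, log (v (y₁ - b)) := by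
      have h5 := Finset.card_nsmul_le_sum _ _ _ hoth
      rwa [nsmul_eq_mul] at h5
    have h6 : (((S.image Prod.fst).erase b₀).card : ℤ) ≤ S.card := by
      exact_mod_cast ((Finset.card_erase_le).trans hQS)
    have h7 : (((S.image Prod.fst).erase b₀).card : ℤ) * τ ≤ S.card * τ :=
      mul_le_mul_of_nonneg_right h6 hτ0
    have h8 : (((S.filter fun e => e.1 = b₀).image Prod.snd).card : ℤ) * τ ≤ S.card * τ :=
      mul_le_mul_of_nonneg_right hJc hτ0
    have hS1 : (1 : ℤ) * τ ≤ S.card * τ := by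
      apply mul_le_mul_of_nonneg_right _ hτ0
      obtain ⟨e, he, -⟩ := hmem b₀ hb₀
      exact_mod_cast Finset.card_pos.2 ⟨e, he⟩
    rw [h3]
    nlinarith

end

end Pool.Agent.Lib.MP_44a246_ntY
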