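import Mathlib
import Pool.Agent.Lib.MP_44a246_ntS.SJ4c
import Pool.Agent.Lib.MP_44a246_ntY.Y24a

/-!
The sum of the proximities to the points of the curve is at least three times the height.
-/

namespace Pool.Agent.Lib.MP_44a246_ntY

open Pool.Agent.Lib.MP_44a246_nt
open Pool.Agent.Lib.MP_44a246_ntL
open Pool.Agent.Lib.MP_44a246_ntS
open WithZero Polynomial

variable {κ L : Type*} [Field κ] [IsAlgClosed κ] [CharZero κ] [Field L] [Algebra κ L]

open Classical in
/-- **Interpolation inequality**: the proximities to the first coordinates of the points of `S`, at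
the places where the point is near a point of `S`, add up to at least three times the height. -/
theorem interp_ineq (h : IsFF κ L) {τ : Place κ L → ℕ} (hτf : (Function.support τ).Finite)
    {n : ℕ} {A : L[X][X]} (hA : Irreducible A) (hbox : Box n A) (hdeg : A.natDegree ≠ 0)
    {S : Finset (L × L)} (hS : ∀ e ∈ S, A.evalEval e.1 e.2 = 0)
    (hcard : 2 * A.natDegree + A.natDegree * (A.natDegree - 1) / 2 < S.card)
    (hρA : ∀ w : Place κ L, gg w.1 A ≤ exp (τ w : ℤ))
    (hτ : ∀ w : Place κ L, ∀ e ∈ S, w.1 e.1 ≤ exp (τ w : ℤ) ∧ w.1 e.2 ≤ exp (τ w : ℤ))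
    (hsep : ∀ w : Place κ L, ∀ e ∈ S, ∀ e' ∈ S, e.1 ≠ e'.1 →
      exp (-(τ w : ℤ)) ≤ w.1 (e.1 - e'.1))
    {y₁ y : L} (hAy : A.evalEval y₁ y = 0) (hle : ∀ w : Place κ L, w.1 y ≤ max 1 (w.1 y₁))
    {P : Finset (Place κ L)}
    (hnear : ∀ w : Place κ L, w ∉ P → ∀ e ∈ S,
      exp (-(τ w : ℤ)) ≤ max (w.1 (y₁ - e.1)) (w.1 (y - e.2)))
    (hy : ∀ e ∈ S, y₁ ≠ e.1) :
    height κ ![1, y₁] ≤ n * (1 + cI n S.card) * ∑ᶠ w, (τ w : ℤ) ∨
    3 * height κ ![1, y₁] ≤ ∑ w ∈ P, ∑ b ∈ S.image Prod.fst, dd w.1 y₁ b +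
      (cL n S.card + S.card) * ∑ᶠ w, (τ w : ℤ) := by
  classical
  obtain ⟨G, H, hG0, hGd, hG, hH, hloc⟩ := exists_interp hA hbox hdeg hS hcard
  set q := S.card with hq
  set B := S.image Prod.fst with hB
  have hTsup : (Function.support fun w : Place κ L => (τ w : ℤ)).Finite :=
    hτf.subset fun w hw h0 => hw (by simp only; rw [h0]; rfl)
  have hT0 : 0 ≤ ∑ᶠ w : Place κ L, (τ w : ℤ) := finsum_nonneg fun w => Int.natCast_nonneg _
  have hA' : A ≠ 0 := hA.ne_zero
  have hcsup : ∀ c : ℤ, (Function.support fun w : Place κ L => c * (τ w : ℤ)).Finite := fun c =>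
    hTsup.subset fun w hw h0 => hw (by simp only at h0 ⊢; rw [h0, mul_zero])
  by_cases hg : G.evalEval y₁ y = 0
  · left
    by_contra hcon
    rw [not_le] at hcon
    have hghA : gh κ A ≤ ∑ᶠ w : Place κ L, (τ w : ℤ) := by
      refine finsum_mono (gg_support h hA') hTsup fun w => ?_
      have h0 : gg w.1 A ≠ 0 := fun h0 => hA' ((gg_eq_zero w.1).1 h0)
      exact (log_le_iff_le_exp h0).2 (hρA w)
    have hghG : gh κ G ≤ (cI n q : ℤ) * ∑ᶠ w : Place κ L, (τ w : ℤ) := by
      rw [mul_finsum]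
      refine finsum_mono (gg_support h hG0) (hcsup _) fun w => ?_
      have h0 : gg w.1 G ≠ 0 := fun h0 => hG0 ((gg_eq_zero w.1).1 h0)
      have h1 := (hloc w.1 (τ w) (hρA w) (hτ w)).1
      have h2 := (log_le_iff_le_exp h0).2 h1
      push_cast at h2
      exact h2
    have hm : (A.natDegree : ℤ) ≤ n := by exact_mod_cast hbox.1
    have hGm : (G.natDegree : ℤ) ≤ n := by
      have : G.natDegree ≤ n := hGd.le.trans hbox.1
      exact_mod_cast this
    have e1 : (G.natDegree : ℤ) * gh κ A ≤ n * ∑ᶠ w : Place κ L, (τ w : ℤ) :=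
      (mul_le_mul_of_nonneg_left hghA (Int.natCast_nonneg _)).trans
        (mul_le_mul_of_nonneg_right hGm hT0)
    have e2 : (A.natDegree : ℤ) * gh κ G ≤ n * (cI n q * ∑ᶠ w : Place κ L, (τ w : ℤ)) :=
      (mul_le_mul_of_nonneg_left hghG (Int.natCast_nonneg _)).trans
        (mul_le_mul_of_nonneg_right hm (mul_nonneg (Int.natCast_nonneg _) hT0))
    have hdvd : A ∣ G := by
      refine bez h hA hdeg hAy hg ?_
      have e3 : (n : ℤ) * (1 + cI n q) * ∑ᶠ w : Place κ L, (τ w : ℤ) =
          n * ∑ᶠ w : Place κ L, (τ w : ℤ) + n * (cI n q * ∑ᶠ w : Place κ L, (τ w : ℤ)) := by ring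
      rw [e3] at hcon
      linarith
    exact absurd (natDegree_le_of_dvd hdvd hG0) (by omega)
  · right
    have hyB : ∀ b ∈ B, y₁ ≠ b := by
      intro b hb
      obtain ⟨e, he, rfl⟩ := Finset.mem_image.1 hb
      exact hy e he
    have hDs : (Function.support fun w : Place κ L => ∑ b ∈ B, dd w.1 y₁ b).Finite := by
      refine (B.finite_toSet.biUnion (t := fun b => Function.support fun w : Place κ L =>
        dd w.1 y₁ b) fun b hb => dd_support h (hyB b hb)).subset fun w hw => ?_
      by_contra hcon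
      apply hw
      simp only [Set.mem_iUnion, not_exists, Function.mem_support, not_not] at hcon
      exact Finset.sum_eq_zero fun b hb => hcon b hb
    have hDsum : ∑ᶠ w : Place κ L, ∑ b ∈ B, dd w.1 y₁ b = (B.card : ℤ) * height κ ![1, y₁] := by
      rw [finsum_sum_comm B (fun (w : Place κ L) b => dd w.1 y₁ b)
        fun b hb => dd_support h (hyB b hb),
        Finset.sum_congr rfl fun b hb => dd_total h (hyB b hb), Finset.sum_const, nsmul_eq_mul]
    have hPs : (Function.support fun w : Place κ L =>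
        if w ∈ P then ∑ b ∈ B, dd w.1 y₁ b else 0).Finite := by
      refine P.finite_toSet.subset fun w hw => ?_
      by_contra hcon
      exact hw (if_neg hcon)
    have hPsum : ∑ᶠ w : Place κ L, (if w ∈ P then ∑ b ∈ B, dd w.1 y₁ b else 0) =
        ∑ w ∈ P, ∑ b ∈ B, dd w.1 y₁ b := by
      rw [finsum_eq_sum_of_support_subset (s := P)]
      · exact Finset.sum_congr rfl fun w hw => if_pos hw
      · intro w hw
        by_contra hcon
        exact hw (if_neg hcon)
    have hls := log_max_support h y₁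
    have hl3 : ∀ c : ℤ, (Function.support fun w : Place κ L =>
        c * log (max 1 (w.1 y₁))).Finite := fun c =>
      hls.subset fun w hw h0 => hw (by simp only at h0 ⊢; rw [h0, mul_zero])
    have hgs : (Function.support fun w : Place κ L => log (w.1 (G.evalEval y₁ y))).Finite := by
      refine (h.place_finite hg).subset fun w hw h1 => hw ?_
      simp only
      rw [h1, log_one]
    have key : ∀ w : Place κ L, log (w.1 (G.evalEval y₁ y)) + 3 * log (max 1 (w.1 y₁)) ≤
        (cL n q : ℤ) * (τ w : ℤ) + (B.card : ℤ) * log (max 1 (w.1 y₁)) -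
          ∑ b ∈ B, dd w.1 y₁ b + (if w ∈ P then ∑ b ∈ B, dd w.1 y₁ b else 0) := by
      intro w
      obtain ⟨hl1, hl2⟩ := hloc w.1 (τ w) (hρA w) (hτ w)
      by_cases hw : w ∈ P
      · rw [if_pos hw]
        have e1 := eval_le_far w.1 hG (hle w)
        have hM : max 1 (w.1 y₁) ≠ 0 := (lt_of_lt_of_le zero_lt_one (le_max_left _ _)).ne'
        have hw0 : w.1 (G.evalEval y₁ y) ≠ 0 := (w.1.ne_zero_iff).2 hg
        have hgg : gg w.1 G ≠ 0 := fun h0 => hG0 ((gg_eq_zero w.1).1 h0)
        have e2 := (log_le_log (mul_ne_zero hw0 (pow_ne_zero _ hM))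
          (mul_ne_zero hgg (pow_ne_zero _ hM))).2 e1
        rw [log_mul hw0 (pow_ne_zero _ hM), log_mul hgg (pow_ne_zero _ hM), log_pow, log_pow,
          nsmul_eq_mul, nsmul_eq_mul] at e2
        have e3 := (log_le_iff_le_exp hgg).2 hl1
        have e4 : (cI n q : ℤ) * (τ w : ℤ) ≤ (cL n q : ℤ) * (τ w : ℤ) := by
          refine mul_le_mul_of_nonneg_right ?_ (Int.natCast_nonneg _)
          unfold cL
          push_cast
          have : (0 : ℤ) ≤ n := Int.natCast_nonneg _
          have : (0 : ℤ) ≤ q := Int.natCast_nonneg _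
          linarith
        push_cast at e2 e3
        linarith
      · rw [if_neg hw, add_zero]
        have e1 := interp_local w.1 hbox hGd hG hH (hρA w) hl1 hl2 (hτ w) (hsep w) hAy (hle w)
          (hnear w hw) hg hy
        unfold cL
        push_cast at e1 ⊢
        linarith
    have s1 : (Function.support fun w : Place κ L => log (w.1 (G.evalEval y₁ y)) +
        3 * log (max 1 (w.1 y₁))).Finite :=
      (hgs.union (hl3 3)).subset (Function.support_add _ _)
    have s2 : (Function.support fun w : Place κ L => (cL n q : ℤ) * (τ w : ℤ) +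
        (B.card : ℤ) * log (max 1 (w.1 y₁))).Finite :=
      ((hcsup _).union (hl3 _)).subset (Function.support_add _ _)
    have s3 : (Function.support fun w : Place κ L => (cL n q : ℤ) * (τ w : ℤ) +
        (B.card : ℤ) * log (max 1 (w.1 y₁)) - ∑ b ∈ B, dd w.1 y₁ b).Finite :=
      (s2.union hDs).subset (Function.support_sub _ _)
    have s4 : (Function.support fun w : Place κ L => (cL n q : ℤ) * (τ w : ℤ) +
        (B.card : ℤ) * log (max 1 (w.1 y₁)) - ∑ b ∈ B, dd w.1 y₁ b +
        (if w ∈ P then ∑ b ∈ B, dd w.1 y₁ b else 0)).Finite :=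
      (s3.union hPs).subset (Function.support_add _ _)
    have hsum := finsum_mono s1 s4 key
    rw [finsum_add_distrib hgs (hl3 3), h.product_formula hg, ← mul_finsum, ← height_one,
      finsum_add_distrib s3 hPs, finsum_sub_distrib s2 hDs, finsum_add_distrib (hcsup _) (hl3 _),
      ← mul_finsum, ← mul_finsum, ← height_one, hDsum, hPsum] at hsum
    have h0 : 0 ≤ (q : ℤ) * ∑ᶠ w : Place κ L, (τ w : ℤ) :=
      mul_nonneg (Int.natCast_nonneg _) hT0
    rw [add_mul]
    linarith

end Pool.Agent.Lib.MP_44a246_ntY
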