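import Mathlib
import Pool.Agent.Lib.MP_44a246_ntY.Y11
import Pool.Agent.Lib.MP_44a246_ntY.Y24

/-!
Points of a moving plane curve which are near moving points of the curve only at few places.
-/

namespace Pool.Agent.Lib.MP_44a246_ntY

open Pool.Agent.Lib.MP_44a246_nt
open Pool.Agent.Lib.MP_44a246_ntL
open Pool.Agent.Lib.MP_44a246_ntS
open WithZero Polynomial

/-- the constant of the theorem -/
noncomputable def cF (n q : ℕ) : ℕ :=
  (∑ Q ∈ Finset.range (q + 1), cM Q) + 4 * (cL n q + q) + n * (1 + cI n q) + 1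

variable {κ L : Type*} [Field κ] [IsAlgClosed κ] [CharZero κ] [Field L] [Algebra κ L]

/-- **Moving points of a moving plane curve.** Let `A` be an irreducible polynomial over a function
field `L` of one variable, of positive degree `m` in `Y` and degrees at most `n`, and `S` a set of
more than `2 m + m (m - 1) / 2` points of the curve `A = 0`. The height of every point `(y₁, y)` of
the curve is bounded by the number of places at which it is near a point of `S`, the poles of a
derivation, and the heights of `A` and of the points of `S`. -/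
theorem moving_curve (h : IsFF κ L) (D : Derivation κ L L) (hD : ∃ s, D s ≠ 0)
    {β τ : Place κ L → ℕ} (hβ : (Function.support β).Finite) (hτf : (Function.support τ).Finite)
    (hpole : ∀ w : Place κ L, ∀ y, w.1 y ≤ 1 → w.1 (D y) ≤ exp (β w : ℤ))
    {n : ℕ} {A : L[X][X]} (hA : Irreducible A) (hbox : Box n A) (hdeg : A.natDegree ≠ 0)
    {S : Finset (L × L)} (hS : ∀ e ∈ S, A.evalEval e.1 e.2 = 0)
    (hcard : 2 * A.natDegree + A.natDegree * (A.natDegree - 1) / 2 < S.card)
    (hρA : ∀ w : Place κ L, gg w.1 A ≤ exp (τ w : ℤ))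
    (hτ : ∀ w : Place κ L, ∀ e ∈ S, w.1 e.1 ≤ exp (τ w : ℤ) ∧ w.1 e.2 ≤ exp (τ w : ℤ))
    (hsep : ∀ w : Place κ L, ∀ e ∈ S, ∀ e' ∈ S, e.1 ≠ e'.1 →
      exp (-(τ w : ℤ)) ≤ w.1 (e.1 - e'.1))
    {y₁ y : L} (hAy : A.evalEval y₁ y = 0) (hle : ∀ w : Place κ L, w.1 y ≤ max 1 (w.1 y₁))
    {P : Finset (Place κ L)}
    (hnear : ∀ w : Place κ L, w ∉ P → ∀ e ∈ S,
      exp (-(τ w : ℤ)) ≤ max (w.1 (y₁ - e.1)) (w.1 (y - e.2))) :
    height κ ![1, y₁] ≤
      cF n S.card * (P.card + ∑ᶠ w, (β w : ℤ) + ∑ᶠ w, (τ w : ℤ)) := by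
  -- If `y₁ = e.1` for some `e ∈ S`: `height ≤ ∑ τ`.  Otherwise `interp_ineq` and `moving_points`
  -- for `B = S.image fst` (`card B ≤ card S`, so `cM (card B)` is one of the terms of `cF`):
  -- `12 h ≤ 9 h + cM * (..) + 4 (cL + q) ∑ τ`.
  classical
  set T : ℤ := P.card + ∑ᶠ w, (β w : ℤ) + ∑ᶠ w, (τ w : ℤ) with hT
  have hβ0 : 0 ≤ ∑ᶠ w, (β w : ℤ) := finsum_nonneg fun w => Int.natCast_nonneg _
  have hτ0 : 0 ≤ ∑ᶠ w, (τ w : ℤ) := finsum_nonneg fun w => Int.natCast_nonneg _
  have hP0 : (0 : ℤ) ≤ P.card := Int.natCast_nonneg _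
  have hT0 : 0 ≤ T := by omega
  have hτT : ∑ᶠ w, (τ w : ℤ) ≤ T := by omega
  -- the constant
  have key : ∀ (C : ℕ) (x : ℤ), C ≤ cF n S.card → x ≤ C * T → x ≤ cF n S.card * T := by
    intro C x hC hx
    refine hx.trans (mul_le_mul_of_nonneg_right ?_ hT0)
    exact_mod_cast hC
  by_cases hy : ∃ e ∈ S, y₁ = e.1
  · obtain ⟨e, he, hye⟩ := hy
    refine key 1 _ (by unfold cF; omega) ?_
    rw [height_one, Nat.cast_one, one_mul]
    refine le_trans (finsum_mono (log_max_support h y₁) ?_ fun w => ?_) hτT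
    · refine hτf.subset fun w hw => ?_
      rw [Function.mem_support] at hw ⊢
      exact_mod_cast hw
    · have h1 : max 1 (w.1 y₁) ≤ exp (τ w : ℤ) := by
        refine max_le ?_ (by rw [hye]; exact (hτ w e he).1)
        rw [← exp_zero, exp_le_exp]
        exact Int.natCast_nonneg _
      have h2 : max 1 (w.1 y₁) ≠ 0 := (lt_of_lt_of_le zero_lt_one (le_max_left _ _)).ne'
      have h3 := (log_le_log h2 exp_ne_zero).2 h1
      rwa [log_exp] at h3
  · push Not at hy
    have hB : ∀ w : Place κ L, ∀ b ∈ S.image Prod.fst, w.1 b ≤ exp (τ w : ℤ) := by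
      intro w b hb
      obtain ⟨e, he, rfl⟩ := Finset.mem_image.1 hb
      exact (hτ w e he).1
    have hsepB : ∀ w : Place κ L, ∀ b ∈ S.image Prod.fst, ∀ b' ∈ S.image Prod.fst, b ≠ b' →
        exp (-(τ w : ℤ)) ≤ w.1 (b - b') := by
      intro w b hb b' hb' hne
      obtain ⟨e, he, rfl⟩ := Finset.mem_image.1 hb
      obtain ⟨e', he', rfl⟩ := Finset.mem_image.1 hb'
      exact hsep w e he e' he' hne
    have hyB : y₁ ∉ S.image Prod.fst := by
      intro hb
      obtain ⟨e, he, h1⟩ := Finset.mem_image.1 hb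
      exact hy e he h1.symm
    have h1 := moving_points h D hD hβ hτf hpole hB hsepB hyB P
    have h2 := interp_ineq h hτf hA hbox hdeg hS hcard hρA hτ hsep hAy hle hnear hy
    have hcB : cM (S.image Prod.fst).card ≤ ∑ Q ∈ Finset.range (S.card + 1), cM Q := by
      refine Finset.single_le_sum (f := cM) (fun _ _ => Nat.zero_le _) ?_
      rw [Finset.mem_range]
      exact Nat.lt_succ_of_le Finset.card_image_le
    rcases h2 with h2 | h2
    · refine key (n * (1 + cI n S.card)) _ (by unfold cF; omega) ?_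
      refine h2.trans ?_
      push_cast
      exact mul_le_mul_of_nonneg_left hτT (by positivity)
    · refine key (cM (S.image Prod.fst).card + 4 * (cL n S.card + S.card)) _
        (by unfold cF; omega) ?_
      have h3 : ((cL n S.card + S.card : ℕ) : ℤ) * ∑ᶠ w, (τ w : ℤ) ≤
          ((cL n S.card + S.card : ℕ) : ℤ) * T := mul_le_mul_of_nonneg_left hτT (by positivity)
      push_cast at h3 ⊢
      rw [← hT] at h1
      have h4 : (0 : ℤ) ≤ (cM (S.image Prod.fst).card + 4 * (cL n S.card + S.card)) * T :=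
        mul_nonneg (by positivity) hT0
      have h5 : 3 * height κ ![1, y₁] ≤
          (cM (S.image Prod.fst).card + 4 * (cL n S.card + S.card)) * T := by
        rw [add_mul, mul_assoc 4]
        linarith
      omega

end Pool.Agent.Lib.MP_44a246_ntY
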