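import Mathlib
import Pool.Agent.Lib.MP_44a246_ntS.SJ4c
import Pool.Agent.Lib.MP_44a246_ntY.Y09
import Pool.Agent.Lib.MP_44a246_ntY.Y21

/-!
Heights of the coordinates of common zeros, positive parts.
-/

namespace Pool.Agent.Lib.MP_44a246_ntY

open Pool.Agent.Lib.MP_44a246_nt
open Pool.Agent.Lib.MP_44a246_ntL
open Pool.Agent.Lib.MP_44a246_ntS
open WithZero Polynomial

variable {κ L : Type*} [Field κ] [IsAlgClosed κ] [CharZero κ] [Field L] [Algebra κ L]

omit [IsAlgClosed κ] [CharZero κ] in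
private theorem y34_supp {τ : Place κ L → ℕ} (hτ : (Function.support τ).Finite) (c : ℤ) :
    (Function.support fun w : Place κ L => c * (τ w : ℤ)).Finite := by
  refine hτ.subset fun w hw h0 => hw ?_
  simp only at h0 ⊢
  rw [h0, Nat.cast_zero, mul_zero]

private theorem y34_logs (h : IsFF κ L) (y : L) (c : ℤ) :
    (Function.support fun w : Place κ L => c * log (max 1 (w.1 y))).Finite := by
  refine (log_max_support h y).subset fun w hw h0 => hw ?_
  simp only at h0 ⊢
  rw [h0, mul_zero]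

omit [IsAlgClosed κ] [CharZero κ] in
private theorem y34_add {f g : Place κ L → ℤ} (hf : (Function.support f).Finite)
    (hg : (Function.support g).Finite) : (Function.support fun w => f w + g w).Finite := by
  refine (hf.union hg).subset fun w hw => ?_
  by_contra hcon
  rw [Set.mem_union, not_or, Function.mem_support, Function.mem_support, not_not, not_not] at hcon
  exact hw (by simp only; rw [hcon.1, hcon.2, add_zero])

private theorem y34_one_le_exp (n : ℕ) : (1 : ℤᵐ⁰) ≤ exp (n : ℤ) := by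
  rw [← exp_zero, exp_le_exp]
  positivity

omit [Field κ] [IsAlgClosed κ] [CharZero κ] [Algebra κ L] in
private theorem y34_eval (v : Valuation L ℤᵐ⁰) {P : L[X]} {n : ℕ} (hn : P.natDegree ≤ n)
    {c : ℤᵐ⁰} (hc : ∀ i, v (P.coeff i) ≤ c) (t : L) : v (P.eval t) ≤ c * max 1 (v t) ^ n := by
  rw [eval_eq_sum_range' (Nat.lt_succ_of_le hn)]
  refine Valuation.map_sum_le v fun j hj => ?_
  rw [map_mul, map_pow]
  refine mul_le_mul' (hc j) ?_
  calc v t ^ j ≤ max 1 (v t) ^ j := pow_le_pow_left₀ zero_le (le_max_right _ _) j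
    _ ≤ max 1 (v t) ^ n := pow_le_pow_right₀ (le_max_left _ _)
      (Nat.lt_succ_iff.1 (Finset.mem_range.1 hj))

omit [Field κ] [IsAlgClosed κ] [CharZero κ] [Algebra κ L] in
private theorem y34_map (v : Valuation L ℤᵐ⁰) {A : L[X][X]} {b : ℕ} (hAb : Box b A) (s : L)
    (i : ℕ) : v ((A.map (evalRingHom s)).coeff i) ≤ gg v A * max 1 (v s) ^ b := by
  rw [coeff_map, coe_evalRingHom]
  exact y34_eval v (hAb.2 i) (fun j => le_gg v A i j) s

/-- the height of the first coordinate of a common zero -/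
theorem height_fst (h : IsFF κ L) {τ : Place κ L → ℕ} (hτ : (Function.support τ).Finite)
    {A Φ : L[X][X]} {b e : ℕ} (hAb : Box b A) (hΦb : Box e Φ)
    (hA : ∀ w : Place κ L, gg w.1 A ≤ exp (τ w : ℤ)) (hΦ : ∀ w : Place κ L, gg w.1 Φ ≤ exp (τ w : ℤ))
    (hR : resultant A Φ ≠ 0) {s : L} (hs : (resultant A Φ).eval s = 0) :
    height κ ![1, s] ≤ (b + e) * ∑ᶠ w, (τ w : ℤ) := by
  -- `root_gv`, `resultant_le`
  refine (root_gv h hR hs).trans ?_
  rw [mul_finsum]
  refine finsum_mono (gv_support h hR) (y34_supp hτ _) fun w => ?_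
  have hr1 : gv w.1 (resultant A Φ) ≠ 0 := fun h0 => hR (gv_eq_zero w.1 |>.mp h0)
  rw [log_le_iff_le_exp hr1]
  have hres : gv w.1 (resultant A Φ) ≤ gg w.1 A ^ Φ.natDegree * gg w.1 Φ ^ A.natDegree :=
    resultant_le (gv w.1) A Φ A.natDegree Φ.natDegree
  refine hres.trans ((mul_le_mul' (pow_le_pow_left₀ zero_le (hA w) _)
    (pow_le_pow_left₀ zero_le (hΦ w) _)).trans ?_)
  rw [← exp_nsmul, ← exp_nsmul, ← exp_add, exp_le_exp, nsmul_eq_mul, nsmul_eq_mul, ← add_mul]
  refine mul_le_mul_of_nonneg_right ?_ (by positivity)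
  have h1 := hAb.1
  have h2 := hΦb.1
  have h3 : Φ.natDegree + A.natDegree ≤ b + e := by omega
  exact_mod_cast h3

/-- the height of the second coordinate -/
theorem height_snd (h : IsFF κ L) {τ : Place κ L → ℕ} (hτ : (Function.support τ).Finite)
    {A : L[X][X]} {b : ℕ} (hAb : Box b A) (hA : ∀ w : Place κ L, gg w.1 A ≤ exp (τ w : ℤ))
    {s t : L} (hs : A.map (evalRingHom s) ≠ 0) (ht : A.evalEval s t = 0) :
    height κ ![1, t] ≤ ∑ᶠ w, (τ w : ℤ) + b * height κ ![1, s] := by
  -- `root_gv` for `A.map (evalRingHom s)`, `gv (..) ≤ gg A * (max 1 |s|) ^ b`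
  have hr : (A.map (evalRingHom s)).eval t = 0 := by
    rw [eval_map_eval]
    exact ht
  refine (root_gv h hs hr).trans ?_
  have hs1 : (Function.support fun w : Place κ L => (τ w : ℤ)).Finite := by
    simpa only [one_mul] using y34_supp hτ 1
  have hs2 := y34_logs h s (b : ℤ)
  rw [height_one, mul_finsum, ← finsum_add_distrib hs1 hs2]
  refine finsum_mono (gv_support h hs) (y34_add hs1 hs2) fun w => ?_
  have hr1 : gv w.1 (A.map (evalRingHom s)) ≠ 0 := fun h0 => hs (gv_eq_zero w.1 |>.mp h0)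
  have hm1 : max 1 (w.1 s) ^ b ≠ 0 := pow_ne_zero _ (max_one_ne_zero' w.1 s)
  have h5 : gv w.1 (A.map (evalRingHom s)) ≤ exp (τ w : ℤ) * max 1 (w.1 s) ^ b := by
    rw [gv_apply]
    refine gn_le w.1 fun i => ?_
    exact (y34_map w.1 hAb s i).trans (mul_le_mul' (hA w) le_rfl)
  have h6 := (log_le_log hr1 (mul_ne_zero exp_ne_zero hm1)).2 h5
  rw [log_mul exp_ne_zero hm1, log_exp, log_pow, nsmul_eq_mul] at h6
  exact h6

/-- the size of an element at a place, as a natural number -/
noncomputable def pp (v : Valuation L ℤᵐ⁰) (a : L) : ℕ := (log (max 1 (v a))).toNat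

omit [Field κ] [IsAlgClosed κ] [CharZero κ] [Algebra κ L] in
theorem le_exp_pp (v : Valuation L ℤᵐ⁰) (a : L) : v a ≤ exp (pp v a : ℤ) := by
  unfold pp
  rw [Int.toNat_of_nonneg (log_max_nonneg v a), exp_log (max_one_ne_zero' v a)]
  exact le_max_right _ _

theorem pp_sum (h : IsFF κ L) (a : L) : (Function.support fun w : Place κ L => pp w.1 a).Finite ∧
    ∑ᶠ w : Place κ L, (pp w.1 a : ℤ) = height κ ![1, a] := by
  -- `height_one`
  have h1 : ∀ w : Place κ L, (pp w.1 a : ℤ) = log (max 1 (w.1 a)) := fun w => by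
    unfold pp
    rw [Int.toNat_of_nonneg (log_max_nonneg w.1 a)]
  refine ⟨(log_max_support h a).subset fun w hw h0 => hw ?_, ?_⟩
  · simp only at h0 ⊢
    have h2 := h1 w
    rw [h0] at h2
    exact_mod_cast h2
  · rw [height_one]
    exact finsum_congr h1

/-- the size of the inverse -/
theorem pp_inv_sum (h : IsFF κ L) {a : L} (ha : a ≠ 0) :
    ∑ᶠ w : Place κ L, (pp w.1 a⁻¹ : ℤ) = height κ ![1, a] := by
  -- `height κ ![1, a⁻¹] = height κ ![a, 1]` by scaling
  rw [(pp_sum h a⁻¹).2, height_one, height_one]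
  have h2 := h.place_support ha
  have h3 : ∀ w : Place κ L, log (max 1 (w.1 a⁻¹)) = log (max 1 (w.1 a)) - log (w.1 a) := by
    intro w
    have h0 : w.1 a ≠ 0 := (w.1.ne_zero_iff).2 ha
    have h4 : max 1 (w.1 a⁻¹) * w.1 a = max 1 (w.1 a) := by
      rcases le_total (w.1 a) 1 with h5 | h5
      · have h6 : 1 ≤ w.1 a⁻¹ := by
          rw [map_inv₀]
          exact (one_le_inv₀ (zero_lt_iff.2 h0)).2 h5
        rw [max_eq_right h6, max_eq_left h5, ← map_mul, inv_mul_cancel₀ ha, map_one]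
      · have h6 : w.1 a⁻¹ ≤ 1 := by
          rw [map_inv₀]
          exact inv_le_one_of_one_le₀ h5
        rw [max_eq_left h6, max_eq_right h5, one_mul]
    rw [← h4, log_mul (max_one_ne_zero' w.1 a⁻¹) h0, add_sub_cancel_right]
  rw [finsum_congr h3, finsum_sub_distrib (log_max_support h a) h2, h.product_formula ha, sub_zero]

/-- the height of a difference -/
theorem height_sub_le (h : IsFF κ L) (a c : L) :
    height κ ![1, a - c] ≤ height κ ![1, a] + height κ ![1, c] := by
  have h1 := log_max_support h a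
  have h2 := log_max_support h c
  rw [height_one, height_one, height_one, ← finsum_add_distrib h1 h2]
  refine finsum_mono (log_max_support h (a - c)) (y34_add h1 h2) fun w => ?_
  have ha := max_one_ne_zero' w.1 a
  have hc := max_one_ne_zero' w.1 c
  rw [← log_mul ha hc, log_le_log (max_one_ne_zero' w.1 _) (mul_ne_zero ha hc)]
  refine max_le (one_le_mul (le_max_left _ _) (le_max_left _ _)) ?_
  refine (w.1.map_sub _ _).trans (max_le ?_ ?_)
  · exact (le_max_right _ _).trans (le_mul_of_one_le_right' (le_max_left _ _))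
  · exact (le_max_right _ _).trans (le_mul_of_one_le_left' (le_max_left _ _))

/-- the height of a value -/
theorem height_value_le (h : IsFF κ L) {τ : Place κ L → ℕ} (hτ : (Function.support τ).Finite)
    {A : L[X][X]} {b : ℕ} (hAb : Box b A) (hA : ∀ w : Place κ L, gg w.1 A ≤ exp (τ w : ℤ))
    (s t : L) : height κ ![1, A.evalEval s t] ≤ ∑ᶠ w, (τ w : ℤ) + b * height κ ![1, s] +
      b * height κ ![1, t] := by
  have hs1 : (Function.support fun w : Place κ L => (τ w : ℤ)).Finite := by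
    simpa only [one_mul] using y34_supp hτ 1
  have hs2 := y34_logs h s (b : ℤ)
  have hs3 := y34_logs h t (b : ℤ)
  rw [height_one, height_one, height_one, mul_finsum, mul_finsum, ← finsum_add_distrib hs1 hs2,
    ← finsum_add_distrib (y34_add hs1 hs2) hs3]
  refine finsum_mono (log_max_support h _) (y34_add (y34_add hs1 hs2) hs3) fun w => ?_
  have hm1 : max 1 (w.1 s) ^ b ≠ 0 := pow_ne_zero _ (max_one_ne_zero' w.1 s)
  have hm2 : max 1 (w.1 t) ^ b ≠ 0 := pow_ne_zero _ (max_one_ne_zero' w.1 t)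
  have h5 : max 1 (w.1 (A.evalEval s t)) ≤
      exp (τ w : ℤ) * max 1 (w.1 s) ^ b * max 1 (w.1 t) ^ b := by
    refine max_le ?_ ?_
    · exact one_le_mul (one_le_mul (y34_one_le_exp _) (one_le_pow₀ (le_max_left _ _)))
        (one_le_pow₀ (le_max_left _ _))
    · rw [← eval_map_eval]
      refine y34_eval w.1 (natDegree_map_le.trans hAb.1) (fun i => ?_) t
      exact (y34_map w.1 hAb s i).trans (mul_le_mul' (hA w) le_rfl)
  have h6 := (log_le_log (max_one_ne_zero' w.1 _)
    (mul_ne_zero (mul_ne_zero exp_ne_zero hm1) hm2)).2 h5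
  rw [log_mul (mul_ne_zero exp_ne_zero hm1) hm2, log_mul exp_ne_zero hm1, log_exp, log_pow,
    log_pow, nsmul_eq_mul, nsmul_eq_mul] at h6
  exact h6

end Pool.Agent.Lib.MP_44a246_ntY
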