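import Mathlib
import Pool.Agent.Lib.MP_44a246_ntY.Y23
import Pool.Agent.Lib.MP_44a246_ntY.Y34
import Pool.Agent.Lib.MP_44a246_ntS.SJ5c
import Pool.Agent.Lib.MP_44a246_ntS.SQ1b

/-!
A point of the curve near a zero `(s, t)` of `Φ` with `A_Y (s, t) ≠ 0`: the value of `Φ` is smaller
than the one of `A_Y ^ d`.
-/

namespace Pool.Agent.Lib.MP_44a246_ntY

open Pool.Agent.Lib.MP_44a246_nt
open Pool.Agent.Lib.MP_44a246_ntL
open Pool.Agent.Lib.MP_44a246_ntS
open WithZero Polynomial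

variable {L : Type*} [Field L] (v : Valuation L ℤᵐ⁰)

/-- the value as a double sum -/
private theorem y35_sum (G : L[X][X]) (y₁ y : L) {m n : ℕ} (hm : G.natDegree ≤ m)
    (hn : ∀ i, (G.coeff i).natDegree ≤ n) :
    G.evalEval y₁ y = ∑ i ∈ Finset.range (m + 1), ∑ j ∈ Finset.range (n + 1),
      (G.coeff i).coeff j * y₁ ^ j * y ^ i := by
  rw [evalEval, eval_eq_sum_range' (Nat.lt_succ_of_le hm), eval_finsetSum]
  refine Finset.sum_congr rfl fun i _ => ?_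
  rw [← C_pow, eval_mul, eval_C, eval_eq_sum_range' (Nat.lt_succ_of_le (hn i)), Finset.sum_mul]

/-- the value changes by at most the change of the second coordinate -/
private theorem y35_sub {G : L[X][X]} {n : ℕ} (hG : Box n G) {ρ τ : ℕ} (hρ : gg v G ≤ exp (ρ : ℤ))
    {s y b : L} (h1 : v s ≤ exp (τ : ℤ)) (h2 : v y ≤ exp (τ : ℤ)) (h3 : v b ≤ exp (τ : ℤ)) :
    v (G.evalEval s y - G.evalEval s b) ≤ exp ((ρ + 2 * n * τ : ℕ) : ℤ) * v (y - b) := by
  have hτ1 : (1 : ℤᵐ⁰) ≤ exp (τ : ℤ) := by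
    rw [← exp_zero, exp_le_exp]
    exact Int.natCast_nonneg _
  have hpw : ∀ j : ℕ, v (y ^ j - b ^ j) ≤ exp (τ : ℤ) ^ j * v (y - b) := by
    intro j
    rw [← (Commute.all y b).geom_sum₂_mul j, map_mul]
    refine mul_le_mul' ?_ le_rfl
    refine Valuation.map_sum_le v fun k hk => ?_
    rw [map_mul, map_pow, map_pow]
    have hk' := Finset.mem_range.1 hk
    calc v y ^ k * v b ^ (j - 1 - k) ≤ exp (τ : ℤ) ^ k * exp (τ : ℤ) ^ (j - 1 - k) := by
          gcongr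
      _ = exp (τ : ℤ) ^ (k + (j - 1 - k)) := (pow_add _ _ _).symm
      _ ≤ exp (τ : ℤ) ^ j := pow_le_pow_right₀ hτ1 (by omega)
  rw [y35_sum G s y hG.1 hG.2, y35_sum G s b hG.1 hG.2, ← Finset.sum_sub_distrib]
  refine Valuation.map_sum_le v fun i hi => ?_
  rw [← Finset.sum_sub_distrib]
  refine Valuation.map_sum_le v fun j hj => ?_
  have hi' := Finset.mem_range.1 hi
  have hj' := Finset.mem_range.1 hj
  have h4 : (G.coeff i).coeff j * s ^ j * y ^ i - (G.coeff i).coeff j * s ^ j * b ^ i =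
      (G.coeff i).coeff j * s ^ j * (y ^ i - b ^ i) := by ring
  have h5 : (exp ((ρ + 2 * n * τ : ℕ) : ℤ) : ℤᵐ⁰) =
      exp (ρ : ℤ) * exp (τ : ℤ) ^ n * exp (τ : ℤ) ^ n := by
    rw [← exp_nsmul, ← exp_add, ← exp_add]
    congr 1
    push_cast
    simp only [nsmul_eq_mul]
    ring
  rw [h4, map_mul, map_mul, map_pow, h5]
  calc v ((G.coeff i).coeff j) * v s ^ j * v (y ^ i - b ^ i)
      ≤ exp (ρ : ℤ) * exp (τ : ℤ) ^ j * (exp (τ : ℤ) ^ i * v (y - b)) := by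
        gcongr
        · exact (le_gg v G i j).trans hρ
        · exact hpw i
    _ ≤ exp (ρ : ℤ) * exp (τ : ℤ) ^ n * (exp (τ : ℤ) ^ n * v (y - b)) := by
        gcongr
        · omega
        · omega
    _ = exp (ρ : ℤ) * exp (τ : ℤ) ^ n * exp (τ : ℤ) ^ n * v (y - b) := by
        rw [← mul_assoc]

/-- the change of the value of a polynomial, both variables -/
theorem eval_sub_le₂ {G : L[X][X]} {n : ℕ} (hG : Box n G) {ρ τ : ℕ} (hρ : gg v G ≤ exp (ρ : ℤ))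
    {y₁ y s t : L} (h1 : v y₁ ≤ exp (τ : ℤ)) (h2 : v y ≤ exp (τ : ℤ)) (h3 : v s ≤ exp (τ : ℤ))
    (h4 : v t ≤ exp (τ : ℤ)) :
    v (G.evalEval y₁ y - G.evalEval s t) ≤
      exp ((ρ + 2 * n * τ : ℕ) : ℤ) * max (v (y₁ - s)) (v (y - t)) := by
  -- `eval_sub_le`, and the same for the second variable
  have e1 := (eval_sub_le v hG hρ h1 h2 h3).trans (mul_le_mul' le_rfl (le_max_left _ (v (y - t))))
  have e2 := (y35_sub v hG hρ h3 h2 h4).trans (mul_le_mul' le_rfl (le_max_right (v (y₁ - s)) _))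
  have e3 : G.evalEval y₁ y - G.evalEval s t =
      (G.evalEval y₁ y - G.evalEval s y) + (G.evalEval s y - G.evalEval s t) := by ring
  rw [e3]
  exact Valuation.map_add_le v e1 e2

/-- if `|A_Y ^ d| ≤ |Φ|` at the point then the point is not near the zero `(s, t)` of `Φ` -/
theorem not_near {A Φ : L[X][X]} {b e d : ℕ} (hA : Box b A) (hΦ : Box e Φ) {τ τ' : ℕ}
    (hρA : gg v A ≤ exp (τ : ℤ)) (hρΦ : gg v Φ ≤ exp (τ : ℤ)) {s t y₁ y : L}
    (hs : v s ≤ exp (τ : ℤ)) (ht : v t ≤ exp (τ : ℤ)) (hAY : (derivative A).evalEval s t ≠ 0)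
    (hΦz : Φ.evalEval s t = 0)
    (hP : v ((derivative A).evalEval y₁ y) ^ d ≤ v (Φ.evalEval y₁ y))
    (hτ' : (d + 1) * pp v ((derivative A).evalEval s t)⁻¹ + (2 * b + 2 * e + 2) * τ ≤ τ') :
    exp (-(τ' : ℤ)) ≤ max (v (y₁ - s)) (v (y - t)) := by
  -- Otherwise `v y₁, v y ≤ exp τ`, `v (A_Y (y₁, y) - A_Y (s, t)) < v (A_Y (s, t))` by
  -- `eval_sub_le₂` (`gg_derivative_le`, `box_derivative`), so `v (A_Y (y₁, y)) = v (A_Y (s, t))
  -- ≥ exp (- pp ..)`, and `v (Φ (y₁, y)) < exp (- d * pp ..)`.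
  by_contra hcon
  rw [not_le] at hcon
  have hone : (exp (-(τ' : ℤ)) : ℤᵐ⁰) ≤ exp (τ : ℤ) := by
    rw [exp_le_exp]
    omega
  have hy₁ : v y₁ ≤ exp (τ : ℤ) := by
    have h1 : y₁ = (y₁ - s) + s := by ring
    rw [h1]
    exact Valuation.map_add_le v (((le_max_left _ _).trans hcon.le).trans hone) hs
  have hy : v y ≤ exp (τ : ℤ) := by
    have h1 : y = (y - t) + t := by ring
    rw [h1]
    exact Valuation.map_add_le v (((le_max_right _ _).trans hcon.le).trans hone) ht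
  have hv0 : 0 < v ((derivative A).evalEval s t) := by
    rw [Valuation.pos_iff]
    exact hAY
  have hpp : exp (-(pp v ((derivative A).evalEval s t)⁻¹ : ℤ)) ≤ v ((derivative A).evalEval s t) := by
    have h1 := le_exp_pp v ((derivative A).evalEval s t)⁻¹
    rw [map_inv₀] at h1
    rw [exp_neg]
    exact inv_le_of_inv_le₀ hv0 h1
  generalize hPP : pp v ((derivative A).evalEval s t)⁻¹ = P at hpp hτ'
  have key : ∀ (k m : ℕ) (a : L), τ + 2 * k * τ + m ≤ τ' →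
      v a ≤ exp ((τ + 2 * k * τ : ℕ) : ℤ) * max (v (y₁ - s)) (v (y - t)) → v a < exp (-(m : ℤ)) := by
    intro k m a hk ha
    refine lt_of_le_of_lt ha ?_
    have h1 : (exp ((τ + 2 * k * τ : ℕ) : ℤ) : ℤᵐ⁰) * max (v (y₁ - s)) (v (y - t)) <
        exp ((τ + 2 * k * τ : ℕ) : ℤ) * exp (-(τ' : ℤ)) :=
      mul_lt_mul_of_pos_left hcon (by simp)
    refine lt_of_lt_of_le h1 ?_
    rw [← exp_add, exp_le_exp]
    omega
  have hm1 : τ + 2 * b * τ + P ≤ τ' := by
    refine le_trans ?_ hτ'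
    nlinarith [Nat.zero_le (d * P), Nat.zero_le (e * τ), Nat.zero_le τ]
  have hm2 : τ + 2 * e * τ + d * P ≤ τ' := by
    refine le_trans ?_ hτ'
    nlinarith [Nat.zero_le P, Nat.zero_le (b * τ), Nat.zero_le τ]
  have h1 := key b P _ hm1 (eval_sub_le₂ v (box_derivative hA) ((gg_derivative_le v A).trans hρA)
    hy₁ hy hs ht)
  have h2 := key e (d * P) _ hm2 (eval_sub_le₂ v hΦ hρΦ hy₁ hy hs ht)
  rw [hΦz, sub_zero] at h2
  have h3 : v ((derivative A).evalEval y₁ y) = v ((derivative A).evalEval s t) := by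
    have h4 : (derivative A).evalEval y₁ y = ((derivative A).evalEval y₁ y -
      (derivative A).evalEval s t) + (derivative A).evalEval s t := by ring
    rw [h4]
    exact Valuation.map_add_eq_of_lt_right v (h1.trans_le hpp)
  have h5 : (exp (-((d * P : ℕ) : ℤ)) : ℤᵐ⁰) ≤ v ((derivative A).evalEval y₁ y) ^ d := by
    rw [h3]
    have h6 : (exp (-((d * P : ℕ) : ℤ)) : ℤᵐ⁰) = exp (-(P : ℤ)) ^ d := by
      rw [← exp_nsmul]
      congr 1
      push_cast
      simp only [nsmul_eq_mul]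
      ring
    rw [h6]
    gcongr
  exact absurd (lt_of_lt_of_le h2 h5) (not_lt.2 hP)

end Pool.Agent.Lib.MP_44a246_ntY
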