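import Mathlib
import Pool.Agent.Lib.MP_44a246_ntS.SJ4b
import Pool.Agent.Lib.MP_44a246_ntS.SR0

/-!
The common zeros of two coprime polynomials in two variables.
-/

namespace Pool.Agent.Lib.MP_44a246_ntY

open Pool.Agent.Lib.MP_44a246_nt
open Pool.Agent.Lib.MP_44a246_ntL
open Pool.Agent.Lib.MP_44a246_ntS
open WithZero Polynomial

variable {L M : Type*} [Field L] [Field M] [Algebra L M]

/-- the polynomial with coefficients in a larger field -/
noncomputable def ex (M : Type*) {L : Type*} [Field L] [Field M] [Algebra L M] (A : L[X][X]) :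
    M[X][X] := A.map (mapRingHom (algebraMap L M))

/-- the degree of the resultant -/
private theorem natDegree_resultant_le {R : Type*} [CommRing R] (f g : R[X][X]) (m n b e : ℕ)
    (hf : ∀ i, (f.coeff i).natDegree ≤ b) (hg : ∀ i, (g.coeff i).natDegree ≤ e) :
    (resultant f g m n).natDegree ≤ n * b + m * e := by
  classical
  have hL : ∀ (i : Fin (m + n)) (j : Fin m),
      (sylvester f g m n i (Fin.castAdd n j)).natDegree ≤ e := by
    intro i j
    simp only [sylvester, Matrix.of_apply, Fin.addCases_left]
    split_ifs with h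
    · exact hg _
    · simp
  have hR : ∀ (i : Fin (m + n)) (j : Fin n),
      (sylvester f g m n i (Fin.natAdd m j)).natDegree ≤ b := by
    intro i j
    simp only [sylvester, Matrix.of_apply, Fin.addCases_right]
    split_ifs with h
    · exact hf _
    · simp
  have hterm : ∀ σ : Equiv.Perm (Fin (m + n)),
      (∏ i, sylvester f g m n (σ i) i).natDegree ≤ n * b + m * e := by
    intro σ
    refine (natDegree_prod_le _ _).trans ?_
    rw [Fin.sum_univ_add, add_comm]
    refine add_le_add ?_ ?_
    · calc ∑ i : Fin n, (sylvester f g m n (σ (Fin.natAdd m i)) (Fin.natAdd m i)).natDegree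
          ≤ ∑ _i : Fin n, b := Finset.sum_le_sum fun i _ => hR _ i
        _ = n * b := by simp
    · calc ∑ i : Fin m, (sylvester f g m n (σ (Fin.castAdd n i)) (Fin.castAdd n i)).natDegree
          ≤ ∑ _i : Fin m, e := Finset.sum_le_sum fun i _ => hL _ i
        _ = m * e := by simp
  rw [resultant, Matrix.det_apply]
  refine natDegree_sum_le_of_forall_le _ _ fun σ _ => ?_
  rcases Int.units_eq_one_or (Equiv.Perm.sign σ) with h | h
  · rw [h, one_smul]
    exact hterm σ
  · rw [h, Units.neg_smul, one_smul, natDegree_neg]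
    exact hterm σ

omit [Field M] [Algebra L M] in
/-- the resultant -/
theorem resultant_spec {A Φ : L[X][X]} (hA : Irreducible A) (hdeg : A.natDegree ≠ 0)
    (hΦ : ¬ A ∣ Φ) {b e : ℕ} (hAb : Box b A) (hΦb : Box e Φ) :
    resultant A Φ ≠ 0 ∧ (resultant A Φ).natDegree ≤ 2 * b * e := by
  -- `dvd_of_resultant`; the entries of the Sylvester matrix have degrees at most `b` (in `deg Φ`
  -- columns) and `e` (in `deg A` columns)
  refine ⟨fun h => hΦ (dvd_of_resultant hA hdeg h), ?_⟩
  refine (natDegree_resultant_le A Φ A.natDegree Φ.natDegree b e hAb.2 hΦb.2).trans ?_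
  have h1 : Φ.natDegree * b ≤ e * b := Nat.mul_le_mul_right b hΦb.1
  have h2 : A.natDegree * e ≤ b * e := Nat.mul_le_mul_right e hAb.1
  calc Φ.natDegree * b + A.natDegree * e ≤ e * b + b * e := add_le_add h1 h2
    _ = 2 * b * e := by ring

/-- common zeros are zeros of the resultant -/
theorem resultant_zero {A Φ : L[X][X]} (hdeg : A.natDegree ≠ 0) {s t : M}
    (h1 : (ex M A).evalEval s t = 0) (h2 : (ex M Φ).evalEval s t = 0) :
    aeval s (resultant A Φ) = 0 := by
  -- `exists_mul_add_mul_eq_C_resultant A Φ le_rfl le_rfl (Or.inl hdeg)`, see the proof of `bez`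
  obtain ⟨p, q, -, -, e⟩ :=
    exists_mul_add_mul_eq_C_resultant A Φ le_rfl le_rfl (Or.inl hdeg)
  have h0 := congrArg (fun P : L[X][X] => (ex M P).evalEval s t) e
  simp only [ex, Polynomial.map_add, Polynomial.map_mul, evalEval_add, evalEval_mul, map_C,
    evalEval_C] at h0
  unfold ex at h1 h2
  rw [h1, h2, zero_mul, zero_mul, zero_add] at h0
  rw [aeval_def, ← eval_map]
  exact h0.symm

/-- an irreducible polynomial of positive degree in `Y` does not vanish on a vertical line -/
theorem ex_map_eval_ne_zero {A : L[X][X]} (hA : Irreducible A) (hdeg : A.natDegree ≠ 0) (s : M) :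
    (ex M A).map (evalRingHom s) ≠ 0 := by
  -- if `s` is transcendental over `L`: the coefficients of `A` vanish at `s`.  If `s` is algebraic
  -- the minimal polynomial of `s` divides all coefficients of `A`, so `C (minpoly)` divides `A`.
  intro h
  have hc : ∀ i, aeval s (A.coeff i) = 0 := by
    intro i
    have h1 := congrArg (fun P : M[X] => P.coeff i) h
    simp only [ex, coeff_map, coeff_zero, coe_mapRingHom, coe_evalRingHom] at h1
    rw [aeval_def, ← eval_map]
    exact h1
  by_cases hs : IsAlgebraic L s
  · have hint : IsIntegral L s := hs.isIntegral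
    have h1 : C (minpoly L s) ∣ A := by
      rw [C_dvd_iff_dvd_coeff]
      exact fun i => minpoly.dvd L s (hc i)
    exact minpoly.not_isUnit L s ((hA.isPrimitive hdeg) _ h1)
  · apply hA.ne_zero
    ext1 i
    rw [coeff_zero]
    by_contra hne
    exact hs ⟨A.coeff i, hne, hc i⟩

end Pool.Agent.Lib.MP_44a246_ntY
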