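import Mathlib
import Pool.Agent.Lib.MP_44a246_ntY.Y32a
import Pool.Agent.Lib.MP_44a246_ntL.LFF

/-!
The degrees of the coordinates of the common zeros of two coprime polynomials in two variables.
-/

namespace Pool.Agent.Lib.MP_44a246_ntY

open Pool.Agent.Lib.MP_44a246_nt
open Pool.Agent.Lib.MP_44a246_ntL
open Pool.Agent.Lib.MP_44a246_ntS
open WithZero Polynomial

variable {L M : Type*} [Field L] [Field M] [Algebra L M]

open IntermediateField Module in
/-- degree of an element which is algebraic over a simple extension -/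
private theorem y32_tower {s t : M} (hs : IsIntegral L s) {a b : ℕ}
    (ha : (minpoly L s).natDegree ≤ a) (P : L⟮s⟯[X]) (hP : P ≠ 0) (hPt : aeval t P = 0)
    (hPb : P.natDegree ≤ b) : IsIntegral L t ∧ (minpoly L t).natDegree ≤ b * a := by
  have h1 : IsIntegral L⟮s⟯ t := (isAlgebraic_iff_isIntegral.1 ⟨P, hP, hPt⟩)
  have _h2 : FiniteDimensional L L⟮s⟯ := adjoin.finiteDimensional hs
  have _h3 : FiniteDimensional L⟮s⟯ L⟮s⟯⟮t⟯ := adjoin.finiteDimensional h1
  have _h4 : FiniteDimensional L L⟮s⟯⟮t⟯ := FiniteDimensional.trans L L⟮s⟯ L⟮s⟯⟮t⟯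
  have _h4a : IsScalarTower L L⟮s⟯⟮t⟯ M := IsScalarTower.of_algebraMap_eq fun x => by
    rw [IsScalarTower.algebraMap_apply L L⟮s⟯ L⟮s⟯⟮t⟯,
      ← IsScalarTower.algebraMap_apply L⟮s⟯ L⟮s⟯⟮t⟯ M, ← IsScalarTower.algebraMap_apply L L⟮s⟯ M]
  have h5 : finrank L L⟮s⟯ = (minpoly L s).natDegree := adjoin.finrank hs
  have h6 : finrank L⟮s⟯ L⟮s⟯⟮t⟯ = (minpoly L⟮s⟯ t).natDegree := adjoin.finrank h1
  have h7 : finrank L L⟮s⟯ * finrank L⟮s⟯ L⟮s⟯⟮t⟯ = finrank L L⟮s⟯⟮t⟯ :=
    finrank_mul_finrank L L⟮s⟯ L⟮s⟯⟮t⟯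
  have h8 : (minpoly L (AdjoinSimple.gen L⟮s⟯ t)).natDegree ≤ finrank L L⟮s⟯⟮t⟯ :=
    minpoly.natDegree_le _
  have h9 : minpoly L (AdjoinSimple.gen L⟮s⟯ t) = minpoly L t := by
    have h10 := minpoly.algebraMap_eq (A := L) (B := L⟮s⟯⟮t⟯) (B' := M)
      (FaithfulSMul.algebraMap_injective _ _) (AdjoinSimple.gen L⟮s⟯ t)
    rw [← h10]
    rfl
  have h10 : (minpoly L⟮s⟯ t).natDegree ≤ b :=
    (natDegree_le_of_dvd (minpoly.dvd _ _ hPt) hP).trans hPb
  refine ⟨?_, ?_⟩
  · have h11 : IsIntegral L (AdjoinSimple.gen L⟮s⟯ t) := IsIntegral.of_finite L _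
    exact h11.map (IsScalarTower.toAlgHom L L⟮s⟯⟮t⟯ M)
  · rw [← h9]
    refine h8.trans ?_
    rw [← h7, h5, h6, mul_comm]
    exact Nat.mul_le_mul h10 ha

/-- the degrees of the coordinates of the common zeros -/
theorem coord_degree {A Φ : L[X][X]} (hA : Irreducible A) (hdeg : A.natDegree ≠ 0)
    (hΦ : ¬ A ∣ Φ) {b e : ℕ} (hAb : Box b A) (hΦb : Box e Φ) {s t : M}
    (h1 : (ex M A).evalEval s t = 0) (h2 : (ex M Φ).evalEval s t = 0) :
    IsIntegral L s ∧ IsIntegral L t ∧ (minpoly L s).natDegree ≤ 2 * b * e ∧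
      (minpoly L t).natDegree ≤ b * (2 * b * e) := by
  obtain ⟨hR0, hRd⟩ := resultant_spec hA hdeg hΦ hAb hΦb
  have hRs := resultant_zero hdeg h1 h2
  have hs : IsIntegral L s := isAlgebraic_iff_isIntegral.1 ⟨_, hR0, hRs⟩
  have hsd : (minpoly L s).natDegree ≤ 2 * b * e :=
    (natDegree_le_of_dvd (minpoly.dvd _ _ hRs) hR0).trans hRd
  -- the polynomial `A (s, Y)` over `L (s)`
  have hmap : (A.map (aeval (IntermediateField.AdjoinSimple.gen L s)).toRingHom).map
      (algebraMap (IntermediateField.adjoin L {s}) M) =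
      (ex M A).map (evalRingHom s) := by
    unfold ex
    rw [Polynomial.map_map, Polynomial.map_map]
    congr 1
    refine Polynomial.ringHom_ext ?_ ?_
    · intro a
      change algebraMap _ M (aeval (IntermediateField.AdjoinSimple.gen L s) (C a)) =
        eval s (Polynomial.map (algebraMap L M) (C a))
      rw [aeval_C, map_C, eval_C, ← IsScalarTower.algebraMap_apply]
    · change algebraMap _ M (aeval (IntermediateField.AdjoinSimple.gen L s) X) =
        eval s (Polynomial.map (algebraMap L M) X)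
      rw [aeval_X, map_X, eval_X]
      rfl
  have hP0 : A.map (aeval (IntermediateField.AdjoinSimple.gen L s)).toRingHom ≠ 0 := by
    intro h
    have h3 := ex_map_eval_ne_zero (M := M) hA hdeg s
    rw [← hmap, h, Polynomial.map_zero] at h3
    exact h3 rfl
  have hPt : aeval t (A.map (aeval (IntermediateField.AdjoinSimple.gen L s)).toRingHom) = 0 := by
    rw [aeval_def, ← eval_map, hmap]
    rw [evalEval] at h1
    rw [← h1]
    have h4 := eval_map_apply (f := evalRingHom s) (x := (C t : M[X])) (p := ex M A)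
    rw [coe_evalRingHom, eval_C] at h4
    exact h4
  obtain ⟨h5, h6⟩ := y32_tower hs hsd _ hP0 hPt (natDegree_map_le.trans hAb.1)
  exact ⟨hs, h5, hsd, h6⟩

end Pool.Agent.Lib.MP_44a246_ntY
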