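import Mathlib
import Pool.Agent.Lib.MP_44a246_ntY.Y32
import Pool.Agent.Lib.MP_e52354_ntG.Weights

/-!
Descent of polynomials in two variables to a smaller field.
-/

namespace Pool.Agent.Lib.MP_44a246_ntY

open Pool.Agent.Lib.MP_44a246_nt
open Pool.Agent.Lib.MP_44a246_ntL
open Pool.Agent.Lib.MP_44a246_ntS
open WithZero Polynomial Module

section Descent

variable {L M : Type*} [Field L] [Field M] [Algebra L M]

/-- a polynomial with coefficients in the smaller field -/
theorem exists_descent {A₁ : M[X][X]}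
    (h : ∀ i j, (A₁.coeff i).coeff j ∈ Set.range (algebraMap L M)) :
    ∃ A : L[X][X], ex M A = A₁ := by
  have h1 : A₁ ∈ lifts (mapRingHom (algebraMap L M)) := by
    rw [lifts_iff_coeff_lifts]
    intro i
    have h2 : A₁.coeff i ∈ lifts (algebraMap L M) := (lifts_iff_coeff_lifts _).2 (h i)
    obtain ⟨q, hq⟩ := (mem_lifts _).1 h2
    exact ⟨q, hq⟩
  obtain ⟨A, hA⟩ := (mem_lifts _).1 h1
  exact ⟨A, hA⟩

private theorem y37a_coeff (A : L[X][X]) (i j : ℕ) :
    ((ex M A).coeff i).coeff j = algebraMap L M ((A.coeff i).coeff j) := by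
  unfold ex
  rw [coeff_map, coe_mapRingHom, coeff_map]

private theorem y37a_lift {R S : Type*} [Semiring R] [Semiring S] (g : R → S) (hg : g 0 = 0)
    (p : R[X]) : ∃ q : S[X], ∀ i, q.coeff i = g (p.coeff i) := by
  refine ⟨∑ i ∈ p.support, monomial i (g (p.coeff i)), fun i => ?_⟩
  rw [finsetSum_coeff]
  simp only [coeff_monomial]
  rw [Finset.sum_ite_eq']
  split_ifs with h
  · rfl
  · rw [notMem_support_iff.1 h, hg]

private theorem y37a_dvd {A B : L[X][X]} (h : ex M A ∣ ex M B) : A ∣ B := by
  obtain ⟨π, hπ⟩ := LinearMap.exists_leftInverse_of_injective (Algebra.linearMap L M)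
    (LinearMap.ker_eq_bot.2 (algebraMap L M).injective)
  have hπ1 : ∀ x : L, π (algebraMap L M x) = x := fun x => LinearMap.congr_fun hπ x
  have hπ2 : ∀ (x : L) (y : M), π (algebraMap L M x * y) = x * π y := by
    intro x y
    rw [← Algebra.smul_def, map_smul, smul_eq_mul]
  obtain ⟨Q, hQ⟩ := h
  choose g hg using fun p : M[X] => y37a_lift (fun y => π y) (map_zero π) p
  have hg0 : g 0 = 0 := by
    ext i
    rw [hg, coeff_zero, coeff_zero, map_zero]
  obtain ⟨Q', hQ'⟩ := y37a_lift g hg0 Q
  refine ⟨Q', ?_⟩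
  ext n m
  rw [← hπ1 ((B.coeff n).coeff m), ← y37a_coeff (M := M) B n m, hQ, coeff_mul, coeff_mul,
    finsetSum_coeff, finsetSum_coeff, map_sum]
  refine Finset.sum_congr rfl fun p _ => ?_
  rw [coeff_mul, coeff_mul, map_sum]
  refine Finset.sum_congr rfl fun q _ => ?_
  rw [y37a_coeff, hπ2, hQ', hg]

theorem irreducible_of_ex {A : L[X][X]} (h : Irreducible (ex M A)) : Irreducible A := by
  have _h0 : IsLocalHom (mapRingHom (mapRingHom (algebraMap L M))) := by
    refine ⟨fun (p : L[X][X]) hp => ?_⟩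
    have h1 : ex M p ∣ ex M (1 : L[X][X]) := by
      have h2 : ex M (1 : L[X][X]) = 1 := Polynomial.map_one _
      rw [h2]
      exact isUnit_iff_dvd_one.1 hp
    exact isUnit_iff_dvd_one.2 (y37a_dvd h1)
  exact Irreducible.of_map (f := mapRingHom (mapRingHom (algebraMap L M))) h

theorem dvd_of_ex {A B : L[X][X]} (h : ex M A ∣ ex M B) : A ∣ B := y37a_dvd h

theorem ex_evalEval (A : L[X][X]) (s t : L) :
    (ex M A).evalEval (algebraMap L M s) (algebraMap L M t) = algebraMap L M (A.evalEval s t) := by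
  unfold ex evalEval
  have h1 : (C (algebraMap L M t) : M[X]) = mapRingHom (algebraMap L M) (C t) := by
    rw [coe_mapRingHom, map_C]
  rw [h1, eval_map_apply, coe_mapRingHom, eval_map_apply]

theorem ex_natDegree (A : L[X][X]) : (ex M A).natDegree = A.natDegree := by
  unfold ex
  exact natDegree_map_eq_of_injective (map_injective _ (algebraMap L M).injective) A

theorem ex_derivative (A : L[X][X]) : ex M (derivative A) = derivative (ex M A) := by
  unfold ex
  rw [derivative_map]

theorem ex_box {A : L[X][X]} {b : ℕ} : Box b (ex M A) ↔ Box b A := by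
  unfold Box
  rw [ex_natDegree]
  have h1 : ∀ i, ((ex M A).coeff i).natDegree = (A.coeff i).natDegree := by
    intro i
    unfold ex
    rw [coeff_map, coe_mapRingHom, natDegree_map]
  simp only [h1]

end Descent

end Pool.Agent.Lib.MP_44a246_ntY
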