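import Mathlib
import Pool.Agent.Lib.MP_44a246_ntS.SJ2
import Pool.Agent.Lib.MP_44a246_ntL.LRamExt
import Pool.Agent.Lib.MP_44a246_ntL.LMason
import Pool.Agent.Lib.MP_44a246_ntY.Y34
import Pool.Agent.Lib.MP_44a246_ntY.Y37a

/-!
Passage to a finite extension.
-/

namespace Pool.Agent.Lib.MP_44a246_ntY

open Pool.Agent.Lib.MP_44a246_nt
open Pool.Agent.Lib.MP_44a246_ntL
open Pool.Agent.Lib.MP_44a246_ntS
open WithZero Polynomial Module

section Places

variable {κ L M : Type*} [Field κ] [IsAlgClosed κ] [CharZero κ] [Field L] [Algebra κ L]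
  [Field M] [Algebra κ M] [Algebra L M] [IsScalarTower κ L M] [FiniteDimensional L M]

/-- the Gauss norm over the extension -/
theorem gg_ex_le (w : Place κ M) {A : L[X][X]} {t : ℕ} (h : gg (below L w).1 A ≤ exp (t : ℤ)) :
    gg w.1 (ex M A) ≤ exp ((ramIdx L w.1 * t : ℕ) : ℤ) := by
  refine gg_le w.1 fun i j => ?_
  have h1 : ((ex M A).coeff i).coeff j = algebraMap L M ((A.coeff i).coeff j) := by
    unfold ex
    rw [coeff_map, coe_mapRingHom, coeff_map]
  rw [h1, below_pow]
  refine (pow_le_pow_left₀ zero_le ((le_gg _ A i j).trans h) _).trans ?_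
  rw [← exp_nsmul]
  apply le_of_eq
  congr 1

/-- the places above a finite set of places -/
theorem exists_above (hM : IsFF κ M) (P : Finset (Place κ L)) :
    ∃ P' : Finset (Place κ M), (∀ w, w ∈ P' ↔ below L w ∈ P) ∧
      P'.card ≤ finrank L M * P.card := by
  classical
  choose T hT1 hT2 hT3 using fun v : Place κ L => hM.exists_over (K := L) v
  refine ⟨P.biUnion T, fun w => ?_, ?_⟩
  · rw [Finset.mem_biUnion]
    constructor
    · rintro ⟨v, hv, hw⟩
      rw [(hT2 v w).1 hw]
      exact hv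
    · intro hw
      exact ⟨_, hw, (hT2 _ w).2 rfl⟩
  · refine Finset.card_biUnion_le_card_mul _ _ _ (fun v _ => ?_) |>.trans (le_of_eq (mul_comm _ _))
    have h1 := hT3 v
    have h2 : ∑ w ∈ T v, (1 : ℤ) ≤ ∑ w ∈ T v, (ramIdx L w.1 : ℤ) := by
      refine Finset.sum_le_sum fun w _ => ?_
      exact_mod_cast one_le_ramIdx (K := L) w.1 w.2.1
    rw [h1, Finset.sum_const, nsmul_eq_mul, mul_one] at h2
    exact_mod_cast h2

/-- the ramification of an extension generated by elements of small height -/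
theorem ram_gens (hL : IsFF κ L) {T : Finset M}
    (hT : IntermediateField.adjoin L (T : Set M) = ⊤) :
    (ramDeg κ M L : ℤ) ≤ 2 * finrank L M * ∑ x ∈ T, height κ ![1, x] := by
  classical
  have hM : IsFF κ M := hL.of_finite
  let e : T ≃ Fin T.card := T.equivFin
  have hne : ∀ a : M, (![1, a] : Fin 2 → M) ≠ 0 := by
    intro a hc
    have := congrFun hc 0
    simp at this
  have hgen : ⨆ i : Fin T.card, pointField L (![1, ((e.symm i : T) : M)] : Fin 2 → M) = ⊤ := by
    rw [eq_top_iff, ← hT, IntermediateField.adjoin_le_iff]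
    intro x hx
    refine (le_iSup (fun i : Fin T.card => pointField L (![1, ((e.symm i : T) : M)] : Fin 2 → M))
      (e ⟨x, hx⟩)) ?_
    refine IntermediateField.subset_adjoin _ _ ⟨1, 0, ?_⟩
    simp
  have h1 := ram_points hL (fun i : Fin T.card => (![1, ((e.symm i : T) : M)] : Fin 2 → M))
    (fun i => hne _) hgen
  have h2 : ∑ i : Fin T.card, height κ (![1, ((e.symm i : T) : M)] : Fin 2 → M) =
      ∑ x ∈ T, height κ ![1, x] := by
    rw [← Finset.sum_coe_sort T fun x => height κ ![1, x]]
    exact Equiv.sum_comp e.symm fun x : T => height κ (![1, (x : M)] : Fin 2 → M)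
  rw [h2] at h1
  have h3 : 0 ≤ ∑ x ∈ T, height κ ![1, x] := Finset.sum_nonneg fun x _ => hM.height_nonneg (hne x)
  refine h1.trans (mul_le_mul_of_nonneg_right ?_ h3)
  linarith

/-- the height of a coefficient of a polynomial with one coefficient equal to `1` -/
theorem height_coeff_le (h : IsFF κ M) {A : M[X][X]} {i j : ℕ} (hA : (A.coeff i).coeff j = 1)
    (k l : ℕ) : height κ ![1, (A.coeff k).coeff l] ≤ gh κ A := by
  have hA0 : A ≠ 0 := by
    rintro rfl
    simp at hA
  rw [height_one]
  unfold gh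
  refine finsum_mono (log_max_support h _) (gg_support h hA0) fun w => ?_
  have h1 : (1 : ℤᵐ⁰) ≤ gg w.1 A := by
    have := le_gg w.1 A i j
    rwa [hA, map_one] at this
  exact (log_le_log (ne_of_gt (lt_of_lt_of_le zero_lt_one (le_max_left _ _)))
    (ne_of_gt (lt_of_lt_of_le zero_lt_one h1))).2 (max_le h1 (le_gg w.1 A k l))

end Places

end Pool.Agent.Lib.MP_44a246_ntY
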