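import Mathlib

/-!
Degrees of extensions generated by elements with few conjugates.
-/

namespace Pool.Agent.Lib.MP_44a246_ntY

open IntermediateField Module

variable {L M : Type*} [Field L] [CharZero L] [Field M] [Algebra L M] [IsAlgClosed M]
  [Algebra.IsAlgebraic L M]

/-- an element with conjugates in a finite set `F` has degree at most `card F` -/
theorem degree_le_of_conj {x : M} {F : Finset M} (h : ∀ σ : M ≃ₐ[L] M, σ x ∈ F) :
    (minpoly L x).natDegree ≤ F.card := by
  classical
  have : IsAlgClosure L M := ⟨inferInstance, inferInstance⟩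
  have hx : IsIntegral L x := (Algebra.IsAlgebraic.isAlgebraic (R := L) x).isIntegral
  have hsep : (minpoly L x).Separable := (minpoly.irreducible hx).separable
  have hsub : ((minpoly L x).rootSet M).toFinset ⊆ F := by
    intro y hy
    rw [Set.mem_toFinset, Polynomial.mem_rootSet] at hy
    have h1 : IsConjRoot L x y := (isConjRoot_iff_aeval_eq_zero hx).2 hy.2
    obtain ⟨σ, hσ⟩ := isConjRoot_iff_exists_algEquiv.1 h1.symm
    rw [← hσ]
    exact h σ
  have hc := Polynomial.card_rootSet_eq_natDegree (K := M) hsep
    (IsAlgClosed.splits _)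
  rw [← hc, ← Set.toFinset_card]
  exact Finset.card_le_card hsub

omit [CharZero L] [IsAlgClosed M] in
/-- the degree of the field generated by a finite set -/
theorem finrank_adjoin_finset_le {T : Finset M} {N : ℕ}
    (hT : ∀ x ∈ T, (minpoly L x).natDegree ≤ N) :
    FiniteDimensional L (adjoin L (T : Set M)) ∧ finrank L (adjoin L (T : Set M)) ≤ N ^ T.card := by
  classical
  induction T using Finset.induction_on with
  | empty =>
    rw [Finset.coe_empty, adjoin_empty, Finset.card_empty, pow_zero]
    exact ⟨inferInstance, (IntermediateField.finrank_bot (F := L) (E := M)).le⟩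
  | insert x T hx ih =>
    obtain ⟨h1, h2⟩ := ih (fun y hy => hT y (Finset.mem_insert_of_mem hy))
    have hxi : IsIntegral L x := (Algebra.IsAlgebraic.isAlgebraic (R := L) x).isIntegral
    have h3 : FiniteDimensional L (adjoin L ({x} : Set M)) := adjoin.finiteDimensional hxi
    have h4 : finrank L (adjoin L ({x} : Set M)) ≤ N := by
      have h5 : finrank L (adjoin L ({x} : Set M)) = (minpoly L x).natDegree := adjoin.finrank hxi
      rw [h5]
      exact hT x (Finset.mem_insert_self x T)
    have h5 : adjoin L ((insert x T : Finset M) : Set M) =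
        adjoin L ({x} : Set M) ⊔ adjoin L (T : Set M) := by
      rw [← adjoin_union, Finset.coe_insert, Set.insert_eq]
    rw [h5, Finset.card_insert_of_notMem hx, pow_succ, mul_comm]
    exact ⟨inferInstance, (IntermediateField.finrank_sup_le _ _).trans (Nat.mul_le_mul h4 h2)⟩

end Pool.Agent.Lib.MP_44a246_ntY
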