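import Mathlib
import Pool.Agent.Lib.MP_44a246_ntY.Y31
import Pool.Agent.Lib.MP_44a246_ntY.Y32
import Pool.Agent.Lib.MP_44a246_ntS.SQ1

/-!
The degrees of the coefficients of the absolutely irreducible factors.
-/

namespace Pool.Agent.Lib.MP_44a246_ntY

open Pool.Agent.Lib.MP_44a246_nt
open Pool.Agent.Lib.MP_44a246_ntL
open Pool.Agent.Lib.MP_44a246_ntS
open WithZero Polynomial

variable {L M : Type*} [Field L] [CharZero L] [Field M] [Algebra L M] [IsAlgClosed M]
  [Algebra.IsAlgebraic L M]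

omit [CharZero L] [IsAlgClosed M] [Algebra.IsAlgebraic L M] in
private theorem y33_coeff (A : L[X][X]) (m n : ℕ) :
    ((ex M A).coeff m).coeff n = algebraMap L M ((A.coeff m).coeff n) := by
  unfold ex
  rw [coeff_map, coe_mapRingHom, coeff_map]

omit [Field L] [CharZero L] [Algebra L M] [IsAlgClosed M] [Algebra.IsAlgebraic L M] in
private theorem y33_irr_deg {f : M[X][X]} (hf : Irreducible f) :
    1 ≤ f.natDegree + (Bivariate.swap f).natDegree := by
  by_contra h
  have h1 : f.natDegree = 0 := by omega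
  have h2 : (Bivariate.swap f).natDegree = 0 := by omega
  have h3 := eq_C_of_natDegree_eq_zero h1
  have h4 : (f.coeff 0).natDegree ≤ 0 := (swap_natDegree_le_iff f 0).1 h2.le 0
  have h5 := eq_C_of_natDegree_le_zero h4
  rw [h5] at h3
  apply hf.not_isUnit
  rw [h3]
  have h6 : (f.coeff 0).coeff 0 ≠ 0 := by
    intro h7
    rw [h7, C_0, C_0] at h3
    exact hf.ne_zero h3
  exact isUnit_C.2 (isUnit_C.2 (isUnit_iff_ne_zero.2 h6))

omit [Field L] [CharZero L] [Algebra L M] [IsAlgClosed M] [Algebra.IsAlgebraic L M] in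
private theorem y33_assoc {f g : M[X][X]} {i j : ℕ} (hf : (f.coeff i).coeff j = 1)
    (hg : (g.coeff i).coeff j = 1) (h : Associated f g) : f = g := by
  obtain ⟨u, hu⟩ := h
  obtain ⟨r, hr, hr'⟩ := Polynomial.isUnit_iff.1 u.isUnit
  obtain ⟨c, _, hc'⟩ := Polynomial.isUnit_iff.1 hr
  rw [← hc'] at hr'
  rw [← hr'] at hu
  rw [← hu, coeff_mul_C, coeff_mul_C, hf, one_mul] at hg
  rw [← hu, hg, C_1, C_1, mul_one]

omit [Field L] [CharZero L] [Algebra L M] [IsAlgClosed M] [Algebra.IsAlgebraic L M] in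
/-- a polynomial has at most `2 b` normalised irreducible factors -/
theorem card_factors_le {A : M[X][X]} (hA : A ≠ 0) {b : ℕ} (hAb : Box b A) {i j : ℕ}
    {F : Finset M[X][X]} (hF : ∀ f ∈ F, Irreducible f ∧ f ∣ A ∧ (f.coeff i).coeff j = 1) :
    F.card ≤ 2 * b := by
  have hdvd : ∏ f ∈ F, f ∣ A := by
    apply Finset.prod_dvd_of_isRelPrime (s := fun f : M[X][X] => f)
    · intro f hf g hg hfg
      show IsRelPrime f g
      rw [(hF f hf).1.isRelPrime_iff_not_dvd]
      intro hd
      exact hfg (y33_assoc (hF f hf).2.2 (hF g hg).2.2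
        (((hF f hf).1.dvd_irreducible_iff_associated (hF g hg).1).1 hd))
    · intro f hf
      exact (hF f hf).2.1
  have hsA : Bivariate.swap A ≠ 0 := by
    rwa [Ne, EmbeddingLike.map_eq_zero_iff]
  have h1 : ∑ f ∈ F, f.natDegree ≤ b := by
    rw [← natDegree_prod _ _ fun f hf => (hF f hf).1.ne_zero]
    exact (natDegree_le_of_dvd hdvd hA).trans hAb.1
  have h2 : ∑ f ∈ F, (Bivariate.swap f).natDegree ≤ b := by
    rw [← natDegree_prod _ _ fun f hf => by
      rw [Ne, EmbeddingLike.map_eq_zero_iff]; exact (hF f hf).1.ne_zero]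
    rw [← map_prod]
    exact (natDegree_le_of_dvd (map_dvd Bivariate.swap hdvd) hsA).trans
      ((swap_natDegree_le_iff A b).2 hAb.2)
  calc F.card = ∑ f ∈ F, 1 := by simp
    _ ≤ ∑ f ∈ F, (f.natDegree + (Bivariate.swap f).natDegree) :=
      Finset.sum_le_sum fun f hf => y33_irr_deg (hF f hf).1
    _ = ∑ f ∈ F, f.natDegree + ∑ f ∈ F, (Bivariate.swap f).natDegree :=
      Finset.sum_add_distrib
    _ ≤ 2 * b := by omega

/-- the coefficients of a normalised absolutely irreducible factor have degree at most `2 b` -/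
theorem factor_degree {A : L[X][X]} (hA : A ≠ 0) {b : ℕ} (hAb : Box b A) {A₁ : M[X][X]}
    (h1 : Irreducible A₁) (h2 : A₁ ∣ ex M A) {i j : ℕ} (h3 : (A₁.coeff i).coeff j = 1)
    (k l : ℕ) : (minpoly L ((A₁.coeff k).coeff l)).natDegree ≤ 2 * b := by
  have hAM : ex M A ≠ 0 := by
    unfold ex
    intro h
    apply hA
    have hinj : Function.Injective (mapRingHom (algebraMap L M)) := by
      rw [coe_mapRingHom]
      exact Polynomial.map_injective _ (algebraMap L M).injective
    exact (Polynomial.map_eq_zero_iff hinj).1 h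
  have hBM : Box b (ex M A) := by
    refine ⟨natDegree_map_le.trans hAb.1, fun m => ?_⟩
    have h5 : (ex M A).coeff m = (A.coeff m).map (algebraMap L M) := by
      unfold ex
      rw [coeff_map, coe_mapRingHom]
    rw [h5]
    exact natDegree_map_le.trans (hAb.2 m)
  obtain ⟨S, hS⟩ : ∃ S : Set M[X][X], ∀ f, f ∈ S ↔
      Irreducible f ∧ f ∣ ex M A ∧ (f.coeff i).coeff j = 1 := ⟨{f | _}, fun f => Iff.rfl⟩
  have hfin : S.Finite := by
    by_contra hinf
    obtain ⟨T, hT, hc⟩ := Set.Infinite.exists_subset_card_eq hinf (2 * b + 1)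
    have := card_factors_le hAM hBM (F := T) fun f hf => (hS f).1 (hT hf)
    omega
  classical
  have hcard : hfin.toFinset.card ≤ 2 * b :=
    card_factors_le hAM hBM fun f hf => (hS f).1 (hfin.mem_toFinset.1 hf)
  refine (degree_le_of_conj (F := hfin.toFinset.image fun f => (f.coeff k).coeff l) ?_).trans
    (Finset.card_image_le.trans hcard)
  intro σ
  rw [Finset.mem_image]
  obtain ⟨e, he⟩ : ∃ e : M[X][X] ≃+* M[X][X],
      e = Polynomial.mapEquiv (Polynomial.mapEquiv (σ : M ≃+* M)) := ⟨_, rfl⟩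
  have hec : ∀ (f : M[X][X]) (m n : ℕ), ((e f).coeff m).coeff n = σ ((f.coeff m).coeff n) := by
    intro f m n
    rw [he]
    simp [Polynomial.mapEquiv_apply, coeff_map]
  refine ⟨e A₁, ?_, hec A₁ k l⟩
  rw [hfin.mem_toFinset, hS]
  refine ⟨?_, ?_, ?_⟩
  · exact (MulEquiv.irreducible_iff e).2 h1
  · have h4 : e (ex M A) = ex M A := by
      ext m n
      rw [hec, y33_coeff, AlgEquiv.commutes]
    obtain ⟨q, hq⟩ := h2
    refine ⟨e q, ?_⟩
    rw [← h4, hq, RingEquiv.map_mul]
  · rw [hec, h3, map_one]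

end Pool.Agent.Lib.MP_44a246_ntY
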