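import Mathlib
import Pool.Agent.Lib.MP_44a246_ntS.SJ5
import Pool.Agent.Lib.MP_44a246_ntY.Y33
import Pool.Agent.Lib.MP_44a246_ntY.Y37a

/-!
The field of definition of the factor and of the points.
-/

namespace Pool.Agent.Lib.MP_44a246_ntY

open Pool.Agent.Lib.MP_44a246_nt
open Pool.Agent.Lib.MP_44a246_ntL
open Pool.Agent.Lib.MP_44a246_ntS
open WithZero Polynomial Module

/-- the number of points which are used -/
def qE (b : ℕ) : ℕ := 2 * b + b * b + 1

/-- a bound for the degree of the field of definition of the points and of the factor -/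
def nE (b e : ℕ) : ℕ := (2 * b + 2 * b * e + 2 * b * b * e + 1) ^ ((b + 1) ^ 2 + 2 * qE b)

variable {L M : Type*} [Field L] [CharZero L] [Field M] [Algebra L M]

/-- The field of definition of an absolutely irreducible factor `A₁` of `A` and of common zeros of
`A` and `Φ`. -/
theorem exists_field [IsAlgClosed M] [Algebra.IsAlgebraic L M] {b e : ℕ} {A Φ : L[X][X]}
    (hA : Irreducible A) (hAdeg : A.natDegree ≠ 0) (hΦ : ¬ A ∣ Φ)
    (hAb : Box b A) (hΦb : Box e Φ) {A₁ : M[X][X]} (h1 : Irreducible A₁) (h2 : A₁ ∣ ex M A)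
    {i j : ℕ} (h3 : (A₁.coeff i).coeff j = 1) {E : Finset (M × M)}
    (hE : ∀ p ∈ E, A₁.evalEval p.1 p.2 = 0 ∧ (ex M Φ).evalEval p.1 p.2 = 0)
    (hcard : E.card ≤ qE b) :
    ∃ (L' : IntermediateField L M) (A' : L'[X][X]) (E' : Finset (L' × L')) (T : Finset L'),
      FiniteDimensional L L' ∧ finrank L L' ≤ nE b e ∧ ex M A' = A₁ ∧
      E'.card = E.card ∧ (∀ p ∈ E', ((p.1 : M), (p.2 : M)) ∈ E) ∧
      IntermediateField.adjoin L (T : Set L') = ⊤ ∧
      T.card ≤ (b + 1) ^ 2 + 2 * qE b ∧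
      ∀ x ∈ T, (∃ k l, x = (A'.coeff k).coeff l) ∨ ∃ p ∈ E', x = p.1 ∨ x = p.2 := by
  classical
  have hA0 : A ≠ 0 := hA.ne_zero
  have hexA0 : ex M A ≠ 0 := by
    intro h0
    apply hA0
    refine Polynomial.ext fun k => Polynomial.ext fun l => ?_
    have h5 : ((ex M A).coeff k).coeff l = algebraMap L M ((A.coeff k).coeff l) := by
      unfold ex
      rw [coeff_map, coe_mapRingHom, coeff_map]
    rw [h0, coeff_zero, coeff_zero] at h5
    rw [coeff_zero, coeff_zero]
    exact ((algebraMap L M).injective (by rw [← h5, map_zero])).symm.symm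
  have hbox : Box b A₁ := Box.of_dvd (ex_box.2 hAb) hexA0 h2
  -- the generators
  set T₁ : Finset M := (Finset.range (b + 1) ×ˢ Finset.range (b + 1)).image
    fun p => (A₁.coeff p.1).coeff p.2 with hT₁
  set T₀ : Finset M := T₁ ∪ (E.image Prod.fst ∪ E.image Prod.snd) with hT₀
  have hT₁c : T₁.card ≤ (b + 1) ^ 2 := by
    refine Finset.card_image_le.trans (le_of_eq ?_)
    rw [Finset.card_product, Finset.card_range, sq]
  have hT₀c : T₀.card ≤ (b + 1) ^ 2 + 2 * qE b := by
    have h5 : T₀.card ≤ T₁.card + (E.image Prod.fst ∪ E.image Prod.snd).card :=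
      Finset.card_union_le _ _
    have h6 := Finset.card_union_le (E.image Prod.fst) (E.image Prod.snd)
    have h7 : (E.image Prod.fst).card ≤ E.card := Finset.card_image_le
    have h8 : (E.image Prod.snd).card ≤ E.card := Finset.card_image_le
    omega
  have hmem : ∀ x ∈ T₀, (∃ p : ℕ × ℕ, (A₁.coeff p.1).coeff p.2 = x) ∨
      (∃ p ∈ E, p.1 = x) ∨ ∃ p ∈ E, p.2 = x := by
    intro x hx
    rw [hT₀, Finset.mem_union, Finset.mem_union, hT₁, Finset.mem_image, Finset.mem_image,
      Finset.mem_image] at hx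
    rcases hx with ⟨p, -, hp⟩ | h | h
    · exact Or.inl ⟨p, hp⟩
    · exact Or.inr (Or.inl h)
    · exact Or.inr (Or.inr h)
  have hfst : ∀ p ∈ E, p.1 ∈ T₀ := fun p hp =>
    Finset.mem_union_right _ (Finset.mem_union_left _ (Finset.mem_image_of_mem _ hp))
  have hsnd : ∀ p ∈ E, p.2 ∈ T₀ := fun p hp =>
    Finset.mem_union_right _ (Finset.mem_union_right _ (Finset.mem_image_of_mem _ hp))
  -- their degrees
  have hdeg : ∀ x ∈ T₀, (minpoly L x).natDegree ≤ 2 * b + 2 * b * e + 2 * b * b * e + 1 := by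
    have hpt : ∀ p ∈ E, (minpoly L p.1).natDegree ≤ 2 * b * e ∧
        (minpoly L p.2).natDegree ≤ b * (2 * b * e) := by
      intro p hp
      obtain ⟨h5, h6⟩ := hE p hp
      have h7 : (ex M A).evalEval p.1 p.2 = 0 := by
        obtain ⟨Q, hQ⟩ := h2
        rw [hQ, evalEval_mul, h5, zero_mul]
      obtain ⟨-, -, h8, h9⟩ := coord_degree hA hAdeg hΦ hAb hΦb h7 h6
      exact ⟨h8, h9⟩
    intro x hx
    rcases hmem x hx with ⟨p, rfl⟩ | ⟨p, hp, rfl⟩ | ⟨p, hp, rfl⟩
    · have h5 := factor_degree hA0 hAb h1 h2 h3 p.1 p.2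
      omega
    · have h5 := (hpt p hp).1
      omega
    · have h5 := (hpt p hp).2
      have h6 : b * (2 * b * e) = 2 * b * b * e := by ring
      omega
  obtain ⟨hfin, hrank⟩ := finrank_adjoin_finset_le hdeg
  set L' : IntermediateField L M := IntermediateField.adjoin L (T₀ : Set M) with hL'
  have hsub : ∀ x ∈ T₀, x ∈ L' := fun x hx =>
    IntermediateField.subset_adjoin L (T₀ : Set M) (Finset.mem_coe.2 hx)
  -- descent
  obtain ⟨A', hA'⟩ : ∃ A' : L'[X][X], ex M A' = A₁ := by
    refine exists_descent fun k l => ?_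
    by_cases hk : k ≤ b
    · by_cases hl : l ≤ b
      · refine ⟨⟨(A₁.coeff k).coeff l, hsub _ ?_⟩, rfl⟩
        refine Finset.mem_union_left _ (Finset.mem_image.2 ⟨(k, l), ?_, rfl⟩)
        rw [Finset.mem_product, Finset.mem_range, Finset.mem_range]
        exact ⟨by simp only; omega, by simp only; omega⟩
      · refine ⟨0, ?_⟩
        rw [map_zero, coeff_eq_zero_of_natDegree_lt (lt_of_le_of_lt (hbox.2 k) (not_le.1 hl))]
    · refine ⟨0, ?_⟩
      rw [map_zero, coeff_eq_zero_of_natDegree_lt (lt_of_le_of_lt hbox.1 (not_le.1 hk)),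
        coeff_zero]
  have hA'c : ∀ k l, ((A'.coeff k).coeff l : M) = (A₁.coeff k).coeff l := by
    intro k l
    rw [← hA']
    unfold ex
    rw [coeff_map, coe_mapRingHom, coeff_map]
    rfl
  -- the points
  let f : {x // x ∈ E} → L' × L' := fun p => (⟨p.1.1, hsub _ (hfst _ p.2)⟩, ⟨p.1.2, hsub _ (hsnd _ p.2)⟩)
  have hf : Function.Injective f := by
    intro p q hpq
    have h5 := congrArg (fun z : L' × L' => ((z.1 : M), (z.2 : M))) hpq
    exact Subtype.ext h5
  let g : {x // x ∈ T₀} → L' := fun x => ⟨x.1, hsub _ x.2⟩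
  have himg : (Subtype.val : L' → M) '' ((T₀.attach.image g : Finset L') : Set L') = T₀ := by
    ext x
    constructor
    · rintro ⟨y, hy, rfl⟩
      obtain ⟨z, -, rfl⟩ := Finset.mem_image.1 (Finset.mem_coe.1 hy)
      exact Finset.mem_coe.2 z.2
    · intro hx
      exact ⟨g ⟨x, Finset.mem_coe.1 hx⟩,
        Finset.mem_coe.2 (Finset.mem_image_of_mem _ (Finset.mem_attach _ _)), rfl⟩
  refine ⟨L', A', E.attach.image f, T₀.attach.image g, hfin, hrank.trans ?_, hA', ?_, ?_, ?_, ?_, ?_⟩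
  · exact Nat.pow_le_pow_right (Nat.succ_pos _) hT₀c
  · rw [Finset.card_image_of_injective _ hf, Finset.card_attach]
  · intro p hp
    obtain ⟨q, -, rfl⟩ := Finset.mem_image.1 hp
    exact q.2
  · apply IntermediateField.lift_injective L'
    rw [IntermediateField.lift_adjoin, IntermediateField.lift_top]
    have h5 : (L'.val : L' → M) '' ((T₀.attach.image g : Finset L') : Set L') = T₀ := himg
    first
      | rw [h5]
      | rw [himg]
  · refine Finset.card_image_le.trans ?_
    rw [Finset.card_attach]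
    exact hT₀c
  · intro x hx
    obtain ⟨z, -, rfl⟩ := Finset.mem_image.1 hx
    rcases hmem z.1 z.2 with ⟨p, hp⟩ | ⟨p, hp, hp'⟩ | ⟨p, hp, hp'⟩
    · left
      refine ⟨p.1, p.2, Subtype.ext ?_⟩
      rw [hA'c, hp]
    · right
      refine ⟨f ⟨p, hp⟩, Finset.mem_image_of_mem _ (Finset.mem_attach _ _), Or.inl ?_⟩
      exact Subtype.ext hp'.symm
    · right
      refine ⟨f ⟨p, hp⟩, Finset.mem_image_of_mem _ (Finset.mem_attach _ _), Or.inr ?_⟩
      exact Subtype.ext hp'.symm

end Pool.Agent.Lib.MP_44a246_ntY
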