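import Mathlib
import Pool.Agent.Lib.MP_44a246_ntY.Y30
import Pool.Agent.Lib.MP_44a246_ntY.Y36
import Pool.Agent.Lib.MP_44a246_ntY.Y37
import Pool.Agent.Lib.MP_44a246_ntY.Y38a

/-!
Theorem F with points over the algebraic closure.
-/

namespace Pool.Agent.Lib.MP_44a246_ntY

open Pool.Agent.Lib.MP_44a246_nt
open Pool.Agent.Lib.MP_44a246_ntL
open Pool.Agent.Lib.MP_44a246_ntS
open WithZero Polynomial Module

/-- the constant of the theorem -/
noncomputable def cE (b e d : ℕ) : ℕ :=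
  (∑ q ∈ Finset.range (qE b + 1), cN b e d q) * (2 + (1 + b) * (b + e + 1) +
    2 * nE b e * ((b + 1) ^ 2 + 2 * qE b * ((1 + b) * (b + e + 1))))

variable {κ L M : Type*} [Field κ] [IsAlgClosed κ] [CharZero κ] [Field L] [Algebra κ L]
  [Field M] [Algebra κ M] [Algebra L M] [IsScalarTower κ L M]

private lemma y38_sum_le {α ι : Type*} [DecidableEq α] {T : Finset α} {S : Finset ι} {f : α → ℤ}
    (hf : ∀ x, 0 ≤ f x) (g : ι → α) (h : ∀ x ∈ T, f x = 0 ∨ ∃ i ∈ S, x = g i) :
    ∑ x ∈ T, f x ≤ ∑ i ∈ S, f (g i) := by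
  classical
  have h1 : ∑ x ∈ T, f x = ∑ x ∈ T.filter (fun x => f x ≠ 0), f x := by
    rw [Finset.sum_filter_ne_zero]
  rw [h1]
  have h2 : T.filter (fun x => f x ≠ 0) ⊆ S.image g := by
    intro x hx
    rw [Finset.mem_filter] at hx
    rcases h x hx.1 with h3 | ⟨i, hi, h3⟩
    · exact (hx.2 h3).elim
    · rw [h3]
      exact Finset.mem_image_of_mem _ hi
  refine (Finset.sum_le_sum_of_subset_of_nonneg h2 (fun x _ _ => hf x)).trans ?_
  have h3 : ∀ i ∈ S, g i ∈ S.image g := fun i hi => Finset.mem_image_of_mem _ hi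
  rw [← Finset.sum_fiberwise_of_maps_to h3 (fun i => f (g i))]
  refine Finset.sum_le_sum (fun x hx => ?_)
  obtain ⟨i, hi, rfl⟩ := Finset.mem_image.1 hx
  exact Finset.single_le_sum (f := fun j => f (g j)) (fun j _ => hf (g j))
    (Finset.mem_filter.2 ⟨hi, rfl⟩)

private lemma y38_cast {κ L : Type*} [Field κ] [Field L] [Algebra κ L] {f : Place κ L → ℕ}
    (hf : (Function.support f).Finite) : ((∑ᶠ w, f w : ℕ) : ℤ) = ∑ᶠ w, (f w : ℤ) :=
  (Nat.castAddMonoidHom ℤ).map_finsum hf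

private lemma y38_ex_ex {L N M : Type*} [Field L] [Field N] [Field M] [Algebra L N] [Algebra L M]
    [Algebra N M] [IsScalarTower L N M] (A : L[X][X]) : ex M (ex N A) = ex M A := by
  unfold ex
  rw [Polynomial.map_map]
  congr 1
  ext x
  · simp [← IsScalarTower.algebraMap_apply L N M]
  · simp

/-- the bound, given the field of definition -/
private theorem y38_step {N : Type*} [Field N] [Algebra κ N] [Algebra L N] [IsScalarTower κ L N]
    [FiniteDimensional L N]
    (h : IsFF κ L) (D : Derivation κ L L) (hD : ∃ s, D s ≠ 0)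
    {β τ : Place κ L → ℕ} (hβ : (Function.support β).Finite) (hτ : (Function.support τ).Finite)
    (hpole : ∀ w : Place κ L, ∀ y, w.1 y ≤ 1 → w.1 (D y) ≤ exp (β w : ℤ))
    {b e d : ℕ} {A Φ : L[X][X]} (hA : Irreducible A) (hAdeg : A.natDegree ≠ 0)
    (hAb : Box b A) (hΦb : Box e Φ)
    (hAτ : ∀ w : Place κ L, gg w.1 A ≤ exp (τ w : ℤ))
    (hΦτ : ∀ w : Place κ L, gg w.1 Φ ≤ exp (τ w : ℤ))
    {y₁ y : L} (hΦ : ¬ A ∣ Φ)
    (hle : ∀ w : Place κ L, w.1 y ≤ max 1 (w.1 y₁)) {P : Finset (Place κ L)}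
    (hP : ∀ w : Place κ L, w ∉ P →
      w.1 ((derivative A).evalEval y₁ y) ^ d ≤ w.1 (Φ.evalEval y₁ y))
    {A' : N[X][X]} (hirr : Irreducible A') (hdvd : A' ∣ ex N A) (hdeg : A'.natDegree ≠ 0)
    {i j : ℕ} (hone : (A'.coeff i).coeff j = 1)
    (hA'y : A'.evalEval (algebraMap L N y₁) (algebraMap L N y) = 0) {E : Finset (N × N)}
    (hE : ∀ p ∈ E, A'.evalEval p.1 p.2 = 0 ∧ (derivative (ex N A)).evalEval p.1 p.2 ≠ 0 ∧
      (ex N Φ).evalEval p.1 p.2 = 0)
    (hcard : 2 * A'.natDegree + A'.natDegree * (A'.natDegree - 1) / 2 < E.card)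
    {T : Finset N} (hT : IntermediateField.adjoin L (T : Set N) = ⊤)
    (hT2 : ∀ x ∈ T, (∃ k l, x = (A'.coeff k).coeff l) ∨ ∃ p ∈ E, x = p.1 ∨ x = p.2) :
    height κ ![1, y₁] ≤ cN b e d E.card * (P.card + ∑ᶠ w, (β w : ℤ) + (∑ᶠ w, (τ w : ℤ)) *
      (1 + (1 + b) * (b + e + 1) + 2 * finrank L N * ((b + 1) ^ 2 + 2 * E.card *
        ((1 + b) * (b + e + 1))))) := by
  classical
  have hN : IsFF κ N := h.of_finite
  have hA0 : A ≠ 0 := hA.ne_zero
  have hA'0 : A' ≠ 0 := hirr.ne_zero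
  have hAN0 : ex N A ≠ 0 := by
    intro h0
    apply hAdeg
    rw [← ex_natDegree (M := N) A, h0, natDegree_zero]
  have hne2 : ∀ a : N, (![1, a] : Fin 2 → N) ≠ 0 := by
    intro a hc
    have := congrFun hc 0
    simp at this
  have hnn : ∀ a : N, 0 ≤ height κ ![1, a] := fun a => hN.height_nonneg (hne2 a)
  -- the derivation and the places
  obtain ⟨D', B', hD', hB', hpole', hsumB⟩ := extend_kder (L := N) h D hD hβ hpole
  obtain ⟨P', hP'mem, hP'card⟩ := exists_above hN P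
  -- the sizes
  obtain ⟨hτs, hτsum⟩ := mason_sum_over (K := L) hN hτ
  rw [y38_cast hτ] at hτsum
  set τ' : Place κ N → ℕ := fun w => ramIdx L w.1 * τ (below L w) with hτ'
  have hτ'supp : (Function.support τ').Finite := by
    refine hτs.subset fun w hw => ?_
    rw [Function.mem_support] at hw ⊢
    exact_mod_cast hw
  have hτ'sum : ∑ᶠ w, (τ' w : ℤ) = (∑ᶠ w, (τ w : ℤ)) * finrank L N := hτsum
  have hAN : ∀ w : Place κ N, gg w.1 (ex N A) ≤ exp (τ' w : ℤ) :=
    fun w => gg_ex_le w (hAτ (below L w))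
  have hΦN : ∀ w : Place κ N, gg w.1 (ex N Φ) ≤ exp (τ' w : ℤ) :=
    fun w => gg_ex_le w (hΦτ (below L w))
  have hAbN : Box b (ex N A) := ex_box.2 hAb
  have hΦbN : Box e (ex N Φ) := ex_box.2 hΦb
  -- the point
  have hleN : ∀ w : Place κ N, w.1 (algebraMap L N y) ≤ max 1 (w.1 (algebraMap L N y₁)) := by
    intro w
    rw [below_pow, below_pow]
    rcases le_max_iff.1 (hle (below L w)) with h1 | h1
    · exact le_max_of_le_left (pow_le_one₀ zero_le h1)
    · exact le_max_of_le_right (pow_le_pow_left₀ zero_le h1 _)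
  have hPN : ∀ w : Place κ N, w ∉ P' →
      w.1 ((derivative (ex N A)).evalEval (algebraMap L N y₁) (algebraMap L N y)) ^ d ≤
        w.1 ((ex N Φ).evalEval (algebraMap L N y₁) (algebraMap L N y)) := by
    intro w hw
    have h1 : below L w ∉ P := fun h0 => hw ((hP'mem w).2 h0)
    rw [← ex_derivative, ex_evalEval, ex_evalEval, below_pow, below_pow, ← pow_mul, mul_comm,
      pow_mul]
    exact pow_le_pow_left₀ zero_le (hP _ h1) _
  -- heights of the points
  set T₀ : ℤ := ∑ᶠ w, (τ' w : ℤ) with hT₀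
  have hT₀0 : 0 ≤ T₀ := finsum_nonneg fun w => Int.natCast_nonneg _
  set K : ℤ := (1 + b) * (b + e + 1) with hK
  have hb0 : (0 : ℤ) ≤ b := Int.natCast_nonneg _
  have he0 : (0 : ℤ) ≤ e := Int.natCast_nonneg _
  have hbe0 : (0 : ℤ) ≤ (b : ℤ) * e := mul_nonneg hb0 he0
  have hbb0 : (0 : ℤ) ≤ (b : ℤ) * b := mul_nonneg hb0 hb0
  have hK1 : (b : ℤ) + e ≤ K := by
    have : K = (b + e) + (1 + b + (b * b + b * e)) := by rw [hK]; ring
    linarith
  have hK2 : 1 + (b : ℤ) * (b + e) ≤ K := by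
    have : K = 1 + (b : ℤ) * (b + e) + (b + e + b) := by rw [hK]; ring
    linarith
  have hK0 : 0 ≤ K := by linarith
  have hR0 : resultant (ex N A) (ex N Φ) = (resultant A Φ).map (algebraMap L N) := by
    rw [ex_natDegree, ex_natDegree]
    unfold ex
    rw [resultant_map_map]
    rfl
  have hRne : resultant (ex N A) (ex N Φ) ≠ 0 := by
    rw [hR0]
    exact (Polynomial.map_ne_zero_iff (algebraMap L N).injective).2
      (resultant_spec hA hAdeg hΦ hAb hΦb).1
  have hH : ∀ p ∈ E, height κ ![1, p.1] ≤ K * T₀ ∧ height κ ![1, p.2] ≤ K * T₀ := by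
    intro p hp
    obtain ⟨h1, h2, h3⟩ := hE p hp
    have h4 : (ex N A).evalEval p.1 p.2 = 0 := by
      obtain ⟨Q, hQ⟩ := hdvd
      rw [hQ, evalEval_mul, h1, zero_mul]
    have h5 : (resultant (ex N A) (ex N Φ)).eval p.1 = 0 := by
      rw [hR0, eval_map_algebraMap]
      exact resultant_zero hAdeg h4 h3
    have h6 := height_fst hN hτ'supp hAbN hΦbN hAN hΦN hRne h5
    have h7 := height_snd hN hτ'supp hAbN hAN (ex_map_eval_ne_zero hA hAdeg p.1) h4
    rw [← hT₀] at h6 h7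
    have h8 := mul_le_mul_of_nonneg_left h6 hb0
    have h9 := mul_le_mul_of_nonneg_right hK1 hT₀0
    have h10 := mul_le_mul_of_nonneg_right hK2 hT₀0
    constructor
    · linarith
    · linarith
  have hmain := moving_curve₂ hN D' hD' hB' hτ'supp hpole' hAbN hΦbN hAN hΦN hAN0 hirr hdvd hdeg
    hA'y hleN (P := P') hPN hE hcard hH
  -- the ramification
  have hram := ram_gens (M := N) h hT
  have hcoef : ∀ k l, height κ ![1, (A'.coeff k).coeff l] ≤ T₀ := by
    intro k l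
    refine (height_coeff_le hN hone k l).trans ((gh_le_of_dvd hN hdvd hAN0).trans ?_)
    refine finsum_mono (gg_support hN hAN0) hτs (fun w => ?_)
    have h2 : gg w.1 (ex N A) ≠ 0 := fun h0 => hAN0 ((gg_eq_zero w.1).1 h0)
    exact (log_le_iff_le_exp h2).2 (hAN w)
  have hzero : height κ ![1, (0 : N)] = 0 := by
    rw [height_one]
    have h1 : ∀ w : Place κ N, log (max 1 (w.1 (0 : N))) = 0 := by
      intro w
      rw [map_zero, max_eq_left zero_le_one, log_one]
    simp only [h1, finsum_zero]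
  have hbA' : Box b A' := hAbN.of_dvd hAN0 hdvd
  have hsumT : ∑ x ∈ T, height κ ![1, x] ≤ (b + 1) ^ 2 * T₀ + 2 * E.card * (K * T₀) := by
    rw [← Finset.sum_filter_add_sum_filter_not T
      (fun x => ∃ k l, x = (A'.coeff k).coeff l)]
    refine add_le_add ?_ ?_
    · have h1 := y38_sum_le (T := T.filter (fun x => ∃ k l, x = (A'.coeff k).coeff l))
        (S := Finset.range (b + 1) ×ˢ Finset.range (b + 1))
        (f := fun x : N => height κ ![1, x]) hnn
        (fun kl : ℕ × ℕ => (A'.coeff kl.1).coeff kl.2) (by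
          intro x hx
          obtain ⟨k, l, rfl⟩ := (Finset.mem_filter.1 hx).2
          by_cases hkl : k < b + 1 ∧ l < b + 1
          · right
            exact ⟨(k, l), Finset.mem_product.2
              ⟨Finset.mem_range.2 hkl.1, Finset.mem_range.2 hkl.2⟩, rfl⟩
          · left
            have h2 : (A'.coeff k).coeff l = 0 := by
              by_cases hk : k < b + 1
              · have hl : ¬ l < b + 1 := fun hl => hkl ⟨hk, hl⟩
                refine coeff_eq_zero_of_natDegree_lt (lt_of_le_of_lt (hbA'.2 k) (by omega))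
              · have hk' : A'.coeff k = 0 :=
                  coeff_eq_zero_of_natDegree_lt (lt_of_le_of_lt hbA'.1 (by omega))
                rw [hk', coeff_zero]
            show height κ ![1, (A'.coeff k).coeff l] = 0
            rw [h2, hzero])
      refine h1.trans ((Finset.sum_le_sum (fun kl _ => hcoef kl.1 kl.2)).trans (le_of_eq ?_))
      rw [Finset.sum_const, Finset.card_product, Finset.card_range, nsmul_eq_mul]
      push_cast
      ring
    · have h1 := y38_sum_le (T := T.filter (fun x => ¬ ∃ k l, x = (A'.coeff k).coeff l))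
        (S := E ×ˢ (Finset.univ : Finset Bool))
        (f := fun x : N => height κ ![1, x]) hnn
        (fun pb : (N × N) × Bool => if pb.2 then pb.1.1 else pb.1.2) (by
          intro x hx
          obtain ⟨hxT, hx2⟩ := Finset.mem_filter.1 hx
          right
          rcases hT2 x hxT with h3 | ⟨p, hp, h3 | h3⟩
          · exact (hx2 h3).elim
          · exact ⟨(p, true), Finset.mem_product.2 ⟨hp, Finset.mem_univ _⟩, by rw [h3]; rfl⟩
          · exact ⟨(p, false), Finset.mem_product.2 ⟨hp, Finset.mem_univ _⟩, by rw [h3]; rfl⟩)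
      refine h1.trans ((Finset.sum_le_sum (g := fun _ => K * T₀) (fun pb hpb => ?_)).trans
        (le_of_eq ?_))
      · have hp := (Finset.mem_product.1 hpb).1
        rcases Bool.eq_false_or_eq_true pb.2 with h4 | h4
        · show height κ ![1, (if pb.2 then pb.1.1 else pb.1.2)] ≤ _
          rw [h4]
          exact (hH _ hp).1
        · show height κ ![1, (if pb.2 then pb.1.1 else pb.1.2)] ≤ _
          rw [h4]
          exact (hH _ hp).2
      · rw [Finset.sum_const, Finset.card_product, Finset.card_univ, Fintype.card_bool,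
          nsmul_eq_mul]
        push_cast
        ring
  -- the height over the extension
  have hext : height κ ![1, algebraMap L N y₁] = finrank L N * height κ ![1, y₁] := by
    have hy1 : (![1, y₁] : Fin 2 → L) ≠ 0 := by
      intro hc
      have := congrFun hc 0
      simp at this
    rw [← IsFF.height_ext (K := L) hN hy1]
    congr 1
    funext i
    fin_cases i
    · simp
    · simp
  rw [hext, hsumB] at hmain
  have hn1 : (0 : ℤ) < finrank L N := by exact_mod_cast Module.finrank_pos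
  have hc0 : (0 : ℤ) ≤ (cN b e d E.card : ℤ) := Int.natCast_nonneg _
  have hP'c : (P'.card : ℤ) ≤ finrank L N * P.card := by exact_mod_cast hP'card
  set n : ℤ := (finrank L N : ℤ) with hn
  set S : ℤ := ∑ᶠ w, (τ w : ℤ) with hS
  set Bt : ℤ := ∑ᶠ w, (β w : ℤ) with hBt
  rw [← hT₀] at hmain
  have hT₀e : T₀ = S * n := hτ'sum
  rw [hT₀e] at hmain hsumT
  have r1 : (ramDeg κ N L : ℤ) ≤ 2 * n * ((b + 1) ^ 2 * (S * n) + 2 * E.card * (K * (S * n))) :=
    hram.trans (mul_le_mul_of_nonneg_left hsumT (by linarith))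
  have r2 : (P'.card : ℤ) + (n * Bt + (ramDeg κ N L : ℤ)) + S * n + K * (S * n) ≤
      n * (P.card + Bt + S * (1 + K + 2 * n * ((b + 1) ^ 2 + 2 * E.card * K))) := by
    have : n * (P.card + Bt + S * (1 + K + 2 * n * ((b + 1) ^ 2 + 2 * E.card * K))) =
      n * P.card + n * Bt + S * n + K * (S * n) +
        2 * n * ((b + 1) ^ 2 * (S * n) + 2 * E.card * (K * (S * n))) := by ring
    rw [this]
    linarith
  have r3 := hmain.trans (mul_le_mul_of_nonneg_left r2 hc0)
  have r4 : n * height κ ![1, y₁] ≤ n * ((cN b e d E.card : ℤ) *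
      (P.card + Bt + S * (1 + K + 2 * n * ((b + 1) ^ 2 + 2 * E.card * K)))) := by
    refine r3.trans (le_of_eq ?_)
    ring
  exact le_of_mul_le_mul_left r4 hn1

/-- **Theorem F, points over the algebraic closure.** -/
theorem moving_curve_ext [IsAlgClosed M] [Algebra.IsAlgebraic L M]
    (h : IsFF κ L) (D : Derivation κ L L) (hD : ∃ s, D s ≠ 0)
    {β τ : Place κ L → ℕ} (hβ : (Function.support β).Finite) (hτ : (Function.support τ).Finite)
    (hpole : ∀ w : Place κ L, ∀ y, w.1 y ≤ 1 → w.1 (D y) ≤ exp (β w : ℤ))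
    {b e d : ℕ} {A Φ : L[X][X]} (hA : Irreducible A) (hAdeg : A.natDegree ≠ 0)
    (hAb : Box b A) (hΦb : Box e Φ)
    (hAτ : ∀ w : Place κ L, gg w.1 A ≤ exp (τ w : ℤ))
    (hΦτ : ∀ w : Place κ L, gg w.1 Φ ≤ exp (τ w : ℤ))
    {y₁ y : L} (hAy : A.evalEval y₁ y = 0) (hΦy : Φ.evalEval y₁ y ≠ 0)
    (hle : ∀ w : Place κ L, w.1 y ≤ max 1 (w.1 y₁)) {P : Finset (Place κ L)}
    (hP : ∀ w : Place κ L, w ∉ P →
      w.1 ((derivative A).evalEval y₁ y) ^ d ≤ w.1 (Φ.evalEval y₁ y))
    {A₁ : M[X][X]} (h1 : Irreducible A₁) (h2 : A₁ ∣ ex M A) (hdeg : A₁.natDegree ≠ 0)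
    (h3 : A₁.evalEval (algebraMap L M y₁) (algebraMap L M y) = 0) {E : Finset (M × M)}
    (hE : ∀ p ∈ E, A₁.evalEval p.1 p.2 = 0 ∧ (derivative (ex M A)).evalEval p.1 p.2 ≠ 0 ∧
      (ex M Φ).evalEval p.1 p.2 = 0)
    (hcard : 2 * A₁.natDegree + A₁.natDegree * (A₁.natDegree - 1) / 2 < E.card) :
    height κ ![1, y₁] ≤ cE b e d * (P.card + ∑ᶠ w, (β w : ℤ) + ∑ᶠ w, (τ w : ℤ)) := by
  -- Choose a subset of `E` with `2 m + m (m - 1) / 2 + 1 ≤ qE b` elements and scale `A₁` so that one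
  -- coefficient is `1`; `exists_field`.  Over `L'`: `extend_kder`, `exists_above`,
  -- `τ' w = ramIdx L w * τ (below L w)` (`mason_sum_over`, `gg_ex_le`), `moving_curve₂` with
  -- `H = (1 + b) * (b + e + 1) * ∑ τ'` (`height_fst`, `height_snd`, `resultant_zero`,
  -- `resultant_spec`, `ex_map_eval_ne_zero`), `ram_gens`, `height_coeff_le`, `gh_le_of_dvd`,
  -- `IsFF.height_ext`.  Divide by the degree of `L'` over `L`.
  classical
  haveI : CharZero L := charZero_of_injective_algebraMap (algebraMap κ L).injective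
  have hA0 : A ≠ 0 := hA.ne_zero
  have hAM0 : ex M A ≠ 0 := by
    intro h0
    apply hAdeg
    rw [← ex_natDegree (M := M) A, h0, natDegree_zero]
  have hΦ : ¬ A ∣ Φ := by
    rintro ⟨Q, hQ⟩
    apply hΦy
    rw [hQ, evalEval_mul, hAy, zero_mul]
  -- a normalised factor
  have hA₁0 : A₁ ≠ 0 := h1.ne_zero
  obtain ⟨i₀, j₀, hc⟩ : ∃ i j, (A₁.coeff i).coeff j ≠ 0 := by
    by_contra hcon
    push Not at hcon
    apply hA₁0
    refine Polynomial.ext fun i => Polynomial.ext fun j => ?_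
    rw [coeff_zero, coeff_zero]
    exact hcon i j
  set c : M := (A₁.coeff i₀).coeff j₀ with hcdef
  have hcinv : c⁻¹ ≠ 0 := inv_ne_zero hc
  have hunit : IsUnit (C (C c⁻¹) : M[X][X]) :=
    (IsUnit.mk0 _ hcinv).map (C.comp C : M →+* M[X][X])
  have hassoc : Associated A₁ (C (C c⁻¹) * A₁) := by
    rw [mul_comm]
    exact ⟨hunit.unit, by rw [IsUnit.unit_spec]⟩
  have hirr : Irreducible (C (C c⁻¹) * A₁) := hassoc.irreducible h1
  have hdvd : C (C c⁻¹) * A₁ ∣ ex M A := hassoc.dvd_iff_dvd_left.1 h2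
  have hdeg2 : (C (C c⁻¹) * A₁).natDegree = A₁.natDegree :=
    natDegree_C_mul (by rwa [Ne, C_eq_zero])
  have hone : ((C (C c⁻¹) * A₁).coeff i₀).coeff j₀ = 1 := by
    rw [coeff_C_mul, coeff_C_mul, ← hcdef, inv_mul_cancel₀ hc]
  have hev : ∀ s t : M, A₁.evalEval s t = 0 → (C (C c⁻¹) * A₁).evalEval s t = 0 := by
    intro s t hst
    rw [evalEval_mul, hst, mul_zero]
  -- a subset of the points
  obtain ⟨E₀, hE₀E, hE₀card⟩ := Finset.exists_subset_card_eq
    (n := 2 * A₁.natDegree + A₁.natDegree * (A₁.natDegree - 1) / 2 + 1) hcard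
  have hmb : A₁.natDegree ≤ b := ((ex_box.2 hAb).of_dvd hAM0 h2).1
  have hE₀q : E₀.card ≤ qE b := by
    rw [hE₀card]
    unfold qE
    have k1 : A₁.natDegree * (A₁.natDegree - 1) / 2 ≤ A₁.natDegree * A₁.natDegree :=
      (Nat.div_le_self _ _).trans (Nat.mul_le_mul_left _ (Nat.sub_le _ _))
    have k2 : A₁.natDegree * A₁.natDegree ≤ b * b := Nat.mul_le_mul hmb hmb
    omega
  -- the field
  obtain ⟨L', A', E', T, hfd, hfin, hexA', hE'card, hE'E, hTtop, -, hT2⟩ :=
    exists_field hA hAdeg hΦ hAb hΦb hirr hdvd hone (E := E₀)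
      (fun p hp => ⟨hev _ _ (hE p (hE₀E hp)).1, (hE p (hE₀E hp)).2.2⟩) hE₀q
  haveI := hfd
  have hexex : ∀ B : L[X][X], ex M (ex L' B) = ex M B := fun B => y38_ex_ex B
  have hA'irr : Irreducible A' := irreducible_of_ex (M := M) (by rw [hexA']; exact hirr)
  have hA'dvd : A' ∣ ex L' A := dvd_of_ex (M := M) (by rw [hexA', hexex]; exact hdvd)
  have hA'deg : A'.natDegree = A₁.natDegree := by
    rw [← ex_natDegree (M := M) A', hexA', hdeg2]
  have hinj : Function.Injective (algebraMap L' M) := (algebraMap L' M).injective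
  have hA'one : (A'.coeff i₀).coeff j₀ = 1 := by
    apply hinj
    rw [map_one, ← hone, ← hexA']
    unfold ex
    rw [coeff_map, coe_mapRingHom, coeff_map]
  have htow : ∀ x : L, algebraMap L' M (algebraMap L L' x) = algebraMap L M x := fun x =>
    (IsScalarTower.algebraMap_apply L L' M x).symm
  have hA'y : A'.evalEval (algebraMap L L' y₁) (algebraMap L L' y) = 0 := by
    apply hinj
    rw [map_zero, ← ex_evalEval, hexA', htow, htow]
    exact hev _ _ h3
  have hE' : ∀ p ∈ E', A'.evalEval p.1 p.2 = 0 ∧ (derivative (ex L' A)).evalEval p.1 p.2 ≠ 0 ∧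
      (ex L' Φ).evalEval p.1 p.2 = 0 := by
    intro p hp
    obtain ⟨g1, g2, g3⟩ := hE _ (hE₀E (hE'E p hp))
    refine ⟨?_, ?_, ?_⟩
    · apply hinj
      rw [map_zero, ← ex_evalEval, hexA']
      exact hev _ _ g1
    · intro h0
      apply g2
      have k1 := congrArg (algebraMap L' M) h0
      rw [map_zero, ← ex_evalEval, ex_derivative, hexex] at k1
      exact k1
    · apply hinj
      rw [map_zero, ← ex_evalEval, hexex]
      exact g3
  have hstep := y38_step (N := L') h D hD hβ hτ hpole hA hAdeg hAb hΦb hAτ hΦτ hΦ hle hP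
    hA'irr hA'dvd (by rwa [hA'deg]) hA'one hA'y hE'
    (by rw [hA'deg, hE'card, hE₀card]; omega) hTtop hT2
  refine hstep.trans ?_
  -- the constant
  have hβ0 : 0 ≤ ∑ᶠ w, (β w : ℤ) := finsum_nonneg fun w => Int.natCast_nonneg _
  have hτ0 : 0 ≤ ∑ᶠ w, (τ w : ℤ) := finsum_nonneg fun w => Int.natCast_nonneg _
  set S : ℤ := ∑ᶠ w, (τ w : ℤ) with hS
  set Bt : ℤ := ∑ᶠ w, (β w : ℤ) with hBt
  have hq : E'.card ≤ qE b := by rw [hE'card]; exact hE₀q
  have hcN : (cN b e d E'.card : ℤ) ≤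
      ((∑ q ∈ Finset.range (qE b + 1), cN b e d q : ℕ) : ℤ) := by
    exact_mod_cast Finset.single_le_sum (f := fun q => cN b e d q) (fun _ _ => Nat.zero_le _)
      (Finset.mem_range.2 (Nat.lt_succ_of_le hq))
  have hqz : (E'.card : ℤ) ≤ (qE b : ℤ) := by exact_mod_cast hq
  have hnz : (finrank L L' : ℤ) ≤ (nE b e : ℤ) := by exact_mod_cast hfin
  unfold cE
  generalize (∑ q ∈ Finset.range (qE b + 1), cN b e d q) = c₁ at hcN ⊢
  generalize cN b e d E'.card = c₂ at hcN ⊢
  generalize E'.card = q at hqz ⊢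
  generalize qE b = Q at hqz ⊢
  generalize nE b e = n at hnz ⊢
  generalize finrank L L' = m at hnz ⊢
  have hPc : (0 : ℤ) ≤ (P.card : ℤ) := Int.natCast_nonneg _
  have hb0 : (0 : ℤ) ≤ b := Int.natCast_nonneg _
  have he0 : (0 : ℤ) ≤ e := Int.natCast_nonneg _
  have hq0 : (0 : ℤ) ≤ q := Int.natCast_nonneg _
  have hQ0 : (0 : ℤ) ≤ Q := Int.natCast_nonneg _
  have hm0 : (0 : ℤ) ≤ m := Int.natCast_nonneg _
  have hn0 : (0 : ℤ) ≤ n := Int.natCast_nonneg _
  have hc₂0 : (0 : ℤ) ≤ c₂ := Int.natCast_nonneg _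
  have hc₁0 : (0 : ℤ) ≤ c₁ := Int.natCast_nonneg _
  push_cast
  set K : ℤ := (1 + b) * (b + e + 1) with hK
  have hK0 : 0 ≤ K := mul_nonneg (by linarith) (by linarith)
  have u1 : 2 * (q : ℤ) * K ≤ 2 * Q * K := mul_le_mul_of_nonneg_right (by linarith) hK0
  have u2 : 0 ≤ 2 * (q : ℤ) * K := mul_nonneg (by linarith) hK0
  have u3 : 0 ≤ ((b : ℤ) + 1) ^ 2 := sq_nonneg _
  have u4 : 2 * (m : ℤ) * ((b + 1) ^ 2 + 2 * q * K) ≤ 2 * n * ((b + 1) ^ 2 + 2 * Q * K) :=
    mul_le_mul (by linarith) (by linarith) (by linarith) (by linarith)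
  have u5 : 0 ≤ 2 * (n : ℤ) * ((b + 1) ^ 2 + 2 * Q * K) :=
    mul_nonneg (by linarith) (by linarith)
  have u6 : 0 ≤ 2 * (m : ℤ) * ((b + 1) ^ 2 + 2 * q * K) :=
    mul_nonneg (by linarith) (by linarith)
  set W : ℤ := 2 * (n : ℤ) * ((b + 1) ^ 2 + 2 * Q * K) with hW
  set W' : ℤ := 2 * (m : ℤ) * ((b + 1) ^ 2 + 2 * q * K) with hW'
  have u7 : S * (1 + K + W') ≤ S * (1 + K + W) :=
    mul_le_mul_of_nonneg_left (by linarith) hτ0
  have u8 : (P.card : ℤ) + Bt + S * (1 + K + W') ≤ (2 + K + W) * (P.card + Bt + S) := by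
    have u9 : (2 + K + W) * (P.card + Bt + S) =
      (P.card + Bt) + (1 + K + W) * (P.card + Bt) + S * (1 + K + W) + S := by ring
    have u10 : 0 ≤ (1 + K + W) * (P.card + Bt) := mul_nonneg (by linarith) (by linarith)
    rw [u9]
    linarith
  have u11 : 0 ≤ (P.card : ℤ) + Bt + S * (1 + K + W') := by
    have : 0 ≤ S * (1 + K + W') := mul_nonneg hτ0 (by linarith)
    linarith
  calc (c₂ : ℤ) * (P.card + Bt + S * (1 + K + W'))
      ≤ c₁ * (P.card + Bt + S * (1 + K + W')) := mul_le_mul_of_nonneg_right hcN u11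
    _ ≤ c₁ * ((2 + K + W) * (P.card + Bt + S)) := mul_le_mul_of_nonneg_left u8 hc₁0
    _ = c₁ * (2 + K + W) * (P.card + Bt + S) := by ring

end Pool.Agent.Lib.MP_44a246_ntY
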