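import Mathlib
import Pool.Agent.Lib.MP_44a246_ntY.Y38

/-!
Theorem F over finite extensions of a function field.
-/

namespace Pool.Agent.Lib.MP_44a246_ntY

open Pool.Agent.Lib.MP_44a246_nt
open Pool.Agent.Lib.MP_44a246_ntL
open Pool.Agent.Lib.MP_44a246_ntS
open WithZero Polynomial Module

universe u v w x

/-- **Theorem F, relative version**: the constant `C` depends only on `K`, the other constant only
on the degrees. -/
theorem moving_curve_rel {κ : Type u} {K : Type v} [Field κ] [IsAlgClosed κ] [CharZero κ] [Field K]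
    [Algebra κ K] (hK : IsFF κ K) :
    ∃ C : ℕ, ∀ (L : Type w) (M : Type x) [Field L] [Algebra κ L] [Algebra K L]
      [IsScalarTower κ K L] [FiniteDimensional K L] [Field M] [Algebra κ M] [Algebra L M] [IsScalarTower κ L M]
      [IsAlgClosed M] [Algebra.IsAlgebraic L M]
      (τ : Place κ L → ℕ) (_ : (Function.support τ).Finite)
      (b e d : ℕ) (A Φ : L[X][X]) (_ : Irreducible A) (_ : A.natDegree ≠ 0)
      (_ : Box b A) (_ : Box e Φ)
      (_ : ∀ w : Place κ L, gg w.1 A ≤ exp (τ w : ℤ))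
      (_ : ∀ w : Place κ L, gg w.1 Φ ≤ exp (τ w : ℤ))
      (y₁ y : L) (_ : A.evalEval y₁ y = 0) (_ : Φ.evalEval y₁ y ≠ 0)
      (_ : ∀ w : Place κ L, w.1 y ≤ max 1 (w.1 y₁)) (P : Finset (Place κ L))
      (_ : ∀ w : Place κ L, w ∉ P →
        w.1 ((derivative A).evalEval y₁ y) ^ d ≤ w.1 (Φ.evalEval y₁ y))
      (A₁ : M[X][X]) (_ : Irreducible A₁) (_ : A₁ ∣ ex M A) (_ : A₁.natDegree ≠ 0)
      (_ : A₁.evalEval (algebraMap L M y₁) (algebraMap L M y) = 0) (E : Finset (M × M))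
      (_ : ∀ p ∈ E, A₁.evalEval p.1 p.2 = 0 ∧ (derivative (ex M A)).evalEval p.1 p.2 ≠ 0 ∧
        (ex M Φ).evalEval p.1 p.2 = 0)
      (_ : 2 * A₁.natDegree + A₁.natDegree * (A₁.natDegree - 1) / 2 < E.card),
      height κ ![1, y₁] ≤ cE b e d * (P.card + (ramDeg κ L K : ℤ) + C * finrank K L +
        ∑ᶠ w, (τ w : ℤ)) := by
  -- `exists_kder`, `extend_kder`, `moving_curve_ext`
  obtain ⟨D, B, hD, hB, hpole⟩ := exists_kder hK
  refine ⟨(∑ᶠ v, (B v : ℤ)).toNat, ?_⟩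
  intro L M _ _ _ _ _ _ _ _ _ _ _ τ hτ b e d A Φ hA hAdeg hAb hΦb hAτ hΦτ y₁ y hAy hΦy hle P hP
    A₁ h1 h2 hdeg h3 E hE hcard
  have hL : IsFF κ L := hK.of_finite
  obtain ⟨D', B', hD', hB', hpole', hsum⟩ := extend_kder (L := L) hK D hD hB hpole
  have h4 := moving_curve_ext hL D' hD' hB' hτ hpole' hA hAdeg hAb hΦb hAτ hΦτ hAy hΦy hle hP h1 h2
    hdeg h3 hE hcard
  rw [hsum] at h4
  refine h4.trans ?_
  refine mul_le_mul_of_nonneg_left ?_ (Int.natCast_nonneg _)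
  have h5 : (∑ᶠ v, (B v : ℤ)) ≤ ((∑ᶠ v, (B v : ℤ)).toNat : ℤ) := Int.self_le_toNat _
  have h6 : (finrank K L : ℤ) * ∑ᶠ v, (B v : ℤ) ≤
      ((∑ᶠ v, (B v : ℤ)).toNat : ℤ) * (finrank K L : ℤ) := by
    rw [mul_comm]
    exact mul_le_mul_of_nonneg_right h5 (Int.natCast_nonneg _)
  linarith

end Pool.Agent.Lib.MP_44a246_ntY
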