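import Mathlib
import Pool.Agent.Lib.MP_44a246_ntS.SR0
import Pool.Agent.Lib.MP_44a246_ntS.SP8

/-!
Certificates for pairs: a point lies on a rational image of a plane curve of small degree which
meets the hypersurface in few points.
-/

namespace Pool.Agent.Lib.MP_44a246_ntY

open Pool.Agent.Lib.MP_e52354_nt
open Pool.Agent.Lib.MP_44a246_ntS
open Polynomial Module

/-- The point `x` lies on the image of the irreducible plane curve `A = 0` under the map `B`, with
denominator `W`; the map is inverse to the linear projection given by `ξ₀, ξ₁, ξ₂`; and the curve has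
at most `2 m + m (m - 1) / 2` points (smooth over the line, with `W ≠ 0`) which are mapped to the
hypersurface of degree `d` with the coefficients `a`, where `m` is the degree of `A` in `Y`. -/
def CertL {M : Type*} [Field M] {n : ℕ} (d : ℕ) (a : (Fin (n + 1) →₀ ℕ) → M) (b : ℕ)
    (x : Fin (n + 1) → M) : Prop :=
  ∃ (A W : M[X][X]) (B : Fin (n + 1) → M[X][X]) (ξ₀ ξ₁ ξ₂ : Fin (n + 1) → M) (c y₁ y : M),
    Irreducible A ∧ Box b A ∧ Box b W ∧ (∀ j, Box b (B j)) ∧ c ≠ 0 ∧
    ∑ j, ξ₀ j * (c * x j) = 1 ∧ ∑ j, ξ₁ j * (c * x j) = y₁ ∧ ∑ j, ξ₂ j * (c * x j) = y ∧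
    A.evalEval y₁ y = 0 ∧ (derivative A).evalEval y₁ y ≠ 0 ∧ W.evalEval y₁ y ≠ 0 ∧
    (∀ j, W.evalEval y₁ y * (c * x j) = (B j).evalEval y₁ y) ∧
    A ∣ ∑ j, C (C (ξ₀ j)) * B j - W ∧
    A ∣ ∑ j, C (C (ξ₁ j)) * B j - C X * W ∧
    A ∣ ∑ j, C (C (ξ₂ j)) * B j - X * W ∧
    ∀ E : Finset (M × M),
      (∀ p ∈ E, A.evalEval p.1 p.2 = 0 ∧ (derivative A).evalEval p.1 p.2 ≠ 0 ∧
        W.evalEval p.1 p.2 ≠ 0 ∧ (FB d a B).evalEval p.1 p.2 = 0) →
      E.card ≤ 2 * A.natDegree + A.natDegree * (A.natDegree - 1) / 2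

/-- one of the vectors `w` can be removed, square case -/
private theorem y50_remove {κ : Type*} [Field κ] {m : ℕ} {v₀ v₁ : Fin (m + 3) → κ}
    {w : Fin (m + 2) → Fin (m + 3) → κ} (h01 : LinearIndependent κ ![v₀, v₁])
    (hr : m + 3 ≤ finrank κ (Submodule.span κ (insert v₀ (insert v₁ (Set.range w))))) :
    ∃ (i₀ : Fin (m + 2)),
      (Matrix.of (Fin.cons v₀ (Fin.cons v₁ fun i => w (i₀.succAbove i)) :
        Fin (m + 3) → Fin (m + 3) → κ)).det ≠ 0 := by
  classical
  set f : Fin (m + 4) → (Fin (m + 3) → κ) := Fin.cons v₀ (Fin.cons v₁ w) with hf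
  have hf0 : f 0 = v₀ := rfl
  have hf1 : f 1 = v₁ := rfl
  have hf2 : ∀ i : Fin (m + 2), f i.succ.succ = w i := fun i => rfl
  have hf01 : LinearIndepOn κ f {0, 1} := by
    rw [LinearIndepOn.pair_iff (i := 0) (j := 1) f (by simp), hf0, hf1]
    exact LinearIndependent.pair_iff.1 h01
  obtain ⟨b, -, hb1, hb2, hb3⟩ := exists_linearIndepOn_extension hf01 (Set.subset_univ _)
  have hcard : m + 3 ≤ Fintype.card b := by
    have h1 : finrank κ (Submodule.span κ (f '' b)) = Fintype.card b := by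
      rw [Set.image_eq_range]
      exact finrank_span_eq_card hb3
    rw [← h1]
    refine hr.trans (Submodule.finrank_mono (Submodule.span_le.2 ?_))
    intro x hx
    apply hb2
    rw [Set.image_univ]
    rcases hx with rfl | rfl | ⟨i, rfl⟩
    · exact ⟨0, hf0⟩
    · exact ⟨1, hf1⟩
    · exact ⟨i.succ.succ, hf2 i⟩
  obtain ⟨i₀, hi₀⟩ : ∃ i₀ : Fin (m + 2), ∀ j, j ≠ i₀.succ.succ → j ∈ b := by
    by_cases hall : ∀ j, j ∈ b
    · exact ⟨0, fun j _ => hall j⟩
    · push Not at hall
      obtain ⟨j₀, hj₀⟩ := hall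
      have h0 : j₀ ≠ 0 := fun h => hj₀ (h ▸ hb1 (by simp))
      have h1 : j₀ ≠ 1 := fun h => hj₀ (h ▸ hb1 (by simp))
      obtain ⟨j₁, rfl⟩ := Fin.exists_succ_eq.2 h0
      have h2 : j₁ ≠ 0 := by
        rintro rfl
        exact h1 rfl
      obtain ⟨i₀, rfl⟩ := Fin.exists_succ_eq.2 h2
      refine ⟨i₀, fun j hj => ?_⟩
      by_contra hjb
      have h3 : Fintype.card b + 2 ≤ m + 4 := by
        have h4 : b.toFinset ∪ {i₀.succ.succ, j} ⊆ (Finset.univ : Finset (Fin (m + 4))) :=
          Finset.subset_univ _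
        have h5 := Finset.card_le_card h4
        rw [Finset.card_univ, Fintype.card_fin, Finset.card_union_of_disjoint,
          Finset.card_pair hj.symm, Set.toFinset_card] at h5
        · exact h5
        · rw [Finset.disjoint_right]
          intro x hx hxb
          rw [Set.mem_toFinset] at hxb
          rw [Finset.mem_insert, Finset.mem_singleton] at hx
          rcases hx with rfl | rfl
          · exact hj₀ hxb
          · exact hjb hxb
      omega
  set g : Fin (m + 3) → (Fin (m + 3) → κ) := Fin.cons v₀ (Fin.cons v₁ fun i => w (i₀.succAbove i))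
    with hg
  have hgf : g = f ∘ (i₀.succ.succ).succAbove := by
    funext j
    refine Fin.cases ?_ (fun j => Fin.cases ?_ (fun j => ?_) j) j
    · rfl
    · rw [Function.comp_apply, Fin.succ_succAbove_succ, Fin.succ_succAbove_zero]
      rfl
    · rw [Function.comp_apply, Fin.succ_succAbove_succ, Fin.succ_succAbove_succ]
      rfl
  have hgli : LinearIndependent κ g := by
    rw [hgf]
    have h1 : LinearIndependent κ (fun i : b => f i) := hb3
    exact h1.comp (fun j => (⟨(i₀.succ.succ).succAbove j, hi₀ _ (Fin.succAbove_ne _ _)⟩ : b))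
      (fun a a' haa => Fin.succAbove_right_injective (congrArg Subtype.val haa))
  refine ⟨i₀, ?_⟩
  have h2 : IsUnit (Matrix.of g) := Matrix.linearIndependent_rows_iff_isUnit.1 hgli
  have h3 := (Matrix.isUnit_iff_isUnit_det _).1 h2
  exact h3.ne_zero

/-- The derivatives at a point of the curve are independent (general denominator). -/
theorem indep_at' {κ : Type*} [Field κ] {m : ℕ} {A W : κ[X][X]} {Bv : Fin (m + 3) → κ[X][X]}
    {ξ₀ ξ₁ x : Fin (m + 3) → κ}
    {y₁ y β : κ} (hA : A.evalEval y₁ y = 0) (hAY : (derivative A).evalEval y₁ y ≠ 0)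
    (hW : W.evalEval y₁ y ≠ 0)
    (hβ : β ≠ 0) (hB : ∀ j, β * x j = (Bv j).evalEval y₁ y)
    (h0 : A ∣ ∑ j, C (C (ξ₀ j)) * Bv j - W)
    (h1 : A ∣ ∑ j, C (C (ξ₁ j)) * Bv j - C X * W)
    (e : Fin (m + 2) → Derivation ℤ κ κ)
    (hx : LinearIndependent κ (Fin.cons x (fun i k => e i (x k)) : Fin (m + 3) → Fin (m + 3) → κ)) :
    ∃ i₀ : Fin (m + 2),
      (Matrix.of (Fin.cons (fun j => (Bv j).evalEval y₁ y)
        (Fin.cons (fun j => (vf A (cX κ) (Bv j)).evalEval y₁ y)
          fun i j => (vf A (cE (e (i₀.succAbove i))) (Bv j)).evalEval y₁ y) :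
        Fin (m + 3) → Fin (m + 3) → κ)).det ≠ 0 := by
  -- As in `indep_at` (file MP_44a246_ntS/SP8.lean): the vectors `v₀ = B (p)`, `v₁`, `w i` span the
  -- whole space (`x` and its `m + 2` derivatives do), `v₀` and `v₁` are independent
  -- (`∑ ξ₀ v₀ = W`, `∑ ξ₁ v₀ = y₁ W`, `∑ ξ₀ v₁ = c₀`, `∑ ξ₁ v₁ = y₁ c₀ + A_Y * W`), so `m + 1` of the
  -- `m + 2` vectors `w i` complete them to a basis.
  classical
  set α := (derivative A).evalEval y₁ y with hα
  set ω := W.evalEval y₁ y with hω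
  set v₀ : Fin (m + 3) → κ := fun j => (Bv j).evalEval y₁ y with hv₀
  set v₁ : Fin (m + 3) → κ := fun j => (vf A (cX κ) (Bv j)).evalEval y₁ y with hv₁
  set w : Fin (m + 2) → Fin (m + 3) → κ := fun i j => (vf A (cE (e i)) (Bv j)).evalEval y₁ y
    with hw
  have hv₀x : ∀ j, v₀ j = β * x j := fun j => (hB j).symm
  have hA' : ev (RingHom.id κ) y₁ y A = 0 := by rw [ev_id]; exact hA
  have hder : ∀ i j, α * e i (v₀ j) = w i j + e i y₁ * v₁ j := by
    intro i j
    have h2 := ev_vf (RingHom.id κ) (e i) (e i) (fun c => rfl) hA' (Bv j)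
    simp only [ev_id] at h2
    exact h2
  refine y50_remove (v₀ := v₀) (v₁ := v₁) (w := w) ?_ ?_
  · have key : ∀ ξ : Fin (m + 3) → κ, ∀ V : Derivation ℤ κ[X][X] κ[X][X],
        V (∑ j, C (C (ξ j)) * Bv j) = ∑ j, (C (C (ξ j)) * V (Bv j) + Bv j * V (C (C (ξ j)))) := by
      intro ξ V
      rw [map_sum]
      refine Finset.sum_congr rfl fun j _ => ?_
      rw [Derivation.leibniz, smul_eq_mul, smul_eq_mul]
    have hVC : ∀ c : κ, vf A (cX κ) (C (C c)) = 0 := by
      intro c
      rw [vf_apply, cX_C_C, derivative_C]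
      ring
    have hev : ∀ ξ : Fin (m + 3) → κ,
        (vf A (cX κ) (∑ j, C (C (ξ j)) * Bv j)).evalEval y₁ y = ∑ j, ξ j * v₁ j := by
      intro ξ
      rw [key, evalEval_finsetSum]
      refine Finset.sum_congr rfl fun j _ => ?_
      rw [hVC, mul_zero, add_zero, evalEval_mul, evalEval_C, eval_C]
    have hev0 : ∀ ξ : Fin (m + 3) → κ,
        (∑ j, C (C (ξ j)) * Bv j).evalEval y₁ y = ∑ j, ξ j * v₀ j := by
      intro ξ
      rw [evalEval_finsetSum]
      refine Finset.sum_congr rfl fun j _ => ?_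
      rw [evalEval_mul, evalEval_C, eval_C]
    obtain ⟨q₀, hq₀⟩ := h0
    obtain ⟨q₁, hq₁⟩ := h1
    have hq₀' : ∑ j, C (C (ξ₀ j)) * Bv j = W + A * q₀ := by rw [← hq₀]; ring
    have hq₁' : ∑ j, C (C (ξ₁ j)) * Bv j = C X * W + A * q₁ := by rw [← hq₁]; ring
    set c₀ := (vf A (cX κ) W).evalEval y₁ y with hc₀
    have e00 : ∑ j, ξ₀ j * v₀ j = ω := by
      rw [← hev0, hq₀', evalEval_add, evalEval_mul, hA, zero_mul, add_zero]
    have e10 : ∑ j, ξ₁ j * v₀ j = y₁ * ω := by
      rw [← hev0, hq₁', evalEval_add, evalEval_mul, evalEval_mul, hA, zero_mul, add_zero,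
        evalEval_C, eval_X]
    have e01 : ∑ j, ξ₀ j * v₁ j = c₀ := by
      rw [← hev, hq₀', map_add, vf_mul, evalEval_add, evalEval_mul, hA, zero_mul, add_zero]
    have e11 : ∑ j, ξ₁ j * v₁ j = y₁ * c₀ + ω * α := by
      rw [← hev, hq₁', map_add, vf_mul, evalEval_add, evalEval_mul, hA, zero_mul, add_zero,
        Derivation.leibniz, smul_eq_mul, smul_eq_mul, evalEval_add, evalEval_mul, evalEval_mul,
        evalEval_C, eval_X]
      have h3 : vf A (cX κ) (C X) = derivative A := by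
        rw [vf_apply, cX_C_X, derivative_C]
        ring
      rw [h3]
    rw [LinearIndependent.pair_iff]
    intro s t hst
    have f0 : s * ω + t * c₀ = 0 := by
      have := congrArg (fun u : Fin (m + 3) → κ => ∑ j, ξ₀ j * u j) hst
      simp only [Pi.add_apply, Pi.smul_apply, smul_eq_mul, Pi.zero_apply, mul_zero,
        Finset.sum_const_zero, mul_add, Finset.sum_add_distrib] at this
      rw [← e00, ← e01, Finset.mul_sum, Finset.mul_sum, ← this]
      congr 1 <;> exact Finset.sum_congr rfl fun j _ => by ring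
    have f1 : s * (y₁ * ω) + t * (y₁ * c₀ + ω * α) = 0 := by
      have := congrArg (fun u : Fin (m + 3) → κ => ∑ j, ξ₁ j * u j) hst
      simp only [Pi.add_apply, Pi.smul_apply, smul_eq_mul, Pi.zero_apply, mul_zero,
        Finset.sum_const_zero, mul_add, Finset.sum_add_distrib] at this
      rw [← e10, ← e11, Finset.mul_sum, Finset.mul_sum, ← this]
      congr 1 <;> exact Finset.sum_congr rfl fun j _ => by ring
    have ht : t * (ω * α) = 0 := by linear_combination f1 - y₁ * f0
    have ht0 : t = 0 := (mul_eq_zero.mp ht).resolve_right (mul_ne_zero hW hAY)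
    refine ⟨?_, ht0⟩
    rw [ht0, zero_mul, add_zero] at f0
    exact (mul_eq_zero.mp f0).resolve_right hW
  · set V := Submodule.span κ (insert v₀ (insert v₁ (Set.range w))) with hV
    have m0 : v₀ ∈ V := Submodule.subset_span (Set.mem_insert _ _)
    have m1 : v₁ ∈ V := Submodule.subset_span (Set.mem_insert_of_mem _ (Set.mem_insert _ _))
    have m2 : ∀ i, w i ∈ V := fun i => Submodule.subset_span
      (Set.mem_insert_of_mem _ (Set.mem_insert_of_mem _ ⟨i, rfl⟩))
    have n0 : x ∈ V := by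
      have : x = β⁻¹ • v₀ := by
        funext j
        rw [Pi.smul_apply, smul_eq_mul, hv₀x, ← mul_assoc, inv_mul_cancel₀ hβ, one_mul]
      rw [this]
      exact V.smul_mem _ m0
    have n1 : ∀ i, (fun k => e i (x k)) ∈ V := by
      intro i
      have h5 : (fun k => e i (x k)) =
          (α * β)⁻¹ • (w i + e i y₁ • v₁) - (β⁻¹ * e i β) • x := by
        funext j
        have h6 := hder i j
        rw [hv₀x, Derivation.leibniz, smul_eq_mul, smul_eq_mul] at h6
        simp only [Pi.sub_apply, Pi.smul_apply, Pi.add_apply, smul_eq_mul]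
        rw [← h6]
        field_simp
        ring
      rw [h5]
      exact V.sub_mem (V.smul_mem _ (V.add_mem (m2 i) (V.smul_mem _ m1))) (V.smul_mem _ n0)
    have hle : Submodule.span κ (Set.range
        (Fin.cons x (fun i k => e i (x k)) : Fin (m + 3) → Fin (m + 3) → κ)) ≤ V := by
      rw [Submodule.span_le]
      rintro _ ⟨i, rfl⟩
      refine Fin.cases ?_ (fun i => ?_) i
      · exact n0
      · exact n1 i
    have h7 := finrank_span_eq_card hx
    rw [Fintype.card_fin] at h7
    exact h7.symm.le.trans (Submodule.finrank_mono hle)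

end Pool.Agent.Lib.MP_44a246_ntY
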