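import Mathlib
import Pool.Agent.Lib.MP_44a246_ntZ.Z10

/-!
The height of the curve through a point is bounded by the poles and the ramification.
-/

namespace Pool.Agent.Lib.MP_44a246_ntY

open Pool.Agent.Lib.MP_44a246_nt
open Pool.Agent.Lib.MP_44a246_ntL
open Pool.Agent.Lib.MP_44a246_ntS
open Pool.Agent.Lib.MP_44a246_ntW
open Pool.Agent.Lib.MP_44a246_ntG
open Pool.Agent.Lib.MP_44a246_ntZ
open Pool.Agent.Lib.MP_e52354_nt
open WithZero Module Polynomial

variable {κ L : Type*} [Field κ] [IsAlgClosed κ] [CharZero κ] [Field L] [Algebra κ L]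

/-- **The height of the curve is bounded by the poles of the derivations and the ramification.** -/
theorem gh_le_ΔR [CharZero L] (h : IsFF κ L) {n d T r : ℕ} (hT : 1 ≤ T) (hT2 : 2000 * T ^ 2 ≤ d)
    (hN : 2 * r + 8500 * T ^ 2 + T * (r + 3) ≤ T * d) (hd1 : 12500 * T ≤ d)
    (X : DatG κ (L := L) n d) {A : L[X][X]} (hCA : CrvG X (2 * T) A)
    (hmon : A.leadingCoeff.Monic) (hr : finrank L X.Ux ≤ r) {E : ℤ}
    (hv : ∀ {J : Finset (Fin (n + 1))} {N : ℕ}, finrank L (X.VJ J (2 * T) A) ≤ N →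
      ht κ (X.VJ J (2 * T) A ⊔ Submodule.span L {X.row X.v}) ≤
        N * (4 * gh κ A + 3 * X.Δ) + 4 * height κ X.x + E)
    (hE : X.Δ ≤ E) (hbig : 27 * (d : ℤ) ^ 2 * E < height κ X.x)
    (hα : 5 * (gh κ A * ((d / 8 : ℕ) : ℤ) ^ 2) ≤ 16 * (5 * height κ X.x)) :
    gh κ A ≤ X.Δ + X.R := by
  have hR := X.R_nonneg
  have e : T * (r + 2) ≤ T * (r + 3) := Nat.mul_le_mul_left _ (by omega)
  have h1 := gh_le_B2 (s := 5) h hT hT2 (by omega) (by norm_num) (by linarith) X hCA hmon hr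
    (E := E) (by
      intro J N hN
      have := hv (J := J) hN
      push_cast
      linarith) hE hbig hα
  have hd2 : (3 : ℤ) ≤ (d : ℤ) ^ 2 := by
    have : (2 : ℤ) ≤ d := by
      have : 2 ≤ d := by omega
      exact_mod_cast this
    nlinarith
  have h2 : 3 * X.R ≤ (d : ℤ) ^ 2 * X.R := mul_le_mul_of_nonneg_right hd2 hR
  have h3 : (d : ℤ) ^ 2 * gh κ A ≤ (d : ℤ) ^ 2 * (X.Δ + X.R) := by
    rw [mul_add]
    linarith
  exact le_of_mul_le_mul_left h3 (by linarith)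

end Pool.Agent.Lib.MP_44a246_ntY
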