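import Mathlib
import Pool.Agent.Lib.MP_44a246_ntG.G24
import Pool.Agent.Lib.MP_44a246_ntY.Y39
import Pool.Agent.Lib.MP_44a246_ntY.Y61
import Pool.Agent.Lib.MP_44a246_ntY.Y63

/-!
The local version of the theorem: the data over one finite extension.
-/

namespace Pool.Agent.Lib.MP_44a246_ntY

open Pool.Agent.Lib.MP_44a246_nt
open Pool.Agent.Lib.MP_44a246_ntL
open Pool.Agent.Lib.MP_44a246_ntS
open Pool.Agent.Lib.MP_44a246_ntG
open Pool.Agent.Lib.MP_e52354_nt
open WithZero Module Polynomial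

universe u v w x

section

variable {κ L : Type*} [Field κ] [IsAlgClosed κ] [CharZero κ] [Field L] [CharZero L]
  [Algebra κ L] {n d : ℕ} (X : DatG κ (L := L) n d) {b : ℕ} {A : L[X][X]} (hA : CrvG X b A)

/-- the size of the coefficients of the curve and of the hypersurface restricted to it -/
noncomputable def tauL (A : L[X][X]) (α : Place κ L → ℕ) (w : Place κ L) : ℕ :=
  α w + (2 * d + 1) * (log (gg w.1 A)).toNat + d * X.δ w

private theorem Y64_natCast_support {f : Place κ L → ℕ} (hf : (Function.support f).Finite) :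
    (Function.support fun w => (f w : ℤ)).Finite := by
  refine hf.subset fun w hw h0 => hw ?_
  simp only
  rw [h0, Nat.cast_zero]

private theorem Y64_const_mul_support {f : Place κ L → ℤ} (hf : (Function.support f).Finite)
    (c : ℤ) : (Function.support fun w => c * f w).Finite := by
  refine hf.subset fun w hw h0 => hw ?_
  simp only
  rw [h0, mul_zero]

private theorem Y64_exp_mul_pow (a : ℤ) (m : ℕ) : (exp a : ℤᵐ⁰) ^ m = exp ((m : ℤ) * a) := by
  rw [← exp_nsmul, nsmul_eq_mul]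

include hA in
private theorem Y64_log_nonneg (w : Place κ L) : 0 ≤ log (gg w.1 A) := by
  have h1 : gg w.1 A ≠ 0 := by
    rw [Ne, gg_eq_zero]
    exact hA.irr.ne_zero
  rw [le_log_iff_exp_le h1, exp_zero]
  exact one_le_gg hA.one w

include hA in
private theorem Y64_B_le_exp (j : Fin (n + 1)) (w : Place κ L) :
    gg w.1 (X.B A j) ≤ exp (2 * log (gg w.1 A) + (X.δ w : ℤ)) := by
  have h1 : gg w.1 A ≠ 0 := by
    rw [Ne, gg_eq_zero]
    exact hA.irr.ne_zero
  have h2 := X.B_le hA j w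
  rw [← exp_log h1, ← exp_nsmul, ← exp_add, nsmul_eq_mul, Nat.cast_ofNat] at h2
  exact h2

include hA in
private theorem Y64_tauL_cast (α : Place κ L → ℕ) (w : Place κ L) : (tauL X A α w : ℤ) =
    (α w : ℤ) + (2 * d + 1) * log (gg w.1 A) + d * (X.δ w : ℤ) := by
  unfold tauL
  push_cast
  rw [Int.toNat_of_nonneg (Y64_log_nonneg X hA w)]

include hA in
theorem tauL_sum (h : IsFF κ L) {α : Place κ L → ℕ} (hα : (Function.support α).Finite) :
    (Function.support (tauL X A α)).Finite ∧ ∑ᶠ w, (tauL X A α w : ℤ) =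
      ∑ᶠ w, (α w : ℤ) + (2 * d + 1) * gh κ A + d * X.Δ := by
  -- `log (gg w A) ≥ 0` by `one_le_gg hA.one w`; `finsum_add_distrib`
  have s1 := Y64_natCast_support hα
  have s3 := gg_support h hA.irr.ne_zero
  have s4 := Y64_const_mul_support s3 (2 * d + 1)
  have s6 := Y64_const_mul_support (Y64_natCast_support X.hδ) (d : ℤ)
  have s5 : (Function.support fun w : Place κ L =>
      (α w : ℤ) + (2 * d + 1) * log (gg w.1 A)).Finite :=
    (s1.union s4).subset (Function.support_add _ _)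
  have s7 : (Function.support fun w : Place κ L =>
      (α w : ℤ) + (2 * d + 1) * log (gg w.1 A) + d * (X.δ w : ℤ)).Finite :=
    (s5.union s6).subset (Function.support_add _ _)
  refine ⟨s7.subset fun w hw h0 => hw ?_, ?_⟩
  · have h1 := Y64_tauL_cast X hA α w
    simp only at h0
    rw [h0] at h1
    exact_mod_cast h1
  · have e : (fun w => (tauL X A α w : ℤ)) = fun w : Place κ L =>
        (α w : ℤ) + (2 * d + 1) * log (gg w.1 A) + d * (X.δ w : ℤ) :=
      funext fun w => Y64_tauL_cast X hA α w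
    rw [e, finsum_add_distrib s5 s6, finsum_add_distrib s1 s4, ← mul_finsum, ← mul_finsum]
    rfl

include hA in
theorem gg_le_tauL (h : IsFF κ L) {α : Place κ L → ℕ} 
    (ha : ∀ I ∈ expo (Fin (n + 1)) d, ∀ w : Place κ L, w.1 (X.a I) ≤ exp (α w : ℤ))
    (w : Place κ L) : gg w.1 A ≤ exp (tauL X A α w : ℤ) ∧
      gg w.1 (FB d X.a (X.B A)) ≤ exp (tauL X A α w : ℤ) := by
  -- `X.B_le hA`, `FB_le`
  have _ := h
  have h1 : gg w.1 A ≠ 0 := by
    rw [Ne, gg_eq_zero]
    exact hA.irr.ne_zero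
  have h2 := Y64_log_nonneg X hA w
  have hd0 : (0 : ℤ) ≤ d := Int.natCast_nonneg _
  have hα0 : (0 : ℤ) ≤ α w := Int.natCast_nonneg _
  have hδ0 : (0 : ℤ) ≤ X.δ w := Int.natCast_nonneg _
  have hdl : 0 ≤ (d : ℤ) * log (gg w.1 A) := mul_nonneg hd0 h2
  have hdδ : 0 ≤ (d : ℤ) * (X.δ w : ℤ) := mul_nonneg hd0 hδ0
  rw [Y64_tauL_cast X hA α w]
  constructor
  · rw [← log_le_iff_le_exp h1]
    nlinarith
  · refine (FB_le w.1 (fun I hI => ha I hI w) (fun j => Y64_B_le_exp X hA j w)).trans ?_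
    rw [Y64_exp_mul_pow, ← exp_add, exp_le_exp]
    nlinarith

include hA in
theorem FB_value : (FB d X.a (X.B A)).evalEval X.y₁ X.y =
    (derivative A).evalEval X.y₁ X.y ^ d * X.v := by
  -- `FB_eval`, `X.B_eval hA`, homogeneity as in `FB_zero` (file MP_44a246_ntG/G16.lean)
  rw [FB_eval]
  have h1 : (fun j => (X.B A j).evalEval X.y₁ X.y) =
      fun j => (derivative A).evalEval X.y₁ X.y * X.x j := by
    funext j
    rw [X.B_eval hA j]
  rw [h1]
  set c := (derivative A).evalEval X.y₁ X.y with hc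
  have h2 : Fval d X.a (fun j => c * X.x j) = c ^ d * Fval d X.a X.x := by
    unfold Fval
    rw [Finset.mul_sum]
    refine Finset.sum_congr rfl fun I hI => ?_
    have hdeg : ∑ j, I j = d := by
      have := mem_expo.1 hI
      rwa [Finsupp.degree_eq_sum] at this
    have h3 : mon (fun j => c * X.x j) I = c ^ d * mon X.x I := by
      unfold mon
      simp only [mul_pow]
      rw [Finset.prod_mul_distrib, Finset.prod_pow_eq_pow_sum, hdeg]
    rw [h3]
    ring
  rw [h2]
  rfl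

end

/-- the constant of the theorem -/
noncomputable def cLog (d T : ℕ) : ℕ :=
  27 * d ^ 2 + 1 + (3 * d + 1) * cE (2 * T) (d * (2 * T)) d

/-- **The local version.** -/
theorem log_local {κ : Type u} {K : Type v} [Field κ] [IsAlgClosed κ] [CharZero κ] [Field K]
    [Algebra κ K] (hK : IsFF κ K) :
    ∃ C : ℕ, ∀ (L : Type w) (M : Type x) [Field L] [CharZero L] [Algebra κ L] [Algebra K L]
      [IsScalarTower κ K L] [FiniteDimensional K L] [Field M] [Algebra κ M] [Algebra L M]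
      [IsScalarTower κ L M] [IsAlgClosed M] [Algebra.IsAlgebraic L M]
      {n d T : ℕ} (_ : 1 ≤ T) (_ : 2000 * T ^ 2 ≤ d)
      (_ : 2 * (n + 1) + 8500 * T ^ 2 + T * (n + 4) ≤ T * d) (_ : 12500 * T ≤ d)
      (X : DatG κ (L := L) n d) (_ : X.v ≠ 0)
      {ε α : Place κ L → ℕ} (_ : (Function.support ε).Finite) (_ : (Function.support α).Finite)
      (_ : ∀ w : Place κ L, w.1 X.v = vmax w.1 X.x ^ d ∨ 1 ≤ ε w)
      (_ : ∀ I ∈ expo (Fin (n + 1)) d, ∀ w : Place κ L, w.1 (X.a I) ≤ exp (α w : ℤ)),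
      height κ X.x ≤ cLog d T * (X.Δ + X.R + ∑ᶠ w, (ε w : ℤ) + ∑ᶠ w, (α w : ℤ) +
        (ramDeg κ L K : ℤ) + C * finrank K L) ∨
      CertL d (fun I => algebraMap L M (X.a I)) (2 * T) (fun j => algebraMap L M (X.x j)) := by
  classical
  obtain ⟨C, hC⟩ := moving_curve_rel.{u, v, w, x} hK
  refine ⟨C, ?_⟩
  intro L M _ _ _ _ _ _ _ _ _ _ _ _ n d T hT hT2 hN hd1 X hv ε α hε hα hεv ha
  have hL : IsFF κ L := hK.of_finite
  have hΔ := X.Δ_nonneg
  have hR0 := X.R_nonneg
  have hε0 : 0 ≤ ∑ᶠ w, (ε w : ℤ) := finsum_nonneg fun w => Int.natCast_nonneg _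
  have hα0 : 0 ≤ ∑ᶠ w, (α w : ℤ) := finsum_nonneg fun w => Int.natCast_nonneg _
  have hram : (0 : ℤ) ≤ (ramDeg κ L K : ℤ) := Int.natCast_nonneg _
  have hCf : (0 : ℤ) ≤ C * finrank K L := by positivity
  have hH := hL.height_nonneg X.x_ne_zero
  set S : ℤ := X.Δ + X.R + ∑ᶠ w, (ε w : ℤ) + ∑ᶠ w, (α w : ℤ) + (ramDeg κ L K : ℤ) +
    C * finrank K L with hS
  have hS0 : 0 ≤ S := by positivity
  have hc1 : (27 * (d : ℤ) ^ 2) * S ≤ cLog d T * S := by
    refine mul_le_mul_of_nonneg_right ?_ hS0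
    unfold cLog
    push_cast
    have : (0 : ℤ) ≤ (3 * d + 1) * (cE (2 * T) (d * (2 * T)) d : ℤ) := by positivity
    linarith
  have hc2 : 1 * S ≤ cLog d T * S := by
    refine mul_le_mul_of_nonneg_right ?_ hS0
    unfold cLog
    push_cast
    have : (0 : ℤ) ≤ (3 * d + 1) * (cE (2 * T) (d * (2 * T)) d : ℤ) := by positivity
    have h27 : (0 : ℤ) ≤ 27 * (d : ℤ) ^ 2 := by positivity
    linarith
  rcases le_or_gt (height κ X.x) (27 * (d : ℤ) ^ 2 * (X.Δ + ∑ᶠ w, (ε w : ℤ))) with hle | hbig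
  · left
    refine hle.trans (le_trans ?_ hc1)
    exact mul_le_mul_of_nonneg_left (by linarith) (by positivity)
  rcases le_or_gt (height κ X.x) X.R with hle | hR
  · left
    refine hle.trans (le_trans ?_ hc2)
    linarith
  -- the curve
  have hr : finrank L X.U ≤ n + 1 := X.finrank_U_le
  have hrx : finrank L X.Ux ≤ n + 1 := (Submodule.finrank_mono le_sup_left).trans hr
  obtain ⟨A, hCA, hmon, hgh⟩ := exists_small_curve_log hL (n := n) (d := d) (T := T) (r := n + 1)
    (q := 1) hT hT2 (by omega) (by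
      have e : T * (n + 1 + 2 + 1) = T * (n + 4) := by ring
      rw [e]
      exact hN) X hr hv hε hεv (by push_cast; linarith) hbig
  have hgh' : 5 * (gh κ A * ((d / 8 : ℕ) : ℤ) ^ 2) ≤ 16 * (5 * height κ X.x) := hgh
  have hghA := gh_nonneg hL hCA.irr.ne_zero
  have hgh2 : gh κ A ≤ X.Δ + X.R := by
    refine gh_le_ΔR hL hT hT2 (by
      have e : T * (n + 1 + 3) = T * (n + 4) := by ring
      rw [e]
      exact hN) hd1 X hCA hmon hrx (E := X.Δ + ∑ᶠ w, (ε w : ℤ)) ?_ (by linarith) hbig hgh'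
    intro J N hNN
    have h1 := ht_VJ_log X hCA hL hNN hv hε hεv
    linarith
  -- the certificate or the points
  have hlin : ((2 * T : ℕ) : ℤ) * gh κ A + ((2 * T : ℕ) : ℤ) * (2 * gh κ A + X.Δ) <
      height κ X.x := by
    have hpos : 0 < height κ X.x := lt_of_le_of_lt (by positivity) hbig
    have h1 := numG3 (n := n + 1) (d := d) (T := T) (e := 1) (s₀ := 5) (by norm_num) hT hT2
      (by nlinarith) (by nlinarith) hpos hΔ le_rfl hghA hgh'
      (by rw [add_zero]; nlinarith [mul_nonneg (show (0 : ℤ) ≤ 27 * (d : ℤ) ^ 2 by positivity) hε0])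
    push_cast at h1 ⊢
    linarith
  rcases certL_or (M := M) X hCA hL hlin with hcert | ⟨A₁, E, h1, h2, h3, h4, h5, h6⟩
  · exact Or.inr hcert
  left
  obtain ⟨t1, t2⟩ := tauL_sum X hCA hL hα
  have hval := FB_value X hCA
  have hPhi : (FB d X.a (X.B A)).evalEval X.y₁ X.y ≠ 0 := by
    rw [hval]
    exact mul_ne_zero (pow_ne_zero _ hCA.der) hv
  have hle : ∀ w : Place κ L, w.1 X.y ≤ max 1 (w.1 X.y₁) := by
    intro w
    rw [← X.vmax_x w]
    unfold DatG.y
    refine Valuation.map_sum_le _ fun j _ => ?_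
    rw [map_mul]
    refine le_trans (mul_le_mul' ?_ (le_vmax w.1 X.x j)) (le_of_eq (one_mul _))
    by_cases hz : X.z j = 0
    · rw [hz, map_zero, map_zero]
      exact zero_le
    · exact (w.2.2 _ hz).le
  have hP : ∀ w : Place κ L, w ∉ hε.toFinset →
      w.1 ((derivative A).evalEval X.y₁ X.y) ^ d ≤ w.1 ((FB d X.a (X.B A)).evalEval X.y₁ X.y) := by
    intro w hw
    rw [Set.Finite.mem_toFinset, Function.mem_support, not_not] at hw
    have h7 : w.1 X.v = vmax w.1 X.x ^ d := by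
      rcases hεv w with h8 | h8
      · exact h8
      · omega
    rw [hval, map_mul, map_pow, h7]
    exact le_mul_of_one_le_right' (one_le_pow₀ (X.one_le_vmax w))
  have hmain := hC L M (tauL X A α) t1 (2 * T) (d * (2 * T)) d A (FB d X.a (X.B A)) hCA.irr
    hCA.deg hCA.box (box_FB d X.a (X.B_box hCA)) (fun w => (gg_le_tauL X hCA hL ha w).1)
    (fun w => (gg_le_tauL X hCA hL ha w).2) X.y₁ X.y hCA.zero hPhi hle hε.toFinset hP A₁ h1 h2 h3
    h4 E h5 h6
  rw [X.height_y₁, t2] at hmain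
  have hcard : (hε.toFinset.card : ℤ) ≤ ∑ᶠ w, (ε w : ℤ) := by
    rw [finsum_eq_sum_of_support_subset (s := hε.toFinset) _ (by
      intro w hw
      rw [Function.mem_support] at hw
      rw [Set.Finite.coe_toFinset, Function.mem_support]
      exact_mod_cast hw)]
    rw [Finset.card_eq_sum_ones]
    push_cast
    refine Finset.sum_le_sum fun w hw => ?_
    rw [Set.Finite.mem_toFinset, Function.mem_support] at hw
    have : 1 ≤ ε w := by omega
    exact_mod_cast this
  refine hmain.trans ?_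
  have hin : (hε.toFinset.card : ℤ) + (ramDeg κ L K : ℤ) + C * finrank K L +
      (∑ᶠ w, (α w : ℤ) + (2 * d + 1) * gh κ A + d * X.Δ) ≤ (3 * d + 1) * S := by
    have hd0 : (0 : ℤ) ≤ d := Int.natCast_nonneg _
    have e1 : (2 * (d : ℤ) + 1) * gh κ A ≤ (2 * d + 1) * (X.Δ + X.R) :=
      mul_le_mul_of_nonneg_left hgh2 (by positivity)
    have e2 : (3 * (d : ℤ) + 1) * S = (2 * d + 1) * (X.Δ + X.R) + d * X.Δ + (d * X.R +
      (3 * d) * (∑ᶠ w, (ε w : ℤ) + ∑ᶠ w, (α w : ℤ) + (ramDeg κ L K : ℤ) + C * finrank K L)) +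
      (∑ᶠ w, (ε w : ℤ) + ∑ᶠ w, (α w : ℤ) + (ramDeg κ L K : ℤ) + C * finrank K L) := by
      rw [hS]
      ring
    have e3 : 0 ≤ d * X.R +
      (3 * d) * (∑ᶠ w, (ε w : ℤ) + ∑ᶠ w, (α w : ℤ) + (ramDeg κ L K : ℤ) + C * finrank K L) := by
      positivity
    rw [e2]
    linarith
  have hcE : (0 : ℤ) ≤ (cE (2 * T) (d * (2 * T)) d : ℤ) := Int.natCast_nonneg _
  calc _ ≤ (cE (2 * T) (d * (2 * T)) d : ℤ) * ((3 * d + 1) * S) :=
        mul_le_mul_of_nonneg_left hin hcE
    _ = ((3 * d + 1) * (cE (2 * T) (d * (2 * T)) d : ℤ)) * S := by ring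
    _ ≤ cLog d T * S := by
        refine mul_le_mul_of_nonneg_right ?_ hS0
        unfold cLog
        push_cast
        have : (0 : ℤ) ≤ 27 * (d : ℤ) ^ 2 := by positivity
        linarith

end Pool.Agent.Lib.MP_44a246_ntY
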