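import Mathlib
import Pool.Agent.Lib.MP_44a246_ntS.SR0
import Pool.Agent.Lib.MP_44a246_ntU.U10

/-!
Certificates for pairs consisting of a variety and a hypersurface section: a point lies on a
rational image, inside the variety, of a plane curve of small degree which meets the hypersurface
in few points.
-/

namespace Pool.Agent.Lib.MP_44a246_ntY

open Pool.Agent.Lib.MP_e52354_nt
open Pool.Agent.Lib.MP_44a246_ntS
open Polynomial

/-- The point `x` lies on the image of the irreducible plane curve `A = 0` under the map `B`, with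
denominator `W`; this image is contained in the zero set of the forms of degrees `e i` with the
coefficients `v i`; the map is inverse to the linear projection given by `ξ₀, ξ₁, ξ₂`; and the curve
has at most `2 m + m (m - 1) / 2` points (smooth over the line, with `W ≠ 0`) which are mapped to the
hypersurface of degree `d` with the coefficients `a`, where `m` is the degree of `A` in `Y`. -/
def CertLV {M : Type*} [Field M] {n : ℕ} {ι : Type*} (e : ι → ℕ)
    (v : ι → (Fin (n + 1) →₀ ℕ) → M) (d : ℕ) (a : (Fin (n + 1) →₀ ℕ) → M) (b : ℕ)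
    (x : Fin (n + 1) → M) : Prop :=
  ∃ (A W : M[X][X]) (B : Fin (n + 1) → M[X][X]) (ξ₀ ξ₁ ξ₂ : Fin (n + 1) → M) (c y₁ y : M),
    Irreducible A ∧ Box b A ∧ Box b W ∧ (∀ j, Box b (B j)) ∧ c ≠ 0 ∧
    ∑ j, ξ₀ j * (c * x j) = 1 ∧ ∑ j, ξ₁ j * (c * x j) = y₁ ∧ ∑ j, ξ₂ j * (c * x j) = y ∧
    A.evalEval y₁ y = 0 ∧ (derivative A).evalEval y₁ y ≠ 0 ∧ W.evalEval y₁ y ≠ 0 ∧
    (∀ j, W.evalEval y₁ y * (c * x j) = (B j).evalEval y₁ y) ∧
    (∀ i, A ∣ FB (e i) (v i) B) ∧
    A ∣ ∑ j, C (C (ξ₀ j)) * B j - W ∧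
    A ∣ ∑ j, C (C (ξ₁ j)) * B j - C X * W ∧
    A ∣ ∑ j, C (C (ξ₂ j)) * B j - X * W ∧
    ∀ E : Finset (M × M),
      (∀ p ∈ E, A.evalEval p.1 p.2 = 0 ∧ (derivative A).evalEval p.1 p.2 ≠ 0 ∧
        W.evalEval p.1 p.2 ≠ 0 ∧ (FB d a B).evalEval p.1 p.2 = 0) →
      E.card ≤ 2 * A.natDegree + A.natDegree * (A.natDegree - 1) / 2

section

variable {M : Type*} [Field M] {n : ℕ} {ι : Type*} {e : ι → ℕ}
  {v : ι → (Fin (n + 1) →₀ ℕ) → M} {d : ℕ} {a : (Fin (n + 1) →₀ ℕ) → M} {b : ℕ}
  {x : Fin (n + 1) → M}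

theorem CertLV.smul_of (h : CertLV e v d a b x) {r : M} (hr : r ≠ 0) :
    CertLV e v d a b (fun j => r * x j) := by
  obtain ⟨A, W, B, ξ₀, ξ₁, ξ₂, c, y₁, y, h1, h2, h3, h4, h5, h6⟩ := h
  have hx : ∀ j, c * x j = (c * r⁻¹) * (r * x j) := by
    intro j
    field_simp
  simp only [hx] at h6
  exact ⟨A, W, B, ξ₀, ξ₁, ξ₂, c * r⁻¹, y₁, y, h1, h2, h3, h4, mul_ne_zero h5 (inv_ne_zero hr), h6⟩

theorem CertLV.mono {b' : ℕ} (hb : b ≤ b') (h : CertLV e v d a b x) : CertLV e v d a b' x := by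
  obtain ⟨A, W, B, ξ₀, ξ₁, ξ₂, c', y₁, y, h0, h1, h2, h3, h4⟩ := h
  exact ⟨A, W, B, ξ₀, ξ₁, ξ₂, c', y₁, y, h0, ⟨h1.1.trans hb, fun i => (h1.2 i).trans hb⟩,
    ⟨h2.1.trans hb, fun i => (h2.2 i).trans hb⟩,
    fun j => ⟨(h3 j).1.trans hb, fun i => ((h3 j).2 i).trans hb⟩, h4⟩

end

/-- The derivatives at a point of the curve are independent (general denominator). -/
theorem indep_atLV {κ : Type*} [Field κ] {m n : ℕ} {A W : κ[X][X]} {Bv : Fin n → κ[X][X]}
    {ξ₀ ξ₁ x : Fin n → κ} {y₁ y β : κ} (hA : A.evalEval y₁ y = 0)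
    (hAY : (derivative A).evalEval y₁ y ≠ 0) (hW : W.evalEval y₁ y ≠ 0)
    (hβ : β ≠ 0) (hB : ∀ j, β * x j = (Bv j).evalEval y₁ y)
    (h0 : A ∣ ∑ j, C (C (ξ₀ j)) * Bv j - W)
    (h1 : A ∣ ∑ j, C (C (ξ₁ j)) * Bv j - C X * W)
    (e : Fin (m + 1) → Derivation ℤ κ κ)
    (hx : LinearIndependent κ (Fin.cons x (fun i k => e i (x k)) : Fin (m + 2) → Fin n → κ)) :
    ∃ i₀ : Fin (m + 1), LinearIndependent κ
      (Fin.cons (fun j => (Bv j).evalEval y₁ y)
        (Fin.cons (fun j => (vf A (cX κ) (Bv j)).evalEval y₁ y)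
          fun i j => (vf A (cE (e (i₀.succAbove i))) (Bv j)).evalEval y₁ y) :
        Fin (m + 2) → Fin n → κ) := by
  classical
  set α := (derivative A).evalEval y₁ y with hα
  set ω := W.evalEval y₁ y with hω
  set v₀ : Fin n → κ := fun j => (Bv j).evalEval y₁ y with hv₀
  set v₁ : Fin n → κ := fun j => (vf A (cX κ) (Bv j)).evalEval y₁ y with hv₁
  set w : Fin (m + 1) → Fin n → κ := fun i j => (vf A (cE (e i)) (Bv j)).evalEval y₁ y
    with hw
  have hv₀x : ∀ j, v₀ j = β * x j := fun j => (hB j).symm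
  have hA' : ev (RingHom.id κ) y₁ y A = 0 := by rw [ev_id]; exact hA
  -- the derivatives of `v₀`
  have hder : ∀ i j, α * e i (v₀ j) = w i j + e i y₁ * v₁ j := by
    intro i j
    have h2 := ev_vf (RingHom.id κ) (e i) (e i) (fun c => rfl) hA' (Bv j)
    simp only [ev_id] at h2
    exact h2
  refine MP_44a246_ntU.exists_removeV (v₀ := v₀) (v₁ := v₁) (w := w) ?_ ?_
  · -- independence of the two first vectors
    have key : ∀ ξ : Fin n → κ, ∀ V : Derivation ℤ κ[X][X] κ[X][X],
        V (∑ j, C (C (ξ j)) * Bv j) = ∑ j, (C (C (ξ j)) * V (Bv j) + Bv j * V (C (C (ξ j)))) := by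
      intro ξ V
      rw [map_sum]
      refine Finset.sum_congr rfl fun j _ => ?_
      rw [Derivation.leibniz, smul_eq_mul, smul_eq_mul]
    have hVC : ∀ c : κ, vf A (cX κ) (C (C c)) = 0 := by
      intro c
      rw [vf_apply, cX_C_C, derivative_C]
      ring
    have hev : ∀ ξ : Fin n → κ,
        (vf A (cX κ) (∑ j, C (C (ξ j)) * Bv j)).evalEval y₁ y = ∑ j, ξ j * v₁ j := by
      intro ξ
      rw [key, evalEval_finsetSum]
      refine Finset.sum_congr rfl fun j _ => ?_
      rw [hVC, mul_zero, add_zero, evalEval_mul, evalEval_C, eval_C]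
    have hev0 : ∀ ξ : Fin n → κ,
        (∑ j, C (C (ξ j)) * Bv j).evalEval y₁ y = ∑ j, ξ j * v₀ j := by
      intro ξ
      rw [evalEval_finsetSum]
      refine Finset.sum_congr rfl fun j _ => ?_
      rw [evalEval_mul, evalEval_C, eval_C]
    obtain ⟨q₀, hq₀⟩ := h0
    obtain ⟨q₁, hq₁⟩ := h1
    have hq₀' : ∑ j, C (C (ξ₀ j)) * Bv j = W + A * q₀ := by rw [← hq₀]; ring
    have hq₁' : ∑ j, C (C (ξ₁ j)) * Bv j = C X * W + A * q₁ := by rw [← hq₁]; ring
    set c₀ := (vf A (cX κ) W).evalEval y₁ y with hc₀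
    have e00 : ∑ j, ξ₀ j * v₀ j = ω := by
      rw [← hev0, hq₀', evalEval_add, evalEval_mul, hA, zero_mul, add_zero]
    have e10 : ∑ j, ξ₁ j * v₀ j = y₁ * ω := by
      rw [← hev0, hq₁', evalEval_add, evalEval_mul, evalEval_mul, hA, zero_mul, add_zero,
        evalEval_C, eval_X]
    have e01 : ∑ j, ξ₀ j * v₁ j = c₀ := by
      rw [← hev, hq₀', map_add, vf_mul, evalEval_add, evalEval_mul, hA, zero_mul, add_zero]
    have e11 : ∑ j, ξ₁ j * v₁ j = y₁ * c₀ + ω * α := by
      rw [← hev, hq₁', map_add, vf_mul, evalEval_add, evalEval_mul, hA, zero_mul, add_zero,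
        Derivation.leibniz, smul_eq_mul, smul_eq_mul, evalEval_add, evalEval_mul, evalEval_mul,
        evalEval_C, eval_X]
      have h3 : vf A (cX κ) (C X) = derivative A := by
        rw [vf_apply, cX_C_X, derivative_C]
        ring
      rw [h3]
    rw [LinearIndependent.pair_iff]
    intro s t hst
    have f0 : s * ω + t * c₀ = 0 := by
      have := congrArg (fun u : Fin n → κ => ∑ j, ξ₀ j * u j) hst
      simp only [Pi.add_apply, Pi.smul_apply, smul_eq_mul, Pi.zero_apply, mul_zero,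
        Finset.sum_const_zero, mul_add, Finset.sum_add_distrib] at this
      rw [← e00, ← e01, Finset.mul_sum, Finset.mul_sum, ← this]
      congr 1 <;> exact Finset.sum_congr rfl fun j _ => by ring
    have f1 : s * (y₁ * ω) + t * (y₁ * c₀ + ω * α) = 0 := by
      have := congrArg (fun u : Fin n → κ => ∑ j, ξ₁ j * u j) hst
      simp only [Pi.add_apply, Pi.smul_apply, smul_eq_mul, Pi.zero_apply, mul_zero,
        Finset.sum_const_zero, mul_add, Finset.sum_add_distrib] at this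
      rw [← e10, ← e11, Finset.mul_sum, Finset.mul_sum, ← this]
      congr 1 <;> exact Finset.sum_congr rfl fun j _ => by ring
    have ht : t * (ω * α) = 0 := by linear_combination f1 - y₁ * f0
    have ht0 : t = 0 := (mul_eq_zero.mp ht).resolve_right (mul_ne_zero hW hAY)
    refine ⟨?_, ht0⟩
    rw [ht0, zero_mul, add_zero] at f0
    exact (mul_eq_zero.mp f0).resolve_right hW
  · -- the rank
    set SW := Submodule.span κ (insert v₀ (insert v₁ (Set.range w))) with hSW
    have m0 : v₀ ∈ SW := Submodule.subset_span (Set.mem_insert _ _)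
    have m1 : v₁ ∈ SW := Submodule.subset_span (Set.mem_insert_of_mem _ (Set.mem_insert _ _))
    have m2 : ∀ i, w i ∈ SW := fun i => Submodule.subset_span
      (Set.mem_insert_of_mem _ (Set.mem_insert_of_mem _ ⟨i, rfl⟩))
    have n0 : x ∈ SW := by
      have : x = β⁻¹ • v₀ := by
        funext j
        rw [Pi.smul_apply, smul_eq_mul, hv₀x, ← mul_assoc, inv_mul_cancel₀ hβ, one_mul]
      rw [this]
      exact SW.smul_mem _ m0
    have n1 : ∀ i, (fun k => e i (x k)) ∈ SW := by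
      intro i
      have h5 : (fun k => e i (x k)) =
          (α * β)⁻¹ • (w i + e i y₁ • v₁) - (β⁻¹ * e i β) • x := by
        funext j
        have h6 := hder i j
        rw [hv₀x, Derivation.leibniz, smul_eq_mul, smul_eq_mul] at h6
        simp only [Pi.sub_apply, Pi.smul_apply, Pi.add_apply, smul_eq_mul]
        rw [← h6]
        field_simp
        ring
      rw [h5]
      exact SW.sub_mem (SW.smul_mem _ (SW.add_mem (m2 i) (SW.smul_mem _ m1))) (SW.smul_mem _ n0)
    have hle : Submodule.span κ (Set.range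
        (Fin.cons x (fun i k => e i (x k)) : Fin (m + 2) → Fin n → κ)) ≤ SW := by
      rw [Submodule.span_le]
      rintro _ ⟨i, rfl⟩
      refine Fin.cases ?_ (fun i => ?_) i
      · exact n0
      · exact n1 i
    have h7 := finrank_span_eq_card hx
    rw [Fintype.card_fin] at h7
    rw [← h7]
    exact Submodule.finrank_mono hle

end Pool.Agent.Lib.MP_44a246_ntY
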