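import Mathlib
import Pool.Agent.Lib.MP_44a246_nt.Core
import Pool.Agent.Lib.MP_44a246_ntL.LFF
import Pool.Agent.Lib.MP_44a246_ntS.SP7

/-!
A place of a plane curve over a point where the derivative does not vanish is determined by the
point.
-/

namespace Pool.Agent.Lib.MP_44a246_ntY

open Pool.Agent.Lib.MP_44a246_nt
open Pool.Agent.Lib.MP_44a246_ntL
open Pool.Agent.Lib.MP_44a246_ntS
open WithZero Polynomial

variable {κ M : Type*} [Field κ] [Field M] [Algebra κ M]

/-- Taylor expansion of a polynomial in two variables, the coefficient of `Y - t` has the value of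
the derivative. -/
theorem exists_taylor (G : κ[X][X]) (s t : κ) (hG : G.evalEval s t = 0) :
    ∃ G₁ G₂ : κ[X][X], G = C (X - C s) * G₁ + (X - C (C t)) * G₂ ∧
      G₂.evalEval s t = (derivative G).evalEval s t := by
  have h1 : G %ₘ (X - C (C t)) + (X - C (C t)) * (G /ₘ (X - C (C t))) = G :=
    modByMonic_add_div G _
  rw [modByMonic_X_sub_C_eq_C_eval] at h1
  have h2 : (X - C s) ∣ G.eval (C t) := by
    rw [dvd_iff_isRoot, IsRoot.def]
    exact hG
  obtain ⟨R, hR⟩ := h2
  generalize hQ : G /ₘ (X - C (C t)) = Q at h1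
  refine ⟨C R, Q, ?_, ?_⟩
  · rw [← C_mul, ← hR, h1]
  · have h3 : derivative G = Q + (X - C (C t)) * derivative Q := by
      rw [← h1, derivative_add, derivative_C, derivative_mul, derivative_sub, derivative_X,
        derivative_C]
      ring
    rw [h3, evalEval_add, evalEval_mul, evalEval_sub, evalEval_X, evalEval_C, eval_C, sub_self,
      zero_mul, add_zero]

private theorem y53_lt_one {a : ℤᵐ⁰} (h0 : a ≠ 0) (h : a < 1) : a ≤ exp (-1 : ℤ) := by
  rw [← exp_log h0, ← exp_zero, exp_lt_exp] at h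
  rw [← exp_log h0, exp_le_exp]
  omega

/-- the value of a constant is at most one -/
private theorem y53_const (w : Place κ M) (c : κ) : w.1 (algebraMap κ M c) ≤ 1 := by
  by_cases hc : c = 0
  · rw [hc, map_zero, map_zero]
    exact zero_le
  · exact (w.2.2 c hc).le

/-- coordinates are integral -/
private theorem y53_coord {w : Place κ M} {x : M} {s : κ}
    (hx : w.1 (x - algebraMap κ M s) < 1) : w.1 x ≤ 1 := by
  have h1 : x = (x - algebraMap κ M s) + algebraMap κ M s := by ring
  rw [h1]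
  exact (Valuation.map_add _ _ _).trans (max_le hx.le (y53_const w s))

private theorem y53_le {w : Place κ M} {x y : M} (hx : w.1 x ≤ 1) (hy : w.1 y ≤ 1)
    (G : κ[X][X]) : w.1 (ev (algebraMap κ M) x y G) ≤ 1 := by
  have h0 : ∀ P : κ[X], w.1 (eval₂ (algebraMap κ M) x P) ≤ 1 := by
    intro P
    induction P using Polynomial.induction_on' with
    | add p q hp hq =>
      rw [eval₂_add]
      exact (Valuation.map_add _ _ _).trans (max_le hp hq)
    | monomial n a =>
      rw [eval₂_monomial, map_mul, map_pow]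
      exact mul_le_one' (y53_const w a) (pow_le_one' hx n)
  induction G using Polynomial.induction_on' with
  | add p q hp hq =>
    rw [map_add]
    exact (Valuation.map_add _ _ _).trans (max_le hp hq)
  | monomial n a =>
    rw [ev_apply, eval₂_monomial, map_mul, map_pow]
    exact mul_le_one' (h0 a) (pow_le_one' hy n)

private theorem y53_taylor {G : κ[X][X]} {s t : κ} {x y : M} {G₁ G₂ : κ[X][X]}
    (h : G = C (X - C s) * G₁ + (X - C (C t)) * G₂) :
    ev (algebraMap κ M) x y G = (x - algebraMap κ M s) * ev (algebraMap κ M) x y G₁ +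
      (y - algebraMap κ M t) * ev (algebraMap κ M) x y G₂ := by
  rw [h, map_add, map_mul, map_mul, C_sub, map_sub, map_sub, ev_C_X, ev_C_C, ev_X, ev_C_C]

private theorem y53_lt {w : Place κ M} {x y : M} {s t : κ}
    (hx : w.1 (x - algebraMap κ M s) < 1) (hy : w.1 (y - algebraMap κ M t) < 1) (G : κ[X][X])
    (hG : G.evalEval s t = 0) : w.1 (ev (algebraMap κ M) x y G) < 1 := by
  obtain ⟨G₁, G₂, h, _⟩ := exists_taylor G s t hG
  have hx1 := y53_coord hx
  have hy1 := y53_coord hy
  rw [y53_taylor h]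
  refine lt_of_le_of_lt (Valuation.map_add _ _ _) (max_lt ?_ ?_)
  · rw [map_mul]
    exact mul_lt_one_of_lt_of_le hx (y53_le hx1 hy1 G₁)
  · rw [map_mul]
    exact mul_lt_one_of_lt_of_le hy (y53_le hx1 hy1 G₂)

/-- the value at a place over the point `(s, t)` -/
theorem val_ev {w : Place κ M} {x y : M} {s t : κ} (hx : w.1 (x - algebraMap κ M s) < 1)
    (hy : w.1 (y - algebraMap κ M t) < 1) (G : κ[X][X]) :
    w.1 (ev (algebraMap κ M) x y G) ≤ 1 ∧
      (w.1 (ev (algebraMap κ M) x y G) = 1 ↔ G.evalEval s t ≠ 0) := by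
  -- `G (x, y) - G (s, t)` has value smaller than one; nonzero constants have value one
  have hx1 := y53_coord hx
  have hy1 := y53_coord hy
  refine ⟨y53_le hx1 hy1 G, ?_⟩
  constructor
  · intro h h0
    exact absurd h (y53_lt hx hy G h0).ne
  · intro h
    have h1 : (G - C (C (G.evalEval s t))).evalEval s t = 0 := by
      rw [evalEval_sub, evalEval_C, eval_C, sub_self]
    have h2 := y53_lt hx hy _ h1
    rw [map_sub, ev_C_C] at h2
    have h3 := w.2.2 _ h
    have h4 : ev (algebraMap κ M) x y G = algebraMap κ M (G.evalEval s t) +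
        (ev (algebraMap κ M) x y G - algebraMap κ M (G.evalEval s t)) := by ring
    rw [h4, Valuation.map_add_eq_of_lt_left, h3]
    rw [h3]
    exact h2

/-- the values at two places over the same smooth point are powers of the values of `x - s` with
the same exponent -/
theorem exists_exponent {w w' : Place κ M} {x y : M} {s t : κ}
    (hx : w.1 (x - algebraMap κ M s) < 1) (hy : w.1 (y - algebraMap κ M t) < 1)
    (hx' : w'.1 (x - algebraMap κ M s) < 1) (hy' : w'.1 (y - algebraMap κ M t) < 1)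
    {A : κ[X][X]} (hA : ev (algebraMap κ M) x y A = 0) (hAst : (derivative A).evalEval s t ≠ 0)
    (hxs : x - algebraMap κ M s ≠ 0)
    {G : κ[X][X]} (hG : ev (algebraMap κ M) x y G ≠ 0) :
    ∃ k : ℕ, w.1 (ev (algebraMap κ M) x y G) = w.1 (x - algebraMap κ M s) ^ k ∧
      w'.1 (ev (algebraMap κ M) x y G) = w'.1 (x - algebraMap κ M s) ^ k := by
  -- Induction on `- log w (G (x, y))`. If `G (s, t) ≠ 0`: `k = 0`. Otherwise `exists_taylor` for `G`
  -- and for `A` (`A (s, t) = 0` by `val_ev`): `G₂' G (x, y) = (x - s) (A₂ G₁ - A₁ G₂) (x, y)` with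
  -- `A₂ (s, t) ≠ 0`, so `w (A₂ (x, y)) = 1` and the same for `w'`.
  have hA0 : A.evalEval s t = 0 := by
    by_contra hne
    have h1 := (val_ev hx hy A).2.2 hne
    rw [hA, map_zero] at h1
    exact zero_ne_one h1
  obtain ⟨A₁, A₂, hAt, hA₂⟩ := exists_taylor A s t hA0
  rw [← hA₂] at hAst
  have hwA₂ := (val_ev hx hy A₂).2.2 hAst
  have hwA₂' := (val_ev hx' hy' A₂).2.2 hAst
  have hAe := y53_taylor (x := x) (y := y) hAt
  rw [hA] at hAe
  have hπ0 : w.1 (x - algebraMap κ M s) ≠ 0 := (Valuation.ne_zero_iff _).2 hxs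
  have hπ : w.1 (x - algebraMap κ M s) ≤ exp (-1 : ℤ) := y53_lt_one hπ0 hx
  have key : ∀ n : ℕ, ∀ G : κ[X][X], ev (algebraMap κ M) x y G ≠ 0 →
      exp (-(n : ℤ)) ≤ w.1 (ev (algebraMap κ M) x y G) →
      ∃ k : ℕ, w.1 (ev (algebraMap κ M) x y G) = w.1 (x - algebraMap κ M s) ^ k ∧
        w'.1 (ev (algebraMap κ M) x y G) = w'.1 (x - algebraMap κ M s) ^ k := by
    intro n
    induction n with
    | zero =>
      intro G hG hn
      have h1 := val_ev hx hy G
      rw [Nat.cast_zero, neg_zero, exp_zero] at hn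
      have h2 := h1.2.1 (le_antisymm h1.1 hn)
      exact ⟨0, by rw [pow_zero]; exact h1.2.2 h2, by rw [pow_zero]; exact (val_ev hx' hy' G).2.2 h2⟩
    | succ n ih =>
      intro G hG hn
      by_cases h0 : G.evalEval s t = 0
      · obtain ⟨G₁, G₂, hGt, _⟩ := exists_taylor G s t h0
        have hGe := y53_taylor (x := x) (y := y) hGt
        have hrel : ev (algebraMap κ M) x y A₂ * ev (algebraMap κ M) x y G =
            (x - algebraMap κ M s) * ev (algebraMap κ M) x y (A₂ * G₁ - A₁ * G₂) := by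
          rw [map_sub, map_mul, map_mul, hGe]
          linear_combination (ev (algebraMap κ M) x y G₂) * (-hAe)
        have hw1 := congrArg w.1 hrel
        have hw2 := congrArg w'.1 hrel
        rw [map_mul, map_mul, hwA₂, one_mul] at hw1
        rw [map_mul, map_mul, hwA₂', one_mul] at hw2
        have hH0 : ev (algebraMap κ M) x y (A₂ * G₁ - A₁ * G₂) ≠ 0 := by
          intro h
          rw [h, map_zero, mul_zero] at hw1
          exact hG ((Valuation.zero_iff _).1 hw1)
        have hHn : exp (-(n : ℤ)) ≤ w.1 (ev (algebraMap κ M) x y (A₂ * G₁ - A₁ * G₂)) := by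
          have h5 : exp (-((n + 1 : ℕ) : ℤ)) ≤
              exp (-1 : ℤ) * w.1 (ev (algebraMap κ M) x y (A₂ * G₁ - A₁ * G₂)) :=
            hn.trans (hw1.le.trans (mul_le_mul' hπ le_rfl))
          have h6 : (exp (-((n + 1 : ℕ) : ℤ)) : ℤᵐ⁰) = exp (-1 : ℤ) * exp (-(n : ℤ)) := by
            rw [← exp_add]
            congr 1
            push_cast
            ring
          rw [h6] at h5
          exact le_of_mul_le_mul_left h5 exp_pos
        obtain ⟨k, hk1, hk2⟩ := ih _ hH0 hHn
        refine ⟨k + 1, ?_, ?_⟩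
        · rw [hw1, hk1, pow_succ']
        · rw [hw2, hk2, pow_succ']
      · exact ⟨0, by rw [pow_zero]; exact (val_ev hx hy G).2.2 h0,
          by rw [pow_zero]; exact (val_ev hx' hy' G).2.2 h0⟩
  have hG0 : w.1 (ev (algebraMap κ M) x y G) ≠ 0 := (Valuation.ne_zero_iff _).2 hG
  refine key (-log (w.1 (ev (algebraMap κ M) x y G))).toNat G hG ?_
  conv_rhs => rw [← exp_log hG0]
  rw [exp_le_exp]
  have := Int.self_le_toNat (-log (w.1 (ev (algebraMap κ M) x y G)))
  omega

/-- **A place over a smooth point is determined by the point.** -/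
theorem place_unique {w w' : Place κ M} {x y : M} {s t : κ}
    (hx : w.1 (x - algebraMap κ M s) < 1) (hy : w.1 (y - algebraMap κ M t) < 1)
    (hx' : w'.1 (x - algebraMap κ M s) < 1) (hy' : w'.1 (y - algebraMap κ M t) < 1)
    {A : κ[X][X]} (hA : ev (algebraMap κ M) x y A = 0) (hAst : (derivative A).evalEval s t ≠ 0)
    (hxs : x - algebraMap κ M s ≠ 0)
    (hgen : ∀ z : M, ∃ G H : κ[X][X], ev (algebraMap κ M) x y H ≠ 0 ∧
      z * ev (algebraMap κ M) x y H = ev (algebraMap κ M) x y G) : w = w' := by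
  -- `exists_exponent` for numerators and denominators and the surjectivity of the valuations:
  -- `w (x - s) = exp (-1) = w' (x - s)`
  have hq : ∀ z : M, z ≠ 0 → ∃ k l : ℕ,
      w.1 z * w.1 (x - algebraMap κ M s) ^ l = w.1 (x - algebraMap κ M s) ^ k ∧
      w'.1 z * w'.1 (x - algebraMap κ M s) ^ l = w'.1 (x - algebraMap κ M s) ^ k := by
    intro z hz
    obtain ⟨G, H, hH, hGH⟩ := hgen z
    have hG : ev (algebraMap κ M) x y G ≠ 0 := by
      rw [← hGH]
      exact mul_ne_zero hz hH
    obtain ⟨k, hk1, hk2⟩ := exists_exponent hx hy hx' hy' hA hAst hxs hG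
    obtain ⟨l, hl1, hl2⟩ := exists_exponent hx hy hx' hy' hA hAst hxs hH
    refine ⟨k, l, ?_, ?_⟩
    · rw [← hk1, ← hl1, ← map_mul, hGH]
    · rw [← hk2, ← hl2, ← map_mul, hGH]
  have hone : ∀ v : Valuation M ℤᵐ⁰, Function.Surjective v →
      v (x - algebraMap κ M s) < 1 →
      (∀ z : M, z ≠ 0 → ∃ k l : ℕ, v z * v (x - algebraMap κ M s) ^ l =
        v (x - algebraMap κ M s) ^ k) → v (x - algebraMap κ M s) = exp (-1 : ℤ) := by
    intro v hv hlt hq
    have hπ0 : v (x - algebraMap κ M s) ≠ 0 := (Valuation.ne_zero_iff _).2 hxs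
    obtain ⟨z, hz⟩ := hv (exp (-1 : ℤ))
    have hz0 : z ≠ 0 := by
      rintro rfl
      rw [map_zero] at hz
      exact exp_ne_zero hz.symm
    obtain ⟨k, l, hkl⟩ := hq z hz0
    rw [hz, ← exp_log hπ0, ← exp_nsmul, ← exp_nsmul, ← exp_add, exp_inj, nsmul_eq_mul,
      nsmul_eq_mul] at hkl
    rw [← exp_log hπ0, ← exp_zero, exp_lt_exp] at hlt
    have h1 : (log (v (x - algebraMap κ M s))) * ((l : ℤ) - k) = 1 := by linarith
    have h2 : log (v (x - algebraMap κ M s)) = -1 := by
      rcases Int.eq_one_or_neg_one_of_mul_eq_one h1 with h | h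
      · omega
      · exact h
    rw [← exp_log hπ0, h2]
  have e1 := hone w.1 w.2.1 hx fun z hz => by
    obtain ⟨k, l, h, _⟩ := hq z hz
    exact ⟨k, l, h⟩
  have e2 := hone w'.1 w'.2.1 hx' fun z hz => by
    obtain ⟨k, l, _, h⟩ := hq z hz
    exact ⟨k, l, h⟩
  refine Subtype.ext (Valuation.ext fun z => ?_)
  by_cases hz : z = 0
  · rw [hz, map_zero, map_zero]
  · obtain ⟨k, l, h1, h2⟩ := hq z hz
    rw [e1] at h1
    rw [e2] at h2
    have h3 : (exp (-1 : ℤ) : ℤᵐ⁰) ^ l ≠ 0 := pow_ne_zero _ exp_ne_zero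
    exact mul_right_cancel₀ h3 (h1.trans h2.symm)

end Pool.Agent.Lib.MP_44a246_ntY
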