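import Mathlib
import Pool.Agent.Lib.MP_44a246_ntY.Y34
import Pool.Agent.Lib.MP_44a246_ntY.Y53

/-!
Numbers of zeros and poles.
-/

namespace Pool.Agent.Lib.MP_44a246_ntY

open Pool.Agent.Lib.MP_44a246_nt
open Pool.Agent.Lib.MP_44a246_ntL
open Pool.Agent.Lib.MP_44a246_ntS
open WithZero Polynomial

variable {κ M : Type*} [Field κ] [IsAlgClosed κ] [CharZero κ] [Field M] [Algebra κ M]

/-- the number of poles -/
theorem card_poles_le (h : IsFF κ M) (z : M) : {w : Place κ M | 1 < w.1 z}.Finite ∧
    ({w : Place κ M | 1 < w.1 z}.ncard : ℤ) ≤ height κ ![1, z] := by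
  classical
  have hlog : ∀ w : Place κ M, 1 < w.1 z → 1 ≤ log (max 1 (w.1 z)) := by
    intro w hw
    have h1 : max 1 (w.1 z) = w.1 z := max_eq_right hw.le
    rw [h1]
    have h2 : (0 : ℤ) < log (w.1 z) := by
      rw [← log_one]
      exact (log_lt_log one_ne_zero (zero_lt_one.trans hw).ne').2 hw
    omega
  have hfin : {w : Place κ M | 1 < w.1 z}.Finite := by
    refine (log_max_support h z).subset fun w hw => ?_
    have h1 := hlog w hw
    rw [Function.mem_support]
    omega
  refine ⟨hfin, ?_⟩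
  have hsub : (Function.support fun w : Place κ M => if 1 < w.1 z then (1 : ℤ) else 0) ⊆
      ↑hfin.toFinset := by
    intro w hw
    rw [Set.Finite.coe_toFinset]
    by_contra hn
    exact hw (if_neg hn)
  have h1 : ∑ᶠ w : Place κ M, (if 1 < w.1 z then (1 : ℤ) else 0) =
      ({w : Place κ M | 1 < w.1 z}.ncard : ℤ) := by
    rw [finsum_eq_sum_of_support_subset _ hsub, Set.ncard_eq_toFinset_card _ hfin,
      Finset.sum_congr rfl (g := fun _ => (1 : ℤ))]
    · simp
    · intro w hw
      rw [Set.Finite.mem_toFinset] at hw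
      exact if_pos hw
  rw [← h1, height_one]
  refine finsum_mono (hfin.subset ?_) (log_max_support h z) fun w => ?_
  · rw [Set.Finite.coe_toFinset] at hsub
    exact hsub
  · split_ifs with hw
    · exact hlog w hw
    · exact log_max_nonneg w.1 z

/-- the number of zeros -/
theorem card_zeros_le (h : IsFF κ M) {z : M} (hz : z ≠ 0) : {w : Place κ M | w.1 z < 1}.Finite ∧
    ({w : Place κ M | w.1 z < 1}.ncard : ℤ) ≤ height κ ![1, z] := by
  -- `card_poles_le` for `z⁻¹`
  have h1 : {w : Place κ M | w.1 z < 1} = {w : Place κ M | 1 < w.1 z⁻¹} := by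
    ext w
    have h0 : w.1 z ≠ 0 := (w.1.ne_zero_iff).2 hz
    rw [Set.mem_ofPred_eq, Set.mem_ofPred_eq, map_inv₀, one_lt_inv₀ (zero_lt_iff.2 h0)]
  rw [h1]
  have h2 := card_poles_le h z⁻¹
  rwa [← (pp_sum h z⁻¹).2, pp_inv_sum h hz] at h2

/-- linear forms with constant coefficients do not increase the height -/
theorem height_lin_le (h : IsFF κ M) {s : ℕ} {γ : Fin s → M} (ξ₀ ξ₁ : Fin s → κ) {z : M}
    (h0 : ∑ j, algebraMap κ M (ξ₀ j) * γ j ≠ 0)
    (h1 : ∑ j, algebraMap κ M (ξ₁ j) * γ j = z * ∑ j, algebraMap κ M (ξ₀ j) * γ j) :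
    height κ ![1, z] ≤ height κ γ := by
  set a₀ := ∑ j, algebraMap κ M (ξ₀ j) * γ j with ha₀
  set a₁ := ∑ j, algebraMap κ M (ξ₁ j) * γ j with ha₁
  have h2 : height κ ![1, z] = height κ ![a₀, a₁] := by
    rw [← h.height_smul (x := ![1, z]) h0]
    congr 1
    funext i
    fin_cases i
    · simp
    · simp [h1, mul_comm]
  have hγ : γ ≠ 0 := by
    rintro rfl
    apply h0
    rw [ha₀]
    simp
  have ha : (![a₀, a₁] : Fin 2 → M) ≠ 0 := by
    intro h3
    exact h0 (congrFun h3 0)
  have hlin : ∀ (w : Place κ M) (ξ : Fin s → κ),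
      w.1 (∑ j, algebraMap κ M (ξ j) * γ j) ≤ vmax w.1 γ := by
    intro w ξ
    refine Valuation.map_sum_le w.1 fun j _ => ?_
    rw [map_mul]
    exact (mul_le_mul' (place_const_le w (ξ j)) (le_vmax w.1 γ j)).trans_eq (one_mul _)
  rw [h2]
  unfold height
  refine finsum_mono (h.vmax_support ha) (h.vmax_support hγ) fun w => ?_
  rw [log_le_log (fun h3 => ha ((vmax_eq_zero_iff w.1).1 h3))
    (fun h3 => hγ ((vmax_eq_zero_iff w.1).1 h3))]
  refine vmax_le w.1 fun i => ?_
  fin_cases i
  · exact hlin w ξ₀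
  · exact hlin w ξ₁

/-- the height of the value of a polynomial with constant coefficients -/
theorem height_ev_le (h : IsFF κ M) {G : κ[X][X]} {b : ℕ} (hG : Box b G) (x y : M) :
    height κ ![1, ev (algebraMap κ M) x y G] ≤ b * height κ ![1, x] + b * height κ ![1, y] := by
  -- `height_value_le` with `τ = 0`
  have hbox : Box b (G.map (mapRingHom (algebraMap κ M))) := by
    refine ⟨natDegree_map_le.trans hG.1, fun i => ?_⟩
    rw [coeff_map, coe_mapRingHom]
    exact natDegree_map_le.trans (hG.2 i)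
  have hgg : ∀ w : Place κ M, gg w.1 (G.map (mapRingHom (algebraMap κ M))) ≤
      exp (((fun _ => 0 : Place κ M → ℕ) w : ℕ) : ℤ) := by
    intro w
    refine gg_le w.1 fun i j => ?_
    rw [coeff_map, coe_mapRingHom, coeff_map, Nat.cast_zero, exp_zero]
    exact place_const_le w _
  have hev : ev (algebraMap κ M) x y G =
      (G.map (mapRingHom (algebraMap κ M))).evalEval x y := by
    rw [ev_apply, ← eval_map_eval, map_map, eval_map]
    congr 1
    apply ringHom_ext
    · intro c
      simp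
    · simp
  rw [hev]
  refine (height_value_le h (τ := fun _ => 0) ?_ hbox hgg x y).trans_eq ?_
  · have h1 : (Function.support fun _ : Place κ M => (0 : ℕ)) = ∅ := Function.support_fun_zero
    rw [h1]
    exact Set.finite_empty
  · simp

end Pool.Agent.Lib.MP_44a246_ntY
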