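import Mathlib
import Pool.Agent.Lib.MP_44a246_ntS.SP4b
import Pool.Agent.Lib.MP_44a246_ntS.SP5c
import Pool.Agent.Lib.MP_44a246_ntL.LSum

/-!
The local estimate for a covering family of curves in a variety, logarithmic version.
-/

namespace Pool.Agent.Lib.MP_44a246_ntY

open Pool.Agent.Lib.MP_e52354_nt
open Pool.Agent.Lib.MP_44a246_nt
open Pool.Agent.Lib.MP_44a246_ntL
open Pool.Agent.Lib.MP_44a246_ntS
open WithZero Polynomial

variable {κ M : Type*} [Field κ] [IsAlgClosed κ] [CharZero κ] [Field M] [Algebra κ M]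
  [Algebra κ[X] M] [IsScalarTower κ κ[X] M]
  [Algebra (RatFunc κ) M] [IsScalarTower κ[X] (RatFunc κ) M]
  [Algebra (Rinf κ) M] [IsScalarTower (Rinf κ) (RatFunc κ) M]
  [FiniteDimensional (RatFunc κ) M]

/-- a vector with the value of the form as an additional (first) coordinate, and its derivatives:
the rows of the matrix are `(d f, γ ∘ J)`, `(D f, D γ ∘ J)`, `(E i f, E i γ ∘ J)` -/
def logMat {M : Type*} [Field M] {p n : ℕ} (d : ℕ) (D : Derivation ℤ M M)
    (E : Fin p → Derivation ℤ M M) (f : M) (γ : Fin n → M) (J : Fin (p + 1) → Fin n) :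
    Matrix (Fin (p + 2)) (Fin (p + 2)) M :=
  Matrix.of (Fin.cons (Fin.cons (d * f) fun k => γ (J k))
    (Fin.cons (Fin.cons (D f) fun k => D (γ (J k)))
      fun i => Fin.cons (E i f) fun k => E i (γ (J k))) :
    Fin (p + 2) → Fin (p + 2) → M)

open Classical in
/-- **The local estimate.** -/
theorem wedge_place_logV (w : Place κ M) {p n d : ℕ} (D : Derivation ℤ M M)
    (hκ : ∀ u : κ, D (algebraMap κ M u) = 0) (hX : D (algebraMap κ[X] M X) = 1)
    (E : Fin p → Derivation ℤ M M)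
    (hEκ : ∀ i, ∀ u : κ, ∃ u' : κ, E i (algebraMap κ M u) = algebraMap κ M u')
    (hEX : ∀ i, ∃ u : κ, E i (algebraMap κ[X] M X) = algebraMap κ M u)
    {a : (Fin n →₀ ℕ) → κ}
    {γ : Fin n → M} (hγ : γ ≠ 0) {f : M}
    (hf : Fval d (fun I => algebraMap κ M (a I)) γ = f) (hf0 : f ≠ 0) (J : Fin (p + 1) → Fin n) :
    w.1 (logMat d D E f γ J).det ≤
      w.1 f * vmax w.1 γ ^ (p + 1) * exp (((ramIdx (RatFunc κ) w.1 - 1 +
        if w.1 f < vmax w.1 γ ^ d then 1 else 0 : ℕ)) : ℤ) := by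
  -- The same proof as `wedge_place_log` (file MP_44a246_ntY/Y51.lean): `γ = γ l * q` with
  -- `w (γ l) = vmax w γ` (`l` need not be one of the `J k`), `f = γ l ^ d * f₀`; the determinant is
  -- `f * γ l ^ (p + 1)` times the one with the rows `(d, q ∘ J)`, `(D f₀ / f₀, D q ∘ J)`,
  -- `(E i f₀ / f₀, E i q ∘ J)`; replace `E i` by `E' i = E i - (E i π / D π) • D`; `det_weights`.
  obtain ⟨l, hl0, hlv, hlmax⟩ := exists_vmax w.1 hγ
  obtain ⟨π, hπ⟩ := w.2.1 (exp (-1 : ℤ))
  set e : ℕ := ramIdx (RatFunc κ) w.1 - 1 with he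
  set ε : ℕ := if w.1 f < vmax w.1 γ ^ d then 1 else 0 with hε
  have hπ0 : π ≠ 0 := by
    rintro rfl
    rw [map_zero] at hπ
    exact exp_ne_zero hπ.symm
  have hDκ : ∀ u : κ, ∃ u' : κ, D (algebraMap κ M u) = algebraMap κ M u' := fun u =>
    ⟨0, by rw [hκ u, map_zero]⟩
  have hDX : ∃ u : κ, D (algebraMap κ[X] M X) = algebraMap κ M u := ⟨1, by rw [hX, map_one]⟩
  have hDπ : D π ≠ 0 := der_unif_ne w D hκ hX hπ
  have hDp : ∀ y, w.1 y ≤ 1 → w.1 (D y) ≤ exp (e : ℤ) := fun y hy => der_place w D hDκ hDX hy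
  have hEp : ∀ i, ∀ y, w.1 y ≤ 1 → w.1 (E i y) ≤ exp (e : ℤ) := fun i y hy =>
    der_place w (E i) (hEκ i) (hEX i) hy
  -- the corrected derivations
  set c : Fin p → M := fun i => E i π / D π with hc
  set E' : Fin p → Derivation ℤ M M := fun i => E i - c i • D with hE'
  have hE'a : ∀ i y, E' i y = E i y - c i * D y := fun i y => rfl
  have hE'κ : ∀ i, ∀ u : κ, ∃ u' : κ, E' i (algebraMap κ M u) = algebraMap κ M u' := by
    intro i u
    obtain ⟨u', hu'⟩ := hEκ i u
    exact ⟨u', by rw [hE'a, hκ, mul_zero, sub_zero, hu']⟩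
  have hE'π : ∀ i, E' i π = 0 := by
    intro i
    rw [hE'a, hc]
    simp only
    rw [div_mul_cancel₀ _ hDπ, sub_self]
  have hE'p : ∀ i, ∀ y, w.1 y ≤ 1 → w.1 (E' i y) ≤ 1 := by
    intro i y hy
    have hcle : w.1 (c i) ≤ exp (((log (w.1 (c i))).toNat : ℕ) : ℤ) := by
      by_cases h0 : w.1 (c i) = 0
      · rw [h0]; exact zero_le
      · conv_lhs => rw [← exp_log h0]
        rw [exp_le_exp]
        exact Int.self_le_toNat _
    refine der_int w (E' i) (hE'κ i) (N := (log (w.1 (c i))).toNat + e) ?_ hπ (hE'π i) hy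
    intro z hz
    rw [hE'a]
    refine (w.1.map_sub _ _).trans (max_le ?_ ?_)
    · refine (hEp i z hz).trans ?_
      rw [exp_le_exp]
      push_cast
      have : (0 : ℤ) ≤ ((log (w.1 (c i))).toNat : ℤ) := Int.natCast_nonneg _
      linarith
    · rw [map_mul]
      refine (mul_le_mul' hcle (hDp z hz)).trans (le_of_eq ?_)
      rw [← exp_add]
      push_cast
      rfl
  have hE'log : ∀ i, ∀ y, y ≠ 0 → w.1 (E' i y / y) ≤ 1 := by
    intro i y hy
    obtain ⟨k, hk⟩ : ∃ k : ℤ, w.1 y = exp k :=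
      ⟨log (w.1 y), (exp_log ((w.1.ne_zero_iff).mpr hy)).symm⟩
    have hu1 : w.1 (y * π ^ k) = 1 := by
      rw [map_mul, map_zpow₀, hk, hπ, ← exp_zsmul, ← exp_add]
      simp
    have hpk : π ^ k ≠ 0 := zpow_ne_zero _ hπ0
    have h1 : E' i y / y = E' i (y * π ^ k) / (y * π ^ k) := by
      rw [Derivation.leibniz, Derivation.leibniz_zpow, hE'π i]
      simp only [smul_eq_mul, mul_zero, smul_zero, zero_add]
      field_simp
    rw [h1, map_div₀, hu1, div_one]
    exact hE'p i _ hu1.le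
  -- the normalised vector
  set q : Fin n → M := fun k => γ k / γ l with hq
  have hγq : ∀ k, γ k = γ l * q k := fun k => by
    rw [hq]
    simp only
    rw [mul_div_cancel₀ _ hl0]
  have hvl : w.1 (γ l) ≠ 0 := (Valuation.ne_zero_iff w.1).mpr hl0
  have hqv : ∀ k, w.1 (q k) ≤ 1 := by
    intro k
    rw [hq]
    simp only
    rw [map_div₀]
    exact div_le_one_of_le₀ (hlmax k) zero_le
  have hld0 : γ l ^ d ≠ 0 := pow_ne_zero _ hl0
  set f₀ : M := Fval d (fun I => algebraMap κ M (a I)) q with hf₀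
  have hff : f = γ l ^ d * f₀ := by
    rw [← hf, hf₀, ← Fval_smul]
    congr 1
    exact funext hγq
  have hf₀0 : f₀ ≠ 0 := by
    intro h0
    apply hf0
    rw [hff, h0, mul_zero]
  have hf₀v : w.1 f₀ ≤ 1 := by
    rw [hf₀, Fval]
    refine w.1.map_sum_le fun I _ => ?_
    rw [map_mul, mon, map_prod]
    refine mul_le_one' (place_const_le w _) (Finset.prod_le_one' fun k _ => ?_)
    rw [map_pow]
    exact pow_le_one' (hqv k) _
  have hDlog : w.1 (D f₀ / f₀) ≤ exp ((e + ε : ℕ) : ℤ) := by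
    obtain ⟨h1, h2⟩ := log_der_bound w D hDp hf₀0
    by_cases hlt : w.1 f < vmax w.1 γ ^ d
    · rw [hε, if_pos hlt]
      refine h1.trans (le_of_eq ?_)
      push_cast
      rfl
    · rw [hε, if_neg hlt, add_zero]
      apply h2
      refine le_antisymm hf₀v ?_
      rw [not_lt, hlv, hff, map_mul, map_pow] at hlt
      have h3 : (w.1 (γ l)) ^ d ≠ 0 := pow_ne_zero _ hvl
      by_contra hcon
      rw [not_le] at hcon
      have h4 : w.1 (γ l) ^ d * w.1 f₀ < w.1 (γ l) ^ d * 1 :=
        mul_lt_mul_of_pos_left hcon (zero_lt_iff.mpr h3)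
      rw [mul_one] at h4
      exact absurd hlt (not_le.mpr h4)
  -- the matrices
  set N : Matrix (Fin (p + 2)) (Fin (p + 2)) M := logMat d D E f γ J with hN
  set s : Fin (p + 2) → M := Fin.cons f fun _ => γ l with hs
  have hs0 : ∀ k, s k ≠ 0 := by
    intro k
    refine Fin.cases ?_ (fun k => ?_) k
    · rw [hs, Fin.cons_zero]
      exact hf0
    · rw [hs, Fin.cons_succ]
      exact hl0
  set r₀ : Fin (p + 2) → M := Fin.cons (d : M) fun k => q (J k) with hr₀
  set L : Derivation ℤ M M → Fin (p + 2) → M := fun F =>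
    Fin.cons (F f₀ / f₀) fun k => F (q (J k)) with hL
  set N₁ : Matrix (Fin (p + 2)) (Fin (p + 2)) M := Matrix.of fun i k => (s k)⁻¹ * N i k with hN₁
  set N₂ : Matrix (Fin (p + 2)) (Fin (p + 2)) M :=
    Matrix.of (Fin.cons r₀ (Fin.cons (L D) fun i => L (E i)) :
      Fin (p + 2) → Fin (p + 2) → M) with hN₂
  set N₃ : Matrix (Fin (p + 2)) (Fin (p + 2)) M :=
    Matrix.of (Fin.cons r₀ (Fin.cons (L D) fun i => L (E' i)) :
      Fin (p + 2) → Fin (p + 2) → M) with hN₃
  have d1 : N.det = f * γ l ^ (p + 1) * N₁.det := by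
    have h1 : N = Matrix.of fun i k => s k * N₁ i k := by
      ext i k
      rw [hN₁, Matrix.of_apply, Matrix.of_apply, mul_inv_cancel_left₀ (hs0 k)]
    have h2 : ∏ k, s k = f * γ l ^ (p + 1) := by
      rw [Fin.prod_univ_succ, hs]
      simp only [Fin.cons_zero, Fin.cons_succ, Finset.prod_const, Finset.card_univ,
        Fintype.card_fin]
    rw [h1, Matrix.det_mul_row, h2]
  have hder : ∀ (F : Derivation ℤ M M) (k : Fin (p + 2)),
      (s k)⁻¹ * (Fin.cons (F f) (fun k => F (γ (J k))) : Fin (p + 2) → M) k =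
        L F k + (γ l)⁻¹ * F (γ l) * r₀ k := by
    intro F k
    rw [hs, hL, hr₀]
    simp only
    refine Fin.cases ?_ (fun k => ?_) k
    · rw [Fin.cons_zero, Fin.cons_zero, Fin.cons_zero, Fin.cons_zero]
      have h3 : F f = γ l ^ d * F f₀ + f₀ * ((d : M) * (γ l ^ d / γ l) * F (γ l)) := by
        rw [hff, Derivation.leibniz, Derivation.leibniz_pow]
        simp only [smul_eq_mul, nsmul_eq_mul]
        by_cases hd : d = 0
        · rw [hd]
          simp
        · have h4 : γ l ^ d = γ l ^ (d - 1) * γ l := by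
            rw [← pow_succ]
            congr 1
            omega
          rw [h4, mul_div_assoc, div_self hl0]
          ring
      rw [h3, hff]
      field_simp
    · rw [Fin.cons_succ, Fin.cons_succ, Fin.cons_succ, Fin.cons_succ]
      conv_lhs => rw [hγq (J k)]
      rw [Derivation.leibniz, smul_eq_mul, smul_eq_mul]
      field_simp
  have hN0 : ∀ k, N 0 k = (Fin.cons ((d : M) * f) (fun k => γ (J k)) : Fin (p + 2) → M) k := by
    intro k
    rw [hN]
    rfl
  have hN1 : ∀ k, N (Fin.succ 0) k =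
      (Fin.cons (D f) (fun k => D (γ (J k))) : Fin (p + 2) → M) k := by
    intro k
    rw [hN]
    rfl
  have hNi : ∀ i k, N (Fin.succ (Fin.succ i)) k =
      (Fin.cons (E i f) (fun k => E i (γ (J k))) : Fin (p + 2) → M) k := by
    intro i k
    rw [hN]
    rfl
  have d2 : N₁.det = N₂.det := by
    refine Matrix.det_eq_of_forall_row_eq_smul_add_const
      (Fin.cons 0 (Fin.cons ((γ l)⁻¹ * D (γ l)) fun i => (γ l)⁻¹ * E i (γ l)) :
        Fin (p + 2) → M) 0 ?_ ?_
    · rw [Fin.cons_zero]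
    · intro i k
      refine Fin.cases ?_ (fun i => Fin.cases ?_ (fun i => ?_) i) i
      · rw [hN₁, hN₂, Matrix.of_apply, Matrix.of_apply, hN0, Fin.cons_zero, Fin.cons_zero,
          zero_mul, add_zero, hs, hr₀]
        refine Fin.cases ?_ (fun k => ?_) k
        · rw [Fin.cons_zero, Fin.cons_zero, Fin.cons_zero]
          field_simp
        · rw [Fin.cons_succ, Fin.cons_succ, Fin.cons_succ, hγq (J k), inv_mul_cancel_left₀ hl0]
      · rw [hN₁, hN₂, Matrix.of_apply, Matrix.of_apply, Matrix.of_apply, hN1, hder D k,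
          Fin.cons_succ, Fin.cons_succ, Fin.cons_zero, Fin.cons_zero, Fin.cons_zero]
      · rw [hN₁, hN₂, Matrix.of_apply, Matrix.of_apply, Matrix.of_apply, hNi, hder (E i) k,
          Fin.cons_succ, Fin.cons_succ, Fin.cons_succ, Fin.cons_succ, Fin.cons_zero]
  have d3 : N₂.det = N₃.det := by
    refine Matrix.det_eq_of_forall_row_eq_smul_add_const
      (Fin.cons 0 (Fin.cons 0 c) : Fin (p + 2) → M) (Fin.succ 0) ?_ ?_
    · rw [Fin.cons_succ, Fin.cons_zero]
    · intro i k
      refine Fin.cases ?_ (fun i => Fin.cases ?_ (fun i => ?_) i) i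
      · rw [hN₂, hN₃, Matrix.of_apply, Matrix.of_apply, Fin.cons_zero, Fin.cons_zero,
          Fin.cons_zero, zero_mul, add_zero]
      · rw [hN₂, hN₃, Matrix.of_apply, Matrix.of_apply, Fin.cons_succ, Fin.cons_succ,
          Fin.cons_succ, Fin.cons_zero, Fin.cons_zero, Fin.cons_zero, zero_mul, add_zero]
      · rw [hN₂, hN₃, Matrix.of_apply, Matrix.of_apply, Matrix.of_apply, Fin.cons_succ,
          Fin.cons_succ, Fin.cons_succ, Fin.cons_succ, Fin.cons_succ, Fin.cons_succ,
          Fin.cons_succ, Fin.cons_zero, hL]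
        simp only
        refine Fin.cases ?_ (fun k => ?_) k
        · rw [Fin.cons_zero, Fin.cons_zero, Fin.cons_zero, hE'a]
          ring
        · rw [Fin.cons_succ, Fin.cons_succ, Fin.cons_succ, hE'a]
          ring
  have d4 : w.1 N₃.det ≤ exp ((e + ε : ℕ) : ℤ) := by
    refine (det_weights w.1 N₃ (Fin.cons 1 (Fin.cons (exp ((e + ε : ℕ) : ℤ)) fun _ => 1) :
      Fin (p + 2) → ℤᵐ⁰) (fun _ => 1) ?_).trans (le_of_eq ?_)
    · intro i k
      rw [mul_one]
      refine Fin.cases ?_ (fun i => Fin.cases ?_ (fun i => ?_) i) i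
      · rw [hN₃, Matrix.of_apply, Fin.cons_zero, Fin.cons_zero, hr₀]
        refine Fin.cases ?_ (fun k => ?_) k
        · rw [Fin.cons_zero]
          have h5 := int_le_one w (d : ℤ)
          rwa [Int.cast_natCast] at h5
        · rw [Fin.cons_succ]
          exact hqv _
      · rw [hN₃, Matrix.of_apply, Fin.cons_succ, Fin.cons_succ, Fin.cons_zero, Fin.cons_zero, hL]
        simp only
        refine Fin.cases ?_ (fun k => ?_) k
        · rw [Fin.cons_zero]
          exact hDlog
        · rw [Fin.cons_succ]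
          refine (hDp _ (hqv (J k))).trans ?_
          rw [exp_le_exp]
          push_cast
          have : (0 : ℤ) ≤ (ε : ℤ) := Int.natCast_nonneg _
          linarith
      · rw [hN₃, Matrix.of_apply, Fin.cons_succ, Fin.cons_succ, Fin.cons_succ, Fin.cons_succ, hL]
        simp only
        refine Fin.cases ?_ (fun k => ?_) k
        · rw [Fin.cons_zero]
          exact hE'log i _ hf₀0
        · rw [Fin.cons_succ]
          exact hE'p i _ (hqv (J k))
    · rw [Finset.prod_const_one, mul_one, Fin.prod_univ_succ, Fin.prod_univ_succ]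
      simp only [Fin.cons_succ, Fin.cons_zero, one_mul, Finset.prod_const_one, mul_one]
  rw [d1, d2, d3, map_mul, map_mul, map_pow, hlv]
  exact mul_le_mul' le_rfl d4

end Pool.Agent.Lib.MP_44a246_ntY
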