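import Mathlib
import Pool.Agent.Lib.MP_44a246_ntU.U07
import Pool.Agent.Lib.MP_44a246_ntU.U08
import Pool.Agent.Lib.MP_44a246_ntS.SP5c
import Pool.Agent.Lib.MP_44a246_ntY.Y71

/-!
The global inequality for a covering family of curves in a variety, logarithmic version.
-/

namespace Pool.Agent.Lib.MP_44a246_ntY

open Pool.Agent.Lib.MP_e52354_nt
open Pool.Agent.Lib.MP_44a246_nt
open Pool.Agent.Lib.MP_44a246_ntL
open Pool.Agent.Lib.MP_44a246_ntS
open Pool.Agent.Lib.MP_44a246_ntU
open WithZero Polynomial Module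

/-- The bordered determinant: if `g` is orthogonal up to the values `c i` to the rows `A i`, and
`u` is a combination of the rows `A i`, then the bordered matrix with the rows `(c i, A i ∘ J)` and
`(t, u ∘ J)` has, up to the sign, the determinant `(t - g · u) * det (A i ∘ J)`. -/
theorem det_bordered {M : Type*} [Field M] {p n : ℕ} {A : Fin p → Fin n → M} {c : Fin p → M}
    {g : Fin n → M} (hg : ∀ i, ∑ k, g k * A i k = c i) {u : Fin n → M}
    (hu : u ∈ Submodule.span M (Set.range A)) (t : M) (J : Fin p → Fin n) :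
    (Matrix.of (Fin.snoc (fun i => Fin.cons (c i) fun k => A i (J k))
        (Fin.cons t fun k => u (J k)) : Fin (p + 1) → Fin (p + 1) → M)).det =
      (-1) ^ p * ((t - ∑ k, g k * u k) * (Matrix.of fun i k => A i (J k)).det) := by
  -- `u = ∑ λ i A i`, subtract `λ i` times the row `i` from the last row: it becomes
  -- `(t - ∑ λ i c i, 0, ..., 0)` and `∑ λ i c i = ∑ k, g k * u k`. Expand along the last row.
  classical
  obtain ⟨lam, hlam⟩ := (Submodule.mem_span_range_iff_exists_fun M).1 hu
  have hs : ∑ i, lam i * c i = ∑ k, g k * u k := by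
    rw [← hlam]
    simp only [Finset.sum_apply, Pi.smul_apply, smul_eq_mul, Finset.mul_sum]
    rw [Finset.sum_comm]
    refine Finset.sum_congr rfl fun i _ => ?_
    rw [← hg i, Finset.mul_sum]
    exact Finset.sum_congr rfl fun k _ => by ring
  set B : Matrix (Fin (p + 1)) (Fin (p + 1)) M :=
    Matrix.of (Fin.snoc (fun i => Fin.cons (c i) fun k => A i (J k))
        (Fin.cons t fun k => u (J k)) : Fin (p + 1) → Fin (p + 1) → M) with hB
  have hBc : ∀ i : Fin p, B (Fin.castSucc i) = Fin.cons (c i) fun k => A i (J k) := by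
    intro i
    rw [hB]
    funext k
    rw [Matrix.of_apply, Fin.snoc_castSucc]
  have hBl : B (Fin.last p) = Fin.cons t fun k => u (J k) := by
    rw [hB]
    funext k
    rw [Matrix.of_apply, Fin.snoc_last]
  set x : Fin (p + 1) → M := Fin.cons (t - ∑ k, g k * u k) 0 with hx
  have hy : B (Fin.last p) = x + ∑ k, (Fin.snoc lam 0 : Fin (p + 1) → M) k • B k := by
    rw [Fin.sum_univ_castSucc]
    simp only [Fin.snoc_castSucc, Fin.snoc_last, zero_smul, add_zero, hBc]
    rw [hBl]
    funext k
    refine Fin.cases ?_ (fun k => ?_) k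
    · simp only [hx, Fin.cons_zero, Pi.add_apply, Finset.sum_apply, Pi.smul_apply, smul_eq_mul, hs]
      ring
    · simp only [hx, Fin.cons_succ, Pi.add_apply, Finset.sum_apply, Pi.smul_apply, smul_eq_mul,
        Pi.zero_apply, zero_add]
      rw [← hlam]
      simp only [Finset.sum_apply, Pi.smul_apply, smul_eq_mul]
  have h1 : B = B.updateRow (Fin.last p)
      (x + ∑ k, (Fin.snoc lam 0 : Fin (p + 1) → M) k • B k) := by
    rw [← hy, Matrix.updateRow_eq_self]
  rw [h1, Matrix.det_updateRow_add, Matrix.det_updateRow_sum, Fin.snoc_last, zero_smul, add_zero,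
    Matrix.det_succ_row _ (Fin.last p), Fin.sum_univ_succ, Finset.sum_eq_zero, add_zero]
  · rw [Matrix.updateRow_self, hx, Fin.cons_zero]
    have h2 : ((B.updateRow (Fin.last p) (Fin.cons (t - ∑ k, g k * u k) 0)).submatrix
        (Fin.last p).succAbove (Fin.succAbove 0)) = Matrix.of fun i k => A i (J k) := by
      ext i k
      rw [Matrix.submatrix_apply, Fin.succAbove_last, Fin.succAbove_zero,
        Matrix.updateRow_ne (Fin.castSucc_lt_last i).ne, hBc, Fin.cons_succ, Matrix.of_apply]
    rw [h2]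
    simp only [Fin.val_last, Fin.val_zero, add_zero]
    ring
  · intro k _
    rw [Matrix.updateRow_self, hx, Fin.cons_succ, Pi.zero_apply, mul_zero, zero_mul]

section

variable {κ M : Type*} [Field κ] [IsAlgClosed κ] [CharZero κ] [Field M] [Algebra κ M]
  [Algebra κ[X] M] [IsScalarTower κ κ[X] M]
  [Algebra (RatFunc κ) M] [IsScalarTower κ[X] (RatFunc κ) M]
  [Algebra (Rinf κ) M] [IsScalarTower (Rinf κ) (RatFunc κ) M]
  [FiniteDimensional (RatFunc κ) M]

theorem zeros_finiteV {n d : ℕ} {γ : Fin n → M} (hγ : γ ≠ 0) {f : M} (hf0 : f ≠ 0) :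
    {w : Place κ M | w.1 f < vmax w.1 γ ^ d}.Finite := by
  -- as `zeros_finite` (file Y52)
  have hγ0 : ∀ v : Place κ M, vmax v.1 γ ≠ 0 := fun w h => hγ ((vmax_eq_zero_iff w.1).mp h)
  refine ((vmax_finite (κ := κ) hγ).union (place_finite (κ := κ) hf0)).subset fun w hw => ?_
  by_contra hcon
  simp only [Set.mem_union, Set.mem_ofPred_eq, not_or, not_not] at hcon hw
  rw [hcon.1, hcon.2, one_pow] at hw
  exact lt_irrefl _ hw

/-- **The global inequality.** -/
theorem wedge_global_logV {m n d : ℕ} {a : (Fin n →₀ ℕ) → κ} (D : Derivation ℤ M M)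
    (hκ : ∀ u : κ, D (algebraMap κ M u) = 0) (hX : D (algebraMap κ[X] M X) = 1)
    (E : Fin m → Derivation ℤ M M)
    (hEκ : ∀ i, ∀ u : κ, ∃ u' : κ, E i (algebraMap κ M u) = algebraMap κ M u')
    (hEX : ∀ i, ∃ u : κ, E i (algebraMap κ[X] M X) = algebraMap κ M u)
    (hEa : ∀ i, ∀ I ∈ expo (Fin n) d, E i (algebraMap κ M (a I)) = 0)
    (W : (Fin n →₀ ℕ) → Derivation ℤ M M)
    (hWκ : ∀ I, ∀ u : κ, ∃ u' : κ, W I (algebraMap κ M u) = algebraMap κ M u')
    (hWX : ∀ I, ∃ u : κ, W I (algebraMap κ[X] M X) = algebraMap κ M u)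
    (hWa : ∀ I ∈ expo (Fin n) d, ∀ J ∈ expo (Fin n) d,
      W I (algebraMap κ M (a J)) = if I = J then 1 else 0)
    {γ : Fin n → M} {f : M} (hf : Fval d (fun I => algebraMap κ M (a I)) γ = f) (hf0 : f ≠ 0)
    (hind : LinearIndependent M (Fin.cons γ (Fin.cons (fun k => D (γ k)) fun i k => E i (γ k)) :
      Fin (m + 2) → Fin n → M))
    {T : Submodule M (Fin n → M)} (hT : finrank M T ≤ m + 2) (hγT : γ ∈ T)
    (hDT : (fun k => D (γ k)) ∈ T) (hET : ∀ i, (fun k => E i (γ k)) ∈ T)
    (hWT : ∀ I ∈ expo (Fin n) d, (fun k => W I (γ k)) ∈ T) :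
    (d : ℤ) * height κ γ ≤ (m + 2) * height κ γ + ramDeg κ M (RatFunc κ) +
      ({w : Place κ M | w.1 f < vmax w.1 γ ^ d}.ncard : ℤ) := by
  classical
  set aM : (Fin n →₀ ℕ) → M := fun I => algebraMap κ M (a I) with haM
  set g : Fin n → M := grad d aM γ with hg
  set A : Fin (m + 2) → Fin n → M :=
    Fin.cons γ (Fin.cons (fun k => D (γ k)) fun i k => E i (γ k)) with hA
  set c : Fin (m + 2) → M := Fin.cons (d * f) (Fin.cons (D f) fun i => E i f) with hc
  have hγ : γ ≠ 0 := hind.ne_zero 0
  have hvγ : ∀ w : Place κ M, vmax w.1 γ ≠ 0 := fun w h => hγ ((vmax_eq_zero_iff w.1).mp h)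
  -- the system
  have horth : ∀ i, ∑ k, g k * A i k = c i := by
    intro i
    refine Fin.cases ?_ (fun i => ?_) i
    · show ∑ k, g k * γ k = d * f
      rw [hg, grad_euler, hf]
    · refine Fin.cases ?_ (fun i => ?_) i
      · show ∑ k, g k * D (γ k) = D f
        have h1 := D_Fval d aM D γ
        rw [hf, Finset.sum_eq_zero (fun I _ => by
          rw [haM]; simp only; rw [hκ, zero_mul]), zero_add] at h1
        exact h1.symm
      · show ∑ k, g k * E i (γ k) = E i f
        have h1 := D_Fval d aM (E i) γ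
        rw [hf, Finset.sum_eq_zero (fun I hI => by
          rw [haM]; simp only; rw [hEa i I hI, zero_mul]), zero_add] at h1
        exact h1.symm
  have hWg : ∀ I ∈ expo (Fin n) d, W I f - ∑ k, g k * W I (γ k) = mon γ I := by
    intro I hI
    have h1 := D_Fval d aM (W I) γ
    have h2 : ∑ J ∈ expo (Fin n) d, W I (aM J) * mon γ J = mon γ I := by
      rw [Finset.sum_eq_single I]
      · rw [haM]
        simp only
        rw [hWa I hI I hI, if_pos rfl, one_mul]
      · intro J hJ hJI
        rw [haM]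
        simp only
        rw [hWa I hI J hJ, if_neg (Ne.symm hJI), zero_mul]
      · intro h
        exact absurd hI h
    rw [hf, h2] at h1
    rw [h1, add_sub_cancel_right]
  have hsingle : ∀ l : Fin n, Finsupp.single l d ∈ expo (Fin n) d := by
    intro l
    rw [mem_expo, Finsupp.degree_single]
  have hAT : ∀ i, A i ∈ T := by
    intro i
    refine Fin.cases ?_ (fun i => ?_) i
    · exact hγT
    · refine Fin.cases ?_ (fun i => ?_) i
      · exact hDT
      · exact hET i
  have hspan : Submodule.span M (Set.range A) = T := by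
    apply Submodule.eq_of_le_of_finrank_le
    · rw [Submodule.span_le]
      rintro _ ⟨i, rfl⟩
      exact hAT i
    · rw [finrank_span_eq_card hind, Fintype.card_fin]
      exact hT
  obtain ⟨J, hJ⟩ := exists_minor_ne hind
  set lam : M := (Matrix.of fun i k => A i (J k)).det with hlamdef
  have hlam0 : lam ≠ 0 := hJ
  -- the determinant
  have hdetE : ∀ I ∈ expo (Fin n) d,
      (logMat d D (Fin.snoc E (W I) : Fin (m + 1) → Derivation ℤ M M) f γ J).det =
        (-1) ^ (m + 2) * (mon γ I * lam) := by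
    intro I hI
    have h1 := det_bordered horth (u := fun k => W I (γ k)) (by rw [hspan]; exact hWT I hI)
      (W I f) J
    rw [hWg I hI] at h1
    rw [hlamdef, ← h1]
    unfold logMat
    refine congrArg (fun B => (Matrix.of B).det) ?_
    funext i
    refine Fin.cases ?_ (fun i => ?_) i
    · rfl
    · refine Fin.cases ?_ (fun i => ?_) i
      · rfl
      · refine Fin.lastCases ?_ (fun i => ?_) i
        · rw [Fin.cons_succ, Fin.cons_succ, Fin.snoc_last, Fin.succ_last, Fin.succ_last,
            Fin.snoc_last]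
        · rw [Fin.cons_succ, Fin.cons_succ, Fin.snoc_castSucc, Fin.succ_castSucc,
            Fin.succ_castSucc, Fin.snoc_castSucc]
          rfl
  -- the local estimate
  have hloc : ∀ w : Place κ M, log (w.1 lam) + (d : ℤ) * log (vmax w.1 γ) ≤
      log (w.1 f) + ((m : ℤ) + 2) * log (vmax w.1 γ) +
        (((ramIdx (RatFunc κ) w.1 - 1 : ℕ) : ℤ) +
          ((if w.1 f < vmax w.1 γ ^ d then 1 else 0 : ℕ) : ℤ)) := by
    intro w
    obtain ⟨l, -, hlv, -⟩ := exists_vmax w.1 hγ
    have h1 := wedge_place_logV w D hκ hX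
      (Fin.snoc E (W (Finsupp.single l d)) : Fin (m + 1) → Derivation ℤ M M)
      (by
        intro i
        refine Fin.lastCases ?_ (fun i => ?_) i
        · rw [Fin.snoc_last]; exact hWκ _
        · rw [Fin.snoc_castSucc]; exact hEκ i)
      (by
        intro i
        refine Fin.lastCases ?_ (fun i => ?_) i
        · rw [Fin.snoc_last]; exact hWX _
        · rw [Fin.snoc_castSucc]; exact hEX i) hγ hf hf0 J
    rw [hdetE _ (hsingle l), mon_single, map_mul, map_pow, Valuation.map_neg, map_one, one_pow,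
      one_mul, map_mul, map_pow, ← hlv] at h1
    have hl : w.1 lam ≠ 0 := (Valuation.ne_zero_iff w.1).mpr hlam0
    have hfw : w.1 f ≠ 0 := (Valuation.ne_zero_iff w.1).mpr hf0
    have h3 := (log_le_log (mul_ne_zero (pow_ne_zero _ (hvγ w)) hl)
      (mul_ne_zero (mul_ne_zero hfw (pow_ne_zero _ (hvγ w))) exp_ne_zero)).mpr h1
    rw [log_mul (pow_ne_zero _ (hvγ w)) hl,
      log_mul (mul_ne_zero hfw (pow_ne_zero _ (hvγ w))) exp_ne_zero,
      log_mul hfw (pow_ne_zero _ (hvγ w)),
      log_pow, log_pow, log_exp, nsmul_eq_mul, nsmul_eq_mul, Nat.cast_add] at h3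
    push_cast at h3 ⊢
    linarith
  -- summation
  have htow : IsScalarTower κ (RatFunc κ) M := by
    refine IsScalarTower.of_algebraMap_eq fun c => ?_
    rw [IsScalarTower.algebraMap_apply κ κ[X] M, IsScalarTower.algebraMap_apply κ[X] (RatFunc κ) M,
      ← IsScalarTower.algebraMap_apply κ κ[X] (RatFunc κ)]
  have hzf : {w : Place κ M | w.1 f < vmax w.1 γ ^ d}.Finite := zeros_finiteV hγ hf0
  let P : Finset (Place κ M) := (vmax_finite hγ).toFinset ∪ (place_finite hlam0).toFinset ∪
    (ramIdx_finite (κ := κ) (K := RatFunc κ) (L := M)).toFinset ∪ (place_finite hf0).toFinset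
  have hP : ∀ v ∉ P, vmax v.1 γ = 1 ∧ v.1 lam = 1 ∧ ramIdx (RatFunc κ) v.1 = 1 ∧ v.1 f = 1 := by
    intro v hv
    simp only [P, Finset.mem_union, Set.Finite.mem_toFinset, not_or, Set.mem_ofPred_eq,
      not_not] at hv
    exact ⟨hv.1.1.1, hv.1.1.2, hv.1.2, hv.2⟩
  have hsum := Finset.sum_le_sum fun v (_ : v ∈ P) => hloc v
  simp only [Finset.sum_add_distrib, ← Finset.mul_sum] at hsum
  have e1 : ∑ v ∈ P, log (v.1 lam) = 0 := by
    rw [← product_formula (κ := κ) hlam0]
    symm
    refine finsum_eq_sum_of_support_subset _ fun v hv => ?_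
    by_contra hvP
    apply hv
    simp only
    rw [(hP v hvP).2.1, log_one]
  have e3 : ∑ v ∈ P, log (v.1 f) = 0 := by
    rw [← product_formula (κ := κ) hf0]
    symm
    refine finsum_eq_sum_of_support_subset _ fun v hv => ?_
    by_contra hvP
    apply hv
    simp only
    rw [(hP v hvP).2.2.2, log_one]
  have e2 : ∑ v ∈ P, log (vmax v.1 γ) = height κ γ := by
    symm
    refine finsum_eq_sum_of_support_subset _ fun v hv => ?_
    by_contra hvP
    apply hv
    simp only
    rw [(hP v hvP).1, log_one]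
  have e4 : ∑ v ∈ P, ((ramIdx (RatFunc κ) v.1 - 1 : ℕ) : ℤ) = (ramDeg κ M (RatFunc κ) : ℤ) := by
    rw [← Nat.cast_sum]
    congr 1
    symm
    refine finsum_eq_sum_of_support_subset _ fun v hv => ?_
    by_contra hvP
    apply hv
    simp only
    rw [(hP v hvP).2.2.1, Nat.sub_self]
  have e5 : ∑ v ∈ P, ((if v.1 f < vmax v.1 γ ^ d then 1 else 0 : ℕ) : ℤ) =
      ({w : Place κ M | w.1 f < vmax w.1 γ ^ d}.ncard : ℤ) := by
    rw [← Nat.cast_sum, ← Finset.card_filter, Set.ncard_eq_toFinset_card _ hzf]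
    congr 2
    ext v
    rw [Finset.mem_filter, Set.Finite.mem_toFinset, Set.mem_ofPred_eq]
    constructor
    · exact fun h => h.2
    · intro h
      refine ⟨?_, h⟩
      by_contra hvP
      obtain ⟨q1, -, -, q4⟩ := hP v hvP
      rw [q1, q4, one_pow] at h
      exact lt_irrefl _ h
  rw [e1, e2, e3, e4, e5, zero_add, zero_add] at hsum
  linarith

end

end Pool.Agent.Lib.MP_44a246_ntY
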