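import Mathlib
import Pool.Agent.Lib.MP_44a246_ntS.SQ2
import Pool.Agent.Lib.MP_e52354_nt.Ultra

/-!
Ultrapowers: algebraic closedness, lifting of polynomials, irreducibility.
-/

namespace Pool.Agent.Lib.MP_44a246_ntY

open Pool.Agent.Lib.MP_e52354_nt
open Pool.Agent.Lib.MP_44a246_ntS
open Polynomial

variable {L : Type*} [Field L]

/-- the ultrapower of an algebraically closed field is algebraically closed -/
theorem isAlgClosed_UP (L : Type*) [Field L] [IsAlgClosed L] : IsAlgClosed (UP L) := by
  refine IsAlgClosed.of_exists_root _ fun p hp hirr => ?_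
  have hn : 0 < p.natDegree := hirr.natDegree_pos
  choose c hc using fun i => germHom_surjective (p.coeff i)
  set q : (ℕ → L)[X] := X ^ p.natDegree + ∑ i ∈ Finset.range p.natDegree, C (c i) * X ^ i with hq
  have hmap : ∀ {S : Type _} [CommRing S] (φ : (ℕ → L) →+* S),
      q.map φ = X ^ p.natDegree + ∑ i ∈ Finset.range p.natDegree, C (φ (c i)) * X ^ i := by
    intro S _ φ
    rw [hq, Polynomial.map_add, Polynomial.map_pow, Polynomial.map_X, Polynomial.map_sum]
    congr 1
    refine Finset.sum_congr rfl fun i _ => ?_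
    rw [Polynomial.map_mul, Polynomial.map_pow, Polynomial.map_X, Polynomial.map_C]
  have hqp : q.map germHom = p := by
    rw [hmap germHom]
    conv_rhs => rw [p.as_sum_range_C_mul_X_pow, Finset.sum_range_succ, hp.coeff_natDegree,
      map_one, one_mul, add_comm]
    congr 1
    exact Finset.sum_congr rfl fun i _ => by rw [hc]
  have hroot : ∀ N : ℕ, ∃ x : L, (q.map (Pi.evalRingHom (fun _ => L) N)).eval x = 0 := by
    intro N
    refine IsAlgClosed.exists_root _ ?_
    have hdeg : (q.map (Pi.evalRingHom (fun _ => L) N)).degree = (p.natDegree : WithBot ℕ) := by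
      rw [hmap]
      refine Polynomial.degree_add_eq_left_of_degree_lt ?_ |>.trans (Polynomial.degree_X_pow _)
      rw [Polynomial.degree_X_pow]
      refine (Polynomial.degree_sum_le _ _).trans_lt ?_
      rw [Finset.sup_lt_iff (WithBot.bot_lt_coe _)]
      intro i hi
      refine (Polynomial.degree_C_mul_X_pow_le _ _).trans_lt ?_
      exact_mod_cast Finset.mem_range.mp hi
    rw [hdeg]
    exact_mod_cast hn.ne'
  choose r hr using hroot
  refine ⟨germHom r, ?_⟩
  have h0 : q.eval r = 0 := by
    funext N
    have h1 := Polynomial.eval_map_apply (p := q) (f := Pi.evalRingHom (fun _ => L) N) r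
    have h2 : (q.map (Pi.evalRingHom (fun _ => L) N)).eval ((Pi.evalRingHom (fun _ => L) N) r) = 0 :=
      hr N
    rw [h2] at h1
    exact h1.symm
  rw [← hqp, Polynomial.eval_map_apply, h0, map_zero]

/-- lifting of polynomials to the ring of sequences -/
theorem exists_lift (P : (UP L)[X][X]) : ∃ P' : (ℕ → L)[X][X], m2 germHom P' = P := by
  exact Polynomial.map_surjective _ (Polynomial.map_surjective _ germHom_surjective) P

private theorem Y56_eventually (P : (ℕ → L)[X][X]) (T : ℕ → ℕ → Prop)
    (h : ∀ i j, T i j → germHom ((P.coeff i).coeff j) = 0) :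
    ∀ᶠ N in (Filter.hyperfilter ℕ : Filter ℕ), ∀ i j, T i j → (P.coeff i).coeff j N = 0 := by
  have h1 : ∀ᶠ N in (Filter.hyperfilter ℕ : Filter ℕ), ∀ i ∈ P.support,
      ∀ j ∈ (P.coeff i).support, T i j → (P.coeff i).coeff j N = 0 := by
    rw [Filter.eventually_all_finset]
    intro i _
    rw [Filter.eventually_all_finset]
    intro j _
    by_cases hT : T i j
    · filter_upwards [(germHom_eq_zero_iff _).mp (h i j hT)] with N hN _
      exact hN
    · exact Filter.Eventually.of_forall fun N hN => absurd hN hT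
  filter_upwards [h1] with N hN i j hij
  by_cases hi : i ∈ P.support
  · by_cases hj : j ∈ (P.coeff i).support
    · exact hN i hi j hj hij
    · rw [Polynomial.notMem_support_iff.mp hj]
      rfl
  · rw [Polynomial.notMem_support_iff.mp hi, Polynomial.coeff_zero]
    rfl

/-- polynomials with the same germ agree almost everywhere -/
theorem eventually_eq_of_germ_eq {P Q : (ℕ → L)[X][X]} (h : m2 germHom P = m2 germHom Q) :
    ∀ᶠ N in (Filter.hyperfilter ℕ : Filter ℕ),
      m2 (Pi.evalRingHom (fun _ => L) N) P = m2 (Pi.evalRingHom (fun _ => L) N) Q := by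
  have h1 := Y56_eventually (P - Q) (fun _ _ => True) (fun i j _ => by
    have h2 := congrArg (fun p : (UP L)[X][X] => (p.coeff i).coeff j) h
    simp only [m2_coeff] at h2
    rw [Polynomial.coeff_sub, Polynomial.coeff_sub, map_sub, h2, sub_self])
  filter_upwards [h1] with N hN
  ext i j
  rw [m2_coeff, m2_coeff]
  have h3 := hN i j trivial
  rw [Polynomial.coeff_sub, Polynomial.coeff_sub, Pi.sub_apply, sub_eq_zero] at h3
  exact h3

/-- degrees do not grow almost everywhere -/
theorem natDegree_le_germ (P : (ℕ → L)[X][X]) :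
    ∀ᶠ N in (Filter.hyperfilter ℕ : Filter ℕ),
      (m2 (Pi.evalRingHom (fun _ => L) N) P).natDegree ≤ (m2 germHom P).natDegree := by
  have h1 := Y56_eventually P (fun i _ => (m2 germHom P).natDegree < i) (fun i j hij => by
    rw [← m2_coeff, Polynomial.coeff_eq_zero_of_natDegree_lt hij, Polynomial.coeff_zero])
  filter_upwards [h1] with N hN
  rw [Polynomial.natDegree_le_iff_coeff_eq_zero]
  intro i hi
  ext j
  rw [m2_coeff, Polynomial.coeff_zero]
  exact hN i j hi

private theorem Y56_unit {f' : (ℕ → L)[X][X]}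
    (h : ∀ᶠ N in (Filter.hyperfilter ℕ : Filter ℕ),
      IsUnit (m2 (Pi.evalRingHom (fun _ => L) N) f'))
    (h0 : m2 germHom f' ≠ 0) : IsUnit (m2 germHom f') := by
  have hco : ∀ i j, (i ≠ 0 ∨ j ≠ 0) → germHom ((f'.coeff i).coeff j) = 0 := by
    intro i j hij
    rw [germHom_eq_zero_iff]
    filter_upwards [h] with N hN
    obtain ⟨u, hu, hu2⟩ := Polynomial.isUnit_iff.mp hN
    obtain ⟨v, _, hv2⟩ := Polynomial.isUnit_iff.mp hu
    have h1 := m2_coeff (Pi.evalRingHom (fun _ => L) N) f' i j
    rw [← hu2, ← hv2, Polynomial.coeff_C] at h1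
    have h2 : ((Pi.evalRingHom (fun _ => L) N) ((f'.coeff i).coeff j)) = 0 := by
      rw [← h1]
      by_cases hi : i = 0
      · have hj : j ≠ 0 := by
          rcases hij with h3 | h3
          · exact absurd hi h3
          · exact h3
        rw [if_pos hi, Polynomial.coeff_C, if_neg hj]
      · rw [if_neg hi, Polynomial.coeff_zero]
    exact h2
  have heq : m2 germHom f' = C (C (germHom ((f'.coeff 0).coeff 0))) := by
    ext i j
    rw [m2_coeff, Polynomial.coeff_C]
    by_cases hi : i = 0
    · rw [if_pos hi, Polynomial.coeff_C]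
      by_cases hj : j = 0
      · rw [if_pos hj, hi, hj]
      · rw [if_neg hj]
        exact hco i j (Or.inr hj)
    · rw [if_neg hi, Polynomial.coeff_zero]
      exact hco i j (Or.inl hi)
  have hne : germHom ((f'.coeff 0).coeff 0) ≠ 0 := by
    intro h3
    rw [heq, h3, map_zero, map_zero] at h0
    exact h0 rfl
  rw [heq]
  exact (isUnit_iff_ne_zero.mpr hne).map (C.comp C : UP L →+* (UP L)[X][X])

/-- the germ of a sequence of irreducible polynomials is irreducible -/
theorem irreducible_germ {P : (ℕ → L)[X][X]}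
    (hirr : ∀ N, Irreducible (m2 (Pi.evalRingHom (fun _ => L) N) P))
    (hdeg : (m2 germHom P).natDegree ≠ 0) : Irreducible (m2 germHom P) := by
  have hne0 : m2 germHom P ≠ 0 := by
    intro h0
    rw [h0, Polynomial.natDegree_zero] at hdeg
    exact hdeg rfl
  refine ⟨fun hu => hdeg (Polynomial.natDegree_eq_zero_of_isUnit hu), fun f g hfg => ?_⟩
  obtain ⟨f', rfl⟩ := exists_lift f
  obtain ⟨g', rfl⟩ := exists_lift g
  have h1 : ∀ᶠ N in (Filter.hyperfilter ℕ : Filter ℕ),
      IsUnit (m2 (Pi.evalRingHom (fun _ => L) N) f') ∨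
        IsUnit (m2 (Pi.evalRingHom (fun _ => L) N) g') := by
    have h2 : m2 germHom P = m2 germHom (f' * g') := by rw [hfg, map_mul]
    filter_upwards [eventually_eq_of_germ_eq h2] with N hN
    refine (hirr N).isUnit_or_isUnit ?_
    rw [hN, map_mul]
  rcases Ultrafilter.eventually_or.mp h1 with h3 | h3
  · left
    refine Y56_unit h3 ?_
    intro h0
    rw [h0, zero_mul] at hfg
    exact hne0 hfg
  · right
    refine Y56_unit h3 ?_
    intro h0
    rw [h0, mul_zero] at hfg
    exact hne0 hfg

end Pool.Agent.Lib.MP_44a246_ntY
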