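import Mathlib
import Pool.Agent.Lib.MP_44a246_ntY.Y51

/-!
The global inequality for a covering family of curves, logarithmic version.
-/

namespace Pool.Agent.Lib.MP_44a246_ntY

open Pool.Agent.Lib.MP_e52354_nt
open Pool.Agent.Lib.MP_44a246_nt
open Pool.Agent.Lib.MP_44a246_ntL
open Pool.Agent.Lib.MP_44a246_ntS
open WithZero Polynomial

variable {κ M : Type*} [Field κ] [IsAlgClosed κ] [CharZero κ] [Field M] [Algebra κ M]
  [Algebra κ[X] M] [IsScalarTower κ κ[X] M]
  [Algebra (RatFunc κ) M] [IsScalarTower κ[X] (RatFunc κ) M]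
  [Algebra (Rinf κ) M] [IsScalarTower (Rinf κ) (RatFunc κ) M]
  [FiniteDimensional (RatFunc κ) M]

theorem zeros_finite {m d : ℕ} {γ : Fin (m + 3) → M} (hγ : γ ≠ 0) {f : M} (hf0 : f ≠ 0) :
    {w : Place κ M | w.1 f < vmax w.1 γ ^ d}.Finite := by
  -- `place_finite`, `vmax_finite`
  have hγ0 : ∀ v : Place κ M, vmax v.1 γ ≠ 0 := fun w h => hγ ((vmax_eq_zero_iff w.1).mp h)
  refine ((vmax_finite (κ := κ) hγ).union (place_finite (κ := κ) hf0)).subset fun w hw => ?_
  by_contra hcon
  simp only [Set.mem_union, Set.mem_setOf_eq, not_or, not_not] at hcon hw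
  rw [hcon.1, hcon.2, one_pow] at hw
  exact lt_irrefl _ hw

/-- **The global inequality.** -/
theorem wedge_global_log {m d : ℕ} (hd : 1 ≤ d) {a : (Fin (m + 3) →₀ ℕ) → κ}
    (hsm : ∀ u : Fin (m + 3) → κ, u ≠ 0 → ∃ j, grad d a u j ≠ 0) (D : Derivation ℤ M M)
    (hκ : ∀ u : κ, D (algebraMap κ M u) = 0) (hX : D (algebraMap κ[X] M X) = 1)
    (E : Fin (m + 1) → Derivation ℤ M M)
    (hEκ : ∀ i, ∀ u : κ, ∃ u' : κ, E i (algebraMap κ M u) = algebraMap κ M u')
    (hEX : ∀ i, ∃ u : κ, E i (algebraMap κ[X] M X) = algebraMap κ M u)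
    (hEa : ∀ i, ∀ I ∈ expo (Fin (m + 3)) d, E i (algebraMap κ M (a I)) = 0)
    {γ : Fin (m + 3) → M} {f : M} (hf : Fval d (fun I => algebraMap κ M (a I)) γ = f)
    (hf0 : f ≠ 0) (hdet : (derMat D E γ).det ≠ 0) :
    ((d : ℤ) - 1) * height κ γ ≤ (m + 2) * height κ γ + ramDeg κ M (RatFunc κ) +
      ({w : Place κ M | w.1 f < vmax w.1 γ ^ d}.ncard : ℤ) := by
  -- See `wedge_global` (file MP_44a246_ntS/SP5c.lean). `g = grad d a γ`, `N = derMat D E γ`:
  -- `N.mulVec g = derCol d D E f` (`grad_euler`, `D_Fval`), so by Cramer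
  -- `N.det * g j = (N.updateCol j (derCol d D E f)).det` (`Matrix.cramer_eq_adjugate_mulVec`,
  -- `Matrix.cramer_apply`). With `wedge_place_log` and `vmax_grad`: for every place
  -- `w (det N) * vmax w γ ^ (d - 1) ≤ w f * vmax w γ ^ (m + 2) * exp (e - 1 + ε)`; logarithms, sum
  -- over the places, product formula for `det N` and `f`.
  classical
  set aM : (Fin (m + 3) →₀ ℕ) → M := fun I => algebraMap κ M (a I) with haM
  set g : Fin (m + 3) → M := grad d aM γ with hg
  set N : Matrix (Fin (m + 3)) (Fin (m + 3)) M := derMat D E γ with hN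
  have hγ : γ ≠ 0 := by
    rintro rfl
    apply hdet
    refine Matrix.det_eq_zero_of_row_eq_zero (0 : Fin (m + 3)) fun k => ?_
    rfl
  rcases isEmpty_or_nonempty (Place κ M) with hemp | ⟨⟨w₀⟩⟩
  · have h1 : height κ γ = 0 := by
      unfold height
      exact finsum_of_isEmpty _
    rw [h1, mul_zero, mul_zero, zero_add]
    positivity
  have hvg : ∀ w : Place κ M, vmax w.1 g = vmax w.1 γ ^ (d - 1) := fun w =>
    vmax_grad w (fun y hy => place_residue w hy) hd hsm hγ
  have hvγ : ∀ w : Place κ M, vmax w.1 γ ≠ 0 := fun w h => hγ ((vmax_eq_zero_iff w.1).mp h)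
  have hg0 : g ≠ 0 := by
    intro h
    have h1 := hvg w₀
    rw [(vmax_eq_zero_iff w₀.1).mpr h] at h1
    exact pow_ne_zero _ (hvγ w₀) h1.symm
  -- the system
  have hsys : N.mulVec g = derCol d D E f := by
    funext i
    refine Fin.cases ?_ (fun i => ?_) i
    · show ∑ k, γ k * g k = d * f
      rw [← hf, ← grad_euler]
      exact Finset.sum_congr rfl fun k _ => mul_comm _ _
    · refine Fin.cases ?_ (fun i => ?_) i
      · show ∑ k, D (γ k) * g k = D f
        have h1 := D_Fval d aM D γ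
        rw [hf, Finset.sum_eq_zero (fun I _ => by
          rw [haM]; simp only; rw [hκ, zero_mul]), zero_add] at h1
        rw [h1]
        exact Finset.sum_congr rfl fun k _ => mul_comm _ _
      · show ∑ k, E i (γ k) * g k = E i f
        have h1 := D_Fval d aM (E i) γ
        rw [hf, Finset.sum_eq_zero (fun I hI => by
          rw [haM]; simp only; rw [hEa i I hI, zero_mul]), zero_add] at h1
        rw [h1]
        exact Finset.sum_congr rfl fun k _ => mul_comm _ _
  have hcr : ∀ j, N.det * g j = (N.updateCol j (derCol d D E f)).det := by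
    intro j
    rw [← hsys, ← Matrix.cramer_apply, Matrix.cramer_eq_adjugate_mulVec, Matrix.mulVec_mulVec,
      Matrix.adjugate_mul, Matrix.smul_mulVec, Matrix.one_mulVec]
    rfl
  have hlam0 : N.det ≠ 0 := hdet
  -- the local estimate
  have hloc : ∀ w : Place κ M, log (w.1 N.det) + ((d : ℤ) - 1) * log (vmax w.1 γ) ≤
      log (w.1 f) + ((m : ℤ) + 2) * log (vmax w.1 γ) +
        (((ramIdx (RatFunc κ) w.1 - 1 : ℕ) : ℤ) +
          ((if w.1 f < vmax w.1 γ ^ d then 1 else 0 : ℕ) : ℤ)) := by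
    intro w
    obtain ⟨j, -, hj, -⟩ := exists_vmax w.1 hg0
    have h1 := wedge_place_log w D hκ hX E hEκ hEX hγ hf hf0 j
    rw [← hN, ← hcr, map_mul, ← hj, hvg w] at h1
    have hl : w.1 N.det ≠ 0 := (Valuation.ne_zero_iff w.1).mpr hlam0
    have hfw : w.1 f ≠ 0 := (Valuation.ne_zero_iff w.1).mpr hf0
    have h3 := (log_le_log (mul_ne_zero hl (pow_ne_zero _ (hvγ w)))
      (mul_ne_zero (mul_ne_zero hfw (pow_ne_zero _ (hvγ w))) exp_ne_zero)).mpr h1
    rw [log_mul hl (pow_ne_zero _ (hvγ w)),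
      log_mul (mul_ne_zero hfw (pow_ne_zero _ (hvγ w))) exp_ne_zero,
      log_mul hfw (pow_ne_zero _ (hvγ w)),
      log_pow, log_pow, log_exp, nsmul_eq_mul, nsmul_eq_mul, Nat.cast_sub hd, Nat.cast_add] at h3
    push_cast at h3 ⊢
    linarith
  -- summation
  have htow : IsScalarTower κ (RatFunc κ) M := by
    refine IsScalarTower.of_algebraMap_eq fun c => ?_
    rw [IsScalarTower.algebraMap_apply κ κ[X] M, IsScalarTower.algebraMap_apply κ[X] (RatFunc κ) M,
      ← IsScalarTower.algebraMap_apply κ κ[X] (RatFunc κ)]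
  have hzf : {w : Place κ M | w.1 f < vmax w.1 γ ^ d}.Finite := zeros_finite (m := m) hγ hf0
  let P : Finset (Place κ M) := (vmax_finite hγ).toFinset ∪ (place_finite hlam0).toFinset ∪
    (ramIdx_finite (κ := κ) (K := RatFunc κ) (L := M)).toFinset ∪ (place_finite hf0).toFinset
  have hP : ∀ v ∉ P, vmax v.1 γ = 1 ∧ v.1 N.det = 1 ∧ ramIdx (RatFunc κ) v.1 = 1 ∧ v.1 f = 1 := by
    intro v hv
    simp only [P, Finset.mem_union, Set.Finite.mem_toFinset, not_or, Set.mem_ofPred_eq,
      not_not] at hv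
    exact ⟨hv.1.1.1, hv.1.1.2, hv.1.2, hv.2⟩
  have hsum := Finset.sum_le_sum fun v (_ : v ∈ P) => hloc v
  simp only [Finset.sum_add_distrib, ← Finset.mul_sum] at hsum
  have e1 : ∑ v ∈ P, log (v.1 N.det) = 0 := by
    rw [← product_formula (κ := κ) hlam0]
    symm
    refine finsum_eq_sum_of_support_subset _ fun v hv => ?_
    by_contra hvP
    apply hv
    simp only
    rw [(hP v hvP).2.1, log_one]
  have e3 : ∑ v ∈ P, log (v.1 f) = 0 := by
    rw [← product_formula (κ := κ) hf0]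
    symm
    refine finsum_eq_sum_of_support_subset _ fun v hv => ?_
    by_contra hvP
    apply hv
    simp only
    rw [(hP v hvP).2.2.2, log_one]
  have e2 : ∑ v ∈ P, log (vmax v.1 γ) = height κ γ := by
    symm
    refine finsum_eq_sum_of_support_subset _ fun v hv => ?_
    by_contra hvP
    apply hv
    simp only
    rw [(hP v hvP).1, log_one]
  have e4 : ∑ v ∈ P, ((ramIdx (RatFunc κ) v.1 - 1 : ℕ) : ℤ) = (ramDeg κ M (RatFunc κ) : ℤ) := by
    rw [← Nat.cast_sum]
    congr 1
    symm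
    refine finsum_eq_sum_of_support_subset _ fun v hv => ?_
    by_contra hvP
    apply hv
    simp only
    rw [(hP v hvP).2.2.1, Nat.sub_self]
  have e5 : ∑ v ∈ P, ((if v.1 f < vmax v.1 γ ^ d then 1 else 0 : ℕ) : ℤ) =
      ({w : Place κ M | w.1 f < vmax w.1 γ ^ d}.ncard : ℤ) := by
    rw [← Nat.cast_sum, ← Finset.card_filter, Set.ncard_eq_toFinset_card _ hzf]
    congr 2
    ext v
    rw [Finset.mem_filter, Set.Finite.mem_toFinset, Set.mem_ofPred_eq]
    constructor
    · exact fun h => h.2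
    · intro h
      refine ⟨?_, h⟩
      by_contra hvP
      obtain ⟨q1, -, -, q4⟩ := hP v hvP
      rw [q1, q4, one_pow] at h
      exact lt_irrefl _ h
  rw [e1, e2, e3, e4, e5, zero_add, zero_add] at hsum
  linarith

end Pool.Agent.Lib.MP_44a246_ntY
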