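import Mathlib
import Pool.Agent.Lib.MP_44a246_ntS.SP10
import Pool.Agent.Lib.MP_44a246_ntS.SP5b
import Pool.Agent.Lib.MP_44a246_ntS.SP6
import Pool.Agent.Lib.MP_44a246_ntY.Y50
import Pool.Agent.Lib.MP_44a246_ntY.Y52
import Pool.Agent.Lib.MP_44a246_ntY.Y54

/-!
Step E for pairs: a covering family of curves of small degree meets a generic hypersurface in many
points.
-/

namespace Pool.Agent.Lib.MP_44a246_ntY

open Pool.Agent.Lib.MP_e52354_nt
open Pool.Agent.Lib.MP_44a246_nt
open Pool.Agent.Lib.MP_44a246_ntL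
open Pool.Agent.Lib.MP_44a246_ntS
open WithZero Polynomial Module

universe u

section aux

variable {κ M : Type*} [Field κ] [IsAlgClosed κ] [CharZero κ] [Field M] [Algebra κ M]
  [Algebra κ[X] M] [IsScalarTower κ κ[X] M]
  [Algebra (RatFunc κ) M] [IsScalarTower κ[X] (RatFunc κ) M]
  [Algebra (Rinf κ) M] [IsScalarTower (Rinf κ) (RatFunc κ) M]
  [FiniteDimensional (RatFunc κ) M]

/-- the height of the separating element -/
private theorem y55_height_X : height κ ![1, algebraMap κ[X] M X] =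
    (Module.finrank (RatFunc κ) M : ℤ) := by
  classical
  have hX0 : algebraMap κ[X] (RatFunc κ) X ≠ 0 := by
    rw [ne_eq, FaithfulSMul.algebraMap_eq_zero_iff]
    exact X_ne_zero
  have hX : algebraMap κ[X] M X = algebraMap (RatFunc κ) M (algebraMap κ[X] (RatFunc κ) X) :=
    IsScalarTower.algebraMap_apply κ[X] (RatFunc κ) M X
  have hXM : algebraMap κ[X] M X ≠ 0 := by
    rw [hX]
    exact (_root_.map_ne_zero _).mpr hX0
  have h1 := sum_infinite_places (κ := κ) hXM
  have h3 : (Algebra.norm (RatFunc κ) (algebraMap κ[X] M X)).intDegree =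
      (Module.finrank (RatFunc κ) M : ℤ) := by
    rw [hX, Algebra.norm_algebraMap, intDegree_pow' hX0, RatFunc.intDegree_polynomial, natDegree_X]
    push_cast
    ring
  rw [h3] at h1
  have h4 : height κ ![1, algebraMap κ[X] M X] =
      - ∑ᶠ v : Place κ M, (if v.1 (algebraMap κ[X] M X) ≤ 1 then (0 : ℤ) else
        - log (v.1 (algebraMap κ[X] M X))) := by
    rw [← finsum_neg_distrib]
    unfold height
    refine finsum_congr fun v => ?_
    rw [Pool.Agent.Lib.MP_44a246_ntL.vmax_pair]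
    split_ifs with h
    · rw [max_eq_left h, log_one, neg_zero]
    · rw [max_eq_right (not_le.mp h).le, neg_neg]
  rw [h4, h1, neg_neg]

omit [IsAlgClosed κ] [CharZero κ] [Algebra (Rinf κ) M] [IsScalarTower (Rinf κ) (RatFunc κ) M]
  [FiniteDimensional (RatFunc κ) M] in
private theorem y55_clear (Y : M) (r : (RatFunc κ)[X]) :
    ∃ (q : κ[X]) (P : κ[X][X]), q ≠ 0 ∧ aeval Y P = algebraMap κ[X] M q * aeval Y r := by
  obtain ⟨b, hb0, hb⟩ := IsLocalization.integerNormalization_spec (nonZeroDivisors κ[X]) r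
  refine ⟨b, IsLocalization.integerNormalization (nonZeroDivisors κ[X]) r,
    nonZeroDivisors.ne_zero hb0, ?_⟩
  rw [← aeval_map_algebraMap (RatFunc κ), hb]
  have h1 : b • r = C (algebraMap κ[X] (RatFunc κ) b) * r := by
    rw [← smul_eq_C_mul, algebraMap_smul]
  rw [h1, map_mul, aeval_C, ← IsScalarTower.algebraMap_apply κ[X] (RatFunc κ) M]

omit [IsAlgClosed κ] [CharZero κ] [Algebra (Rinf κ) M] [IsScalarTower (Rinf κ) (RatFunc κ) M]
  [FiniteDimensional (RatFunc κ) M] in
/-- every element is a quotient of polynomials in `X`, `Y` -/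
private theorem y55_gen {Y : M} (hgen : IntermediateField.adjoin (RatFunc κ) {Y} = ⊤) (z : M) :
    ∃ G H : κ[X][X], ev (algebraMap κ M) (algebraMap κ[X] M X) Y H ≠ 0 ∧
      z * ev (algebraMap κ M) (algebraMap κ[X] M X) Y H =
        ev (algebraMap κ M) (algebraMap κ[X] M X) Y G := by
  have hz : z ∈ IntermediateField.adjoin (RatFunc κ) {Y} := by
    rw [hgen]
    exact IntermediateField.mem_top
  obtain ⟨r, s, hrs⟩ := (IntermediateField.mem_adjoin_simple_iff (RatFunc κ) z).1 hz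
  by_cases hs : aeval Y s = 0
  · refine ⟨0, 1, ?_, ?_⟩
    · rw [map_one]
      exact one_ne_zero
    · rw [hrs, hs, div_zero, zero_mul, map_zero]
  · obtain ⟨q₁, P₁, hq₁, hP₁⟩ := y55_clear Y r
    obtain ⟨q₂, P₂, hq₂, hP₂⟩ := y55_clear Y s
    have hinj : ∀ q : κ[X], q ≠ 0 → algebraMap κ[X] M q ≠ 0 := by
      intro q hq
      rw [IsScalarTower.algebraMap_apply κ[X] (RatFunc κ) M]
      refine (_root_.map_ne_zero _).mpr ?_
      rw [ne_eq, FaithfulSMul.algebraMap_eq_zero_iff]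
      exact hq
    refine ⟨C q₂ * P₁, C q₁ * P₂, ?_, ?_⟩
    · rw [ev_aeval, map_mul, aeval_C, hP₂]
      exact mul_ne_zero (hinj _ hq₁) (mul_ne_zero (hinj _ hq₂) hs)
    · rw [ev_aeval, ev_aeval, map_mul, map_mul, aeval_C, aeval_C, hP₁, hP₂, hrs]
      field_simp

omit [IsAlgClosed κ] [CharZero κ] [Field M] [Algebra κ M] [Algebra κ[X] M]
  [IsScalarTower κ κ[X] M] [Algebra (RatFunc κ) M] [IsScalarTower κ[X] (RatFunc κ) M]
  [Algebra (Rinf κ) M] [IsScalarTower (Rinf κ) (RatFunc κ) M]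
  [FiniteDimensional (RatFunc κ) M] in
private theorem y55_box {b : ℕ} {A : κ[X][X]} (h : Box b A) : Box b (derivative A) := by
  refine ⟨(natDegree_derivative_le A).trans ((Nat.sub_le _ _).trans h.1), fun i => ?_⟩
  rw [coeff_derivative]
  refine natDegree_mul_le.trans ?_
  have h1 : ((i : κ[X]) + 1).natDegree = 0 := by
    have : ((i : κ[X]) + 1) = C ((i : κ) + 1) := by simp
    rw [this, natDegree_C]
  rw [h1, add_zero]
  exact h.2 _

end aux

private theorem y55_num {m d b N : ℕ} {h R nZ nG n1 n2 n3 n4 hX hY hδ hω : ℤ}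
    (hd : m + 5 + 7 * b ≤ d) (hN : 0 < N) (hNb : N ≤ b) (hpos : 0 < h)
    (hglob : ((d : ℤ) - 1) * h ≤ (m + 2) * h + R + nZ)
    (hram : R ≤ 2 * ((N : ℤ) - 1) * h)
    (hZ : nZ ≤ nG + (n1 + (n2 + (n3 + n4))))
    (hG : nG ≤ 2 * N + ((N * (N - 1) / 2 : ℕ) : ℤ))
    (h1 : n1 ≤ hX) (h2 : n2 ≤ hY) (h3 : n3 ≤ hδ) (h4 : n4 ≤ hω)
    (hXh : hX ≤ h) (hYh : hY ≤ h) (hXN : hX = N) (hδh : hδ ≤ b * hX + b * hY)
    (hωh : hω ≤ b * hX + b * hY) : False := by
  have hq : 2 * ((N * (N - 1) / 2 : ℕ) : ℤ) ≤ (N : ℤ) * ((N : ℤ) - 1) := by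
    have h5 : 2 * (N * (N - 1) / 2) ≤ N * (N - 1) := Nat.mul_div_le _ _
    have h6 : ((N - 1 : ℕ) : ℤ) = (N : ℤ) - 1 := by
      rw [Nat.cast_sub hN, Nat.cast_one]
    rw [← h6]
    exact_mod_cast h5
  have hNh : (N : ℤ) ≤ h := by
    rw [← hXN]
    exact hXh
  have hNb' : (N : ℤ) ≤ b := by exact_mod_cast hNb
  have hN' : (1 : ℤ) ≤ N := by exact_mod_cast hN
  have hd' : ((m : ℤ) + 5 + 7 * b) ≤ d := by exact_mod_cast hd
  have hb0 : (0 : ℤ) ≤ b := by positivity
  have e1 : (N : ℤ) * ((N : ℤ) - 1) ≤ h * ((b : ℤ) - 1) :=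
    mul_le_mul hNh (by linarith) (by linarith) hpos.le
  have e2 : (b : ℤ) * hX ≤ b * h := mul_le_mul_of_nonneg_left hXh hb0
  have e3 : (b : ℤ) * hY ≤ b * h := mul_le_mul_of_nonneg_left hYh hb0
  have e4 : ((N : ℤ) - 1) * h ≤ ((b : ℤ) - 1) * h :=
    mul_le_mul_of_nonneg_right (by linarith) hpos.le
  have e5 : ((m : ℤ) + 5 + 7 * b) * h ≤ d * h := mul_le_mul_of_nonneg_right hd' hpos.le
  have e6 : (0 : ℤ) < (b : ℤ) * h := mul_pos (by linarith) hpos
  nlinarith [e1, e2, e3, e4, e5, e6, hq]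

/-- **Step E for pairs**, with derivations. -/
theorem no_certL_der {κ : Type u} [Field κ] [IsAlgClosed κ] [CharZero κ] {m d b : ℕ}
    (hd : m + 5 + 7 * b ≤ d) {a : (Fin (m + 3) →₀ ℕ) → κ}
    (hsm : ∀ u : Fin (m + 3) → κ, u ≠ 0 → ∃ j, grad d a u j ≠ 0)
    {x : Fin (m + 3) → κ} (e : Fin (m + 2) → Derivation ℤ κ κ)
    (hea : ∀ i, ∀ I ∈ expo (Fin (m + 3)) d, e i (a I) = 0) (hFx : Fval d a x ≠ 0)
    (hx : LinearIndependent κ
      (Fin.cons x (fun i k => e i (x k)) : Fin (m + 3) → Fin (m + 3) → κ)) :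
    ¬ CertL (n := m + 2) d a b x := by
  classical
  rintro ⟨A, W, Bv, ξ₀, ξ₁, ξ₂, c, y₁, y, hirr, hboxA, hboxW, -, hc, hξ₀, hξ₁, hξ₂, hA, hAY, hW,
    hB, h0, h1, h2, hcount⟩
  obtain ⟨i₀, hdet⟩ := indep_at' (β := W.evalEval y₁ y * c) hA hAY hW (mul_ne_zero hW hc)
    (fun j => by rw [mul_assoc]; exact hB j) h0 h1 e hx
  have hdegA : 0 < A.natDegree := by
    rw [Nat.pos_iff_ne_zero]
    intro h3
    apply hAY
    rw [eq_C_of_natDegree_eq_zero h3, derivative_C]
    simp
  refine with_curve hirr hdegA ?_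
  intro M _ _ _ _ _ _ _ _ _ Y hY hgen hfin ht halg
  set φ := algebraMap κ M with hφ
  set X' : M := algebraMap κ[X] M X with hX'
  -- specialisation
  have hspec : ∀ G : κ[X][X], G.evalEval y₁ y ≠ 0 → ev φ X' Y G ≠ 0 := by
    intro G hG h3
    rw [hX', ev_aeval, hY] at h3
    obtain ⟨g, rfl⟩ := h3
    apply hG
    rw [evalEval_mul, hA, zero_mul]
  have hevA : ∀ G : κ[X][X], A ∣ G → ev φ X' Y G = 0 := by
    intro G hG
    rw [hX', ev_aeval, hY]
    exact hG
  have hAP : ev φ X' Y A = 0 := hevA A dvd_rfl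
  have hδ : ev φ X' Y (derivative A) ≠ 0 := hspec _ hAY
  obtain ⟨δA, hδA⟩ : ∃ δA, δA = ev φ X' Y (derivative A) := ⟨_, rfl⟩
  obtain ⟨ω, hω⟩ : ∃ ω, ω = ev φ X' Y W := ⟨_, rfl⟩
  have hω0 : ω ≠ 0 := by
    rw [hω]
    exact hspec _ hW
  rw [← hδA] at hδ
  set γ : Fin (m + 3) → M := fun j => ev φ X' Y (Bv j) with hγdef
  -- the derivations
  obtain ⟨D, hDκ, hDX⟩ := exists_der_ext ht halg (0 : Derivation ℤ κ κ) 1
  choose E hEκ hEX using fun i : Fin (m + 2) => exists_der_ext ht halg (e i) 0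
  have hDκ' : ∀ u : κ, D (algebraMap κ M u) = 0 := fun u => by
    rw [hDκ]
    simp
  have hD : ∀ G, δA * D (ev φ X' Y G) = ev φ X' Y (vf A (cX κ) G) := by
    intro G
    rw [hδA, ev_vf φ 0 D hDκ hAP G, hX', hDX, one_mul, vf_apply, cE_zero, cE_zero]
    simp
  have hE : ∀ i G, δA * E i (ev φ X' Y G) = ev φ X' Y (vf A (cE (e i)) G) := by
    intro i G
    rw [hδA, ev_vf φ (e i) (E i) (hEκ i) hAP G, hX', hEX, zero_mul, add_zero]
  -- the relations between `γ` and the projection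
  have hsum : ∀ ξ : Fin (m + 3) → κ, ev φ X' Y (∑ j, C (C (ξ j)) * Bv j) = ∑ j, φ (ξ j) * γ j := by
    intro ξ
    rw [map_sum]
    refine Finset.sum_congr rfl fun j _ => ?_
    rw [map_mul, ev_C_C]
  have r0 : ∑ j, φ (ξ₀ j) * γ j = ω := by
    rw [← hsum, ← sub_eq_zero, hω, ← map_sub]
    exact hevA _ h0
  have r1 : ∑ j, φ (ξ₁ j) * γ j = X' * ω := by
    rw [← hsum, ← sub_eq_zero, hω]
    have h4 : X' * ev φ X' Y W = ev φ X' Y (C X * W) := by
      rw [map_mul, ev_C_X]
    rw [h4, ← map_sub]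
    exact hevA _ h1
  have r2 : ∑ j, φ (ξ₂ j) * γ j = Y * ω := by
    rw [← hsum, ← sub_eq_zero, hω]
    have h4 : Y * ev φ X' Y W = ev φ X' Y (X * W) := by
      rw [map_mul, ev_X]
    rw [h4, ← map_sub]
    exact hevA _ h2
  have hγ : γ ≠ 0 := by
    intro h3
    apply hω0
    rw [← r0, h3]
    simp
  -- the value of the form
  obtain ⟨f, hf⟩ : ∃ f, f = ev φ X' Y (FB d a Bv) := ⟨_, rfl⟩
  have hFγ : Fval d (fun I => algebraMap κ M (a I)) γ = f := by
    rw [hf]
    unfold FB Fval mon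
    rw [map_sum]
    refine Finset.sum_congr rfl fun I _ => ?_
    rw [map_mul, ev_C_C, map_prod]
    congr 1
    refine Finset.prod_congr rfl fun j _ => ?_
    rw [map_pow]
  have hf0 : f ≠ 0 := by
    rw [hf]
    apply hspec
    have h3 : (FB d a Bv).evalEval y₁ y = Fval d a (fun j => W.evalEval y₁ y * c * x j) := by
      have h4 : (FB d a Bv).evalEval y₁ y = evalEvalRingHom y₁ y (FB d a Bv) := rfl
      rw [h4]
      unfold FB Fval mon
      rw [map_sum]
      refine Finset.sum_congr rfl fun I _ => ?_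
      rw [map_mul, map_prod]
      have h5 : evalEvalRingHom y₁ y (C (C (a I))) = a I := by
        show (C (C (a I)) : κ[X][X]).evalEval y₁ y = a I
        rw [evalEval_C, eval_C]
      rw [h5]
      congr 1
      refine Finset.prod_congr rfl fun j _ => ?_
      rw [map_pow]
      congr 1
      show (Bv j).evalEval y₁ y = _
      rw [← hB j]
      ring
    rw [h3, Fval_smul]
    exact mul_ne_zero (pow_ne_zero _ (mul_ne_zero hW hc)) hFx
  -- the determinant
  have hdetM : (derMat D (fun i => E (i₀.succAbove i)) γ).det ≠ 0 := by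
    let N : Matrix (Fin (m + 3)) (Fin (m + 3)) κ[X][X] :=
      Matrix.of (Fin.cons Bv (Fin.cons (fun j => vf A (cX κ) (Bv j))
        fun i j => vf A (cE (e (i₀.succAbove i))) (Bv j)))
    have hN : N.det.evalEval y₁ y ≠ 0 := by
      have h3 : N.det.evalEval y₁ y = evalEvalRingHom y₁ y N.det := rfl
      rw [h3, RingHom.map_det]
      convert hdet using 2
      ext i j
      refine Fin.cases rfl (fun i => ?_) i
      exact Fin.cases rfl (fun i => rfl) i
    have hN' := hspec _ hN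
    rw [RingHom.map_det] at hN'
    intro h3
    apply hN'
    have h4 : (ev φ X' Y).mapMatrix N = Matrix.diagonal (Fin.cons 1 fun _ => δA) *
        derMat D (fun i => E (i₀.succAbove i)) γ := by
      ext i j
      rw [Matrix.diagonal_mul]
      refine Fin.cases ?_ (fun i => ?_) i
      · show ev φ X' Y (Bv j) = 1 * γ j
        rw [one_mul]
      · refine Fin.cases ?_ (fun i => ?_) i
        · show ev φ X' Y (vf A (cX κ) (Bv j)) = δA * D (γ j)
          rw [hγdef, hD]
        · show ev φ X' Y (vf A (cE (e (i₀.succAbove i))) (Bv j)) = δA * E (i₀.succAbove i) (γ j)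
          rw [hγdef, hE]
    rw [h4, Matrix.det_mul, h3, mul_zero]
  -- the inequalities
  have hglob := wedge_global_log (by omega : 1 ≤ d) hsm D hDκ' hDX (fun i => E (i₀.succAbove i))
    (fun i u => ⟨_, hEκ _ u⟩) (fun i => ⟨0, by rw [hEX, map_zero]⟩)
    (fun i I hI => by rw [hEκ, hea _ I hI, map_zero]) hFγ hf0 hdetM
  have hgen' : pointField (RatFunc κ) γ = ⊤ := by
    rw [eq_top_iff, ← hgen, IntermediateField.adjoin_le_iff, Set.singleton_subset_iff]
    obtain ⟨l, hl⟩ : ∃ l, γ l ≠ 0 := by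
      by_contra hcon
      push Not at hcon
      exact hγ (funext hcon)
    have hmem : ∀ ξ : Fin (m + 3) → κ, (∑ j, φ (ξ j) * γ j) / γ l ∈ pointField (RatFunc κ) γ := by
      intro ξ
      rw [Finset.sum_div]
      refine sum_mem fun j _ => ?_
      rw [mul_div_assoc]
      refine mul_mem ?_ (IntermediateField.subset_adjoin _ _ ⟨j, l, rfl⟩)
      have h5 : φ (ξ j) = algebraMap (RatFunc κ) M (algebraMap κ[X] (RatFunc κ) (C (ξ j))) := by
        rw [← IsScalarTower.algebraMap_apply κ[X] (RatFunc κ) M, hφ,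
          IsScalarTower.algebraMap_apply κ κ[X] M]
        rfl
      rw [h5]
      exact (pointField (RatFunc κ) γ).algebraMap_mem _
    have h6 : Y = ((∑ j, φ (ξ₂ j) * γ j) / γ l) / ((∑ j, φ (ξ₀ j) * γ j) / γ l) := by
      rw [r0, r2]
      field_simp
    rw [h6]
    exact div_mem (hmem ξ₂) (hmem ξ₀)
  have hram := ram_le hγ hgen'
  have hpos : 0 < height κ γ := height_pos hγ (ξ₀ := ξ₀) (ξ₁ := ξ₁) (by rw [← hφ, r0]; exact hω0)
    (by rw [← hφ, r0, r1])
  -- the function field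
  have hFF : IsFF κ M := by
    have t : IsScalarTower κ (RatFunc κ) M := by
      refine IsScalarTower.of_algebraMap_eq fun u => ?_
      rw [IsScalarTower.algebraMap_apply κ κ[X] M,
        IsScalarTower.algebraMap_apply κ κ[X] (RatFunc κ),
        ← IsScalarTower.algebraMap_apply κ[X] (RatFunc κ) M]
    exact (sp5b_isFF κ).of_finite
  have hX'0 : ∀ s : κ, X' - algebraMap κ M s ≠ 0 := by
    intro s h3
    apply ht
    rw [sub_eq_zero.mp h3]
    exact isAlgebraic_algebraMap s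
  have hhX : height κ ![1, X'] ≤ height κ γ := height_lin_le hFF ξ₀ ξ₁
    (by rw [← hφ, r0]; exact hω0) (by rw [← hφ, r0, r1])
  have hhY : height κ ![1, Y] ≤ height κ γ := height_lin_le hFF ξ₀ ξ₂
    (by rw [← hφ, r0]; exact hω0) (by rw [← hφ, r0, r2])
  have hhX' : height κ ![1, X'] = (A.natDegree : ℤ) := by
    rw [hX', y55_height_X, hfin]
  have hhδ : height κ ![1, δA] ≤ b * height κ ![1, X'] + b * height κ ![1, Y] := by
    rw [hδA]
    exact height_ev_le hFF (y55_box hboxA) X' Y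
  have hhω : height κ ![1, ω] ≤ b * height κ ![1, X'] + b * height κ ![1, Y] := by
    rw [hω]
    exact height_ev_le hFF hboxW X' Y
  obtain ⟨p1, p1'⟩ := card_poles_le hFF X'
  obtain ⟨p2, p2'⟩ := card_poles_le hFF Y
  obtain ⟨p3, p3'⟩ := card_zeros_le hFF hδ
  obtain ⟨p4, p4'⟩ := card_zeros_le hFF hω0
  have hve : ∀ (w : Place κ M) {s t : κ}, w.1 (X' - algebraMap κ M s) < 1 →
      w.1 (Y - algebraMap κ M t) < 1 → ∀ G : κ[X][X], w.1 (ev φ X' Y G) ≤ 1 ∧
        (w.1 (ev φ X' Y G) = 1 ↔ G.evalEval s t ≠ 0) := fun w s t hs htt G => val_ev hs htt G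
  -- the good places
  set Z : Set (Place κ M) := {w | w.1 f < vmax w.1 γ ^ d} with hZ
  have hZfin : Z.Finite := zeros_finite hγ hf0
  set Gd : Set (Place κ M) := {w | w.1 f < vmax w.1 γ ^ d ∧ w.1 X' ≤ 1 ∧ w.1 Y ≤ 1 ∧
    w.1 δA = 1 ∧ w.1 ω = 1} with hGd
  have hGfin : Gd.Finite := hZfin.subset fun w hw => hw.1
  have hpt : ∀ w : Place κ M, ∃ p : κ × κ, w ∈ Gd →
      w.1 (X' - algebraMap κ M p.1) < 1 ∧ w.1 (Y - algebraMap κ M p.2) < 1 := by
    intro w
    by_cases hw : w ∈ Gd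
    · obtain ⟨s, hs⟩ := place_residue w hw.2.1
      obtain ⟨t, htt⟩ := place_residue w hw.2.2.1
      exact ⟨(s, t), fun _ => ⟨hs, htt⟩⟩
    · exact ⟨(0, 0), fun h => absurd h hw⟩
  choose pt hpt using hpt
  have hgood : (Gd.ncard : ℤ) ≤ 2 * A.natDegree + ((A.natDegree * (A.natDegree - 1) / 2 : ℕ) : ℤ) := by
    have hinj : Set.InjOn pt (hGfin.toFinset : Set (Place κ M)) := by
      intro w hw w' hw' hww
      rw [Set.Finite.coe_toFinset] at hw hw'
      obtain ⟨hs, htt⟩ := hpt w hw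
      obtain ⟨hs', htt'⟩ := hpt w' hw'
      rw [← hww] at hs' htt'
      refine place_unique hs htt hs' htt' hAP ?_ (hX'0 _) (y55_gen hgen)
      rw [← (hve w hs htt (derivative A)).2, ← hδA]
      exact hw.2.2.2.1
    have h5 := hcount (hGfin.toFinset.image pt) (by
      intro p hp
      rw [Finset.mem_image] at hp
      obtain ⟨w, hw, rfl⟩ := hp
      rw [Set.Finite.mem_toFinset] at hw
      obtain ⟨hs, htt⟩ := hpt w hw
      have hw1 := hw.1
      obtain ⟨-, -, -, hwδ, hwω⟩ := hw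
      refine ⟨?_, ?_, ?_, ?_⟩
      · by_contra h6
        have h7 := (hve w hs htt A).2.2 h6
        rw [hAP, map_zero] at h7
        exact zero_ne_one h7
      · rw [← (hve w hs htt (derivative A)).2, ← hδA]
        exact hwδ
      · rw [← (hve w hs htt W).2, ← hω]
        exact hwω
      · by_contra h6
        have h7 := (hve w hs htt (FB d a Bv)).2.2 h6
        rw [← hf] at h7
        have h8 : vmax w.1 γ ≤ 1 := vmax_le _ fun j => (hve w hs htt (Bv j)).1
        rw [h7] at hw1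
        exact absurd hw1 (not_lt.mpr (pow_le_one' h8 d)))
    rw [Finset.card_image_of_injOn hinj] at h5
    rw [Set.ncard_eq_toFinset_card Gd hGfin]
    exact_mod_cast h5
  have hcover : Z ⊆ Gd ∪ ({w : Place κ M | 1 < w.1 X'} ∪ ({w : Place κ M | 1 < w.1 Y} ∪
      ({w : Place κ M | w.1 δA < 1} ∪ {w : Place κ M | w.1 ω < 1}))) := by
    intro w hw
    by_cases c1 : 1 < w.1 X'
    · exact Or.inr (Or.inl c1)
    by_cases c2 : 1 < w.1 Y
    · exact Or.inr (Or.inr (Or.inl c2))
    rw [not_lt] at c1 c2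
    obtain ⟨s, hs⟩ := place_residue w c1
    obtain ⟨t, htt⟩ := place_residue w c2
    by_cases c3 : w.1 δA < 1
    · exact Or.inr (Or.inr (Or.inr (Or.inl c3)))
    by_cases c4 : w.1 ω < 1
    · exact Or.inr (Or.inr (Or.inr (Or.inr c4)))
    rw [not_lt] at c3 c4
    refine Or.inl ⟨hw, c1, c2, le_antisymm ?_ c3, le_antisymm ?_ c4⟩
    · rw [hδA]
      exact (hve w hs htt (derivative A)).1
    · rw [hω]
      exact (hve w hs htt W).1
  have hZle : (Z.ncard : ℤ) ≤ Gd.ncard + ({w : Place κ M | 1 < w.1 X'}.ncard +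
      ({w : Place κ M | 1 < w.1 Y}.ncard + ({w : Place κ M | w.1 δA < 1}.ncard +
        {w : Place κ M | w.1 ω < 1}.ncard))) := by
    have h5 := Set.ncard_le_ncard hcover (hGfin.union (p1.union (p2.union (p3.union p4))))
    have h6 := Set.ncard_union_le Gd ({w : Place κ M | 1 < w.1 X'} ∪
      ({w : Place κ M | 1 < w.1 Y} ∪ ({w : Place κ M | w.1 δA < 1} ∪
        {w : Place κ M | w.1 ω < 1})))
    have h7 := Set.ncard_union_le {w : Place κ M | 1 < w.1 X'}
      ({w : Place κ M | 1 < w.1 Y} ∪ ({w : Place κ M | w.1 δA < 1} ∪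
        {w : Place κ M | w.1 ω < 1}))
    have h8 := Set.ncard_union_le {w : Place κ M | 1 < w.1 Y}
      ({w : Place κ M | w.1 δA < 1} ∪ {w : Place κ M | w.1 ω < 1})
    have h9 := Set.ncard_union_le {w : Place κ M | w.1 δA < 1} {w : Place κ M | w.1 ω < 1}
    exact_mod_cast (by omega : Z.ncard ≤ Gd.ncard + ({w : Place κ M | 1 < w.1 X'}.ncard +
      ({w : Place κ M | 1 < w.1 Y}.ncard + ({w : Place κ M | w.1 δA < 1}.ncard +
        {w : Place κ M | w.1 ω < 1}.ncard))))
  rw [hfin] at hram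
  exact y55_num hd hdegA hboxA.1 hpos hglob hram hZle hgood p1' p2' p3' p4' hhX hhY hhX' hhδ hhω

/-- the derivatives of a generic point of the projective space are independent -/
theorem indep_point' {κ : Type*} [Field κ] {m : ℕ} {x : Fin (m + 3) → κ} (hx0 : x 0 ≠ 0)
    (e : Fin (m + 2) → Derivation ℤ κ κ)
    (he : ∀ i j, e i (x j.succ / x 0) = if i = j then 1 else 0) :
    LinearIndependent κ
      (Fin.cons x (fun i k => e i (x k)) : Fin (m + 3) → Fin (m + 3) → κ) := by
  classical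
  set z : Fin (m + 3) → κ := fun k => x k / x 0 with hz
  have hxz : ∀ k, x k = x 0 * z k := by
    intro k
    show x k = x 0 * (x k / x 0)
    field_simp
  have hex : ∀ i k, e i (x k) = x 0 * e i (z k) + z k * e i (x 0) := by
    intro i k
    rw [hxz k, Derivation.leibniz, smul_eq_mul, smul_eq_mul]
  have hz0 : z 0 = 1 := div_self hx0
  have hez0 : ∀ i, e i (z 0) = 0 := by
    intro i
    rw [hz0, Derivation.map_one_eq_zero]
  rw [Fintype.linearIndependent_iff]
  intro g hg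
  rw [Fin.sum_univ_succ] at hg
  have hk : ∀ k, g 0 * x k + ∑ i : Fin (m + 2), g i.succ * e i (x k) = 0 := by
    intro k
    have := congrFun hg k
    simp only [Fin.cons_zero, Fin.cons_succ, Pi.add_apply, Pi.smul_apply, smul_eq_mul,
      Finset.sum_apply, Pi.zero_apply] at this
    exact this
  have hk' : ∀ k, (g 0 * x 0 + ∑ i : Fin (m + 2), g i.succ * e i (x 0)) * z k +
      x 0 * ∑ i : Fin (m + 2), g i.succ * e i (z k) = 0 := by
    intro k
    have h1 := hk k
    simp only [hex _ k] at h1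
    rw [hxz k] at h1
    rw [add_mul, Finset.sum_mul, Finset.mul_sum, ← h1, add_assoc, ← Finset.sum_add_distrib]
    congr 1
    · ring
    · exact Finset.sum_congr rfl fun i _ => by ring
  have h0 : g 0 * x 0 + ∑ i : Fin (m + 2), g i.succ * e i (x 0) = 0 := by
    have h5 := hk' 0
    have h6 : ∑ i : Fin (m + 2), g i.succ * e i (z 0) = 0 :=
      Finset.sum_eq_zero fun i _ => by rw [hez0, mul_zero]
    rw [h6, mul_zero, add_zero, hz0, mul_one] at h5
    exact h5
  have h1 : ∀ j : Fin (m + 2), g j.succ = 0 := by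
    intro j
    have := hk' j.succ
    rw [h0, zero_mul, zero_add] at this
    have h2 := (mul_eq_zero.mp this).resolve_left hx0
    have h3 : ∀ i, e i (z j.succ) = if i = j then 1 else 0 := fun i => he i j
    simp only [h3, mul_ite, mul_one, mul_zero, Finset.sum_ite_eq', Finset.mem_univ, if_true] at h2
    exact h2
  intro i
  refine Fin.cases ?_ h1 i
  simp only [h1, zero_mul, Finset.sum_const_zero, add_zero] at h0
  exact (mul_eq_zero.mp h0).resolve_right hx0

/-- **Step E for pairs** over an algebraically closed field -/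
theorem no_certL_closed {κ : Type u} [Field κ] [IsAlgClosed κ] [CharZero κ] {m d b : ℕ}
    (hd : m + 5 + 7 * b ≤ d) {a : (Fin (m + 3) →₀ ℕ) → κ} {x : Fin (m + 3) → κ} (hx0 : x 0 ≠ 0)
    (hind : AlgebraicIndependent ℚ (Sum.elim (fun I : {I // I ∈ expo (Fin (m + 3)) d} => a I.1)
      (fun j : Fin (m + 2) => x j.succ / x 0))) :
    ¬ CertL (n := m + 2) d a b x := by
  classical
  choose e he using fun i : Fin (m + 2) => exists_der_indep hind
    (Sum.elim (fun _ => (0 : κ)) fun j => if i = j then 1 else 0)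
  refine no_certL_der hd (smooth_of_indep (by omega) ?_) e (fun i I hI => ?_) ?_
    (indep_point' hx0 e fun i j => he i (Sum.inr j))
  · exact hind.comp Sum.inl Sum.inl_injective
  · exact he i (Sum.inl ⟨I, hI⟩)
  · set z : Fin (m + 3) → κ := fun k => x k / x 0 with hz
    have hxz : x = fun k => x 0 * z k := by
      funext k
      show x k = x 0 * (x k / x 0)
      field_simp
    have hz0 : z 0 = 1 := div_self hx0
    rw [hxz, Fval_smul]
    refine mul_ne_zero (pow_ne_zero _ hx0) fun h0 => ?_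
    obtain ⟨D, hD⟩ := exists_der_indep hind
      (Sum.elim (fun I => if I.1 = Finsupp.single 0 d then (1 : κ) else 0) fun _ => 0)
    have hDz : ∀ j, D (z j) = 0 := by
      intro j
      refine Fin.cases ?_ (fun j => ?_) j
      · rw [hz0, Derivation.map_one_eq_zero]
      · exact hD (Sum.inr j)
    have h1 := D_Fval d a D z
    rw [h0, map_zero] at h1
    simp only [hDz, mul_zero, Finset.sum_const_zero, add_zero] at h1
    have hmem : (Finsupp.single 0 d : Fin (m + 3) →₀ ℕ) ∈ expo (Fin (m + 3)) d := by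
      rw [mem_expo, Finsupp.degree_single]
    rw [Finset.sum_eq_single_of_mem _ hmem] at h1
    · rw [mon_single, hz0, one_pow, mul_one] at h1
      have h2 := hD (Sum.inl ⟨_, hmem⟩)
      simp only [Sum.elim_inl, if_true] at h2
      rw [h2] at h1
      exact one_ne_zero h1.symm
    · intro I hI hne
      have h2 := hD (Sum.inl ⟨I, hI⟩)
      simp only [Sum.elim_inl, if_neg hne] at h2
      rw [h2, zero_mul]

end Pool.Agent.Lib.MP_44a246_ntY
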