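import Mathlib
import Pool.Agent.Lib.MP_44a246_ntS.SQ2b
import Pool.Agent.Lib.MP_44a246_ntY.Y50
import Pool.Agent.Lib.MP_44a246_ntY.Y56

/-!
Ultraproducts of certificates for pairs.
-/

namespace Pool.Agent.Lib.MP_44a246_ntY

open Pool.Agent.Lib.MP_e52354_nt
open Pool.Agent.Lib.MP_44a246_ntS
open Polynomial

variable {L : Type*} [Field L]

private theorem y57_box_add {b : ℕ} {A B : L[X][X]} (hA : Box b A) (hB : Box b B) :
    Box b (A + B) := by
  refine ⟨natDegree_add_le_of_degree_le hA.1 hB.1, fun i => ?_⟩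
  rw [coeff_add]
  exact natDegree_add_le_of_degree_le (hA.2 i) (hB.2 i)

private theorem y57_box_neg {b : ℕ} {A : L[X][X]} (hA : Box b A) : Box b (-A) := by
  refine ⟨by rw [natDegree_neg]; exact hA.1, fun i => ?_⟩
  rw [coeff_neg, natDegree_neg]
  exact hA.2 i

private theorem y57_box_mul {b c : ℕ} {A B : L[X][X]} (hA : Box b A) (hB : Box c B) :
    Box (b + c) (A * B) := by
  refine ⟨natDegree_mul_le.trans (add_le_add hA.1 hB.1), fun i => ?_⟩
  rw [coeff_mul]
  refine natDegree_sum_le_of_forall_le _ _ fun x _ => ?_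
  exact natDegree_mul_le.trans (add_le_add (hA.2 _) (hB.2 _))

private theorem y57_box_sum {ι : Type*} (s : Finset ι) {b : ℕ} {A : ι → L[X][X]}
    (hA : ∀ i ∈ s, Box b (A i)) : Box b (∑ i ∈ s, A i) := by
  classical
  induction s using Finset.induction_on with
  | empty =>
    rw [Finset.sum_empty]
    exact ⟨by simp, fun i => by simp⟩
  | insert i s hi ih =>
    rw [Finset.sum_insert hi]
    exact y57_box_add (hA i (Finset.mem_insert_self _ _))
      (ih fun j hj => hA j (Finset.mem_insert_of_mem hj))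

private theorem y57_box_CC (a : L) : Box 0 (C (C a) : L[X][X]) := by
  refine ⟨by simp, fun i => ?_⟩
  rw [coeff_C]
  split_ifs <;> simp

private theorem y57_box_lin {n b : ℕ} {B : Fin (n + 1) → L[X][X]} (hB : ∀ j, Box b (B j))
    {W P : L[X][X]} (hW : Box b W) (hP : Box 1 P) (ξ : Fin (n + 1) → L) :
    Box (b + 1) (∑ j, C (C (ξ j)) * B j - P * W) := by
  rw [sub_eq_add_neg]
  refine y57_box_add (y57_box_sum _ fun j _ => ?_) (y57_box_neg ?_)
  · have h1 := y57_box_mul (y57_box_CC (ξ j)) (hB j)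
    rw [zero_add] at h1
    exact ⟨h1.1.trans (Nat.le_succ b), fun i => (h1.2 i).trans (Nat.le_succ b)⟩
  · have h1 := y57_box_mul hP hW
    rwa [add_comm] at h1

private theorem y57_lin {n : ℕ} {A' Q' T' W' : (ℕ → L)[X][X]}
    {B' : Fin (n + 1) → (ℕ → L)[X][X]}
    {A Q T W : ℕ → L[X][X]} {B : ℕ → Fin (n + 1) → L[X][X]} {ξ : ℕ → Fin (n + 1) → L}
    (hA : ∀ N, m2 (Pi.evalRingHom (fun _ => L) N) A' = A N)
    (hQ : ∀ N, m2 (Pi.evalRingHom (fun _ => L) N) Q' = Q N)
    (hT : ∀ N, m2 (Pi.evalRingHom (fun _ => L) N) T' = T N)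
    (hW : ∀ N, m2 (Pi.evalRingHom (fun _ => L) N) W' = W N)
    (hB : ∀ j N, m2 (Pi.evalRingHom (fun _ => L) N) (B' j) = B N j)
    (h : ∀ N, ∑ j, C (C (ξ N j)) * B N j - T N * W N = A N * Q N) :
    ∑ j, C (C (germHom (fun N => ξ N j))) * m2 germHom (B' j)
      - m2 germHom T' * m2 germHom W' = m2 germHom A' * m2 germHom Q' := by
  have h1 : ∑ j, C (C (fun N => ξ N j)) * B' j - T' * W' = A' * Q' := by
    apply seqPoly_ext
    intro N
    rw [map_sub, map_sum, map_mul, map_mul, hA, hQ, hT, hW, ← h N]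
    congr 1
    refine Finset.sum_congr rfl fun j _ => ?_
    rw [map_mul, m2_CC, hB]
    rfl
  have h2 := congrArg (m2 germHom) h1
  rw [map_sub, map_sum, map_mul, map_mul] at h2
  rw [← h2]
  congr 1
  refine Finset.sum_congr rfl fun j _ => ?_
  rw [map_mul, m2_CC]

private theorem y57_ev {P' : (ℕ → L)[X][X]} {P : ℕ → L[X][X]}
    (hP : ∀ N, m2 (Pi.evalRingHom (fun _ => L) N) P' = P N) (u v : ℕ → L) :
    P'.evalEval u v = fun N => (P N).evalEval (u N) (v N) := by
  funext N
  have h1 := m2_evalEval (Pi.evalRingHom (fun _ => L) N) P' u v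
  rw [hP] at h1
  exact h1.symm

private theorem y57_zero {P' : (ℕ → L)[X][X]} {P : ℕ → L[X][X]}
    (hP : ∀ N, m2 (Pi.evalRingHom (fun _ => L) N) P' = P N) {u v : ℕ → L}
    (h : (m2 germHom P').evalEval (germHom u) (germHom v) = 0) :
    ∀ᶠ N in (Filter.hyperfilter ℕ : Filter ℕ), (P N).evalEval (u N) (v N) = 0 := by
  rw [m2_evalEval, y57_ev hP, germHom_eq_zero_iff] at h
  exact h

private theorem y57_ne {P' : (ℕ → L)[X][X]} {P : ℕ → L[X][X]}
    (hP : ∀ N, m2 (Pi.evalRingHom (fun _ => L) N) P' = P N) {u v : ℕ → L}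
    (h : (m2 germHom P').evalEval (germHom u) (germHom v) ≠ 0) :
    ∀ᶠ N in (Filter.hyperfilter ℕ : Filter ℕ), (P N).evalEval (u N) (v N) ≠ 0 := by
  rw [m2_evalEval, y57_ev hP, Ne, germHom_eq_zero_iff] at h
  exact Ultrafilter.eventually_not.2 h

/-- certificates do not depend on the scaling of the point -/
theorem CertL.smul_of {n d b : ℕ} {a : (Fin (n + 1) →₀ ℕ) → L}
    {x : Fin (n + 1) → L} (h : CertL d a b x) {r : L} (hr : r ≠ 0) :
    CertL d a b (fun j => r * x j) := by
  -- as `Cert.smul_of` (file MP_44a246_ntS/SQ1c.lean)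
  obtain ⟨A, W, B, ξ₀, ξ₁, ξ₂, c, y₁, y, h1, h2, h3, h4, h5, h6⟩ := h
  have hx : ∀ j, c * x j = (c * r⁻¹) * (r * x j) := by
    intro j
    field_simp
  simp only [hx] at h6
  exact ⟨A, W, B, ξ₀, ξ₁, ξ₂, c * r⁻¹, y₁, y, h1, h2, h3, h4,
    mul_ne_zero h5 (inv_ne_zero hr), h6⟩

/-- **Ultraproducts of certificates are certificates.** -/
theorem certL_germ {n d b : ℕ} {a : (Fin (n + 1) →₀ ℕ) → L} {x : ℕ → Fin (n + 1) → L}
    (h : ∀ N, CertL d a b (x N)) :
    CertL d (fun I => constHom (a I)) b (fun j => germHom (fun N => x N j)) := by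
  -- As `cert_germ` (file MP_44a246_ntS/SQ2b.lean), with the general denominator `W`, irreducibility
  -- by `irreducible_germ` (the derivative of the germ `A` does not vanish at the point, so its
  -- degree is not zero). The last clause: let `E` be a finite set of points over the ultrapower;
  -- lift the coordinates of its points to sequences; for almost all `N` they satisfy the four
  -- conditions for `A N`, `W N`, `B N` (`germHom_eq_zero_iff`, `FB` of the germs is the germ of
  -- `FB` as in `m2_FB`) and are different (finitely many pairs), so the number of points is at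
  -- most `2 m + m (m - 1) / 2` with `m = (A N).natDegree`, and
  -- `(A N).natDegree ≤ (m2 germHom A').natDegree` for almost all `N` (`natDegree_le_germ`).
  classical
  choose A W B ξ₀ ξ₁ ξ₂ c y₁ y hirr hA hW hB hc hξ₀ hξ₁ hξ₂ hAy hdA hWy hval hl₀ hl₁ hl₂ hE
    using h
  have hAne : ∀ N, A N ≠ 0 := fun N => (hirr N).ne_zero
  have hbox1 : Box 1 (1 : L[X][X]) := by
    refine ⟨by simp, fun i => ?_⟩
    rw [coeff_one]
    split_ifs <;> simp
  have hboxCX : Box 1 (C X : L[X][X]) := by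
    refine ⟨by simp, fun i => ?_⟩
    rw [coeff_C]
    split_ifs <;> simp
  have hboxX : Box 1 (X : L[X][X]) := by
    refine ⟨by simp, fun i => ?_⟩
    rw [coeff_X]
    split_ifs <;> simp
  have e1 : ∀ N, ∃ Q, ∑ j, C (C (ξ₀ N j)) * B N j - 1 * W N = A N * Q ∧
      Box (b + 1) Q := fun N =>
    dvd_box (hAne N) (by rw [one_mul]; exact hl₀ N) (y57_box_lin (hB N) (hW N) hbox1 (ξ₀ N))
  have e2 : ∀ N, ∃ Q, ∑ j, C (C (ξ₁ N j)) * B N j - C X * W N = A N * Q ∧
      Box (b + 1) Q := fun N =>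
    dvd_box (hAne N) (hl₁ N) (y57_box_lin (hB N) (hW N) hboxCX (ξ₁ N))
  have e3 : ∀ N, ∃ Q, ∑ j, C (C (ξ₂ N j)) * B N j - X * W N = A N * Q ∧
      Box (b + 1) Q := fun N =>
    dvd_box (hAne N) (hl₂ N) (y57_box_lin (hB N) (hW N) hboxX (ξ₂ N))
  choose Q1 hQ1 bQ1 using e1
  choose Q2 hQ2 bQ2 using e2
  choose Q3 hQ3 bQ3 using e3
  obtain ⟨A', hA', hA'1, hA'2⟩ := exists_seqPoly A hA
  obtain ⟨W', hW', hW'1, hW'2⟩ := exists_seqPoly W hW
  have eB : ∀ j, ∃ P' : (ℕ → L)[X][X], (∀ N, m2 (Pi.evalRingHom (fun _ => L) N) P' = B N j) ∧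
      P'.natDegree ≤ b ∧ ∀ i, (P'.coeff i).natDegree ≤ b := fun j =>
    exists_seqPoly (fun N => B N j) (fun N => hB N j)
  choose B' hB' hB'1 hB'2 using eB
  obtain ⟨Q1', hQ1', -, -⟩ := exists_seqPoly Q1 bQ1
  obtain ⟨Q2', hQ2', -, -⟩ := exists_seqPoly Q2 bQ2
  obtain ⟨Q3', hQ3', -, -⟩ := exists_seqPoly Q3 bQ3
  have hdA' : ∀ N, m2 (Pi.evalRingHom (fun _ => L) N) (derivative A') = derivative (A N) := by
    intro N
    rw [m2_derivative, hA']
  obtain ⟨F', hF'def⟩ : ∃ F' : (ℕ → L)[X][X], F' =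
      ∑ I ∈ expo (Fin (n + 1)) d, C (C (fun _ : ℕ => a I)) * ∏ j, B' j ^ I j := ⟨_, rfl⟩
  have hF' : ∀ N, m2 (Pi.evalRingHom (fun _ => L) N) F' = FB d a (B N) := by
    intro N
    rw [hF'def, map_sum]
    unfold FB
    refine Finset.sum_congr rfl fun I _ => ?_
    rw [map_mul, m2_CC, map_prod]
    congr 1
    refine Finset.prod_congr rfl fun j _ => ?_
    rw [map_pow, hB']
  have hF'g : m2 germHom F' = FB d (fun I => constHom (a I)) (fun j => m2 germHom (B' j)) := by
    rw [hF'def, map_sum]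
    unfold FB
    refine Finset.sum_congr rfl fun I _ => ?_
    rw [map_mul, m2_CC, map_prod]
    congr 1
    refine Finset.prod_congr rfl fun j _ => ?_
    rw [map_pow]
  have hdAg : (derivative (m2 germHom A')).evalEval (germHom y₁) (germHom y) ≠ 0 := by
    rw [← m2_derivative, m2_evalEval, y57_ev hdA']
    exact germ_ne_zero hdA
  have hdeg : (m2 germHom A').natDegree ≠ 0 := by
    intro h0
    apply hdAg
    rw [derivative_of_natDegree_zero h0]
    simp
  refine ⟨m2 germHom A', m2 germHom W', fun j => m2 germHom (B' j),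
    fun j => germHom (fun N => ξ₀ N j),
    fun j => germHom (fun N => ξ₁ N j), fun j => germHom (fun N => ξ₂ N j), germHom c,
    germHom y₁, germHom y, irreducible_germ (fun N => by rw [hA' N]; exact hirr N) hdeg,
    box_germ hA'1 hA'2, box_germ hW'1 hW'2, fun j => box_germ (hB'1 j) (hB'2 j),
    germ_ne_zero hc, ?_, seq_scal hξ₁, seq_scal hξ₂, ?_, hdAg, ?_, ?_, ?_, ?_, ?_, ?_⟩
  · have h1 := seq_scal (y := fun _ => (1 : L)) hξ₀
    rw [h1]
    exact map_one germHom
  · rw [m2_evalEval, y57_ev hA']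
    have h1 : (fun N => (A N).evalEval (y₁ N) (y N)) = 0 := funext hAy
    rw [h1, map_zero]
  · rw [m2_evalEval, y57_ev hW']
    exact germ_ne_zero hWy
  · intro j
    rw [m2_evalEval, m2_evalEval, y57_ev hW', y57_ev (hB' j), ← map_mul, ← map_mul]
    congr 1
    funext N
    exact hval N j
  · refine ⟨m2 germHom Q1', ?_⟩
    have h1 := y57_lin (T := fun _ => 1) (T' := 1) hA' hQ1' (fun N => map_one _) hW' hB' hQ1
    rwa [map_one, one_mul] at h1
  · refine ⟨m2 germHom Q2', ?_⟩
    have h1 := y57_lin (T := fun _ => C X) (T' := C X) hA' hQ2' (fun N => m2_CX _) hW' hB' hQ2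
    rwa [m2_CX] at h1
  · refine ⟨m2 germHom Q3', ?_⟩
    have h1 := y57_lin (T := fun _ => X) (T' := X) hA' hQ3' (fun N => m2_X _) hW' hB' hQ3
    rwa [m2_X] at h1
  · intro E hEp
    have hlift : ∀ p : UP L × UP L, ∃ u v : ℕ → L, p = (germHom u, germHom v) := by
      rintro ⟨p1, p2⟩
      obtain ⟨u, rfl⟩ := germHom_surjective p1
      obtain ⟨v, rfl⟩ := germHom_surjective p2
      exact ⟨u, v, rfl⟩
    choose u v huv using hlift
    have c1 : ∀ᶠ N in (Filter.hyperfilter ℕ : Filter ℕ), ∀ p ∈ E,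
        (A N).evalEval (u p N) (v p N) = 0 ∧
        (derivative (A N)).evalEval (u p N) (v p N) ≠ 0 ∧
        (W N).evalEval (u p N) (v p N) ≠ 0 ∧
        (FB d a (B N)).evalEval (u p N) (v p N) = 0 := by
      rw [Filter.eventually_all_finset]
      intro p hp
      obtain ⟨g1, g2, g3, g4⟩ := hEp p hp
      have e1 : p.1 = germHom (u p) := congrArg Prod.fst (huv p)
      have e2 : p.2 = germHom (v p) := congrArg Prod.snd (huv p)
      rw [e1, e2] at g1 g2 g3 g4
      rw [← m2_derivative] at g2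
      rw [← hF'g] at g4
      filter_upwards [y57_zero hA' g1, y57_ne hdA' g2, y57_ne hW' g3, y57_zero hF' g4] with N
        k1 k2 k3 k4
      exact ⟨k1, k2, k3, k4⟩
    have c2 : ∀ᶠ N in (Filter.hyperfilter ℕ : Filter ℕ), ∀ p ∈ E, ∀ q ∈ E, p ≠ q →
        (u p N, v p N) ≠ (u q N, v q N) := by
      rw [Filter.eventually_all_finset]
      intro p _
      rw [Filter.eventually_all_finset]
      intro q _
      by_cases hpq : p = q
      · exact Filter.Eventually.of_forall fun N hne => absurd hpq hne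
      · have h1 : ∀ᶠ N in (Filter.hyperfilter ℕ : Filter ℕ),
            ¬ ((u p N, v p N) = (u q N, v q N)) := by
          rw [Ultrafilter.eventually_not]
          intro h2
          apply hpq
          have h3 : germHom (u p) = germHom (u q) := by
            rw [germHom_eq_iff]
            exact h2.mono fun N hN => (Prod.ext_iff.1 hN).1
          have h4 : germHom (v p) = germHom (v q) := by
            rw [germHom_eq_iff]
            exact h2.mono fun N hN => (Prod.ext_iff.1 hN).2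
          rw [huv p, huv q, h3, h4]
        exact h1.mono fun N hN _ => hN
    obtain ⟨N, d1, d2, d3⟩ := (c1.and (c2.and (natDegree_le_germ A'))).exists
    rw [hA' N] at d3
    have hcard : (E.image fun p => (u p N, v p N)).card = E.card := by
      apply Finset.card_image_of_injOn
      intro p hp q hq hpq
      by_contra hne
      exact d2 p hp q hq hne hpq
    have h5 := hE N (E.image fun p => (u p N, v p N)) (by
      intro r hr
      obtain ⟨p, hp, rfl⟩ := Finset.mem_image.1 hr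
      exact d1 p hp)
    rw [hcard] at h5
    refine h5.trans (add_le_add (Nat.mul_le_mul_left 2 d3) (Nat.div_le_div_right ?_))
    exact Nat.mul_le_mul d3 (Nat.sub_le_sub_right d3 1)

end Pool.Agent.Lib.MP_44a246_ntY
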