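import Mathlib
import Pool.Agent.Lib.MP_44a246_ntS.SQ3
import Pool.Agent.Lib.MP_44a246_ntS.SQ3b
import Pool.Agent.Lib.MP_44a246_ntS.SQ4
import Pool.Agent.Lib.MP_44a246_ntY.Y55
import Pool.Agent.Lib.MP_44a246_ntY.Y57

/-!
Compactness: the points of the projective space on curves of small degree which meet a generic
hypersurface in few points lie on a proper closed subset.
-/

namespace Pool.Agent.Lib.MP_44a246_ntY

open Pool.Agent.Lib.MP_e52354_nt
open Pool.Agent.Lib.MP_44a246_nt
open Pool.Agent.Lib.MP_44a246_ntL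
open Pool.Agent.Lib.MP_44a246_ntS
open MvPolynomial

universe u v

/-- Homogenisation. -/
theorem exists_homog' {K : Type*} [Field K] {n : ℕ} {g : MvPolynomial (Fin n) K}
    (hg : g ≠ 0) :
    ∃ (e : ℕ) (G : MvPolynomial (Fin (n + 1)) K), G.IsHomogeneous e ∧ G ≠ 0 ∧
      ∀ {L : Type*} [Field L] [Algebra K L] (x : Fin (n + 1) → L),
        (x 0 ≠ 0 → aeval (fun j : Fin n => x j.succ / x 0) g = 0) →
          aeval x G = 0 := by
  -- as `exists_homog` (file MP_44a246_ntS/SQ4.lean) with `φ = Fin.succ`
  classical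
  set N := g.totalDegree with hN
  let φ : Fin n → Fin (n + 1) := Fin.succ
  have hφ : Function.Injective φ := Fin.succ_injective n
  have hφ0 : ∀ j, φ j ≠ 0 := fun j => Fin.succ_ne_zero j
  let E : (Fin n →₀ ℕ) → (Fin (n + 1) →₀ ℕ) := fun u =>
    Finsupp.mapDomain φ u + Finsupp.single 0 (N + 1 - u.degree)
  have hE1 : ∀ u j, E u (φ j) = u j := by
    intro u j
    simp only [E, Finsupp.add_apply, Finsupp.mapDomain_apply hφ]
    rw [Finsupp.single_eq_of_ne (hφ0 j), add_zero]
  have hEinj : Function.Injective E := by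
    intro u u' h
    ext j
    rw [← hE1, ← hE1 u', h]
  have hdeg : ∀ u ∈ g.support, u.degree ≤ N := fun u hu => le_totalDegree hu
  have hEd : ∀ u ∈ g.support, (E u).degree = N + 1 := by
    intro u hu
    have h1 := hdeg u hu
    have h2 : (Finsupp.mapDomain φ u).degree = u.degree := by
      rw [Finsupp.degree_mapDomain]
    simp only [E, map_add, h2, Finsupp.degree_single]
    omega
  refine ⟨N + 1, ∑ u ∈ g.support, monomial (E u) (g.coeff u), ?_, ?_, ?_⟩
  · refine IsHomogeneous.sum _ _ _ fun u hu => ?_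
    exact isHomogeneous_monomial _ (hEd u hu)
  · obtain ⟨u₀, hu₀⟩ := (support_nonempty (p := g)).2 hg
    intro h0
    have h1 := congrArg (coeff (E u₀)) h0
    rw [coeff_sum, Finset.sum_eq_single u₀] at h1
    · rw [coeff_monomial, if_pos rfl, coeff_zero] at h1
      exact mem_support_iff.1 hu₀ h1
    · intro u _ hu
      rw [coeff_monomial, if_neg fun h => hu (hEinj h)]
    · intro h
      exact absurd hu₀ h
  · intro L _ _ x hx
    rw [map_sum]
    have hterm : ∀ u, aeval x (monomial (E u) (g.coeff u)) =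
        algebraMap K L (g.coeff u) * ((u.prod fun j k => x (φ j) ^ k) * x 0 ^ (N + 1 - u.degree)) := by
      intro u
      rw [aeval_monomial, Finsupp.prod_add_index', Finsupp.prod_mapDomain_index,
        Finsupp.prod_single_index]
      · exact pow_zero _
      · exact fun _ => pow_zero _
      · exact fun _ _ _ => pow_add _ _ _
      · exact fun _ => pow_zero _
      · exact fun _ _ _ => pow_add _ _ _
    rcases eq_or_ne (x 0) 0 with h0 | h0
    · refine Finset.sum_eq_zero fun u hu => ?_
      have h1 := hdeg u hu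
      rw [hterm, h0, zero_pow (by omega), mul_zero, mul_zero]
    · have h1 := hx h0
      rw [aeval_def, eval₂_eq] at h1
      have h2 : ∀ u ∈ g.support, aeval x (monomial (E u) (g.coeff u)) =
          x 0 ^ (N + 1) * (algebraMap K L (g.coeff u) *
            ∏ j ∈ u.support, (x (φ j) / x 0) ^ u j) := by
        intro u hu
        have h3 := hdeg u hu
        have h4 : x 0 ^ (N + 1) = x 0 ^ (N + 1 - u.degree) * ∏ j ∈ u.support, x 0 ^ u j := by
          rw [Finset.prod_pow_eq_pow_sum, ← pow_add]
          congr 1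
          have : ∑ j ∈ u.support, u j = u.degree := rfl
          rw [this]
          omega
        rw [hterm, h4, Finsupp.prod]
        have h5 : ∏ j ∈ u.support, x (φ j) ^ u j =
            (∏ j ∈ u.support, x 0 ^ u j) * ∏ j ∈ u.support, (x (φ j) / x 0) ^ u j := by
          rw [← Finset.prod_mul_distrib]
          refine Finset.prod_congr rfl fun j _ => ?_
          rw [← mul_pow, mul_div_cancel₀ _ h0]
        rw [h5]
        ring
      rw [Finset.sum_congr rfl h2, ← Finset.mul_sum]
      have h6 : ∑ u ∈ g.support, (algebraMap K L (g.coeff u) *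
            ∏ j ∈ u.support, (x (φ j) / x 0) ^ u j) = 0 := h1
      rw [h6, mul_zero]

/-- **Compactness.** -/
theorem exists_exceptionalL {K : Type u} {L : Type v} [Field K] [Field L] [CharZero K] [CharZero L]
    [Algebra K L] [IsAlgClosed L] {m d b : ℕ} (hd : m + 5 + 7 * b ≤ d)
    {a : (Fin (m + 3) →₀ ℕ) → K}
    (ha : AlgebraicIndependent ℚ (fun I : {I // I ∈ expo (Fin (m + 3)) d} => a I.1)) :
    ∃ (e : ℕ) (G : MvPolynomial (Fin (m + 3)) K), G.IsHomogeneous e ∧ G ≠ 0 ∧
      ∀ x : Fin (m + 3) → L, CertL (n := m + 2) d (fun I => algebraMap K L (a I)) b x →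
        MvPolynomial.aeval x G = 0 := by
  classical
  set S : Set (Fin (m + 2) → L) := {z | ∃ x : Fin (m + 3) → L,
    CertL (n := m + 2) d (fun I => algebraMap K L (a I)) b x ∧ x 0 = 1 ∧
      ∀ j : Fin (m + 2), z j = x j.succ} with hS
  have key : ∃ g : MvPolynomial (Fin (m + 2)) K, g ≠ 0 ∧ ∀ z ∈ S, MvPolynomial.aeval z g = 0 := by
    by_contra hcon
    push Not at hcon
    have hfin : Finite {I // I ∈ expo (Fin (m + 3)) d} := inferInstance
    obtain ⟨z, hzS, hz⟩ := exists_generic_seq (L := L) ha (S := S) fun g hg => by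
      obtain ⟨z, hz1, hz2⟩ := hcon g hg
      exact ⟨z, hz1, hz2⟩
    choose x hx1 hx2 hx3 using hzS
    have hcg := certL_germ hx1
    have hcU : CharZero (UP L) := charZero_of_injective_ringHom (constHom (L := L)).injective
    have hac : IsAlgClosed (UP L) := isAlgClosed_UP L
    have hx0 : germHom (fun N => x N 0) = 1 := by
      have : (fun N => x N 0) = 1 := funext fun N => hx2 N
      rw [this, map_one]
    refine no_certL_closed hd ?_ ?_ hcg
    · show germHom (fun N => x N 0) ≠ 0
      rw [hx0]
      exact one_ne_zero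
    · have h1 := algIndep_germ (RingHom.id (UP L))
        (z := fun N => Sum.elim (fun I : {I // I ∈ expo (Fin (m + 3)) d} => algebraMap K L (a I.1))
          (z N)) hz
      convert h1 using 1
      funext i
      rcases i with i | i
      · rfl
      · show germHom (fun N => x N i.succ) / germHom (fun N => x N 0) =
          germHom (fun N => z N i)
        rw [hx0, div_one]
        congr 1
        funext N
        exact (hx3 N i).symm
  obtain ⟨g, hg0, hg⟩ := key
  obtain ⟨e, G, hG1, hG2, hG4⟩ := exists_homog' hg0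
  refine ⟨e, G, hG1, hG2, fun x hx => hG4 x fun hx0 => ?_⟩
  refine hg _ ⟨fun k => (x 0)⁻¹ * x k, hx.smul_of (inv_ne_zero hx0), inv_mul_cancel₀ hx0, fun j => ?_⟩
  exact div_eq_inv_mul _ _

end Pool.Agent.Lib.MP_44a246_ntY
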