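import Mathlib
import Pool.Agent.Lib.MP_44a246_ntX.XP3
import Pool.Agent.Lib.MP_44a246_ntG.G1

/-!
The data over a finite extension, for an arbitrary point.
-/

namespace Pool.Agent.Lib.MP_44a246_ntY

open Pool.Agent.Lib.MP_44a246_nt
open Pool.Agent.Lib.MP_44a246_ntL
open Pool.Agent.Lib.MP_44a246_ntV
open Pool.Agent.Lib.MP_44a246_ntS
open Pool.Agent.Lib.MP_44a246_ntX
open Pool.Agent.Lib.MP_44a246_ntG
open Pool.Agent.Lib.MP_e52354_nt
open WithZero

universe u v w

section

variable {κ : Type u} {K : Type v} [Field κ] [IsAlgClosed κ] [CharZero κ] [Field K] [CharZero K]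
  [Algebra κ K] {n d : ℕ} (X : BaseD κ K n d)
  {L : Type w} [Field L] [Algebra K L] [FiniteDimensional K L] [Algebra κ L]
  [IsScalarTower κ K L]

private theorem y60_vmax {L : Type*} [Field L] (v : Valuation L ℤᵐ⁰) {σ : Type*} [Fintype σ] (c : L)
    (x : σ → L) : vmax v (fun j => c * x j) ≤ v c * vmax v x := by
  refine vmax_le v fun j => ?_
  rw [map_mul]
  exact mul_le_mul' le_rfl (le_vmax v x j)

/-- **The data over a finite extension, for an arbitrary point.** -/
theorem exists_datG (hK : IsFF κ K) {x : Fin (n + 1) → L} (hx : x ≠ 0) :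
    ∃ (Y : DatG κ (L := L) n d) (c : L), c ≠ 0 ∧ Y.a = (fun I => algebraMap K L (X.a I)) ∧
      Y.x = (fun j => c * x j) ∧
      (Y.δ = fun w => ramIdx K w.1 * X.B (below K w)) ∧ Y.ρ = fun w => ramIdx K w.1 - 1 := by
  classical
  have hL : IsFF κ L := hK.of_finite
  obtain ⟨ξ₀, ξ₁, h0, h1⟩ := exists_forms hL hx
  choose D' hD' using fun I => exists_extension (L := L) (X.D I)
  choose E' hE' using fun b => exists_extension (L := L) (X.E b)
  set s : L := ∑ j, (ξ₀ j : L) * x j with hs
  have hfin0 : (⋃ j : Fin (n + 1), {b | E' b (s⁻¹ * x j) ≠ 0}).Finite :=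
    Set.finite_iUnion fun j => finite_moving X E' hE' (s⁻¹ * x j)
  have hfin := hfin0.union (finite_pole X hK hE')
  have := X.hinf
  let e : ℕ ↪ ↥((⋃ j : Fin (n + 1), {b | E' b (s⁻¹ * x j) ≠ 0}) ∪
    {b | ¬ PoleBound κ (E' b) (fun w : Place κ L => ramIdx K w.1 * X.B (below K w))})ᶜ :=
    hfin.infinite_compl.natEmbedding
  have hker : ∀ (m : ℕ) (j : Fin (n + 1)), E' (e m).1 (s⁻¹ * x j) = 0 := by
    intro m j
    have h2 := (e m).2
    rw [Set.mem_compl_iff, Set.mem_union, not_or, Set.mem_iUnion, not_exists] at h2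
    have h3 := h2.1 j
    exact not_not.mp h3
  have hpole : ∀ m : ℕ, PoleBound κ (E' (e m).1)
      (fun w : Place κ L => ramIdx K w.1 * X.B (below K w)) := by
    intro m
    have h2 := (e m).2
    rw [Set.mem_compl_iff, Set.mem_union, not_or] at h2
    exact not_not.mp h2.2
  have hext : ∀ i j : ℕ, (e i).1 = (e j).1 → i = j := fun i j h2 => e.injective (Subtype.ext h2)
  have hsum : ∀ ξ : Fin (n + 1) → ℕ, ∑ j, (ξ j : L) * (s⁻¹ * x j) = s⁻¹ * ∑ j, (ξ j : L) * x j := by
    intro ξ
    rw [Finset.mul_sum]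
    exact Finset.sum_congr rfl fun j _ => by ring
  have hfs1 : (Function.support fun w : Place κ L => ramIdx K w.1 * X.B (below K w)).Finite := by
    refine (mason_sum_over (L := L) hL X.hB).1.subset ?_
    intro w hw
    rw [Function.mem_support] at hw ⊢
    exact_mod_cast hw
  have hfs2 : (Function.support fun w : Place κ L => ramIdx K w.1 - 1).Finite := by
    refine (mason_sum_ram (K := K) hL).1.subset ?_
    intro w hw
    rw [Function.mem_support] at hw ⊢
    exact_mod_cast hw
  refine ⟨{ a := fun I => algebraMap K L (X.a I)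
            D := D'
            δ := fun w => ramIdx K w.1 * X.B (below K w)
            ρ := fun w => ramIdx K w.1 - 1
            x := fun j => s⁻¹ * x j
            z := fun j => X.z (e j).1
            E := fun j => E' (e j).1
            ξ₀ := ξ₀
            ξ₁ := ξ₁
            hDa := ?_
            hδ := hfs1
            hρ := hfs2
            hD := minor_over hK (fun I hI => X.hD I hI) hD'
            hE := fun j => hpole j
            hEz := ?_
            hEx := fun i j => hker i j
            h0 := ?_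
            hmax := ?_ }, s⁻¹, inv_ne_zero h0, rfl, rfl, rfl, rfl⟩
  · intro I hI J hJ
    rw [hD', X.hDa I hI J hJ]
    split_ifs <;> simp
  · intro i j
    rw [IsScalarTower.algebraMap_apply κ K L, hE']
    by_cases hij : i = j
    · rw [if_pos hij, hij, (X.hEz _ _).1 rfl, map_one]
    · rw [if_neg hij, (X.hEz _ _).2 (fun h2 => hij (Fin.ext (hext _ _ h2))), map_zero]
  · rw [hsum, ← hs, inv_mul_cancel₀ h0]
  · intro w
    rw [hsum]
    have h2 : w.1 s ≠ 0 := (Valuation.ne_zero_iff _).mpr h0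
    refine (y60_vmax w.1 s⁻¹ x).trans ?_
    rw [map_mul, map_inv₀]
    calc (w.1 s)⁻¹ * vmax w.1 x ≤ (w.1 s)⁻¹ * max (w.1 s) (w.1 (∑ j, (ξ₁ j : L) * x j)) :=
          mul_le_mul' le_rfl (h1 w)
      _ = max 1 ((w.1 s)⁻¹ * w.1 (∑ j, (ξ₁ j : L) * x j)) := by
          rw [mul_max, inv_mul_cancel₀ h2]

end

end Pool.Agent.Lib.MP_44a246_ntY
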