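import Mathlib
import Pool.Agent.Lib.MP_44a246_ntS.SR2b
import Pool.Agent.Lib.MP_44a246_ntS.SR3c
import Pool.Agent.Lib.MP_44a246_ntY.Y60
import Pool.Agent.Lib.MP_44a246_ntY.Y57
import Pool.Agent.Lib.MP_44a246_ntY.Y64

/-!
The theorem over the base field, with a certificate.
-/

namespace Pool.Agent.Lib.MP_44a246_ntY

open Pool.Agent.Lib.MP_44a246_nt
open Pool.Agent.Lib.MP_44a246_ntL
open Pool.Agent.Lib.MP_44a246_ntV
open Pool.Agent.Lib.MP_44a246_ntS
open Pool.Agent.Lib.MP_44a246_ntG
open Pool.Agent.Lib.MP_e52354_nt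
open WithZero Module

universe u v w x

/-- the places outside of `S` at which the value of the form of degree `d` with the coefficients
`a` at the point `x` is smaller than expected -/
def ZS (κ : Type*) {K L : Type*} [Field κ] [Field K] [Algebra κ K] [Field L] [Algebra κ L]
    [Algebra K L] [IsScalarTower κ K L] [FiniteDimensional K L] (S : Set (Place κ K))
    {n : ℕ} (d : ℕ) (a : (Fin (n + 1) →₀ ℕ) → L)
    (x : Fin (n + 1) → L) : Set (Place κ L) :=
  {w | below K w ∉ S ∧ w.1 (Fval d a x) < vmax w.1 x ^ d}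

section

variable {κ : Type u} {K : Type v} {L : Type w} [Field κ] [IsAlgClosed κ] [CharZero κ] [Field K]
  [Algebra κ K] [Field L] [Algebra κ L]
  [Algebra K L] [IsScalarTower κ K L] [FiniteDimensional K L]

theorem ZS_finite (hL : IsFF κ L) (S : Set (Place κ K)) {n : ℕ} (d : ℕ)
    (a : (Fin (n + 1) →₀ ℕ) → L) {x : Fin (n + 1) → L} (hx : Fval d a x ≠ 0) :
    (ZS κ S d a x).Finite := by
  by_cases hx0 : x = 0
  · refine (hL.place_finite hx).subset fun w hw h1 => ?_
    have h2 := hw.2
    rw [h1, hx0, (vmax_eq_zero_iff w.1).2 rfl] at h2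
    exact absurd h2 (not_lt.2 (pow_le_one' zero_le_one d))
  · refine ((hL.vmax_finite hx0).union (hL.place_finite hx)).subset fun w hw => ?_
    by_contra hcon
    simp only [Set.mem_union, Set.mem_setOf_eq, not_or, not_not] at hcon
    have h2 := hw.2
    rw [hcon.1, hcon.2, one_pow] at h2
    exact lt_irrefl _ h2

omit [IsAlgClosed κ] [CharZero κ] [Field κ] [Field K] [Algebra κ K] [Algebra κ L] [Algebra K L]
  [IsScalarTower κ K L] [FiniteDimensional K L] in
private theorem vmax_mul_aux {n : ℕ} (v : Valuation L ℤᵐ⁰) (c : L) (y : Fin (n + 1) → L) :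
    vmax v (fun j => c * y j) = v c * vmax v y := by
  apply le_antisymm
  · refine Finset.sup_le fun j _ => ?_
    rw [map_mul]
    exact mul_le_mul' le_rfl (Finset.le_sup (f := fun j => v (y j)) (Finset.mem_univ j))
  · obtain ⟨j, -, hj⟩ := Finset.exists_max_image (Finset.univ : Finset (Fin (n + 1)))
      (fun j => v (y j)) Finset.univ_nonempty
    have h1 : vmax v y = v (y j) :=
      le_antisymm (Finset.sup_le hj) (Finset.le_sup (f := fun j => v (y j)) (Finset.mem_univ j))
    rw [h1, ← map_mul]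
    exact Finset.le_sup (f := fun j => v (c * y j)) (Finset.mem_univ j)

theorem ZS_smul (S : Set (Place κ K)) {n : ℕ} (d : ℕ)
    (a : (Fin (n + 1) →₀ ℕ) → L) (x : Fin (n + 1) → L) {c : L} (hc : c ≠ 0) :
    ZS κ S d a (fun j => c * x j) = ZS κ S d a x := by
  ext w
  simp only [ZS, Set.mem_setOf_eq]
  have h1 : w.1 c ≠ 0 := (Valuation.ne_zero_iff _).2 hc
  have h2 : (0 : ℤᵐ⁰) < w.1 c ^ d := zero_lt_iff.2 (pow_ne_zero _ h1)
  rw [Fval_smul, vmax_mul_aux, map_mul, map_pow, mul_pow]
  refine and_congr Iff.rfl ?_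
  constructor
  · intro h
    by_contra hcon
    exact absurd h (not_lt.2 (mul_le_mul' le_rfl (not_lt.1 hcon)))
  · intro h
    exact (mul_lt_mul_iff_right₀ h2).2 h

/-- the places over a finite set -/
theorem sum_over_S (hL : IsFF κ L) (S : Finset (Place κ K)) :
    ∃ σ : Place κ L → ℕ, (Function.support σ).Finite ∧ (∀ w, below K w ∈ S → 1 ≤ σ w) ∧
      ∑ᶠ w, (σ w : ℤ) = S.card * finrank K L := by
  classical
  have hB : (Function.support fun v : Place κ K => if v ∈ S then 1 else 0).Finite := by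
    refine S.finite_toSet.subset fun v hv => ?_
    by_contra h0
    exact hv (if_neg h0)
  obtain ⟨h1, h2⟩ := mason_sum_over (K := K) hL (B := fun v : Place κ K => if v ∈ S then 1 else 0)
    (by exact hB)
  refine ⟨fun w => ramIdx K w.1 * (if below K w ∈ S then 1 else 0), ?_, fun w hw => ?_, ?_⟩
  · refine h1.subset fun w hw h0 => hw ?_
    exact Int.natCast_eq_zero.1 h0
  · show 1 ≤ ramIdx K w.1 * (if below K w ∈ S then 1 else 0)
    rw [if_pos hw, mul_one]
    exact one_le_ramIdx w.1 w.2.1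
  · rw [h2]
    congr 1
    rw [finsum_eq_sum_of_support_subset (s := S) _ (by
      intro v hv
      by_contra h0
      exact hv (if_neg h0))]
    rw [Finset.sum_ite_mem, Finset.inter_self, Finset.card_eq_sum_ones]

/-- the value of the form is not larger than expected outside of the poles of the coefficients -/
theorem Fval_le {n d : ℕ} {a : (Fin (n + 1) →₀ ℕ) → L} {α : Place κ L → ℕ}
    (ha : ∀ I ∈ expo (Fin (n + 1)) d, ∀ w : Place κ L, w.1 (a I) ≤ exp (α w : ℤ))
    (x : Fin (n + 1) → L) (w : Place κ L) (hw : α w = 0) :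
    w.1 (Fval d a x) ≤ vmax w.1 x ^ d := by
  unfold Fval
  refine Valuation.map_sum_le _ fun I hI => ?_
  rw [map_mul]
  have h1 : w.1 (a I) ≤ 1 := by
    have h2 := ha I hI w
    rw [hw, Nat.cast_zero, exp_zero] at h2
    exact h2
  have h3 : w.1 (mon x I) ≤ vmax w.1 x ^ d := by
    have h4 : I.degree = d := mem_expo.1 hI
    unfold mon
    rw [map_prod]
    calc ∏ j, w.1 (x j ^ I j) ≤ ∏ j, vmax w.1 x ^ I j := by
          refine Finset.prod_le_prod' fun j _ => ?_
          rw [map_pow]
          exact pow_le_pow_left' (Finset.le_sup (f := fun j => w.1 (x j)) (Finset.mem_univ j)) _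
      _ = vmax w.1 x ^ d := by
          rw [Finset.prod_pow_eq_pow_sum, ← Finsupp.degree_eq_sum, h4]
  calc w.1 (a I) * w.1 (mon x I) ≤ 1 * vmax w.1 x ^ d := mul_le_mul' h1 h3
    _ = vmax w.1 x ^ d := one_mul _

end

/-- **The theorem over the base field**, with a certificate. -/
theorem log_height {κ : Type u} {K : Type v} [Field κ] [IsAlgClosed κ] [CharZero κ] [Field K]
    [CharZero K] [Algebra κ K] (hK : IsFF κ K) (htr : Cardinal.aleph0 ≤ Algebra.trdeg ℚ κ)
    {n d T : ℕ} (hT : 1 ≤ T) (hT2 : 2000 * T ^ 2 ≤ d)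
    (hN : 2 * (n + 1) + 8500 * T ^ 2 + T * (n + 4) ≤ T * d) (hd1 : 12500 * T ≤ d)
    {a : (Fin (n + 1) →₀ ℕ) → K}
    (ha : AlgebraicIndependent ℚ (fun I : ↥(expo (Fin (n + 1)) d) => a I.1))
    (S : Finset (Place κ K)) :
    ∃ C : ℕ, ∀ (L : Type w) (M : Type x) [Field L] [Algebra κ L] [Algebra K L]
      [IsScalarTower κ K L] [FiniteDimensional K L] [Field M] [Algebra κ M] [Algebra L M]
      [IsScalarTower κ L M] [IsAlgClosed M] [Algebra.IsAlgebraic L M] (x : Fin (n + 1) → L),
      Fval d (fun I => algebraMap K L (a I)) x ≠ 0 →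
      height κ x ≤ 2 * cLog d T * ((ZS κ (S : Set (Place κ K)) d
        (fun I => algebraMap K L (a I)) x).ncard + (ramDeg κ L K : ℤ)) + C * finrank K L ∨
      CertL d (fun I => algebraMap L M (algebraMap K L (a I))) (2 * T)
        (fun j => algebraMap L M (x j)) := by
  classical
  obtain ⟨X, rfl⟩ := exists_base hK htr ha
  obtain ⟨C₀, hC₀⟩ := log_local.{u, v, w, x} hK
  refine ⟨cLog d T * ((∑ᶠ v, X.B v) + S.card + 2 * (∑ᶠ v, X.A v) + C₀), ?_⟩
  intro L M _ _ _ _ _ _ _ _ _ _ _ x hFx
  have hL : IsFF κ L := hK.of_finite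
  have hchar : CharZero L := charZero_of_injective_algebraMap (algebraMap K L).injective
  have hd : d ≠ 0 := by omega
  have hx : x ≠ 0 := by
    rintro rfl
    apply hFx
    have h0 : (0 : Fin (n + 1) → L) = fun j => (0 : L) * (0 : Fin (n + 1) → L) j := by
      funext j
      simp
    rw [h0, Fval_smul, zero_pow hd, zero_mul]
  obtain ⟨Y, c, hc, hYa, hYx, hYδ, hYρ⟩ := exists_datG X hK hx
  obtain ⟨hA1, hA2⟩ := mason_sum_over hL X.hA
  obtain ⟨hB1, hB2⟩ := mason_sum_over hL X.hB
  obtain ⟨σ, hσ1, hσ2, hσ3⟩ := sum_over_S hL S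
  have hα : (Function.support fun w : Place κ L => ramIdx K w.1 * X.A (below K w)).Finite := by
    refine hA1.subset fun w hw h0 => hw ?_
    exact Int.natCast_eq_zero.1 h0
  have hαa : ∀ I ∈ expo (Fin (n + 1)) d, ∀ w : Place κ L, w.1 (algebraMap K L (X.a I)) ≤
      exp ((ramIdx K w.1 * X.A (below K w) : ℕ) : ℤ) := fun I hI w => coef_le X.A (X.ha I hI) w
  have hv : Y.v = c ^ d * Fval d (fun I => algebraMap K L (X.a I)) x := by
    unfold DatG.v
    rw [hYa, hYx, Fval_smul]
  have hv0 : Y.v ≠ 0 := by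
    rw [hv]
    exact mul_ne_zero (pow_ne_zero _ hc) hFx
  set Z := ZS κ (S : Set (Place κ K)) d (fun I => algebraMap K L (X.a I)) x with hZ
  have hZf : Z.Finite := ZS_finite hL _ d _ hFx
  have hZY : Z = ZS κ (S : Set (Place κ K)) d (fun I => algebraMap K L (X.a I)) Y.x := by
    rw [hYx, ZS_smul _ _ _ _ hc]
  set ι : Place κ L → ℕ := fun w => if w ∈ Z then 1 else 0 with hι
  have hιf : (Function.support ι).Finite := by
    refine hZf.subset fun w hw => ?_
    by_contra h0
    exact hw (if_neg h0)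
  have hιs : ∑ᶠ w, (ι w : ℤ) = (Z.ncard : ℤ) := by
    rw [finsum_eq_sum_of_support_subset (s := hZf.toFinset) _ (by
      intro w hw
      rw [Set.Finite.coe_toFinset]
      by_contra h0
      apply hw
      simp only [hι]
      rw [if_neg h0, Nat.cast_zero])]
    rw [Set.ncard_eq_toFinset_card _ hZf, Finset.card_eq_sum_ones]
    push_cast
    refine Finset.sum_congr rfl fun w hw => ?_
    rw [Set.Finite.mem_toFinset] at hw
    simp only [hι]
    rw [if_pos hw, Nat.cast_one]
  have c1 : ∀ {f : Place κ L → ℕ}, (Function.support f).Finite →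
      (Function.support fun w => (f w : ℤ)).Finite := fun hf =>
    hf.subset fun w hw h0 => hw (by simp only; rw [h0, Nat.cast_zero])
  set ε : Place κ L → ℕ := fun w => ι w + σ w + ramIdx K w.1 * X.A (below K w) with hε
  have hεf : (Function.support ε).Finite :=
    (((hιf.union hσ1).subset (Function.support_add _ _)).union hα).subset (Function.support_add _ _)
  have hεs : ∑ᶠ w, (ε w : ℤ) = (Z.ncard : ℤ) + S.card * finrank K L +
      ((∑ᶠ v, X.A v : ℕ) : ℤ) * finrank K L := by
    rw [← hιs, ← hσ3, ← hA2, ← finsum_add_distrib (c1 hιf) (c1 hσ1), ← finsum_add_distrib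
      (((c1 hιf).union (c1 hσ1)).subset (Function.support_add _ _)) hA1]
    refine finsum_congr fun w => ?_
    simp only [hε]
    push_cast
    ring
  have hεv : ∀ w : Place κ L, w.1 Y.v = vmax w.1 Y.x ^ d ∨ 1 ≤ ε w := by
    intro w
    by_contra hcon
    push Not at hcon
    obtain ⟨h1, h2⟩ := hcon
    have h3 : ε w = 0 := by omega
    simp only [hε] at h3
    have h4 : ι w = 0 := by omega
    have h5 : σ w = 0 := by omega
    have h6 : ramIdx K w.1 * X.A (below K w) = 0 := by omega
    have h7 : w ∉ Z := by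
      intro h8
      simp only [hι] at h4
      rw [if_pos h8] at h4
      exact one_ne_zero h4
    have h8 : below K w ∉ S := by
      intro h9
      have := hσ2 w h9
      omega
    have h9 : w.1 (Fval d (fun I => algebraMap K L (X.a I)) Y.x) ≤ vmax w.1 Y.x ^ d :=
      Fval_le (α := fun w => ramIdx K w.1 * X.A (below K w)) hαa Y.x w h6
    have h10 : Y.v = Fval d (fun I => algebraMap K L (X.a I)) Y.x := by
      unfold DatG.v
      rw [hYa]
    rw [h10] at h1
    apply h7
    rw [hZY]
    exact ⟨by simpa using h8, lt_of_le_of_ne h9 h1⟩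
  have hmain := hC₀ L M hT hT2 hN hd1 Y hv0 hεf hα hεv (fun I hI w => by
    rw [hYa]
    exact hαa I hI w)
  have h1 : height κ Y.x = height κ x := by
    rw [hYx]
    exact hL.height_smul hc
  have h2 : Y.Δ = ((∑ᶠ v, X.B v : ℕ) : ℤ) * Module.finrank K L := by
    unfold DatG.Δ
    rw [hYδ, ← hB2]
  have h3 : Y.R = ramDeg κ L K := by
    unfold DatG.R
    rw [hYρ]
    exact (mason_sum_ram (K := K) hL).2
  rcases hmain with h | h
  · left
    rw [h1, h2, h3, hA2, hεs] at h
    refine h.trans ?_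
    push_cast
    have hc0 : (0 : ℤ) ≤ cLog d T := Int.natCast_nonneg _
    have hz0 : (0 : ℤ) ≤ (cLog d T : ℤ) * Z.ncard := by positivity
    nlinarith
  · right
    rw [hYa, hYx] at h
    have h4 := h.smul_of (r := (algebraMap L M c)⁻¹) (inv_ne_zero ((map_ne_zero _).2 hc))
    have h5 : (fun j => (algebraMap L M c)⁻¹ * algebraMap L M (c * x j)) =
        fun j => algebraMap L M (x j) := by
      funext j
      rw [map_mul, inv_mul_cancel_left₀ ((map_ne_zero _).2 hc)]
    rwa [h5] at h4

end Pool.Agent.Lib.MP_44a246_ntY
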