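import Mathlib
import Pool.Agent.Lib.MP_44a246_nt.PolyMain
import Pool.Agent.Lib.MP_44a246_ntX.XR2
import Pool.Agent.Lib.MP_44a246_ntY.Y58
import Pool.Agent.Lib.MP_44a246_ntY.Y65

/-!
The theorem for forms over a function field.
-/

namespace Pool.Agent.Lib.MP_44a246_ntY

open Pool.Agent.Lib.MP_44a246_nt
open Pool.Agent.Lib.MP_44a246_ntL
open Pool.Agent.Lib.MP_44a246_ntS
open Pool.Agent.Lib.MP_44a246_ntX
open Pool.Agent.Lib.MP_e52354_nt
open MvPolynomial WithZero Module

universe u v w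

theorem CertL.mono {L : Type*} [Field L] {n d b b' : ℕ} (hb : b ≤ b')
    {a : (Fin (n + 1) →₀ ℕ) → L} {x : Fin (n + 1) → L} (h : CertL d a b x) : CertL d a b' x := by
  obtain ⟨A, W, B, ξ₀, ξ₁, ξ₂, c', y₁, y, h0, h1, h2, h3, h4⟩ := h
  exact ⟨A, W, B, ξ₀, ξ₁, ξ₂, c', y₁, y, h0, ⟨h1.1.trans hb, fun i => (h1.2 i).trans hb⟩,
    ⟨h2.1.trans hb, fun i => (h2.2 i).trans hb⟩,
    fun j => ⟨(h3 j).1.trans hb, fun i => ((h3 j).2 i).trans hb⟩, h4⟩

theorem exists_TL {n d : ℕ} (h : n + 20001 * (Nat.sqrt n + 8) ≤ d) :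
    ∃ T, 1 ≤ T ∧ T ≤ Nat.sqrt n + 2 ∧ 2000 * T ^ 2 ≤ d ∧
      2 * (n + 1) + 8500 * T ^ 2 + T * (n + 4) ≤ T * d ∧ 12500 * T ≤ d := by
  have h1 : Nat.sqrt (n + 1) ≤ Nat.sqrt n + 1 := Nat.sqrt_succ_le_succ_sqrt n
  obtain ⟨T, t1, t2, t3, t4, t5⟩ := exists_T (n := n + 1) (d := d) (r := 2) (by linarith)
  refine ⟨T, t1, by linarith, t3, ?_, by linarith⟩
  have e : T * (n + 4) ≤ T * (n + 1 + 2 + 2) := Nat.mul_le_mul_left _ (by omega)
  omega

/-- the number of the places of `L` which do not lie over `S` and at which the value of the form `F`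
at the point `x` is smaller than expected -/
noncomputable def trunc (κ : Type*) {K L : Type*} [Field κ] [Field K] [Algebra κ K] [Field L]
    [Algebra κ L] [Algebra K L] [IsScalarTower κ K L] [FiniteDimensional K L]
    (S : Set (Place κ K)) {n : ℕ} (F : MvPolynomial (Fin (n + 1)) K) (x : Fin (n + 1) → L) : ℕ :=
  {w : Place κ L | below K w ∉ S ∧ w.1 (aeval x F) < vmax w.1 x ^ F.totalDegree}.ncard

/-- **The theorem for forms over a function field.** -/
theorem log_main {n d : ℕ} (hn : 2 ≤ n) (hd : n + 20001 * (Nat.sqrt n + 8) ≤ d) :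
    ∃ c : ℕ, ∀ {κ : Type u} {K : Type v} [Field κ] [IsAlgClosed κ] [CharZero κ] [Field K]
      [CharZero K] [Algebra κ K] (_ : Cardinal.aleph0 ≤ Algebra.trdeg ℚ κ)
      {t : K} (_ : Transcendental κ t) [FiniteDimensional (IntermediateField.adjoin κ {t}) K]
      (F : MvPolynomial (Fin (n + 1)) K) (_ : F.IsHomogeneous d)
      (_ : AlgebraicIndependent ℚ
        (fun I : {I : Fin (n + 1) →₀ ℕ // I.degree = d} => F.coeff I.1))
      (S : Finset (Place κ K)),
      ∃ G : MvPolynomial (Fin (n + 1)) K, (∃ e, G.IsHomogeneous e) ∧ G ≠ 0 ∧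
      ∃ C : ℕ, ∀ (L : Type w) [Field L] [Algebra K L] [FiniteDimensional K L] [Algebra κ L]
        [IsScalarTower κ K L] (x : Fin (n + 1) → L), aeval x F ≠ 0 →
        height κ x ≤ c * (trunc κ (S : Set (Place κ K)) F x + ramDeg κ L K : ℕ) +
          C * Module.finrank K L ∨
        aeval x G = 0 ∧ ∀ φ : L →ₐ[K] AlgebraicClosure K,
          CertL d (fun I => algebraMap K (AlgebraicClosure K) (F.coeff I)) (2 * (Nat.sqrt n + 2))
            (fun j => φ (x j)) := by
  obtain ⟨T, hT, hTn, hT2, hN, hd1⟩ := exists_TL hd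
  refine ⟨2 * cLog d T, ?_⟩
  intro κ K _ _ _ _ _ _ htr t ht _ F hF hgen S
  have ha : AlgebraicIndependent ℚ (fun I : ↥(expo (Fin (n + 1)) d) => F.coeff I.1) := by
    have h1 : (fun I : ↥(expo (Fin (n + 1)) d) => F.coeff I.1) =
        (fun I : {I : Fin (n + 1) →₀ ℕ // I.degree = d} => F.coeff I.1) ∘
        (fun I : ↥(expo (Fin (n + 1)) d) => ⟨I.1, mem_expo.mp I.2⟩) := rfl
    rw [h1]
    apply hgen.comp
    rintro ⟨I, h⟩ ⟨I', h'⟩ heq
    simp only [Subtype.mk.injEq] at heq
    subst heq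
    rfl
  have hK : IsFF κ K := ⟨t, ht, inferInstance⟩
  have hF0 : F ≠ 0 := by
    rintro rfl
    have h1 : Finsupp.single (0 : Fin (n + 1)) d ∈ expo (Fin (n + 1)) d := by
      rw [mem_expo, Finsupp.degree_single]
    exact (AlgebraicIndependent.ne_zero ha ⟨_, h1⟩) (by simp)
  have htd : F.totalDegree = d := hF.totalDegree hF0
  obtain ⟨m, rfl⟩ : ∃ m, n = m + 2 := ⟨n - 2, by omega⟩
  obtain ⟨e, G, hG1, hG2, hG3⟩ := exists_exceptionalL (K := K) (L := AlgebraicClosure K)
    (m := m) (d := d) (b := 2 * T) (by linarith) (a := fun I => F.coeff I) ha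
  obtain ⟨C, hC⟩ := log_height.{u, v, w, v} hK htr hT hT2 hN hd1 (a := fun I => F.coeff I) ha S
  refine ⟨G, ⟨e, hG1⟩, hG2, C, ?_⟩
  intro L _ _ _ _ _ x hFx
  have hFv : aeval x F = Fval d (fun I => algebraMap K L (F.coeff I)) x := aeval_eq_Fval F hF x
  have hZ : trunc κ (S : Set (Place κ K)) F x = (ZS κ (S : Set (Place κ K)) d
      (fun I => algebraMap K L (F.coeff I)) x).ncard := by
    unfold trunc ZS
    rw [hFv, htd]
  by_cases hb : height κ x ≤ 2 * cLog d T * ((ZS κ (S : Set (Place κ K)) d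
        (fun I => algebraMap K L (F.coeff I)) x).ncard + (ramDeg κ L K : ℤ)) + C * finrank K L
  · left
    rw [hZ]
    push_cast
    exact hb
  right
  have hall : ∀ φ : L →ₐ[K] AlgebraicClosure K,
      CertL d (fun I => algebraMap K (AlgebraicClosure K) (F.coeff I)) (2 * T)
        (fun j => φ (x j)) := by
    intro φ
    letI : Algebra L (AlgebraicClosure K) := φ.toRingHom.toAlgebra
    have hs1 : IsScalarTower K L (AlgebraicClosure K) := IsScalarTower.of_algebraMap_eq fun y =>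
      (φ.commutes y).symm
    have hs2 : IsScalarTower κ L (AlgebraicClosure K) := IsScalarTower.of_algebraMap_eq fun y => by
      rw [IsScalarTower.algebraMap_apply κ K (AlgebraicClosure K),
        IsScalarTower.algebraMap_apply κ K L, ← IsScalarTower.algebraMap_apply K L]
    have halg : Algebra.IsAlgebraic L (AlgebraicClosure K) :=
      Algebra.IsAlgebraic.tower_top (K := K) L
    rcases hC L (AlgebraicClosure K) x (by rw [← hFv]; exact hFx) with h | h
    · exact absurd h hb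
    · have h2 : (fun I => algebraMap L (AlgebraicClosure K) (algebraMap K L (F.coeff I))) =
          fun I => algebraMap K (AlgebraicClosure K) (F.coeff I) :=
        funext fun I => (IsScalarTower.algebraMap_apply K L _ _).symm
      rw [h2] at h
      exact h
  refine ⟨?_, fun φ => (hall φ).mono (by linarith)⟩
  let φ : L →ₐ[K] AlgebraicClosure K := IsAlgClosed.lift
  have h3 := hG3 _ (hall φ)
  have h4 : aeval (fun j => φ (x j)) G = φ (aeval x G) := by
    have h5 := congrArg (fun g => g G) (MvPolynomial.comp_aeval (R := K) (f := x) φ)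
    exact h5.symm
  rw [h4] at h3
  exact (map_eq_zero φ).1 h3

end Pool.Agent.Lib.MP_44a246_ntY
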