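import Mathlib
import Pool.Agent.Lib.MP_44a246_ntS.SP9
import Pool.Agent.Lib.MP_44a246_ntS.SP5b
import Pool.Agent.Lib.MP_44a246_ntS.SP6
import Pool.Agent.Lib.MP_44a246_ntU.U12
import Pool.Agent.Lib.MP_44a246_ntU.U13
import Pool.Agent.Lib.MP_44a246_ntY.Y54
import Pool.Agent.Lib.MP_44a246_ntY.Y70
import Pool.Agent.Lib.MP_44a246_ntY.Y72

/-!
Step E for pairs: a covering family of curves of small degree in a variety meets a generic
hypersurface in many points.
-/

namespace Pool.Agent.Lib.MP_44a246_ntY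

open Pool.Agent.Lib.MP_e52354_nt
open Pool.Agent.Lib.MP_44a246_nt
open Pool.Agent.Lib.MP_44a246_ntL
open Pool.Agent.Lib.MP_44a246_ntS
open Pool.Agent.Lib.MP_44a246_ntU
open WithZero Polynomial Module

universe u

/-- the coefficients of the equations of the variety -/
noncomputable def vV {ι k : Type*} (L : Type*) [Field k] [Field L] [Algebra k L] {n : ℕ}
    (f : ι → MvPolynomial (Fin (n + 1)) k) : ι → (Fin (n + 1) →₀ ℕ) → L :=
  fun i I => algebraMap k L ((f i).coeff I)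

section aux

variable {κ M : Type*} [Field κ] [IsAlgClosed κ] [CharZero κ] [Field M] [Algebra κ M]
  [Algebra κ[X] M] [IsScalarTower κ κ[X] M]
  [Algebra (RatFunc κ) M] [IsScalarTower κ[X] (RatFunc κ) M]
  [Algebra (Rinf κ) M] [IsScalarTower (Rinf κ) (RatFunc κ) M]
  [FiniteDimensional (RatFunc κ) M]

/-- the height of the separating element -/
private theorem y73_height_X : height κ ![1, algebraMap κ[X] M X] =
    (Module.finrank (RatFunc κ) M : ℤ) := by
  classical
  have hX0 : algebraMap κ[X] (RatFunc κ) X ≠ 0 := by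
    rw [ne_eq, FaithfulSMul.algebraMap_eq_zero_iff]
    exact X_ne_zero
  have hX : algebraMap κ[X] M X = algebraMap (RatFunc κ) M (algebraMap κ[X] (RatFunc κ) X) :=
    IsScalarTower.algebraMap_apply κ[X] (RatFunc κ) M X
  have hXM : algebraMap κ[X] M X ≠ 0 := by
    rw [hX]
    exact (_root_.map_ne_zero _).mpr hX0
  have h1 := sum_infinite_places (κ := κ) hXM
  have h3 : (Algebra.norm (RatFunc κ) (algebraMap κ[X] M X)).intDegree =
      (Module.finrank (RatFunc κ) M : ℤ) := by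
    rw [hX, Algebra.norm_algebraMap, intDegree_pow' hX0, RatFunc.intDegree_polynomial, natDegree_X]
    push_cast
    ring
  rw [h3] at h1
  have h4 : height κ ![1, algebraMap κ[X] M X] =
      - ∑ᶠ v : Place κ M, (if v.1 (algebraMap κ[X] M X) ≤ 1 then (0 : ℤ) else
        - log (v.1 (algebraMap κ[X] M X))) := by
    rw [← finsum_neg_distrib]
    unfold height
    refine finsum_congr fun v => ?_
    rw [Pool.Agent.Lib.MP_44a246_ntL.vmax_pair]
    split_ifs with h
    · rw [max_eq_left h, log_one, neg_zero]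
    · rw [max_eq_right (not_le.mp h).le, neg_neg]
  rw [h4, h1, neg_neg]

omit [IsAlgClosed κ] [CharZero κ] [Algebra (Rinf κ) M] [IsScalarTower (Rinf κ) (RatFunc κ) M]
  [FiniteDimensional (RatFunc κ) M] in
private theorem y73_clear (Y : M) (r : (RatFunc κ)[X]) :
    ∃ (q : κ[X]) (P : κ[X][X]), q ≠ 0 ∧ aeval Y P = algebraMap κ[X] M q * aeval Y r := by
  obtain ⟨b, hb0, hb⟩ := IsLocalization.integerNormalization_spec (nonZeroDivisors κ[X]) r
  refine ⟨b, IsLocalization.integerNormalization (nonZeroDivisors κ[X]) r,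
    nonZeroDivisors.ne_zero hb0, ?_⟩
  rw [← aeval_map_algebraMap (RatFunc κ), hb]
  have h1 : b • r = C (algebraMap κ[X] (RatFunc κ) b) * r := by
    rw [← smul_eq_C_mul, algebraMap_smul]
  rw [h1, map_mul, aeval_C, ← IsScalarTower.algebraMap_apply κ[X] (RatFunc κ) M]

omit [IsAlgClosed κ] [CharZero κ] [Algebra (Rinf κ) M] [IsScalarTower (Rinf κ) (RatFunc κ) M]
  [FiniteDimensional (RatFunc κ) M] in
/-- every element is a quotient of polynomials in `X`, `Y` -/
private theorem y73_gen {Y : M} (hgen : IntermediateField.adjoin (RatFunc κ) {Y} = ⊤) (z : M) :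
    ∃ G H : κ[X][X], ev (algebraMap κ M) (algebraMap κ[X] M X) Y H ≠ 0 ∧
      z * ev (algebraMap κ M) (algebraMap κ[X] M X) Y H =
        ev (algebraMap κ M) (algebraMap κ[X] M X) Y G := by
  have hz : z ∈ IntermediateField.adjoin (RatFunc κ) {Y} := by
    rw [hgen]
    exact IntermediateField.mem_top
  obtain ⟨r, s, hrs⟩ := (IntermediateField.mem_adjoin_simple_iff (RatFunc κ) z).1 hz
  by_cases hs : aeval Y s = 0
  · refine ⟨0, 1, ?_, ?_⟩
    · rw [map_one]
      exact one_ne_zero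
    · rw [hrs, hs, div_zero, zero_mul, map_zero]
  · obtain ⟨q₁, P₁, hq₁, hP₁⟩ := y73_clear Y r
    obtain ⟨q₂, P₂, hq₂, hP₂⟩ := y73_clear Y s
    have hinj : ∀ q : κ[X], q ≠ 0 → algebraMap κ[X] M q ≠ 0 := by
      intro q hq
      rw [IsScalarTower.algebraMap_apply κ[X] (RatFunc κ) M]
      refine (_root_.map_ne_zero _).mpr ?_
      rw [ne_eq, FaithfulSMul.algebraMap_eq_zero_iff]
      exact hq
    refine ⟨C q₂ * P₁, C q₁ * P₂, ?_, ?_⟩
    · rw [ev_aeval, map_mul, aeval_C, hP₂]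
      exact mul_ne_zero (hinj _ hq₁) (mul_ne_zero (hinj _ hq₂) hs)
    · rw [ev_aeval, ev_aeval, map_mul, map_mul, aeval_C, aeval_C, hP₁, hP₂, hrs]
      field_simp

omit [IsAlgClosed κ] [CharZero κ] [Field M] [Algebra κ M] [Algebra κ[X] M]
  [IsScalarTower κ κ[X] M] [Algebra (RatFunc κ) M] [IsScalarTower κ[X] (RatFunc κ) M]
  [Algebra (Rinf κ) M] [IsScalarTower (Rinf κ) (RatFunc κ) M]
  [FiniteDimensional (RatFunc κ) M] in
private theorem y73_box {b : ℕ} {A : κ[X][X]} (h : Box b A) : Box b (derivative A) := by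
  refine ⟨(natDegree_derivative_le A).trans ((Nat.sub_le _ _).trans h.1), fun i => ?_⟩
  rw [coeff_derivative]
  refine natDegree_mul_le.trans ?_
  have h1 : ((i : κ[X]) + 1).natDegree = 0 := by
    have : ((i : κ[X]) + 1) = C ((i : κ) + 1) := by simp
    rw [this, natDegree_C]
  rw [h1, add_zero]
  exact h.2 _

end aux

private theorem y73_num {m d b N : ℕ} {h R nZ nG n1 n2 n3 n4 hX hY hδ hω : ℤ}
    (hd : m + 5 + 7 * b ≤ d) (hN : 0 < N) (hNb : N ≤ b) (hpos : 0 < h)
    (hglob : ((d : ℤ) - 1) * h ≤ (m + 2) * h + R + nZ)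
    (hram : R ≤ 2 * ((N : ℤ) - 1) * h)
    (hZ : nZ ≤ nG + (n1 + (n2 + (n3 + n4))))
    (hG : nG ≤ 2 * N + ((N * (N - 1) / 2 : ℕ) : ℤ))
    (h1 : n1 ≤ hX) (h2 : n2 ≤ hY) (h3 : n3 ≤ hδ) (h4 : n4 ≤ hω)
    (hXh : hX ≤ h) (hYh : hY ≤ h) (hXN : hX = N) (hδh : hδ ≤ b * hX + b * hY)
    (hωh : hω ≤ b * hX + b * hY) : False := by
  have hq : 2 * ((N * (N - 1) / 2 : ℕ) : ℤ) ≤ (N : ℤ) * ((N : ℤ) - 1) := by
    have h5 : 2 * (N * (N - 1) / 2) ≤ N * (N - 1) := Nat.mul_div_le _ _
    have h6 : ((N - 1 : ℕ) : ℤ) = (N : ℤ) - 1 := by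
      rw [Nat.cast_sub hN, Nat.cast_one]
    rw [← h6]
    exact_mod_cast h5
  have hNh : (N : ℤ) ≤ h := by
    rw [← hXN]
    exact hXh
  have hNb' : (N : ℤ) ≤ b := by exact_mod_cast hNb
  have hN' : (1 : ℤ) ≤ N := by exact_mod_cast hN
  have hd' : ((m : ℤ) + 5 + 7 * b) ≤ d := by exact_mod_cast hd
  have hb0 : (0 : ℤ) ≤ b := by positivity
  have e1 : (N : ℤ) * ((N : ℤ) - 1) ≤ h * ((b : ℤ) - 1) :=
    mul_le_mul hNh (by linarith) (by linarith) hpos.le
  have e2 : (b : ℤ) * hX ≤ b * h := mul_le_mul_of_nonneg_left hXh hb0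
  have e3 : (b : ℤ) * hY ≤ b * h := mul_le_mul_of_nonneg_left hYh hb0
  have e4 : ((N : ℤ) - 1) * h ≤ ((b : ℤ) - 1) * h :=
    mul_le_mul_of_nonneg_right (by linarith) hpos.le
  have e5 : ((m : ℤ) + 5 + 7 * b) * h ≤ d * h := mul_le_mul_of_nonneg_right hd' hpos.le
  have e6 : (0 : ℤ) < (b : ℤ) * h := mul_pos (by linarith) hpos
  nlinarith [e1, e2, e3, e4, e5, e6, hq]

/-- **Step E for pairs**, with derivations. -/
theorem no_certLV_der {κ : Type u} [Field κ] [IsAlgClosed κ] [CharZero κ] {k : Type*} [Field k]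
    [CharZero k] [Algebra k κ] {n m d b : ℕ} (hd : m + 5 + 7 * b ≤ d) {ι : Type*} {e : ι → ℕ}
    {f : ι → MvPolynomial (Fin (n + 1)) k} (hf : ∀ i, (f i).IsHomogeneous (e i))
    (hdim : ringKrullDim (MvPolynomial (Fin (n + 1)) k ⧸ Ideal.span (Set.range f)) ≤
      ((m + 3 : ℕ) : ℕ))
    {a : (Fin (n + 1) →₀ ℕ) → κ} (δ : Fin (m + 2) → Derivation ℤ κ κ)
    (hδk : ∀ i, ∀ u : k, δ i (algebraMap k κ u) = 0)
    (hδa : ∀ i, ∀ I ∈ expo (Fin (n + 1)) d, δ i (a I) = 0)
    (W : (Fin (n + 1) →₀ ℕ) → Derivation ℤ κ κ)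
    (hWk : ∀ I, ∀ u : k, W I (algebraMap k κ u) = 0)
    (hWa : ∀ I ∈ expo (Fin (n + 1)) d, ∀ J ∈ expo (Fin (n + 1)) d,
      W I (a J) = if I = J then 1 else 0)
    {x : Fin (n + 1) → κ} (hFx : Fval d a x ≠ 0)
    (hx : LinearIndependent κ
      (Fin.cons x (fun i k => δ i (x k)) : Fin (m + 3) → Fin (n + 1) → κ)) :
    ¬ CertLV e (vV κ f) d a b x := by
  classical
  rintro ⟨A, Wd, Bv, ξ₀, ξ₁, ξ₂, c, y₁, y, hirr, hboxA, hboxW, -, hc, hξ₀, hξ₁, hξ₂, hA, hAY, hW,
    hB, hF, h0, h1, h2, hcount⟩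
  obtain ⟨i₀, hind⟩ := indep_atLV (m := m + 1) (β := Wd.evalEval y₁ y * c) hA hAY hW
    (mul_ne_zero hW hc) (fun j => by rw [mul_assoc]; exact hB j) h0 h1 δ hx
  have hdegA : 0 < A.natDegree := by
    rw [Nat.pos_iff_ne_zero]
    intro h3
    apply hAY
    rw [eq_C_of_natDegree_eq_zero h3, derivative_C]
    simp
  refine with_curve hirr hdegA ?_
  intro M _ _ _ _ _ _ _ _ _ Y hY hgen hfin ht halg
  set φ := algebraMap κ M with hφ
  set X' : M := algebraMap κ[X] M X with hX'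
  -- specialisation
  have hspec : ∀ G : κ[X][X], G.evalEval y₁ y ≠ 0 → ev φ X' Y G ≠ 0 := by
    intro G hG h3
    rw [hX', ev_aeval, hY] at h3
    obtain ⟨g, rfl⟩ := h3
    apply hG
    rw [evalEval_mul, hA, zero_mul]
  have hevA : ∀ G : κ[X][X], A ∣ G → ev φ X' Y G = 0 := by
    intro G hG
    rw [hX', ev_aeval, hY]
    exact hG
  have hAP : ev φ X' Y A = 0 := hevA A dvd_rfl
  have hδ : ev φ X' Y (derivative A) ≠ 0 := hspec _ hAY
  obtain ⟨δA, hδA⟩ : ∃ δA, δA = ev φ X' Y (derivative A) := ⟨_, rfl⟩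
  obtain ⟨ω, hω⟩ : ∃ ω, ω = ev φ X' Y Wd := ⟨_, rfl⟩
  have hω0 : ω ≠ 0 := by
    rw [hω]
    exact hspec _ hW
  rw [← hδA] at hδ
  set γ : Fin (n + 1) → M := fun j => ev φ X' Y (Bv j) with hγdef
  -- the derivations
  obtain ⟨D, hDκ, hDX⟩ := exists_der_ext ht halg (0 : Derivation ℤ κ κ) 1
  choose E hEκ hEX using fun i : Fin (m + 2) => exists_der_ext ht halg (δ i) 0
  choose W' hWκ' hWX' using fun I => exists_der_ext ht halg (W I) 0
  have hDκ' : ∀ u : κ, D (algebraMap κ M u) = 0 := fun u => by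
    rw [hDκ]
    simp
  have hD : ∀ G, δA * D (ev φ X' Y G) = ev φ X' Y (vf A (cX κ) G) := by
    intro G
    rw [hδA, ev_vf φ 0 D hDκ hAP G, hX', hDX, one_mul, vf_apply, cE_zero, cE_zero]
    simp
  have hE : ∀ i G, δA * E i (ev φ X' Y G) = ev φ X' Y (vf A (cE (δ i)) G) := by
    intro i G
    rw [hδA, ev_vf φ (δ i) (E i) (hEκ i) hAP G, hX', hEX, zero_mul, add_zero]
  -- the relations between `γ` and the projection
  have hsum : ∀ ξ : Fin (n + 1) → κ, ev φ X' Y (∑ j, C (C (ξ j)) * Bv j) = ∑ j, φ (ξ j) * γ j := by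
    intro ξ
    rw [map_sum]
    refine Finset.sum_congr rfl fun j _ => ?_
    rw [map_mul, ev_C_C]
  have r0 : ∑ j, φ (ξ₀ j) * γ j = ω := by
    rw [← hsum, ← sub_eq_zero, hω, ← map_sub]
    exact hevA _ h0
  have r1 : ∑ j, φ (ξ₁ j) * γ j = X' * ω := by
    rw [← hsum, ← sub_eq_zero, hω]
    have h4 : X' * ev φ X' Y Wd = ev φ X' Y (C X * Wd) := by
      rw [map_mul, ev_C_X]
    rw [h4, ← map_sub]
    exact hevA _ h1
  have r2 : ∑ j, φ (ξ₂ j) * γ j = Y * ω := by
    rw [← hsum, ← sub_eq_zero, hω]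
    have h4 : Y * ev φ X' Y Wd = ev φ X' Y (X * Wd) := by
      rw [map_mul, ev_X]
    rw [h4, ← map_sub]
    exact hevA _ h2
  have hγ : γ ≠ 0 := by
    intro h3
    apply hω0
    rw [← r0, h3]
    simp
  -- the value of the form
  obtain ⟨f', hf'⟩ : ∃ f', f' = ev φ X' Y (FB d a Bv) := ⟨_, rfl⟩
  have hFγ : Fval d (fun I => algebraMap κ M (a I)) γ = f' := by
    rw [hf']
    unfold FB Fval mon
    rw [map_sum]
    refine Finset.sum_congr rfl fun I _ => ?_
    rw [map_mul, ev_C_C, map_prod]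
    congr 1
    refine Finset.prod_congr rfl fun j _ => ?_
    rw [map_pow]
  have hf0 : f' ≠ 0 := by
    rw [hf']
    apply hspec
    have h3 : (FB d a Bv).evalEval y₁ y = Fval d a (fun j => Wd.evalEval y₁ y * c * x j) := by
      have h4 : (FB d a Bv).evalEval y₁ y = evalEvalRingHom y₁ y (FB d a Bv) := rfl
      rw [h4]
      unfold FB Fval mon
      rw [map_sum]
      refine Finset.sum_congr rfl fun I _ => ?_
      rw [map_mul, map_prod]
      have h5 : evalEvalRingHom y₁ y (C (C (a I))) = a I := by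
        show (C (C (a I)) : κ[X][X]).evalEval y₁ y = a I
        rw [evalEval_C, eval_C]
      rw [h5]
      congr 1
      refine Finset.prod_congr rfl fun j _ => ?_
      rw [map_pow]
      congr 1
      show (Bv j).evalEval y₁ y = _
      rw [← hB j]
      ring
    rw [h3, Fval_smul]
    exact mul_ne_zero (pow_ne_zero _ (mul_ne_zero hW hc)) hFx
  -- `γ` is a zero of the forms of the variety
  have hfo : ∀ i, Fval (e i) (fun I => algebraMap κ M (vV κ f i I)) γ = 0 := by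
    intro i
    have h3 := hevA _ (hF i)
    rw [← h3]
    unfold FB Fval mon
    rw [map_sum]
    refine Finset.sum_congr rfl fun I _ => ?_
    rw [map_mul, ev_C_C, map_prod]
    congr 1
    refine Finset.prod_congr rfl fun j _ => ?_
    rw [map_pow]
  -- the structure of an algebra over `k`
  let _ : Algebra k M := ((algebraMap κ M).comp (algebraMap k κ)).toAlgebra
  have hkM : ∀ u : k, algebraMap k M u = algebraMap κ M (algebraMap k κ u) := fun u => rfl
  have hfγ : ∀ i, MvPolynomial.aeval γ (f i) = 0 := by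
    intro i
    rw [aeval_eq_Fval (hf i)]
    exact hfo i
  -- independence
  have hspec' : ∀ G : κ[X][X], evalEvalRingHom y₁ y G ≠ 0 → ev φ X' Y G ≠ 0 := hspec
  have hindM : LinearIndependent M (Fin.cons γ (Fin.cons (fun k => D (γ k))
      fun i k => E (i₀.succAbove i) (γ k)) : Fin (m + 1 + 2) → Fin (n + 1) → M) := by
    have h3 := indep_of_spec (evalEvalRingHom y₁ y) (ev φ X' Y) hspec'
      (N := Fin.cons Bv (Fin.cons (fun j => vf A (cX κ) (Bv j))
        fun i j => vf A (cE (δ (i₀.succAbove i))) (Bv j))) (by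
        convert hind using 1
        funext i
        refine Fin.cases rfl (fun i => ?_) i
        exact Fin.cases rfl (fun i => rfl) i)
    have h4 := h3.units_smul (Fin.cons 1 fun _ => (Units.mk0 δA hδ)⁻¹)
    convert h4 using 1
    funext i
    refine Fin.cases ?_ (fun i => ?_) i
    · funext j
      simp only [Fin.cons_zero, Pi.smul_apply', one_smul]
      rfl
    · refine Fin.cases ?_ (fun i => ?_) i
      · funext j
        show D (γ j) = (δA⁻¹ : M) * ev φ X' Y (vf A (cX κ) (Bv j))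
        rw [← hD, inv_mul_cancel_left₀ hδ]
      · funext j
        show E (i₀.succAbove i) (γ j) =
          (δA⁻¹ : M) * ev φ X' Y (vf A (cE (δ (i₀.succAbove i))) (Bv j))
        rw [← hE, inv_mul_cancel_left₀ hδ]
  -- the tangent space
  obtain ⟨l₀, hl₀⟩ : ∃ l, γ l ≠ 0 := by
    by_contra hcon
    push Not at hcon
    exact hγ (funext hcon)
  obtain ⟨T, hT, hγT, hDT⟩ := exists_tangent (k := k) (r := m + 2) hl₀
    (fun p j hj => card_le_of_dim_proj hf hdim hfγ hl₀ hj)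
  -- the inequalities
  have hglob := wedge_global_logV (m := m + 1) (d := d) (a := a) D hDκ' hDX
    (fun i => E (i₀.succAbove i))
    (fun i u => ⟨_, hEκ _ u⟩) (fun i => ⟨0, by rw [hEX, map_zero]⟩)
    (fun i I hI => by rw [hEκ, hδa _ I hI, map_zero]) W' (fun I u => ⟨_, hWκ' _ u⟩)
    (fun I => ⟨0, by rw [hWX', map_zero]⟩)
    (fun I hI J hJ => by
      rw [hWκ', hWa I hI J hJ]
      split_ifs
      · exact map_one _
      · exact map_zero _) hFγ hf0 hindM hT hγT
    (hDT D fun u => by rw [hkM, hDκ'])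
    (fun i => hDT _ fun u => by rw [hkM, hEκ, hδk, map_zero])
    (fun I _ => hDT _ fun u => by rw [hkM, hWκ', hWk, map_zero])
  have hgen' : pointField (RatFunc κ) γ = ⊤ := by
    rw [eq_top_iff, ← hgen, IntermediateField.adjoin_le_iff, Set.singleton_subset_iff]
    obtain ⟨l, hl⟩ : ∃ l, γ l ≠ 0 := by
      by_contra hcon
      push Not at hcon
      exact hγ (funext hcon)
    have hmem : ∀ ξ : Fin (n + 1) → κ, (∑ j, φ (ξ j) * γ j) / γ l ∈ pointField (RatFunc κ) γ := by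
      intro ξ
      rw [Finset.sum_div]
      refine sum_mem fun j _ => ?_
      rw [mul_div_assoc]
      refine mul_mem ?_ (IntermediateField.subset_adjoin _ _ ⟨j, l, rfl⟩)
      have h5 : φ (ξ j) = algebraMap (RatFunc κ) M (algebraMap κ[X] (RatFunc κ) (C (ξ j))) := by
        rw [← IsScalarTower.algebraMap_apply κ[X] (RatFunc κ) M, hφ,
          IsScalarTower.algebraMap_apply κ κ[X] M]
        rfl
      rw [h5]
      exact (pointField (RatFunc κ) γ).algebraMap_mem _
    have h6 : Y = ((∑ j, φ (ξ₂ j) * γ j) / γ l) / ((∑ j, φ (ξ₀ j) * γ j) / γ l) := by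
      rw [r0, r2]
      field_simp
    rw [h6]
    exact div_mem (hmem ξ₂) (hmem ξ₀)
  have hram := ram_le hγ hgen'
  have hpos : 0 < height κ γ := height_pos hγ (ξ₀ := ξ₀) (ξ₁ := ξ₁) (by rw [← hφ, r0]; exact hω0)
    (by rw [← hφ, r0, r1])
  -- the function field
  have hFF : IsFF κ M := by
    have t : IsScalarTower κ (RatFunc κ) M := by
      refine IsScalarTower.of_algebraMap_eq fun u => ?_
      rw [IsScalarTower.algebraMap_apply κ κ[X] M,
        IsScalarTower.algebraMap_apply κ κ[X] (RatFunc κ),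
        ← IsScalarTower.algebraMap_apply κ[X] (RatFunc κ) M]
    exact (sp5b_isFF κ).of_finite
  have hX'0 : ∀ s : κ, X' - algebraMap κ M s ≠ 0 := by
    intro s h3
    apply ht
    rw [sub_eq_zero.mp h3]
    exact isAlgebraic_algebraMap s
  have hhX : height κ ![1, X'] ≤ height κ γ := height_lin_le hFF ξ₀ ξ₁
    (by rw [← hφ, r0]; exact hω0) (by rw [← hφ, r0, r1])
  have hhY : height κ ![1, Y] ≤ height κ γ := height_lin_le hFF ξ₀ ξ₂
    (by rw [← hφ, r0]; exact hω0) (by rw [← hφ, r0, r2])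
  have hhX' : height κ ![1, X'] = (A.natDegree : ℤ) := by
    rw [hX', y73_height_X, hfin]
  have hhδ : height κ ![1, δA] ≤ b * height κ ![1, X'] + b * height κ ![1, Y] := by
    rw [hδA]
    exact height_ev_le hFF (y73_box hboxA) X' Y
  have hhω : height κ ![1, ω] ≤ b * height κ ![1, X'] + b * height κ ![1, Y] := by
    rw [hω]
    exact height_ev_le hFF hboxW X' Y
  obtain ⟨p1, p1'⟩ := card_poles_le hFF X'
  obtain ⟨p2, p2'⟩ := card_poles_le hFF Y
  obtain ⟨p3, p3'⟩ := card_zeros_le hFF hδ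
  obtain ⟨p4, p4'⟩ := card_zeros_le hFF hω0
  have hve : ∀ (w : Place κ M) {s t : κ}, w.1 (X' - algebraMap κ M s) < 1 →
      w.1 (Y - algebraMap κ M t) < 1 → ∀ G : κ[X][X], w.1 (ev φ X' Y G) ≤ 1 ∧
        (w.1 (ev φ X' Y G) = 1 ↔ G.evalEval s t ≠ 0) := fun w s t hs htt G => val_ev hs htt G
  -- the good places
  set Z : Set (Place κ M) := {w | w.1 f' < vmax w.1 γ ^ d} with hZ
  have hZfin : Z.Finite := zeros_finiteV hγ hf0
  set Gd : Set (Place κ M) := {w | w.1 f' < vmax w.1 γ ^ d ∧ w.1 X' ≤ 1 ∧ w.1 Y ≤ 1 ∧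
    w.1 δA = 1 ∧ w.1 ω = 1} with hGd
  have hGfin : Gd.Finite := hZfin.subset fun w hw => hw.1
  have hpt : ∀ w : Place κ M, ∃ p : κ × κ, w ∈ Gd →
      w.1 (X' - algebraMap κ M p.1) < 1 ∧ w.1 (Y - algebraMap κ M p.2) < 1 := by
    intro w
    by_cases hw : w ∈ Gd
    · obtain ⟨s, hs⟩ := place_residue w hw.2.1
      obtain ⟨t, htt⟩ := place_residue w hw.2.2.1
      exact ⟨(s, t), fun _ => ⟨hs, htt⟩⟩
    · exact ⟨(0, 0), fun h => absurd h hw⟩
  choose pt hpt using hpt
  have hgood : (Gd.ncard : ℤ) ≤ 2 * A.natDegree + ((A.natDegree * (A.natDegree - 1) / 2 : ℕ) : ℤ) := by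
    have hinj : Set.InjOn pt (hGfin.toFinset : Set (Place κ M)) := by
      intro w hw w' hw' hww
      rw [Set.Finite.coe_toFinset] at hw hw'
      obtain ⟨hs, htt⟩ := hpt w hw
      obtain ⟨hs', htt'⟩ := hpt w' hw'
      rw [← hww] at hs' htt'
      refine place_unique hs htt hs' htt' hAP ?_ (hX'0 _) (y73_gen hgen)
      rw [← (hve w hs htt (derivative A)).2, ← hδA]
      exact hw.2.2.2.1
    have h5 := hcount (hGfin.toFinset.image pt) (by
      intro p hp
      rw [Finset.mem_image] at hp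
      obtain ⟨w, hw, rfl⟩ := hp
      rw [Set.Finite.mem_toFinset] at hw
      obtain ⟨hs, htt⟩ := hpt w hw
      have hw1 := hw.1
      obtain ⟨-, -, -, hwδ, hwω⟩ := hw
      refine ⟨?_, ?_, ?_, ?_⟩
      · by_contra h6
        have h7 := (hve w hs htt A).2.2 h6
        rw [hAP, map_zero] at h7
        exact zero_ne_one h7
      · rw [← (hve w hs htt (derivative A)).2, ← hδA]
        exact hwδ
      · rw [← (hve w hs htt Wd).2, ← hω]
        exact hwω
      · by_contra h6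
        have h7 := (hve w hs htt (FB d a Bv)).2.2 h6
        rw [← hf'] at h7
        have h8 : vmax w.1 γ ≤ 1 := vmax_le _ fun j => (hve w hs htt (Bv j)).1
        rw [h7] at hw1
        exact absurd hw1 (not_lt.mpr (pow_le_one' h8 d)))
    rw [Finset.card_image_of_injOn hinj] at h5
    rw [Set.ncard_eq_toFinset_card Gd hGfin]
    exact_mod_cast h5
  have hcover : Z ⊆ Gd ∪ ({w : Place κ M | 1 < w.1 X'} ∪ ({w : Place κ M | 1 < w.1 Y} ∪
      ({w : Place κ M | w.1 δA < 1} ∪ {w : Place κ M | w.1 ω < 1}))) := by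
    intro w hw
    by_cases c1 : 1 < w.1 X'
    · exact Or.inr (Or.inl c1)
    by_cases c2 : 1 < w.1 Y
    · exact Or.inr (Or.inr (Or.inl c2))
    rw [not_lt] at c1 c2
    obtain ⟨s, hs⟩ := place_residue w c1
    obtain ⟨t, htt⟩ := place_residue w c2
    by_cases c3 : w.1 δA < 1
    · exact Or.inr (Or.inr (Or.inr (Or.inl c3)))
    by_cases c4 : w.1 ω < 1
    · exact Or.inr (Or.inr (Or.inr (Or.inr c4)))
    rw [not_lt] at c3 c4
    refine Or.inl ⟨hw, c1, c2, le_antisymm ?_ c3, le_antisymm ?_ c4⟩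
    · rw [hδA]
      exact (hve w hs htt (derivative A)).1
    · rw [hω]
      exact (hve w hs htt Wd).1
  have hZle : (Z.ncard : ℤ) ≤ Gd.ncard + ({w : Place κ M | 1 < w.1 X'}.ncard +
      ({w : Place κ M | 1 < w.1 Y}.ncard + ({w : Place κ M | w.1 δA < 1}.ncard +
        {w : Place κ M | w.1 ω < 1}.ncard))) := by
    have h5 := Set.ncard_le_ncard hcover (hGfin.union (p1.union (p2.union (p3.union p4))))
    have h6 := Set.ncard_union_le Gd ({w : Place κ M | 1 < w.1 X'} ∪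
      ({w : Place κ M | 1 < w.1 Y} ∪ ({w : Place κ M | w.1 δA < 1} ∪
        {w : Place κ M | w.1 ω < 1})))
    have h7 := Set.ncard_union_le {w : Place κ M | 1 < w.1 X'}
      ({w : Place κ M | 1 < w.1 Y} ∪ ({w : Place κ M | w.1 δA < 1} ∪
        {w : Place κ M | w.1 ω < 1}))
    have h8 := Set.ncard_union_le {w : Place κ M | 1 < w.1 Y}
      ({w : Place κ M | w.1 δA < 1} ∪ {w : Place κ M | w.1 ω < 1})
    have h9 := Set.ncard_union_le {w : Place κ M | w.1 δA < 1} {w : Place κ M | w.1 ω < 1}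
    exact_mod_cast (by omega : Z.ncard ≤ Gd.ncard + ({w : Place κ M | 1 < w.1 X'}.ncard +
      ({w : Place κ M | 1 < w.1 Y}.ncard + ({w : Place κ M | w.1 δA < 1}.ncard +
        {w : Place κ M | w.1 ω < 1}.ncard))))
  rw [hfin] at hram
  have hglob' : ((d : ℤ) - 1) * height κ γ ≤ (m + 2) * height κ γ + ramDeg κ M (RatFunc κ) +
      (Z.ncard : ℤ) := by
    rw [hZ]
    push_cast at hglob
    linarith
  exact y73_num hd hdegA hboxA.1 hpos hglob' hram hZle hgood p1' p2' p3' p4' hhX hhY hhX' hhδ hhω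

/-- **Step E for pairs** over an algebraically closed field -/
theorem no_certLV_closed {κ : Type u} [Field κ] [IsAlgClosed κ] [CharZero κ] {k : Type*} [Field k]
    [CharZero k] [Algebra k κ] {n m d b : ℕ} (hd : m + 5 + 7 * b ≤ d) {ι : Type*} {e : ι → ℕ}
    {f : ι → MvPolynomial (Fin (n + 1)) k} (hf : ∀ i, (f i).IsHomogeneous (e i))
    (hdim : ringKrullDim (MvPolynomial (Fin (n + 1)) k ⧸ Ideal.span (Set.range f)) ≤
      ((m + 3 : ℕ) : ℕ))
    {a : (Fin (n + 1) →₀ ℕ) → κ} {x : Fin (n + 1) → κ} {l : Fin (n + 1)} (hl : x l ≠ 0)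
    (hFx : Fval d a x ≠ 0)
    {j : Fin (m + 2) → Fin (n + 1)}
    (hind : AlgebraicIndependent k (Sum.elim (fun I : {I // I ∈ expo (Fin (n + 1)) d} => a I.1)
      (fun i : Fin (m + 2) => x (j i) / x l))) :
    ¬ CertLV e (vV κ f) d a b x := by
  classical
  choose δ hδ using fun i : Fin (m + 2) => exists_der_indepV hind
    (Sum.elim (fun _ => (0 : κ)) fun i' => if i = i' then 1 else 0)
  choose W hW using fun I : Fin (n + 1) →₀ ℕ => exists_der_indepV hind
    (Sum.elim (fun J => if I = J.1 then (1 : κ) else 0) fun _ => 0)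
  refine no_certLV_der hd hf hdim δ (fun i => (hδ i).1) (fun i I hI => ?_) W (fun I => (hW I).1)
    (fun I _ J hJ => ?_) hFx (indep_pointV (j := j) hl δ fun i i' => ?_)
  · exact (hδ i).2 (Sum.inl ⟨I, hI⟩)
  · exact (hW I).2 (Sum.inl ⟨J, hJ⟩)
  · exact (hδ i).2 (Sum.inr i')

end Pool.Agent.Lib.MP_44a246_ntY
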