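import Mathlib
import Pool.Agent.Lib.MP_44a246_ntU.U15
import Pool.Agent.Lib.MP_44a246_ntU.U17
import Pool.Agent.Lib.MP_44a246_ntY.Y73
import Pool.Agent.Lib.MP_44a246_ntY.Y74

/-!
Compactness: the coordinates of the points on curves of small degree which meet the hypersurface in
few points satisfy an equation.
-/

namespace Pool.Agent.Lib.MP_44a246_ntY

open Pool.Agent.Lib.MP_e52354_nt
open Pool.Agent.Lib.MP_44a246_nt
open Pool.Agent.Lib.MP_44a246_ntL
open Pool.Agent.Lib.MP_44a246_ntS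
open Pool.Agent.Lib.MP_44a246_ntU

universe v w

/-- The contradiction in the ultrapower. -/
private theorem excLV_aux {k L : Type*} [Field k] [CharZero k] [Field L] [CharZero L]
    [IsAlgClosed L] [Algebra k L]
    {n m d b : ℕ} (hd : m + 5 + 7 * b ≤ d) {ι : Type*} {e : ι → ℕ}
    {f : ι → MvPolynomial (Fin (n + 1)) k} (hf : ∀ i, (f i).IsHomogeneous (e i))
    (hdim : ringKrullDim (MvPolynomial (Fin (n + 1)) k ⧸ Ideal.span (Set.range f)) ≤
      ((m + 3 : ℕ) : ℕ))
    {a : (Fin (n + 1) →₀ ℕ) → L} {l : Fin (n + 1)} {j : Fin (m + 2) → Fin (n + 1)}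
    {z : ℕ → Fin (m + 2) → L} {x : ℕ → Fin (n + 1) → L}
    (hz : ∀ H : MvPolynomial ({I // I ∈ expo (Fin (n + 1)) d} ⊕ Fin (m + 2)) k, H ≠ 0 →
      ∃ N₀, ∀ N ≥ N₀, MvPolynomial.aeval
        (Sum.elim (fun I : {I // I ∈ expo (Fin (n + 1)) d} => a I.1) (z N)) H ≠ 0)
    (hx1 : ∀ N, CertLV e (vV L f) d a b (x N)) (hx2 : ∀ N, x N l = 1)
    (hx3 : ∀ N i, z N i = x N (j i)) (hx4 : ∀ N, Fval d a (x N) ≠ 0) : False := by
  let _ : Algebra k (UP L) := (constHom.comp (algebraMap k L)).toAlgebra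
  have hcU : CharZero (UP L) := charZero_of_injective_ringHom (constHom (L := L)).injective
  have hac : IsAlgClosed (UP L) := isAlgClosed_UP L
  have hcg := certLV_germ hx1
  have hx0 : germHom (fun N => x N l) = 1 := by
    have : (fun N => x N l) = 1 := funext fun N => hx2 N
    rw [this, map_one]
  have hA : (fun (i : ι) (I : Fin (n + 1) →₀ ℕ) => constHom (vV L f i I)) = vV (UP L) f := rfl
  rw [hA] at hcg
  refine no_certLV_closed hd hf hdim (l := l) (j := j) ?_ ?_ ?_ hcg
  · show germHom (fun N => x N l) ≠ 0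
    rw [hx0]
    exact one_ne_zero
  · have h1 : Fval d (fun I => constHom (a I)) (fun j => germHom (fun N => x N j)) =
        germHom (fun N => Fval d a (x N)) := by
      unfold Fval mon
      have h2 : (fun N => ∑ I ∈ expo (Fin (n + 1)) d, a I * ∏ j, x N j ^ I j) =
          ∑ I ∈ expo (Fin (n + 1)) d, (fun _ : ℕ => a I) * ∏ j, (fun N => x N j) ^ I j := by
        funext N
        simp only [Finset.sum_apply, Pi.mul_apply, Finset.prod_apply, Pi.pow_apply]
      rw [h2, map_sum]
      refine Finset.sum_congr rfl fun I _ => ?_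
      rw [map_mul, map_prod]
      simp only [map_pow]
      rfl
    rw [h1]
    exact germ_ne_zero hx4
  · have h1 := algIndep_germV (RingHom.id (UP L)) (fun u => rfl)
      (z := fun N => Sum.elim (fun I : {I // I ∈ expo (Fin (n + 1)) d} => a I.1) (z N)) hz
    convert h1 using 1
    funext i
    rcases i with i | i
    · rfl
    · show germHom (fun N => x N (j i)) / germHom (fun N => x N l) =
        germHom (fun N => z N i)
      rw [hx0, div_one]
      congr 1
      funext N
      exact (hx3 N i).symm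

/-- **Compactness.** -/
theorem exists_excLV {k K L : Type*} [Field k] [CharZero k] [Countable k] [Field K] [CharZero K]
    [Field L] [CharZero L] [IsAlgClosed L] [Algebra k K] [Algebra K L] [Algebra k L]
    [IsScalarTower k K L]
    {n m d b : ℕ} (hd : m + 5 + 7 * b ≤ d) {ι : Type*} {e : ι → ℕ}
    {f : ι → MvPolynomial (Fin (n + 1)) k} (hf : ∀ i, (f i).IsHomogeneous (e i))
    (hdim : ringKrullDim (MvPolynomial (Fin (n + 1)) k ⧸ Ideal.span (Set.range f)) ≤
      ((m + 3 : ℕ) : ℕ))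
    {a : (Fin (n + 1) →₀ ℕ) → K}
    (ha : AlgebraicIndependent k (fun I : {I // I ∈ expo (Fin (n + 1)) d} => a I.1))
    (l : Fin (n + 1)) (j : Fin (m + 2) → Fin (n + 1)) :
    ∃ g : MvPolynomial (Fin (m + 2)) K, g ≠ 0 ∧ ∀ x : Fin (n + 1) → L,
      CertLV e (vV L f) d (fun I => algebraMap K L (a I)) b x →
        Fval d (fun I => algebraMap K L (a I)) x ≠ 0 → x l ≠ 0 →
        MvPolynomial.aeval (fun i => x (j i) / x l) g = 0 := by
  classical
  set S : Set (Fin (m + 2) → L) := {z | ∃ x : Fin (n + 1) → L,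
    CertLV e (vV L f) d (fun I => algebraMap K L (a I)) b x ∧
      Fval d (fun I => algebraMap K L (a I)) x ≠ 0 ∧ x l = 1 ∧
      ∀ i : Fin (m + 2), z i = x (j i)} with hS
  have key : ∃ g : MvPolynomial (Fin (m + 2)) K, g ≠ 0 ∧ ∀ z ∈ S, MvPolynomial.aeval z g = 0 := by
    by_contra hcon
    push Not at hcon
    obtain ⟨z, hzS, hz⟩ := exists_generic_seqV (L := L) ha (S := S) fun g hg => by
      obtain ⟨z, hz1, hz2⟩ := hcon g hg
      exact ⟨z, hz1, hz2⟩
    choose x hx1 hx4 hx2 hx3 using hzS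
    exact excLV_aux (a := fun I => algebraMap K L (a I)) (l := l) (j := j) (z := z) (x := x)
      hd hf hdim hz hx1 hx2 hx3 hx4
  obtain ⟨g, hg0, hg⟩ := key
  refine ⟨g, hg0, fun x hx hFx hx0 => ?_⟩
  refine hg _ ⟨fun k => (x l)⁻¹ * x k, hx.smul_of (inv_ne_zero hx0), ?_, inv_mul_cancel₀ hx0,
    fun i => div_eq_inv_mul _ _⟩
  rw [Fval_smul]
  exact mul_ne_zero (pow_ne_zero _ (inv_ne_zero hx0)) hFx

/-- **The exceptional set**, for the points over the algebraic closure: it is given by finitely many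
forms and the dimension of its cone is at most `m + 2`, that is at most `r` if `r = m + 2` is the
dimension of the variety. -/
theorem exists_excFormsLV {k : Type*} {K : Type v} [Field k] [CharZero k] [Countable k] [Field K]
    [CharZero K] [Algebra k K] {n m d b : ℕ} (hd : m + 5 + 7 * b ≤ d) {ι : Type*} {e : ι → ℕ}
    {f : ι → MvPolynomial (Fin (n + 1)) k} (hf : ∀ i, (f i).IsHomogeneous (e i))
    (hdim : ringKrullDim (MvPolynomial (Fin (n + 1)) k ⧸ Ideal.span (Set.range f)) ≤
      ((m + 3 : ℕ) : ℕ))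
    {a : (Fin (n + 1) →₀ ℕ) → K}
    (ha : AlgebraicIndependent k (fun I : {I // I ∈ expo (Fin (n + 1)) d} => a I.1)) :
    ∃ (s : ℕ) (G : Fin s → MvPolynomial (Fin (n + 1)) K), (∀ i, ∃ E, (G i).IsHomogeneous E) ∧
      ringKrullDim (MvPolynomial (Fin (n + 1)) K ⧸ Ideal.span (Set.range G)) ≤ ((m + 2 : ℕ) : ℕ) ∧
      ∀ x : Fin (n + 1) → AlgebraicClosure K,
        CertLV e (vV (AlgebraicClosure K) f) d (fun I => algebraMap K (AlgebraicClosure K) (a I)) b
          x → Fval d (fun I => algebraMap K (AlgebraicClosure K) (a I)) x ≠ 0 →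
          ∀ i, MvPolynomial.aeval x (G i) = 0 := by
  have hex : ∀ (l : Fin (n + 1)) (j : Fin (m + 2) → Fin (n + 1)),
      ∃ g : MvPolynomial (Fin (m + 2)) K, g ≠ 0 ∧ ∀ x : Fin (n + 1) → AlgebraicClosure K,
        CertLV e (vV (AlgebraicClosure K) f) d
          (fun I => algebraMap K (AlgebraicClosure K) (a I)) b x →
        Fval d (fun I => algebraMap K (AlgebraicClosure K) (a I)) x ≠ 0 → x l ≠ 0 →
          MvPolynomial.aeval (fun i => x (j i) / x l) g = 0 :=
    fun l j => exists_excLV hd hf hdim ha l j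
  choose g hg0 hg using hex
  have hex2 : ∀ (l : Fin (n + 1)) (j : Fin (m + 2) → Fin (n + 1)),
      ∃ (E : ℕ) (G : MvPolynomial (Fin (n + 1)) K), G.IsHomogeneous E ∧
        ∀ {L : Type v} [Field L] [Algebra K L] (x : Fin (n + 1) → L),
          (x l = 0 → MvPolynomial.aeval x G = 0) ∧
            (x l ≠ 0 → MvPolynomial.aeval x G =
              x l ^ E * MvPolynomial.aeval (fun i => x (j i) / x l) (g l j)) :=
    fun l j => exists_homogV (g l j) l j
  choose E G hGh hG using hex2
  let eq := Fintype.equivFin (Fin (n + 1) × (Fin (m + 2) → Fin (n + 1)))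
  refine ⟨_, fun i => G (eq.symm i).1 (eq.symm i).2, fun i => ⟨_, hGh _ _⟩, ?_, ?_⟩
  · refine dim_excV (m := m + 1) hg0 (E := E) (G := G) (fun l j L _ _ x hx => (hG l j x).2 hx) ?_
    intro l j
    refine Ideal.subset_span ⟨eq (l, j), ?_⟩
    simp only [Equiv.symm_apply_apply]
  · intro x hx hFx i
    by_cases hl : x (eq.symm i).1 = 0
    · exact (hG _ _ x).1 hl
    · rw [(hG _ _ x).2 hl, hg _ _ _ hx hFx hl, mul_zero]

end Pool.Agent.Lib.MP_44a246_ntY
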