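import Mathlib
import Pool.Agent.Lib.MP_44a246_ntS.SJ5
import Pool.Agent.Lib.MP_44a246_ntS.SQ1c
import Pool.Agent.Lib.MP_44a246_ntY.Y63
import Pool.Agent.Lib.MP_44a246_ntY.Y70

/-!
The certificate for pairs, or many points on the hypersurface; arbitrary varieties.
-/

namespace Pool.Agent.Lib.MP_44a246_ntY

open Pool.Agent.Lib.MP_44a246_nt
open Pool.Agent.Lib.MP_44a246_ntL
open Pool.Agent.Lib.MP_44a246_ntS
open Pool.Agent.Lib.MP_44a246_ntG
open Pool.Agent.Lib.MP_e52354_nt
open WithZero Module Polynomial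

section

variable {κ L M : Type*} [Field κ] [IsAlgClosed κ] [CharZero κ] [Field L] [CharZero L]
  [Algebra κ L] [Field M] [IsAlgClosed M] [Algebra L M] {n d : ℕ} (X : DatG κ (L := L) n d)
  {b : ℕ} {A : L[X][X]} (hA : CrvG X b A)

include hA in
/-- **The certificate, or many points.** -/
theorem certLV_or (h : IsFF κ L) {τ : Place κ L → ℕ} (hτ : (Function.support τ).Finite)
    {ι : Type*} {e : ι → ℕ} {v : ι → (Fin (n + 1) →₀ ℕ) → L}
    (hv : ∀ i, ∀ I ∈ expo (Fin (n + 1)) (e i), ∀ w : Place κ L, w.1 (v i I) ≤ exp (τ w : ℤ))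
    (hz : ∀ i, Fval (e i) (v i) X.x = 0)
    (hh : ∀ i, (e i * b : ℤ) * gh κ A + b * (∑ᶠ w, (τ w : ℤ) + e i * (2 * gh κ A + X.Δ)) <
      height κ X.x)
    (hlin : (b : ℤ) * gh κ A + b * (2 * gh κ A + X.Δ) < height κ X.x) :
    CertLV e (fun i I => algebraMap L M (v i I)) d (fun I => algebraMap L M (X.a I)) b
      (fun j => algebraMap L M (X.x j)) ∨
    ∃ (A₁ : M[X][X]) (E : Finset (M × M)), Irreducible A₁ ∧ A₁ ∣ ex M A ∧ A₁.natDegree ≠ 0 ∧
      A₁.evalEval (algebraMap L M X.y₁) (algebraMap L M X.y) = 0 ∧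
      (∀ p ∈ E, A₁.evalEval p.1 p.2 = 0 ∧ (derivative (ex M A)).evalEval p.1 p.2 ≠ 0 ∧
        (ex M (FB d X.a (X.B A))).evalEval p.1 p.2 = 0) ∧
      2 * A₁.natDegree + A₁.natDegree * (A₁.natDegree - 1) / 2 < E.card := by
  classical
  obtain ⟨l0, l1, l2⟩ := dvd_lin X hA h hlin
  have hBd : ∀ j, (X.B A j).natDegree ≤ b := fun j => (X.B_box hA j).1
  have hFv : ∀ i, A ∣ FB (e i) (v i) (X.B A) := fun i =>
    dvd_of_small X hA h (FB_natDegree hBd) (gh_FB X hA h hτ (hv i)) (FB_zero X hA (hz i)) (hh i)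
  have hev : ∀ P : L[X][X], (ex M P).evalEval (algebraMap L M X.y₁) (algebraMap L M X.y) =
      algebraMap L M (P.evalEval X.y₁ X.y) := fun P => m2_evalEval _ P _ _
  have hder : derivative (ex M A) = ex M (derivative A) := (m2_derivative _ A).symm
  have hz : (ex M A).evalEval (algebraMap L M X.y₁) (algebraMap L M X.y) = 0 := by
    rw [hev, hA.zero, map_zero]
  have hdne : (derivative (ex M A)).evalEval (algebraMap L M X.y₁) (algebraMap L M X.y) ≠ 0 := by
    rw [hder, hev]
    exact (_root_.map_ne_zero _).2 hA.der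
  obtain ⟨A₁, h1, h2, h3, h4, h5⟩ := exists_factor hz hdne
  have hA0 : ex M A ≠ 0 := by
    intro h0
    rw [h0] at hdne
    simp at hdne
  by_cases hE : ∀ E : Finset (M × M),
      (∀ p ∈ E, A₁.evalEval p.1 p.2 = 0 ∧ (derivative A₁).evalEval p.1 p.2 ≠ 0 ∧
        (derivative (ex M A)).evalEval p.1 p.2 ≠ 0 ∧
        (FB d (fun I => algebraMap L M (X.a I)) (fun j => ex M (X.B A j))).evalEval p.1 p.2 = 0) →
      E.card ≤ 2 * A₁.natDegree + A₁.natDegree * (A₁.natDegree - 1) / 2
  · left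
    have hboxA : Box b (ex M A) := hA.box.m2 (algebraMap L M)
    have hmap : ∀ (c : Fin (n + 1) → L) (Q : L[X][X]), A ∣ ∑ j, C (C (c j)) * X.B A j - Q →
        A₁ ∣ ∑ j, C (C (algebraMap L M (c j))) * ex M (X.B A j) - ex M Q := by
      intro c Q hQ
      have h6 := map_dvd (m2 (algebraMap L M)) hQ
      rw [map_sub, map_sum] at h6
      simp only [map_mul, m2_CC] at h6
      exact h4.trans h6
    refine ⟨A₁, derivative (ex M A), fun j => ex M (X.B A j), fun j => algebraMap L M (X.ξ₀ j : L),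
      fun j => algebraMap L M (X.ξ₁ j : L), fun j => algebraMap L M (algebraMap κ L (X.z j)), 1,
      algebraMap L M X.y₁, algebraMap L M X.y, h1, Box.of_dvd hboxA hA0 h4, ?_,
      fun j => (X.B_box hA j).m2 (algebraMap L M), one_ne_zero, ?_, ?_, ?_, h5, ?_, hdne, ?_,
      ?_, ?_, ?_, ?_, hE⟩
    · exact box_derivative' hboxA
    · simp only [one_mul, ← map_mul, ← map_sum]
      rw [X.h0, map_one]
    · simp only [one_mul, ← map_mul, ← map_sum]
      rfl
    · simp only [one_mul, ← map_mul, ← map_sum]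
      rfl
    · -- `ex M A = A₁ * U`
      obtain ⟨U, hU⟩ := h4
      intro h0
      apply hdne
      rw [hU, derivative_mul, evalEval_add, evalEval_mul, evalEval_mul, h0, h5, zero_mul, zero_mul,
        add_zero]
    · intro j
      rw [one_mul, hder, hev, hev, ← map_mul, X.B_eval hA j]
    · intro i
      rw [← ex_FB]
      exact h4.trans (map_dvd (m2 (algebraMap L M)) (hFv i))
    · have := hmap (fun j => (X.ξ₀ j : L)) (derivative A) l0
      rwa [hder]
    · have := hmap (fun j => (X.ξ₁ j : L)) (C Polynomial.X * derivative A) l1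
      rw [hder]
      have e1 : ex M (C Polynomial.X * derivative A) = C Polynomial.X * ex M (derivative A) := by
        simp [ex_eq_m2, m2]
      rwa [e1] at this
    · have := hmap (fun j => algebraMap κ L (X.z j)) (Polynomial.X * derivative A) l2
      rw [hder]
      have e1 : ex M (Polynomial.X * derivative A) = Polynomial.X * ex M (derivative A) := by
        simp [ex_eq_m2, m2]
      rwa [e1] at this
  · right
    push Not at hE
    obtain ⟨E, hE1, hE2⟩ := hE
    refine ⟨A₁, E, h1, h4, h2.ne', h5, fun p hp => ?_, hE2⟩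
    obtain ⟨p1, -, p3, p4⟩ := hE1 p hp
    refine ⟨p1, p3, ?_⟩
    rw [ex_FB]
    exact p4

end

end Pool.Agent.Lib.MP_44a246_ntY
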