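import Mathlib
import Pool.Agent.Lib.MP_44a246_ntY.Y64
import Pool.Agent.Lib.MP_44a246_ntY.Y77

/-!
The local version of the theorem for arbitrary varieties: the data over one finite extension.
-/

namespace Pool.Agent.Lib.MP_44a246_ntY

open Pool.Agent.Lib.MP_44a246_nt
open Pool.Agent.Lib.MP_44a246_ntL
open Pool.Agent.Lib.MP_44a246_ntS
open Pool.Agent.Lib.MP_44a246_ntG
open Pool.Agent.Lib.MP_e52354_nt
open WithZero Module Polynomial

universe u v w x y

/-- the constant of the theorem for varieties given by forms of degree at most `N` -/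
noncomputable def cLogV (d T N : ℕ) : ℕ := cLog d T + 8 * T * N + 2 * T

/-- **The local version**, for varieties. -/
theorem log_localV {κ : Type u} {K : Type v} [Field κ] [IsAlgClosed κ] [CharZero κ] [Field K]
    [Algebra κ K] (hK : IsFF κ K) :
    ∃ C : ℕ, ∀ (L : Type w) (M : Type x) [Field L] [CharZero L] [Algebra κ L] [Algebra K L]
      [IsScalarTower κ K L] [FiniteDimensional K L] [Field M] [Algebra κ M] [Algebra L M]
      [IsScalarTower κ L M] [IsAlgClosed M] [Algebra.IsAlgebraic L M]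
      {n r d T N : ℕ} (_ : 1 ≤ T) (_ : 2000 * T ^ 2 ≤ d)
      (_ : 2 * (r + 1) + 8500 * T ^ 2 + T * (r + 4) ≤ T * d) (_ : 12500 * T ≤ d)
      (X : DatG κ (L := L) n d) (_ : X.v ≠ 0) (_ : finrank L X.Ux ≤ r)
      {ι : Type y} {e : ι → ℕ} {v : ι → (Fin (n + 1) →₀ ℕ) → L} (_ : ∀ i, e i ≤ N)
      (_ : ∀ i, Fval (e i) (v i) X.x = 0)
      {ε α : Place κ L → ℕ} (_ : (Function.support ε).Finite) (_ : (Function.support α).Finite)
      (_ : ∀ w : Place κ L, w.1 X.v = vmax w.1 X.x ^ d ∨ 1 ≤ ε w)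
      (_ : ∀ I ∈ expo (Fin (n + 1)) d, ∀ w : Place κ L, w.1 (X.a I) ≤ exp (α w : ℤ))
      (_ : ∀ i, ∀ I ∈ expo (Fin (n + 1)) (e i), ∀ w : Place κ L, w.1 (v i I) ≤ exp (α w : ℤ)),
      height κ X.x ≤ cLogV d T N * (X.Δ + X.R + ∑ᶠ w, (ε w : ℤ) + ∑ᶠ w, (α w : ℤ) +
        (ramDeg κ L K : ℤ) + C * finrank K L) ∨
      CertLV e (fun i I => algebraMap L M (v i I)) d (fun I => algebraMap L M (X.a I)) (2 * T)
        (fun j => algebraMap L M (X.x j)) := by
  classical
  obtain ⟨C, hC⟩ := moving_curve_rel.{u, v, w, x} hK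
  refine ⟨C, ?_⟩
  intro L M _ _ _ _ _ _ _ _ _ _ _ _ n r d T N hT hT2 hN hd1 X hv hrx ι e v he hz ε α hε hα hεv
    ha hva
  have hL : IsFF κ L := hK.of_finite
  have hΔ := X.Δ_nonneg
  have hR0 := X.R_nonneg
  have hε0 : 0 ≤ ∑ᶠ w, (ε w : ℤ) := finsum_nonneg fun w => Int.natCast_nonneg _
  have hα0 : 0 ≤ ∑ᶠ w, (α w : ℤ) := finsum_nonneg fun w => Int.natCast_nonneg _
  have hram : (0 : ℤ) ≤ (ramDeg κ L K : ℤ) := Int.natCast_nonneg _
  have hCf : (0 : ℤ) ≤ C * finrank K L := by positivity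
  have hH := hL.height_nonneg X.x_ne_zero
  set S : ℤ := X.Δ + X.R + ∑ᶠ w, (ε w : ℤ) + ∑ᶠ w, (α w : ℤ) + (ramDeg κ L K : ℤ) +
    C * finrank K L with hS
  have hS0 : 0 ≤ S := by positivity
  have hcl : (cLog d T : ℤ) ≤ cLogV d T N := by
    unfold cLogV
    push_cast
    have : (0 : ℤ) ≤ 8 * T * N + 2 * T := by positivity
    linarith
  have hcN : (8 * T * N + 2 * T : ℤ) * S ≤ cLogV d T N * S := by
    refine mul_le_mul_of_nonneg_right ?_ hS0
    unfold cLogV
    push_cast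
    have : (0 : ℤ) ≤ cLog d T := Int.natCast_nonneg _
    linarith
  have hc1 : (27 * (d : ℤ) ^ 2) * S ≤ cLogV d T N * S := by
    refine mul_le_mul_of_nonneg_right (le_trans ?_ hcl) hS0
    unfold cLog
    push_cast
    have : (0 : ℤ) ≤ (3 * d + 1) * (cE (2 * T) (d * (2 * T)) d : ℤ) := by positivity
    linarith
  have hc2 : 1 * S ≤ cLogV d T N * S := by
    refine mul_le_mul_of_nonneg_right (le_trans ?_ hcl) hS0
    unfold cLog
    push_cast
    have : (0 : ℤ) ≤ (3 * d + 1) * (cE (2 * T) (d * (2 * T)) d : ℤ) := by positivity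
    have h27 : (0 : ℤ) ≤ 27 * (d : ℤ) ^ 2 := by positivity
    linarith
  rcases le_or_gt (height κ X.x) (27 * (d : ℤ) ^ 2 * (X.Δ + ∑ᶠ w, (ε w : ℤ))) with hle | hbig
  · left
    refine hle.trans (le_trans ?_ hc1)
    exact mul_le_mul_of_nonneg_left (by linarith) (by positivity)
  rcases le_or_gt (height κ X.x) X.R with hle | hR
  · left
    refine hle.trans (le_trans ?_ hc2)
    linarith
  rcases le_or_gt (height κ X.x) ((8 * T * N + 2 * T : ℤ) * S) with hle | hbigN
  · left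
    exact hle.trans hcN
  -- the curve
  have hr : finrank L X.U ≤ r + 1 := by
    have h1 := Submodule.finrank_add_le_finrank_add_finrank X.Ux (Submodule.span L {X.row X.v})
    have h2 : finrank L ↥(Submodule.span L ({X.row X.v} : Set (M3 d → L))) ≤ 1 := by
      have h3 := finrank_span_le_card (R := L) ({X.row X.v} : Set (M3 d → L))
      simpa using h3
    have h4 : finrank L X.U = finrank L ↥(X.Ux ⊔ Submodule.span L {X.row X.v}) := rfl
    omega
  obtain ⟨A, hCA, hmon, hgh⟩ := exists_small_curve_log hL (n := n) (d := d) (T := T) (r := r + 1)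
    (q := 1) hT hT2 (by omega) (by
      have e : T * (r + 1 + 2 + 1) = T * (r + 4) := by ring
      rw [e]
      exact hN) X hr hv hε hεv (by push_cast; linarith) hbig
  have hgh' : 5 * (gh κ A * ((d / 8 : ℕ) : ℤ) ^ 2) ≤ 16 * (5 * height κ X.x) := hgh
  have hghA := gh_nonneg hL hCA.irr.ne_zero
  have hgh2 : gh κ A ≤ X.Δ + X.R := by
    refine gh_le_ΔR hL hT hT2 (by
      have e : T * (r + 1 + 3) = T * (r + 4) := by ring
      rw [e]
      exact hN) hd1 X hCA hmon (hrx.trans (by omega)) (E := X.Δ + ∑ᶠ w, (ε w : ℤ)) ?_ (by linarith) hbig hgh'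
    intro J N hNN
    have h1 := ht_VJ_log X hCA hL hNN hv hε hεv
    linarith
  -- the certificate or the points
  have hlin : ((2 * T : ℕ) : ℤ) * gh κ A + ((2 * T : ℕ) : ℤ) * (2 * gh κ A + X.Δ) <
      height κ X.x := by
    have hpos : 0 < height κ X.x := lt_of_le_of_lt (by positivity) hbig
    have h1 := numG3 (n := r + 1) (d := d) (T := T) (e := 1) (s₀ := 5) (by norm_num) hT hT2
      (by nlinarith) (by nlinarith) hpos hΔ le_rfl hghA hgh'
      (by rw [add_zero]; nlinarith [mul_nonneg (show (0 : ℤ) ≤ 27 * (d : ℤ) ^ 2 by positivity) hε0])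
    push_cast at h1 ⊢
    linarith
  have hh : ∀ i, (e i * (2 * T : ℕ) : ℤ) * gh κ A + (2 * T : ℕ) * (∑ᶠ w, (α w : ℤ) +
      e i * (2 * gh κ A + X.Δ)) < height κ X.x := by
    intro i
    refine lt_of_le_of_lt ?_ hbigN
    have e1 : (e i : ℤ) ≤ N := by exact_mod_cast he i
    have e2 : (0 : ℤ) ≤ T := Int.natCast_nonneg _
    have e3 : (0 : ℤ) ≤ e i := Int.natCast_nonneg _
    have hTe : (T : ℤ) * e i ≤ T * N := mul_le_mul_of_nonneg_left e1 e2
    have e4 : gh κ A ≤ S := by rw [hS]; linarith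
    have e5 : X.Δ ≤ S := by rw [hS]; linarith
    have e6 : ∑ᶠ w, (α w : ℤ) ≤ S := by rw [hS]; linarith
    have e7 : (T * e i : ℤ) * gh κ A ≤ T * N * S := mul_le_mul hTe e4 hghA (by positivity)
    have e8 : (T * e i : ℤ) * X.Δ ≤ T * N * S := mul_le_mul hTe e5 hΔ (by positivity)
    have e9 : (T : ℤ) * ∑ᶠ w, (α w : ℤ) ≤ T * S := mul_le_mul_of_nonneg_left e6 e2
    push_cast
    linarith
  rcases certLV_or (M := M) X hCA hL hα hva hz hh hlin with
    hcert | ⟨A₁, E, h1, h2, h3, h4, h5, h6⟩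
  · exact Or.inr hcert
  left
  obtain ⟨t1, t2⟩ := tauL_sum X hCA hL hα
  have hval := FB_value X hCA
  have hPhi : (FB d X.a (X.B A)).evalEval X.y₁ X.y ≠ 0 := by
    rw [hval]
    exact mul_ne_zero (pow_ne_zero _ hCA.der) hv
  have hle : ∀ w : Place κ L, w.1 X.y ≤ max 1 (w.1 X.y₁) := by
    intro w
    rw [← X.vmax_x w]
    unfold DatG.y
    refine Valuation.map_sum_le _ fun j _ => ?_
    rw [map_mul]
    refine le_trans (mul_le_mul' ?_ (le_vmax w.1 X.x j)) (le_of_eq (one_mul _))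
    by_cases hz : X.z j = 0
    · rw [hz, map_zero, map_zero]
      exact zero_le
    · exact (w.2.2 _ hz).le
  have hP : ∀ w : Place κ L, w ∉ hε.toFinset →
      w.1 ((derivative A).evalEval X.y₁ X.y) ^ d ≤ w.1 ((FB d X.a (X.B A)).evalEval X.y₁ X.y) := by
    intro w hw
    rw [Set.Finite.mem_toFinset, Function.mem_support, not_not] at hw
    have h7 : w.1 X.v = vmax w.1 X.x ^ d := by
      rcases hεv w with h8 | h8
      · exact h8
      · omega
    rw [hval, map_mul, map_pow, h7]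
    exact le_mul_of_one_le_right' (one_le_pow₀ (X.one_le_vmax w))
  have hmain := hC L M (tauL X A α) t1 (2 * T) (d * (2 * T)) d A (FB d X.a (X.B A)) hCA.irr
    hCA.deg hCA.box (box_FB d X.a (X.B_box hCA)) (fun w => (gg_le_tauL X hCA hL ha w).1)
    (fun w => (gg_le_tauL X hCA hL ha w).2) X.y₁ X.y hCA.zero hPhi hle hε.toFinset hP A₁ h1 h2 h3
    h4 E h5 h6
  rw [X.height_y₁, t2] at hmain
  have hcard : (hε.toFinset.card : ℤ) ≤ ∑ᶠ w, (ε w : ℤ) := by
    rw [finsum_eq_sum_of_support_subset (s := hε.toFinset) _ (by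
      intro w hw
      rw [Function.mem_support] at hw
      rw [Set.Finite.coe_toFinset, Function.mem_support]
      exact_mod_cast hw)]
    rw [Finset.card_eq_sum_ones]
    push_cast
    refine Finset.sum_le_sum fun w hw => ?_
    rw [Set.Finite.mem_toFinset, Function.mem_support] at hw
    have : 1 ≤ ε w := by omega
    exact_mod_cast this
  refine hmain.trans ?_
  have hin : (hε.toFinset.card : ℤ) + (ramDeg κ L K : ℤ) + C * finrank K L +
      (∑ᶠ w, (α w : ℤ) + (2 * d + 1) * gh κ A + d * X.Δ) ≤ (3 * d + 1) * S := by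
    have hd0 : (0 : ℤ) ≤ d := Int.natCast_nonneg _
    have e1 : (2 * (d : ℤ) + 1) * gh κ A ≤ (2 * d + 1) * (X.Δ + X.R) :=
      mul_le_mul_of_nonneg_left hgh2 (by positivity)
    have e2 : (3 * (d : ℤ) + 1) * S = (2 * d + 1) * (X.Δ + X.R) + d * X.Δ + (d * X.R +
      (3 * d) * (∑ᶠ w, (ε w : ℤ) + ∑ᶠ w, (α w : ℤ) + (ramDeg κ L K : ℤ) + C * finrank K L)) +
      (∑ᶠ w, (ε w : ℤ) + ∑ᶠ w, (α w : ℤ) + (ramDeg κ L K : ℤ) + C * finrank K L) := by
      rw [hS]
      ring
    have e3 : 0 ≤ d * X.R +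
      (3 * d) * (∑ᶠ w, (ε w : ℤ) + ∑ᶠ w, (α w : ℤ) + (ramDeg κ L K : ℤ) + C * finrank K L) := by
      positivity
    rw [e2]
    linarith
  have hcE : (0 : ℤ) ≤ (cE (2 * T) (d * (2 * T)) d : ℤ) := Int.natCast_nonneg _
  calc _ ≤ (cE (2 * T) (d * (2 * T)) d : ℤ) * ((3 * d + 1) * S) :=
        mul_le_mul_of_nonneg_left hin hcE
    _ = ((3 * d + 1) * (cE (2 * T) (d * (2 * T)) d : ℤ)) * S := by ring
    _ ≤ cLogV d T N * S := by
        refine mul_le_mul_of_nonneg_right (le_trans ?_ hcl) hS0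
        unfold cLog
        push_cast
        have : (0 : ℤ) ≤ 27 * (d : ℤ) ^ 2 := by positivity
        linarith

end Pool.Agent.Lib.MP_44a246_ntY
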