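import Mathlib
import Pool.Agent.Lib.MP_44a246_ntU.U20
import Pool.Agent.Lib.MP_44a246_ntU.U21
import Pool.Agent.Lib.MP_44a246_ntU.U22
import Pool.Agent.Lib.MP_44a246_ntU.U23
import Pool.Agent.Lib.MP_44a246_ntU.U24
import Pool.Agent.Lib.MP_44a246_ntY.Y65
import Pool.Agent.Lib.MP_44a246_ntY.Y73
import Pool.Agent.Lib.MP_44a246_ntY.Y78

/-!
The theorem over the base field for arbitrary varieties, with a certificate.
-/

namespace Pool.Agent.Lib.MP_44a246_ntY

open Pool.Agent.Lib.MP_44a246_nt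
open Pool.Agent.Lib.MP_44a246_ntL
open Pool.Agent.Lib.MP_44a246_ntV
open Pool.Agent.Lib.MP_44a246_ntS
open Pool.Agent.Lib.MP_44a246_ntG
open Pool.Agent.Lib.MP_44a246_ntU (exists_baseV finrank_Ux_le card_le_of_dim_norm)
open Pool.Agent.Lib.MP_e52354_nt
open WithZero Module

universe u v w x y

/-- **The theorem over the base field**, for varieties, with a certificate. -/
theorem log_heightV {κ : Type u} {K : Type v} [Field κ] [IsAlgClosed κ] [CharZero κ] [Field K]
    [CharZero K] [Algebra κ K] (hK : IsFF κ K) (htr : Cardinal.aleph0 ≤ Algebra.trdeg ℚ κ)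
    {k : Type*} [Field k] [CharZero k] [Algebra k K] (hk : Algebra.trdeg ℚ k < Cardinal.aleph0)
    {n r d T N : ℕ} (hT : 1 ≤ T) (hT2 : 2000 * T ^ 2 ≤ d)
    (hN : 2 * (r + 1) + 8500 * T ^ 2 + T * (r + 4) ≤ T * d) (hd1 : 12500 * T ≤ d)
    {ι : Type y} [Finite ι] {e : ι → ℕ} (he : ∀ i, e i ≤ N)
    {f : ι → MvPolynomial (Fin (n + 1)) k} (hf : ∀ i, (f i).IsHomogeneous (e i))
    (hdim : ringKrullDim (MvPolynomial (Fin (n + 1)) k ⧸ Ideal.span (Set.range f)) ≤
      ((r + 1 : ℕ) : ℕ))
    {a : (Fin (n + 1) →₀ ℕ) → K}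
    (ha : AlgebraicIndependent k (fun I : ↥(expo (Fin (n + 1)) d) => a I.1))
    (S : Finset (Place κ K)) :
    ∃ C : ℕ, ∀ (L : Type w) (M : Type x) [Field L] [Algebra κ L] [Algebra K L]
      [IsScalarTower κ K L] [FiniteDimensional K L] [Field M] [Algebra κ M] [Algebra L M]
      [IsScalarTower κ L M] [IsAlgClosed M] [Algebra.IsAlgebraic L M] [Algebra k L]
      [IsScalarTower k K L] [Algebra k M] [IsScalarTower k L M] (x : Fin (n + 1) → L),
      (∀ i, MvPolynomial.aeval x (f i) = 0) → Fval d (fun I => algebraMap K L (a I)) x ≠ 0 →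
      height κ x ≤ 2 * cLogV d T N * ((ZS κ (S : Set (Place κ K)) d
        (fun I => algebraMap K L (a I)) x).ncard + (ramDeg κ L K : ℤ)) + C * finrank K L ∨
      CertLV e (vV M f) d (fun I => algebraMap L M (algebraMap K L (a I))) (2 * T)
        (fun j => algebraMap L M (x j)) := by
  classical
  have := Fintype.ofFinite ι
  obtain ⟨X, rfl, hXk⟩ := exists_baseV hK htr hk ha
  obtain ⟨C₀, hC₀⟩ := log_localV.{u, v, w, x, y} hK
  -- the poles of the coefficients
  let θ : Type _ := (Σ i : ι, ↥(expo (Fin (n + 1)) (e i)))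
  obtain ⟨A₂, hA₂, hA₂'⟩ := exists_polesA hK
    (fun t : θ => algebraMap k K ((f t.1).coeff t.2.1))
  have hAs : (Function.support fun v => X.A v + A₂ v).Finite := by
    refine (X.hA.union hA₂).subset fun v hv => ?_
    by_contra hcon
    rw [Set.mem_union, not_or, Function.mem_support, Function.mem_support, not_not, not_not] at hcon
    apply hv
    show X.A v + A₂ v = 0
    rw [hcon.1, hcon.2, add_zero]
  set A : Place κ K → ℕ := fun v => X.A v + A₂ v with hA
  refine ⟨cLogV d T N * ((∑ᶠ v, X.B v) + S.card + 2 * (∑ᶠ v, A v) + C₀), ?_⟩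
  intro L M _ _ _ _ _ _ _ _ _ _ _ _ _ _ _ x hfx hFx
  have hL : IsFF κ L := hK.of_finite
  have hchar : CharZero L := charZero_of_injective_algebraMap (algebraMap K L).injective
  have hd : d ≠ 0 := by omega
  have hx : x ≠ 0 := by
    rintro rfl
    apply hFx
    have h0 : (0 : Fin (n + 1) → L) = fun j => (0 : L) * (0 : Fin (n + 1) → L) j := by
      funext j
      simp
    rw [h0, Fval_smul, zero_pow hd, zero_mul]
  obtain ⟨Y, c, hc, hYa, hYx, hYδ, hYρ, hYD⟩ :=
    Pool.Agent.Lib.MP_44a246_ntU.exists_datG X hK hx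
  obtain ⟨hA1, hA2⟩ := mason_sum_over hL hAs
  obtain ⟨hB1, hB2⟩ := mason_sum_over hL X.hB
  obtain ⟨σ, hσ1, hσ2, hσ3⟩ := sum_over_S hL S
  have hα : (Function.support fun w : Place κ L => ramIdx K w.1 * A (below K w)).Finite := by
    refine hA1.subset fun w hw h0 => hw ?_
    exact Int.natCast_eq_zero.1 h0
  have hαa : ∀ I ∈ expo (Fin (n + 1)) d, ∀ w : Place κ L, w.1 (algebraMap K L (X.a I)) ≤
      exp ((ramIdx K w.1 * A (below K w) : ℕ) : ℤ) := by
    intro I hI w
    refine coef_le A (fun v => (X.ha I hI v).trans (exp_le_exp.mpr ?_)) w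
    rw [hA]
    push_cast
    have : (0 : ℤ) ≤ (A₂ v : ℤ) := Int.natCast_nonneg _
    linarith
  have hva : ∀ i, ∀ I ∈ expo (Fin (n + 1)) (e i), ∀ w : Place κ L,
      w.1 (algebraMap k L ((f i).coeff I)) ≤ exp ((ramIdx K w.1 * A (below K w) : ℕ) : ℤ) := by
    intro i I hI w
    rw [IsScalarTower.algebraMap_apply k K L]
    refine coef_le A (fun v => ((hA₂' ⟨i, ⟨I, hI⟩⟩ v)).trans (exp_le_exp.mpr ?_)) w
    rw [hA]
    push_cast
    have : (0 : ℤ) ≤ (X.A v : ℤ) := Int.natCast_nonneg _
    linarith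
  have hfY : ∀ i, MvPolynomial.aeval Y.x (f i) = 0 := by
    intro i
    have h1 := hfx i
    rw [Pool.Agent.Lib.MP_44a246_ntU.aeval_eq_Fval (hf i)] at h1 ⊢
    rw [hYx, Fval_smul, h1, mul_zero]
  -- the rank of the rows
  have hr : finrank L Y.Ux ≤ r := by
    refine finrank_Ux_le Y (k := k) (fun I hI u => ?_) fun p j hj =>
      card_le_of_dim_norm hf hdim hfY Y.h0 hj
    rw [IsScalarTower.algebraMap_apply k K L, hYD, hXk I hI u, map_zero]
  have hv : Y.v = c ^ d * Fval d (fun I => algebraMap K L (X.a I)) x := by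
    unfold DatG.v
    rw [hYa, hYx, Fval_smul]
  have hv0 : Y.v ≠ 0 := by
    rw [hv]
    exact mul_ne_zero (pow_ne_zero _ hc) hFx
  set Z := ZS κ (S : Set (Place κ K)) d (fun I => algebraMap K L (X.a I)) x with hZ
  have hZf : Z.Finite := ZS_finite hL _ d _ hFx
  have hZY : Z = ZS κ (S : Set (Place κ K)) d (fun I => algebraMap K L (X.a I)) Y.x := by
    rw [hYx, ZS_smul _ _ _ _ hc]
  set ζ : Place κ L → ℕ := fun w => if w ∈ Z then 1 else 0 with hι
  have hιf : (Function.support ζ).Finite := by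
    refine hZf.subset fun w hw => ?_
    by_contra h0
    exact hw (if_neg h0)
  have hιs : ∑ᶠ w, (ζ w : ℤ) = (Z.ncard : ℤ) := by
    rw [finsum_eq_sum_of_support_subset (s := hZf.toFinset) _ (by
      intro w hw
      rw [Set.Finite.coe_toFinset]
      by_contra h0
      apply hw
      simp only [hι]
      rw [if_neg h0, Nat.cast_zero])]
    rw [Set.ncard_eq_toFinset_card _ hZf, Finset.card_eq_sum_ones]
    push_cast
    refine Finset.sum_congr rfl fun w hw => ?_
    rw [Set.Finite.mem_toFinset] at hw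
    simp only [hι]
    rw [if_pos hw, Nat.cast_one]
  have c1 : ∀ {f : Place κ L → ℕ}, (Function.support f).Finite →
      (Function.support fun w => (f w : ℤ)).Finite := fun hf =>
    hf.subset fun w hw h0 => hw (by simp only; rw [h0, Nat.cast_zero])
  set ε : Place κ L → ℕ := fun w => ζ w + σ w + ramIdx K w.1 * A (below K w) with hε
  have hεf : (Function.support ε).Finite :=
    (((hιf.union hσ1).subset (Function.support_add _ _)).union hα).subset (Function.support_add _ _)
  have hεs : ∑ᶠ w, (ε w : ℤ) = (Z.ncard : ℤ) + S.card * finrank K L +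
      ((∑ᶠ v, A v : ℕ) : ℤ) * finrank K L := by
    rw [← hιs, ← hσ3, ← hA2, ← finsum_add_distrib (c1 hιf) (c1 hσ1), ← finsum_add_distrib
      (((c1 hιf).union (c1 hσ1)).subset (Function.support_add _ _)) hA1]
    refine finsum_congr fun w => ?_
    simp only [hε]
    push_cast
    ring
  have hεv : ∀ w : Place κ L, w.1 Y.v = vmax w.1 Y.x ^ d ∨ 1 ≤ ε w := by
    intro w
    by_contra hcon
    push Not at hcon
    obtain ⟨h1, h2⟩ := hcon
    have h3 : ε w = 0 := by omega
    simp only [hε] at h3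
    have h4 : ζ w = 0 := by omega
    have h5 : σ w = 0 := by omega
    have h6 : ramIdx K w.1 * A (below K w) = 0 := by omega
    have h7 : w ∉ Z := by
      intro h8
      simp only [hι] at h4
      rw [if_pos h8] at h4
      exact one_ne_zero h4
    have h8 : below K w ∉ S := by
      intro h9
      have := hσ2 w h9
      omega
    have h9 : w.1 (Fval d (fun I => algebraMap K L (X.a I)) Y.x) ≤ vmax w.1 Y.x ^ d :=
      Fval_le (α := fun w => ramIdx K w.1 * A (below K w)) hαa Y.x w h6
    have h10 : Y.v = Fval d (fun I => algebraMap K L (X.a I)) Y.x := by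
      unfold DatG.v
      rw [hYa]
    rw [h10] at h1
    apply h7
    rw [hZY]
    exact ⟨by simpa using h8, lt_of_le_of_ne h9 h1⟩
  have hmain := hC₀ L M hT hT2 hN hd1 Y hv0 hr he
    (v := fun i I => algebraMap k L ((f i).coeff I)) (fun i => by
      rw [← Pool.Agent.Lib.MP_44a246_ntU.aeval_eq_Fval (hf i)]
      exact hfY i) hεf hα hεv (fun I hI w => by
    rw [hYa]
    exact hαa I hI w) hva
  have h1 : height κ Y.x = height κ x := by
    rw [hYx]
    exact hL.height_smul hc
  have h2 : Y.Δ = ((∑ᶠ v, X.B v : ℕ) : ℤ) * Module.finrank K L := by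
    unfold DatG.Δ
    rw [hYδ, ← hB2]
  have h3 : Y.R = ramDeg κ L K := by
    unfold DatG.R
    rw [hYρ]
    exact (mason_sum_ram (K := K) hL).2
  rcases hmain with h | h
  · left
    rw [h1, h2, h3, hA2, hεs] at h
    refine h.trans ?_
    push_cast
    have hc0 : (0 : ℤ) ≤ cLogV d T N := Int.natCast_nonneg _
    have hz0 : (0 : ℤ) ≤ (cLogV d T N : ℤ) * Z.ncard := by positivity
    nlinarith
  · right
    rw [hYa, hYx] at h
    have hvM : (fun (i : ι) (I : Fin (n + 1) →₀ ℕ) => algebraMap L M (algebraMap k L ((f i).coeff I)))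
        = vV M f := by
      funext i I
      exact (IsScalarTower.algebraMap_apply k L M _).symm
    rw [hvM] at h
    have h4 := h.smul_of (r := (algebraMap L M c)⁻¹) (inv_ne_zero ((map_ne_zero _).2 hc))
    have h5 : (fun j => (algebraMap L M c)⁻¹ * algebraMap L M (c * x j)) =
        fun j => algebraMap L M (x j) := by
      funext j
      rw [map_mul, inv_mul_cancel_left₀ ((map_ne_zero _).2 hc)]
    rwa [h5] at h4

end Pool.Agent.Lib.MP_44a246_ntY
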