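import Mathlib
import Pool.Agent.Lib.MP_44a246_ntY.Y66
import Pool.Agent.Lib.MP_44a246_ntY.Y75
import Pool.Agent.Lib.MP_44a246_ntY.Y79

/-!
The theorem for pairs consisting of a variety and a generic hypersurface section over a function
field.
-/

namespace Pool.Agent.Lib.MP_44a246_ntY

open Pool.Agent.Lib.MP_44a246_nt
open Pool.Agent.Lib.MP_44a246_ntL
open Pool.Agent.Lib.MP_44a246_ntS
open Pool.Agent.Lib.MP_e52354_nt
open MvPolynomial WithZero Module

universe u v w y z

/-- **The theorem for pairs.** -/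
theorem log_mainV {r d N : ℕ} (hr : 2 ≤ r) (hd : r + 20001 * (Nat.sqrt r + 8) ≤ d) :
    ∃ c : ℕ, ∀ {κ : Type u} {K : Type v} [Field κ] [IsAlgClosed κ] [CharZero κ] [Field K]
      [CharZero K] [Algebra κ K] (_ : Cardinal.aleph0 ≤ Algebra.trdeg ℚ κ)
      {t : K} (_ : Transcendental κ t) [FiniteDimensional (IntermediateField.adjoin κ {t}) K]
      {k : Type z} [Field k] [CharZero k] [Algebra k K]
      (_ : Algebra.trdeg ℚ k < Cardinal.aleph0)
      {n : ℕ} {ι : Type y} [Finite ι] {e : ι → ℕ} (_ : ∀ i, e i ≤ N)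
      {f : ι → MvPolynomial (Fin (n + 1)) k} (_ : ∀ i, (f i).IsHomogeneous (e i))
      (_ : ringKrullDim (MvPolynomial (Fin (n + 1)) k ⧸ Ideal.span (Set.range f)) ≤
        ((r + 1 : ℕ) : WithBot ℕ∞))
      (F : MvPolynomial (Fin (n + 1)) K) (_ : F.IsHomogeneous d)
      (_ : AlgebraicIndependent k
        (fun I : {I : Fin (n + 1) →₀ ℕ // I.degree = d} => F.coeff I.1))
      (S : Finset (Place κ K)),
      ∃ (l : ℕ) (G : Fin l → MvPolynomial (Fin (n + 1)) K), (∀ i, ∃ E, (G i).IsHomogeneous E) ∧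
      ringKrullDim (MvPolynomial (Fin (n + 1)) K ⧸ Ideal.span (Set.range G)) <
        ((r + 1 : ℕ) : WithBot ℕ∞) ∧
      ∃ C : ℕ, ∀ (L : Type w) [Field L] [Algebra K L] [FiniteDimensional K L] [Algebra κ L]
        [IsScalarTower κ K L] (x : Fin (n + 1) → L), (∀ i, aeval x (map (algebraMap k K) (f i)) = 0) →
        aeval x F ≠ 0 →
        height κ x ≤ c * (trunc κ (S : Set (Place κ K)) F x + ramDeg κ L K : ℕ) +
          C * Module.finrank K L ∨
        (∀ i, aeval x (G i) = 0) ∧ ∀ φ : L →ₐ[K] AlgebraicClosure K,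
          CertLV e (vV (AlgebraicClosure K) fun i => map (algebraMap k K) (f i)) d
            (fun I => algebraMap K (AlgebraicClosure K) (F.coeff I)) (2 * (Nat.sqrt r + 2))
            (fun j => φ (x j)) := by
  obtain ⟨T, hT, hTn, hT2, hN, hd1⟩ := exists_TL hd
  refine ⟨2 * cLogV d T N, ?_⟩
  intro κ K _ _ _ _ _ _ htr t ht _ k _ _ _ hk n ι _ e he f hf hdim F hF hgen S
  have ha : AlgebraicIndependent k (fun I : ↥(expo (Fin (n + 1)) d) => F.coeff I.1) := by
    have h1 : (fun I : ↥(expo (Fin (n + 1)) d) => F.coeff I.1) =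
        (fun I : {I : Fin (n + 1) →₀ ℕ // I.degree = d} => F.coeff I.1) ∘
        (fun I : ↥(expo (Fin (n + 1)) d) => ⟨I.1, mem_expo.mp I.2⟩) := rfl
    rw [h1]
    apply hgen.comp
    rintro ⟨I, h⟩ ⟨I', h'⟩ heq
    simp only [Subtype.mk.injEq] at heq
    subst heq
    rfl
  have hK : IsFF κ K := ⟨t, ht, inferInstance⟩
  have hkc : Countable k := Pool.Agent.Lib.MP_44a246_ntU.countable_of_trdeg hk
  have hF0 : F ≠ 0 := by
    rintro rfl
    have h1 : Finsupp.single (0 : Fin (n + 1)) d ∈ expo (Fin (n + 1)) d := by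
      rw [mem_expo, Finsupp.degree_single]
    exact (AlgebraicIndependent.ne_zero ha ⟨_, h1⟩) (by simp)
  have htd : F.totalDegree = d := hF.totalDegree hF0
  obtain ⟨m, rfl⟩ : ∃ m, r = m + 2 := ⟨r - 2, by omega⟩
  obtain ⟨l, G, hG1, hG2, hG3⟩ := exists_excFormsLV (K := K)
    (m := m) (d := d) (b := 2 * T) (by linarith) hf hdim (a := fun I => F.coeff I) ha
  obtain ⟨C, hC⟩ := log_heightV.{u, v, w, v, y} hK htr hk hT hT2 hN hd1 he hf hdim
    (a := fun I => F.coeff I) ha S
  refine ⟨l, G, hG1, lt_of_le_of_lt hG2 (by exact_mod_cast (by omega : m + 2 < m + 2 + 1)), C, ?_⟩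
  intro L _ _ _ _ _ x hfx hFx
  letI : Algebra k L := ((algebraMap K L).comp (algebraMap k K)).toAlgebra
  have hskL : IsScalarTower k K L := IsScalarTower.of_algebraMap_eq fun _ => rfl
  have hfx' : ∀ i, aeval x (f i) = 0 := by
    intro i
    have h1 := hfx i
    rwa [aeval_map_algebraMap] at h1
  have hvV : (vV (AlgebraicClosure K) fun i => map (algebraMap k K) (f i)) =
      vV (AlgebraicClosure K) f := by
    funext i I
    unfold vV
    rw [coeff_map, ← IsScalarTower.algebraMap_apply k K (AlgebraicClosure K)]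
  have hFv : aeval x F = Fval d (fun I => algebraMap K L (F.coeff I)) x := aeval_eq_Fval F hF x
  have hZ : trunc κ (S : Set (Place κ K)) F x = (ZS κ (S : Set (Place κ K)) d
      (fun I => algebraMap K L (F.coeff I)) x).ncard := by
    unfold trunc ZS
    rw [hFv, htd]
  by_cases hb : height κ x ≤ 2 * cLogV d T N * ((ZS κ (S : Set (Place κ K)) d
        (fun I => algebraMap K L (F.coeff I)) x).ncard + (ramDeg κ L K : ℤ)) + C * finrank K L
  · left
    rw [hZ]
    push_cast
    exact hb
  right
  have hall : ∀ φ : L →ₐ[K] AlgebraicClosure K,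
      CertLV e (vV (AlgebraicClosure K) f) d
        (fun I => algebraMap K (AlgebraicClosure K) (F.coeff I)) (2 * T)
        (fun j => φ (x j)) := by
    intro φ
    letI : Algebra L (AlgebraicClosure K) := φ.toRingHom.toAlgebra
    have hs1 : IsScalarTower K L (AlgebraicClosure K) := IsScalarTower.of_algebraMap_eq fun y =>
      (φ.commutes y).symm
    have hs2 : IsScalarTower κ L (AlgebraicClosure K) := IsScalarTower.of_algebraMap_eq fun y => by
      rw [IsScalarTower.algebraMap_apply κ K (AlgebraicClosure K),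
        IsScalarTower.algebraMap_apply κ K L, ← IsScalarTower.algebraMap_apply K L]
    have hs3 : IsScalarTower k L (AlgebraicClosure K) := IsScalarTower.of_algebraMap_eq fun y => by
      rw [IsScalarTower.algebraMap_apply k K (AlgebraicClosure K),
        IsScalarTower.algebraMap_apply k K L, ← IsScalarTower.algebraMap_apply K L]
    have halg : Algebra.IsAlgebraic L (AlgebraicClosure K) :=
      Algebra.IsAlgebraic.tower_top (K := K) L
    rcases hC L (AlgebraicClosure K) x hfx' (by rw [← hFv]; exact hFx) with h | h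
    · exact absurd h hb
    · have h2 : (fun I => algebraMap L (AlgebraicClosure K) (algebraMap K L (F.coeff I))) =
          fun I => algebraMap K (AlgebraicClosure K) (F.coeff I) :=
        funext fun I => (IsScalarTower.algebraMap_apply K L _ _).symm
      rw [h2] at h
      exact h
  refine ⟨fun i => ?_, fun φ => ?_⟩
  · let φ : L →ₐ[K] AlgebraicClosure K := IsAlgClosed.lift
    have h5 : ∀ P : MvPolynomial (Fin (n + 1)) K,
        aeval (fun j => φ (x j)) P = φ (aeval x P) := by
      intro P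
      have h5 := congrArg (fun g => g P) (MvPolynomial.comp_aeval (R := K) (f := x) φ)
      exact h5.symm
    have hFφ : Fval d (fun I => algebraMap K (AlgebraicClosure K) (F.coeff I))
        (fun j => φ (x j)) ≠ 0 := by
      rw [← aeval_eq_Fval F hF, h5]
      exact (map_ne_zero_iff _ φ.toRingHom.injective).2 hFx
    have h3 := hG3 _ (hall φ) hFφ i
    rw [h5] at h3
    exact (map_eq_zero φ).1 h3
  · rw [hvV]
    exact (hall φ).mono (by linarith)

end Pool.Agent.Lib.MP_44a246_ntY
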